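import Mathlib

/-!
# An abstract perturbation lemma for growth rates
-/

open Filter Topology

namespace Pool.Agent.N985

set_option linter.unusedSectionVars false
set_option linter.unusedVariables false

noncomputable section

/-- positive semidefinite forms -/
structure Fm (V : Type*) [AddCommGroup V] [Module ℝ V] where
  f : V →ₗ[ℝ] V →ₗ[ℝ] ℝ
  symm : ∀ x y, f x y = f y x
  nn : ∀ x, 0 ≤ f x x

namespace Fm

variable {V : Type*} [AddCommGroup V] [Module ℝ V] (F : Fm V)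

/-- the seminorm -/
def nr (x : V) : ℝ := Real.sqrt (F.f x x)

lemma nr_nonneg (x : V) : 0 ≤ F.nr x := Real.sqrt_nonneg _

lemma nr_sq (x : V) : F.nr x ^ 2 = F.f x x := Real.sq_sqrt (F.nn x)

lemma cs (x y : V) : |F.f x y| ≤ F.nr x * F.nr y := by
  have h : F.f x y ^ 2 ≤ F.f x x * F.f y y := by
    have hq : ∀ t : ℝ, 0 ≤ F.f x x + 2 * t * F.f x y + t ^ 2 * F.f y y := by
      intro t
      have h1 := F.nn (x + t • y)
      simp only [map_add, LinearMap.add_apply, map_smul, LinearMap.smul_apply, smul_eq_mul,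
        F.symm y x] at h1
      linarith
    rcases (F.nn y).lt_or_eq with h2 | h2
    · have h3 := hq (-(F.f x y) / F.f y y)
      have h4 : F.f x x + 2 * (-(F.f x y) / F.f y y) * F.f x y +
          (-(F.f x y) / F.f y y) ^ 2 * F.f y y = F.f x x - F.f x y ^ 2 / F.f y y := by
        field_simp; ring
      rw [h4] at h3
      have h5 : F.f x y ^ 2 / F.f y y ≤ F.f x x := by linarith
      rwa [div_le_iff₀ h2] at h5
    · have h3 : F.f x y = 0 := by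
        by_contra hne
        have h4 := hq (-(F.f x x + 1) / (2 * F.f x y))
        rw [← h2] at h4
        have h5 : 2 * (-(F.f x x + 1) / (2 * F.f x y)) * F.f x y = -(F.f x x + 1) := by
          field_simp
        rw [h5] at h4
        linarith
      rw [h3, ← h2]; simp
  rw [← F.nr_sq, ← F.nr_sq, ← mul_pow] at h
  exact abs_le_of_sq_le_sq h (mul_nonneg (F.nr_nonneg _) (F.nr_nonneg _))

lemma le (x y : V) : F.f x y ≤ F.nr x * F.nr y := (le_abs_self _).trans (F.cs x y)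

lemma tri (x y : V) : F.nr (x + y) ≤ F.nr x + F.nr y := by
  have h : F.nr (x + y) ^ 2 ≤ (F.nr x + F.nr y) ^ 2 := by
    rw [F.nr_sq]
    simp only [map_add, LinearMap.add_apply, F.symm y x]
    rw [← F.nr_sq, ← F.nr_sq]
    have := F.le x y
    nlinarith
  exact (pow_le_pow_iff_left₀ (F.nr_nonneg _) (add_nonneg (F.nr_nonneg _) (F.nr_nonneg _))
    two_ne_zero).1 h

lemma nr_smul (c : ℝ) (x : V) : F.nr (c • x) = |c| * F.nr x := by
  unfold nr
  simp only [map_smul, LinearMap.smul_apply, smul_eq_mul]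
  rw [← mul_assoc, Real.sqrt_mul (mul_self_nonneg c), Real.sqrt_mul_self_eq_abs]

lemma nr_neg (x : V) : F.nr (-x) = F.nr x := by
  have := F.nr_smul (-1) x
  simpa using this

lemma tri_sub (x y : V) : F.nr (x - y) ≤ F.nr x + F.nr y := by
  rw [sub_eq_add_neg, ← F.nr_neg y]
  exact F.tri _ _

lemma nr_zero : F.nr 0 = 0 := by unfold nr; simp

end Fm

/-- limits of inequalities -/
lemma lim0 {f g : ℝ → ℝ} (hf : Continuous f) (hg : Continuous g) {e0 : ℝ} (he : 0 < e0)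
    (h : ∀ e, 0 < e → e < e0 → f e ≤ g e) : f 0 ≤ g 0 := by
  have h1 : Tendsto f (𝓝[>] 0) (𝓝 (f 0)) := (hf.tendsto 0).mono_left nhdsWithin_le_nhds
  have h2 : Tendsto g (𝓝[>] 0) (𝓝 (g 0)) := (hg.tendsto 0).mono_left nhdsWithin_le_nhds
  refine le_of_tendsto_of_tendsto h1 h2 ?_
  filter_upwards [Ioo_mem_nhdsGT he] with e hx
  exact h e hx.1 hx.2

/-- the data of the perturbation lemma -/
structure AL (V : Type*) [AddCommGroup V] [Module ℝ V] where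
  F : Fm V
  T : V →ₗ[ℝ] V
  S : V →ₗ[ℝ] V
  R : V →ₗ[ℝ] V
  P : V →ₗ[ℝ] V
  Q : Bool → V →ₗ[ℝ] V
  Qd : V →ₗ[ℝ] V
  Id : V
  K : V → Prop
  K' : V → Prop
  q : ℝ
  a : ℝ
  l : ℝ
  c : ℝ
  q0 : 0 < q
  q1 : q ≤ 1 / 10
  a0 : 0 ≤ a
  a1 : a ≤ q / 10
  l0 : 0 ≤ l
  l1 : l ≤ 1
  c0 : 0 ≤ c
  cq : (1 + c) * q ≤ l
  Ts : ∀ x y, F.f (T x) y = F.f x (T y)
  Tp : ∀ x, 0 ≤ F.f x (T x)
  Tc : ∀ x, F.nr (T x) ≤ F.nr x
  Ps : ∀ x y, F.f (P x) y = F.f x (P y)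
  PT : ∀ x, P (T x) = T (P x)
  Pp : ∀ x, 0 ≤ F.f x (P (T x))
  Ss : ∀ x y, F.f (S x) y = F.f x (S y)
  Rs : ∀ x y, F.f (R x) y = F.f x (R y)
  Pb : ∀ x y, |F.f (P x) y| ≤ a * F.nr (Qd x) * F.nr (Qd y)
  P1 : ∀ x, F.nr (P x) ≤ a * F.nr (Qd x)
  P2 : ∀ x, F.nr (P x) ≤ a * F.nr x
  Pd : ∀ x, F.nr (Qd (P x)) ≤ a * F.nr (Qd x)
  Pi : ∀ i x, F.nr (Q i (P x)) ≤ a * F.nr (Q i x)
  Td : ∀ x, F.nr (Qd (T x)) ≤ F.nr (Qd x)
  Ti : ∀ i x, F.nr (Q i (T x)) ≤ F.nr (Q i x)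
  Qc : ∀ i x, F.nr (Q i x) ≤ F.nr x
  Qdc : ∀ x, F.nr (Qd x) ≤ F.nr x
  Sc : ∀ x, F.nr (S x) ≤ F.nr x
  Si : ∀ i x, F.nr (Q i (S x)) ≤ (1 - q) * F.nr (Q i x) + q * l * F.nr x + q ^ 2 * F.nr x
  Sd : ∀ x, F.nr (Qd (S x)) ≤ (1 - q) ^ 2 * F.nr (Qd x) +
    q * l * (F.nr (Q false x) + F.nr (Q true x)) + q ^ 2 * F.nr x
  Rc : ∀ x, F.nr (R x) ≤ c * q ^ 2 * F.nr x
  Rb : ∀ x, F.f x (R x) ≤ c * q ^ 2 * (F.nr (Q false x) ^ 2 + F.nr (Q true x) ^ 2)
  KId : K Id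
  Kadd : ∀ x y, K x → K y → K (x + y)
  Ksmul : ∀ (r : ℝ) x, 0 ≤ r → K x → K (r • x)
  KT : ∀ x, K x → K (T x)
  KS : ∀ x, K x → K (S x)
  KP : ∀ x, K x → K (P x)
  KE : ∀ x, K x → K (S x + R x)
  Kp : ∀ x y, K x → K y → 0 ≤ F.f x y
  KT' : ∀ x, K' x → K' (T x)
  KS' : ∀ x, K' x → K' (S x)
  Kp' : ∀ x y, K x → K' y → 0 ≤ F.f x y
  Kd : ∀ x, K x → ∃ r : ℝ, 0 ≤ r ∧ K' (r • Id - x)

/-- log-convex sequences -/
lemma logconv' {c : ℕ → ℝ} (h0 : ∀ n, 0 ≤ c n) (hc : ∀ n, c (n + 1) ^ 2 ≤ c n * c (n + 2))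
    {C r : ℝ} (hr : 0 ≤ r) (hb : ∀ n, c n ≤ C * r ^ n) : c 1 ≤ r * c 0 := by
  by_contra hlt
  push Not at hlt
  have hc1 : 0 < c 1 := lt_of_le_of_lt (mul_nonneg hr (h0 0)) hlt
  have hc0 : 0 < c 0 := by
    rcases (h0 0).lt_or_eq with h | h
    · exact h
    · have h1 := hc 0
      rw [← h, zero_mul] at h1
      nlinarith
  obtain ⟨ρ, hρ⟩ : ∃ ρ, ρ = c 1 / c 0 := ⟨_, rfl⟩
  have hρr : r < ρ := by rw [hρ, lt_div_iff₀ hc0]; exact hlt
  have hρ0 : 0 < ρ := lt_of_le_of_lt hr hρr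
  have hstep : ∀ n, 0 < c n ∧ ρ * c n ≤ c (n + 1) := by
    intro n
    induction n with
    | zero => exact ⟨hc0, by rw [hρ, div_mul_cancel₀ _ hc0.ne']⟩
    | succ n ih =>
      obtain ⟨ih1, ih2⟩ := ih
      have hp : 0 < c (n + 1) := lt_of_lt_of_le (mul_pos hρ0 ih1) ih2
      refine ⟨hp, ?_⟩
      have h1 := hc n
      have h2 : ρ * c (n + 1) * c n ≤ c (n + 2) * c n := by nlinarith
      exact le_of_mul_le_mul_right h2 ih1
  have hgrow : ∀ n, c 0 * ρ ^ n ≤ c n := by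
    intro n
    induction n with
    | zero => simp
    | succ n ih =>
      have h1 := (hstep n).2
      rw [pow_succ]
      nlinarith
  rcases hr.lt_or_eq with hr0 | hr0
  · have h1 : ∀ n, c 0 * (ρ / r) ^ n ≤ C := by
      intro n
      have h2 := (hgrow n).trans (hb n)
      rw [div_pow, mul_div_assoc', div_le_iff₀ (by positivity)]
      exact h2
    have h3 : Tendsto (fun n : ℕ => c 0 * (ρ / r) ^ n) atTop atTop :=
      (tendsto_pow_atTop_atTop_of_one_lt (by rw [lt_div_iff₀ hr0, one_mul]; exact hρr)).const_mul_atTop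
        hc0
    obtain ⟨n, hn⟩ := (h3.eventually_gt_atTop C).exists
    exact absurd (h1 n) (not_le.2 hn)
  · have h1 := hb 1
    rw [← hr0] at h1
    simp at h1
    linarith

namespace AL

variable {V : Type*} [AddCommGroup V] [Module ℝ V] (A : AL V)

/-- the transfer operator with noise -/
def Td' : V →ₗ[ℝ] V := A.T + A.P.comp A.T

lemma Td'_apply (x : V) : A.Td' x = A.T x + A.P (A.T x) := rfl

lemma Td_s (x y : V) : A.F.f (A.Td' x) y = A.F.f x (A.Td' y) := by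
  rw [Td'_apply, Td'_apply]
  simp only [map_add, LinearMap.add_apply]
  rw [A.Ts, A.Ps, A.Ts, ← A.PT]

/-- the form with noise -/
def D : Fm V where
  f := A.F.f.compl₂ A.Td'
  symm x y := by
    show A.F.f x (A.Td' y) = A.F.f y (A.Td' x)
    rw [← A.Td_s, A.F.symm]
  nn x := by
    show 0 ≤ A.F.f x (A.Td' x)
    rw [Td'_apply, map_add]
    exact add_nonneg (A.Tp x) (A.Pp x)

lemma D_apply (x y : V) : A.D.f x y = A.F.f x (A.Td' y) := rfl

/-- the form without noise -/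
def D0 : Fm V where
  f := A.F.f.compl₂ A.T
  symm x y := by
    show A.F.f x (A.T y) = A.F.f y (A.T x)
    rw [← A.Ts, A.F.symm]
  nn x := A.Tp x

lemma D0_apply (x y : V) : A.D0.f x y = A.F.f x (A.T y) := rfl

/-- the hopping with noise -/
def Ee : V →ₗ[ℝ] V := A.S + A.R

lemma Ee_apply (x : V) : A.Ee x = A.S x + A.R x := rfl

lemma Ee_s (x y : V) : A.F.f (A.Ee x) y = A.F.f x (A.Ee y) := by
  rw [Ee_apply, Ee_apply]
  simp only [map_add, LinearMap.add_apply]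
  rw [A.Ss, A.Rs]

/-- one step with noise -/
def Kk : V →ₗ[ℝ] V := A.Ee.comp A.Td'

lemma Kk_apply (x : V) : A.Kk x = A.Ee (A.Td' x) := rfl

/-- one step without noise -/
def K0 : V →ₗ[ℝ] V := A.S.comp A.T

lemma K0_apply (x : V) : A.K0 x = A.S (A.T x) := rfl

lemma Kk_s (x y : V) : A.D.f (A.Kk x) y = A.D.f x (A.Kk y) := by
  rw [D_apply, D_apply, Kk_apply, Kk_apply, A.Ee_s, A.Td_s]

lemma K0_s (x y : V) : A.D0.f (A.K0 x) y = A.D0.f x (A.K0 y) := by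
  rw [D0_apply, D0_apply, K0_apply, K0_apply, A.Ss, A.Ts]

/-- moments with noise -/
def M (n : ℕ) : ℝ := A.D.f A.Id ((A.Kk^[n]) A.Id)

/-- moments without noise -/
def m (n : ℕ) : ℝ := A.D0.f A.Id ((A.K0^[n]) A.Id)

lemma a_le : A.a ≤ 1 / 100 := by have := A.a1; have := A.q1; linarith

lemma cq2 : A.c * A.q ^ 2 ≤ 1 / 10 := by
  have h1 := A.cq
  have h2 := A.l1
  have h3 := A.q1
  have h4 := A.q0
  have h5 := A.c0
  nlinarith

lemma cq3 : (1 + A.c) * A.q ^ 2 ≤ A.q * A.l := by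
  have h1 := A.cq
  have h4 := A.q0
  nlinarith

lemma NTd (x : V) : A.F.nr (A.Td' x) ≤ 1.01 * A.F.nr x := by
  have h1 := A.F.tri (A.T x) (A.P (A.T x))
  have h2 := A.P2 (A.T x)
  have h3 := A.Tc x
  have h4 := A.a_le
  have h5 := A.F.nr_nonneg (A.T x)
  rw [Td'_apply]
  have h6 : A.a * A.F.nr (A.T x) ≤ 1 / 100 * A.F.nr (A.T x) := mul_le_mul_of_nonneg_right h4 h5
  linarith

lemma NQd (x : V) : A.F.nr (A.Qd (A.Td' x)) ≤ (1 + A.a) * A.F.nr (A.Qd x) := by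
  rw [Td'_apply, map_add]
  have h1 := A.F.tri (A.Qd (A.T x)) (A.Qd (A.P (A.T x)))
  have h2 := A.Pd (A.T x)
  have h3 := A.Td x
  have h4 := mul_le_mul_of_nonneg_left h3 A.a0
  linarith

lemma NQi (i : Bool) (x : V) : A.F.nr (A.Q i (A.Td' x)) ≤ (1 + A.a) * A.F.nr (A.Q i x) := by
  rw [Td'_apply, map_add]
  have h1 := A.F.tri (A.Q i (A.T x)) (A.Q i (A.P (A.T x)))
  have h2 := A.Pi i (A.T x)
  have h3 := A.Ti i x
  have h4 := mul_le_mul_of_nonneg_left h3 A.a0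
  linarith

lemma DnF (x : V) : A.D.nr x ^ 2 ≤ 1.01 * A.F.nr x ^ 2 := by
  rw [A.D.nr_sq, D_apply]
  have h1 := A.F.le x (A.Td' x)
  have h2 := A.NTd x
  have h3 := A.F.nr_nonneg x
  have h4 := mul_le_mul_of_nonneg_left h2 h3
  calc _ ≤ _ := h1
    _ ≤ _ := h4
    _ = _ := by ring

lemma FnD (x : V) : A.F.nr (A.Td' x) ^ 2 ≤ 1.01 * A.D.nr x ^ 2 := by
  obtain ⟨y, hy⟩ : ∃ y, y = A.Td' x := ⟨_, rfl⟩
  have h1 : A.F.nr y ^ 2 ≤ A.D.nr x * A.D.nr y := by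
    rw [A.F.nr_sq]
    have h2 : A.F.f y y = A.D.f x y := by
      conv_lhs => rw [hy]
      rw [A.Td_s, ← hy]; rfl
    rw [h2]
    exact A.D.le x y
  have h2 := A.DnF y
  have h3 := A.F.nr_nonneg y
  have h4 := A.D.nr_nonneg x
  have h5 := A.D.nr_nonneg y
  rw [← hy]
  rcases h3.lt_or_eq with h6 | h6
  · have h7 : (A.F.nr y ^ 2) ^ 2 ≤ A.D.nr x ^ 2 * (1.01 * A.F.nr y ^ 2) := by
      calc (A.F.nr y ^ 2) ^ 2 ≤ (A.D.nr x * A.D.nr y) ^ 2 :=
            pow_le_pow_left₀ (by positivity) h1 2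
        _ = A.D.nr x ^ 2 * A.D.nr y ^ 2 := by ring
        _ ≤ _ := mul_le_mul_of_nonneg_left h2 (by positivity)
    have h8 : 0 < A.F.nr y ^ 2 := by positivity
    have h9 : A.F.nr y ^ 2 * A.F.nr y ^ 2 ≤ (1.01 * A.D.nr x ^ 2) * A.F.nr y ^ 2 := by
      nlinarith
    exact le_of_mul_le_mul_right h9 h8
  · rw [← h6, zero_pow two_ne_zero]; positivity

lemma FnD' (x : V) : A.F.nr (A.Td' x) ≤ 1.005 * A.D.nr x := by
  have h := A.FnD x
  have h1 : A.F.nr (A.Td' x) ^ 2 ≤ (1.005 * A.D.nr x) ^ 2 := by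
    rw [mul_pow]
    have := sq_nonneg (A.D.nr x)
    nlinarith
  exact (pow_le_pow_iff_left₀ (A.F.nr_nonneg _) (mul_nonneg (by norm_num) (A.D.nr_nonneg _))
    two_ne_zero).1 h1

lemma DnF' (x : V) : A.D.nr x ≤ 1.005 * A.F.nr x := by
  have h := A.DnF x
  have h1 : A.D.nr x ^ 2 ≤ (1.005 * A.F.nr x) ^ 2 := by
    rw [mul_pow]
    have := sq_nonneg (A.F.nr x)
    nlinarith
  exact (pow_le_pow_iff_left₀ (A.D.nr_nonneg _) (mul_nonneg (by norm_num) (A.F.nr_nonneg _))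
    two_ne_zero).1 h1

lemma NE (x : V) : A.F.nr (A.Ee x) ≤ 1.1 * A.F.nr x := by
  have h1 := A.F.tri (A.S x) (A.R x)
  have h2 := A.Sc x
  have h3 := A.Rc x
  have h4 := mul_le_mul_of_nonneg_right A.cq2 (A.F.nr_nonneg x)
  rw [Ee_apply]
  linarith

lemma NK (x : V) : A.F.nr (A.Kk x) ≤ 1.11 * A.D.nr x := by
  have h1 := A.NE (A.Td' x)
  have h2 := A.FnD' x
  have h3 := A.D.nr_nonneg x
  rw [Kk_apply]
  linarith

lemma DK (x : V) : A.D.nr (A.Kk x) ≤ 1.12 * A.D.nr x := by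
  have h1 := A.DnF' (A.Kk x)
  have h2 := A.NK x
  have h3 := A.D.nr_nonneg x
  linarith

/-! ### the cones -/

lemma K_Td {x : V} (h : A.K x) : A.K (A.Td' x) := A.Kadd _ _ (A.KT _ h) (A.KP _ (A.KT _ h))

lemma K_Kk {x : V} (h : A.K x) : A.K (A.Kk x) := A.KE _ (A.K_Td h)

lemma K_K0 {x : V} (h : A.K x) : A.K (A.K0 x) := A.KS _ (A.KT _ h)

lemma K'_K0 {x : V} (h : A.K' x) : A.K' (A.K0 x) := A.KS' _ (A.KT' _ h)

lemma K_it (n : ℕ) {x : V} (h : A.K x) : A.K ((A.K0^[n]) x) := by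
  induction n with
  | zero => exact h
  | succ n ih => rw [Function.iterate_succ_apply']; exact A.K_K0 ih

lemma K'_it (n : ℕ) {x : V} (h : A.K' x) : A.K' ((A.K0^[n]) x) := by
  induction n with
  | zero => exact h
  | succ n ih => rw [Function.iterate_succ_apply']; exact A.K'_K0 ih

lemma Kk_it (n : ℕ) {x : V} (h : A.K x) : A.K ((A.Kk^[n]) x) := by
  induction n with
  | zero => exact h
  | succ n ih => rw [Function.iterate_succ_apply']; exact A.K_Kk ih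

lemma D0_it (j k : ℕ) (x y : V) :
    A.D0.f ((A.K0^[j]) x) ((A.K0^[k]) y) = A.D0.f x ((A.K0^[j + k]) y) := by
  induction j generalizing k with
  | zero => simp
  | succ j ih =>
    rw [Function.iterate_succ_apply', A.K0_s, ← Function.iterate_succ_apply' (f := A.K0), ih]
    congr 2
    rw [show j + (k + 1) = j + 1 + k by omega]

lemma D_it (j k : ℕ) (x y : V) :
    A.D.f ((A.Kk^[j]) x) ((A.Kk^[k]) y) = A.D.f x ((A.Kk^[j + k]) y) := by
  induction j generalizing k with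
  | zero => simp
  | succ j ih =>
    rw [Function.iterate_succ_apply', A.Kk_s, ← Function.iterate_succ_apply' (f := A.Kk), ih]
    congr 2
    rw [show j + (k + 1) = j + 1 + k by omega]

/-- the growth of the positive vectors without noise -/
theorem growth {κ0 C0 : ℝ} (hκ : 0 ≤ κ0) (hm : ∀ n, A.m (2 * n) ≤ C0 * κ0 ^ (2 * n)) {W : V}
    (hW : A.K W) : A.D0.f W (A.K0 W) ≤ κ0 * A.D0.f W W := by
  obtain ⟨r, hr, hK⟩ := A.Kd W hW
  have hlin : ∀ (n : ℕ) (x y : V), (A.K0^[n]) (x - y) = (A.K0^[n]) x - (A.K0^[n]) y := by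
    intro n
    induction n with
    | zero => intro x y; rfl
    | succ n ih => intro x y; simp only [Function.iterate_succ_apply', ih, map_sub]
  have hlin2 : ∀ (n : ℕ) (x : V), (A.K0^[n]) (r • x) = r • (A.K0^[n]) x := by
    intro n
    induction n with
    | zero => intro x; rfl
    | succ n ih => intro x; simp only [Function.iterate_succ_apply', ih, map_smul]
  have h1 := logconv' (c := fun n => A.D0.nr ((A.K0^[n]) W) ^ 2) (fun n => sq_nonneg _)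
    (fun n => by
      have e1 : A.D0.nr ((A.K0^[n + 1]) W) ^ 2 = A.D0.f ((A.K0^[n]) W) ((A.K0^[n + 2]) W) := by
        rw [A.D0.nr_sq, A.D0_it, A.D0_it]
        congr 2
        rw [show n + 1 + (n + 1) = n + (n + 2) by omega]
      show (A.D0.nr ((A.K0^[n + 1]) W) ^ 2) ^ 2 ≤
        A.D0.nr ((A.K0^[n]) W) ^ 2 * A.D0.nr ((A.K0^[n + 2]) W) ^ 2
      rw [e1, ← mul_pow, ← sq_abs]
      exact pow_le_pow_left₀ (abs_nonneg _) (A.D0.cs _ _) 2)
    (C := r ^ 2 * C0) (r := κ0 ^ 2) (sq_nonneg _) (fun n => by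
      show A.D0.nr ((A.K0^[n]) W) ^ 2 ≤ _
      rw [A.D0.nr_sq, A.D0_it, ← two_mul]
      have e1 : 0 ≤ A.D0.f W ((A.K0^[2 * n]) (r • A.Id - W)) :=
        A.Kp' _ _ hW (A.KT' _ (A.K'_it _ hK))
      rw [hlin, hlin2, map_sub, map_smul, smul_eq_mul] at e1
      have e2 : 0 ≤ A.F.f (A.T ((A.K0^[2 * n]) A.Id)) (r • A.Id - W) :=
        A.Kp' _ _ (A.KT _ (A.K_it _ A.KId)) hK
      rw [map_sub, map_smul, smul_eq_mul] at e2
      have e3 : A.F.f (A.T ((A.K0^[2 * n]) A.Id)) A.Id = A.m (2 * n) := by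
        rw [A.F.symm]; rfl
      have e4 : A.F.f (A.T ((A.K0^[2 * n]) A.Id)) W = A.D0.f W ((A.K0^[2 * n]) A.Id) := by
        rw [A.F.symm]; rfl
      rw [e3, e4] at e2
      have e5 := mul_le_mul_of_nonneg_left (hm n) (mul_nonneg hr hr)
      have e6 : r * A.D0.f W ((A.K0^[2 * n]) A.Id) ≤ r * (r * A.m (2 * n)) :=
        mul_le_mul_of_nonneg_left (by linarith) hr
      calc _ ≤ r * A.D0.f W ((A.K0^[2 * n]) A.Id) := by linarith
        _ ≤ r * (r * A.m (2 * n)) := e6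
        _ = r * r * A.m (2 * n) := by ring
        _ ≤ _ := e5
        _ = _ := by rw [pow_mul]; ring)
  simp only [Function.iterate_one, Function.iterate_zero, id_eq] at h1
  have h2 : A.D0.nr (A.K0 W) ≤ κ0 * A.D0.nr W := by
    rw [← mul_pow] at h1
    exact (pow_le_pow_iff_left₀ (A.D0.nr_nonneg _) (mul_nonneg hκ (A.D0.nr_nonneg _))
      two_ne_zero).1 h1
  calc _ ≤ A.D0.nr W * A.D0.nr (A.K0 W) := A.D0.le _ _
    _ ≤ A.D0.nr W * (κ0 * A.D0.nr W) := mul_le_mul_of_nonneg_left h2 (A.D0.nr_nonneg _)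
    _ = κ0 * A.D0.nr W ^ 2 := by ring
    _ = _ := by rw [A.D0.nr_sq]

end AL

end

end Pool.Agent.N985
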