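import Mathlib
import Pool.Agent.N985.Al

/-!
# The abstract perturbation lemma: conclusion
-/

open Filter Topology

namespace Pool.Agent.N985

set_option linter.unusedSectionVars false
set_option linter.unusedVariables false

noncomputable section

namespace AL

variable {V : Type*} [AddCommGroup V] [Module ℝ V] (A : AL V)

/-- the concentration on the diagonal -/
def Dl : ℝ := 4 * A.l ^ 2 + (1 + A.c) * A.q

/-- the main estimate for approximate eigenvectors -/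
theorem main_est {κ κ0 : ℝ} (hκ1 : 1 - A.q / 10 ≤ κ) (hκ2 : κ ≤ 2) (hκ0 : 0 ≤ κ0)
    (hle : κ0 ≤ κ)
    (hgr : ∀ W, A.K W → A.D0.f W (A.K0 W) ≤ κ0 * A.D0.f W W) {Z : V} (hZ : A.K Z)
    (hZ1 : A.D.nr Z = 1) {e : ℝ} (he : 0 ≤ e) (he1 : A.q * e ≤ 1 / 2)
    (hr : A.D.nr (A.Kk Z - κ • Z) ≤ A.q * e) :
    (κ - κ0) * (κ - A.q * e) ^ 2 ≤ 3.4 * (A.q * e) +
      2 * A.a * (A.Dl + 2.5 * e) * ((A.Dl + 2.5 * e) + A.q * A.l * (6 * A.l + 2.8 * e) +
        1.11 * A.q ^ 2) + A.a ^ 2 * (A.Dl + 2.5 * e) ^ 2 +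
      2.1 * A.c * A.q ^ 2 * (3 * A.l + 1.4 * e) ^ 2 := by
  have q0 := A.q0
  have q1 := A.q1
  have a0 := A.a0
  have a1 := A.a1
  have l0 := A.l0
  have l1 := A.l1
  have c0 := A.c0
  have hcq := A.cq
  have hcq3 := A.cq3
  obtain ⟨W, hW⟩ : ∃ W, W = A.Kk Z := ⟨_, rfl⟩
  obtain ⟨r0, hr0⟩ : ∃ r0, r0 = A.Kk Z - κ • Z := ⟨_, rfl⟩
  obtain ⟨r, hrd⟩ : ∃ r, r = A.Kk r0 := ⟨_, rfl⟩
  rw [← hr0] at hr
  have hWK : A.K W := by rw [hW]; exact A.K_Kk hZ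
  have hWr : A.Kk W = κ • W + r := by
    rw [hrd, hr0, map_sub, map_smul, ← hW]; abel
  have hN0 := A.F.nr_nonneg
  have x0 := hN0 W
  have x1 : A.F.nr W ≤ 1.11 := by
    have := A.NK Z
    rw [hZ1, mul_one, ← hW] at this
    exact this
  have hrN : A.F.nr r ≤ 1.11 * (A.q * e) := by
    have h1 := A.NK r0
    rw [← hrd] at h1
    linarith
  have hrD : A.D.nr r ≤ 1.12 * (A.q * e) := by
    have h1 := A.DK r0
    rw [← hrd] at h1
    linarith
  obtain ⟨Y, hY⟩ : ∃ Y, Y = A.Td' W := ⟨_, rfl⟩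
  have hYN : A.F.nr Y ≤ 1.13 := by
    have h1 := A.NTd W
    rw [← hY] at h1
    linarith
  have hY0 := hN0 Y
  have hWE : A.Kk W = A.Ee Y := by rw [hY]; rfl
  -- the same line
  obtain ⟨f, hf⟩ : ∃ f : Bool → ℝ, f = fun i => A.F.nr (A.Q i W) := ⟨_, rfl⟩
  have hf0 : ∀ i, 0 ≤ f i := fun i => by rw [hf]; exact hN0 _
  have hYi : ∀ i, A.F.nr (A.Q i Y) ≤ (1 + A.a) * f i := fun i => by
    rw [hf, hY]; exact A.NQi i W
  have hYd : A.F.nr (A.Qd Y) ≤ (1 + A.a) * A.F.nr (A.Qd W) := by rw [hY]; exact A.NQd W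
  have hRY : A.F.nr (A.R Y) ≤ A.c * A.q ^ 2 * 1.13 :=
    (A.Rc Y).trans (mul_le_mul_of_nonneg_left hYN (by positivity))
  have hFi : ∀ i, f i ≤ 3 * A.l + 1.4 * e := by
    intro i
    have h1 : κ * f i = A.F.nr (A.Q i (κ • W)) := by
      rw [map_smul, A.F.nr_smul, abs_of_nonneg (by linarith : 0 ≤ κ), hf]
    have h2 : κ • W = (A.S Y + A.R Y) - r := by
      rw [← A.Ee_apply, ← hWE, hWr]; abel
    have h3 : A.F.nr (A.Q i (κ • W)) ≤ A.F.nr (A.Q i (A.S Y)) + A.F.nr (A.Q i (A.R Y)) +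
        A.F.nr (A.Q i r) := by
      rw [h2, map_sub, map_add]
      exact (A.F.tri_sub _ _).trans (add_le_add_left (A.F.tri _ _) _)
    have h4 := A.Si i Y
    have h5 := (A.Qc i (A.R Y)).trans hRY
    have h6 := (A.Qc i r).trans hrN
    have h7 := hYi i
    have h8 : (1 - A.q) * A.F.nr (A.Q i Y) ≤ (1 - A.q) * ((1 + A.a) * f i) :=
      mul_le_mul_of_nonneg_left h7 (by linarith)
    have h9 : A.q * A.l * A.F.nr Y ≤ A.q * A.l * 1.13 :=
      mul_le_mul_of_nonneg_left hYN (by positivity)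
    have h10 : A.q ^ 2 * A.F.nr Y ≤ A.q ^ 2 * 1.13 :=
      mul_le_mul_of_nonneg_left hYN (by positivity)
    have h11 : κ * f i ≤ (1 - A.q) * ((1 + A.a) * f i) + 2.26 * (A.q * A.l) +
        1.11 * (A.q * e) := by
      rw [h1]
      have : (A.q ^ 2 + A.c * A.q ^ 2) * 1.13 ≤ (A.q * A.l) * 1.13 := by nlinarith
      linarith
    have h12 : 0.8 * A.q * f i ≤ (κ - (1 - A.q) * (1 + A.a)) * f i := by
      refine mul_le_mul_of_nonneg_right ?_ (hf0 i)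
      nlinarith [mul_nonneg q0.le a0]
    have h13 : 0.8 * A.q * f i ≤ A.q * (2.26 * A.l + 1.11 * e) := by nlinarith
    have h14 : 0.8 * f i ≤ 2.26 * A.l + 1.11 * e := by
      have : A.q * (0.8 * f i) ≤ A.q * (2.26 * A.l + 1.11 * e) := by linarith
      exact le_of_mul_le_mul_left this q0
    linarith
  -- the diagonal
  obtain ⟨D, hD⟩ : ∃ D, D = A.F.nr (A.Qd W) := ⟨_, rfl⟩
  have hD0 : 0 ≤ D := by rw [hD]; exact hN0 _
  have hDd : D ≤ A.Dl + 2.5 * e := by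
    have h1 : κ * D = A.F.nr (A.Qd (κ • W)) := by
      rw [map_smul, A.F.nr_smul, abs_of_nonneg (by linarith : 0 ≤ κ), hD]
    have h2 : κ • W = (A.S Y + A.R Y) - r := by
      rw [← A.Ee_apply, ← hWE, hWr]; abel
    have h3 : A.F.nr (A.Qd (κ • W)) ≤ A.F.nr (A.Qd (A.S Y)) + A.F.nr (A.Qd (A.R Y)) +
        A.F.nr (A.Qd r) := by
      rw [h2, map_sub, map_add]
      exact (A.F.tri_sub _ _).trans (add_le_add_left (A.F.tri _ _) _)
    have h4 := A.Sd Y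
    have h5 := (A.Qdc (A.R Y)).trans hRY
    have h6 := (A.Qdc r).trans hrN
    have h7 := hYd
    rw [← hD] at h7
    have h8 : (1 - A.q) ^ 2 * A.F.nr (A.Qd Y) ≤ (1 - A.q) ^ 2 * ((1 + A.a) * D) :=
      mul_le_mul_of_nonneg_left h7 (by positivity)
    have ha : (1 + A.a) ≤ 1.01 := by linarith
    have h9 : A.F.nr (A.Q false Y) + A.F.nr (A.Q true Y) ≤ 1.01 * (6 * A.l + 2.8 * e) := by
      have e1 := (hYi false).trans (mul_le_mul ha (hFi false) (hf0 _) (by norm_num))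
      have e2 := (hYi true).trans (mul_le_mul ha (hFi true) (hf0 _) (by norm_num))
      linarith
    have h10 := mul_le_mul_of_nonneg_left h9 (mul_nonneg q0.le l0)
    have h11 : A.q ^ 2 * A.F.nr Y ≤ A.q ^ 2 * 1.13 :=
      mul_le_mul_of_nonneg_left hYN (by positivity)
    have h12 : κ * D ≤ (1 - A.q) ^ 2 * ((1 + A.a) * D) +
        A.q * A.l * (1.01 * (6 * A.l + 2.8 * e)) + (1 + A.c) * A.q ^ 2 * 1.13 +
        1.11 * (A.q * e) := by
      rw [h1]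
      linarith
    have h13 : 1.7 * A.q * D ≤ (κ - (1 - A.q) ^ 2 * (1 + A.a)) * D := by
      refine mul_le_mul_of_nonneg_right ?_ hD0
      have h14 : (1 - A.q) ^ 2 ≤ 1 := pow_le_one₀ (by linarith) (by linarith)
      have h14' := mul_le_mul_of_nonneg_right h14 a0
      have h14'' : (1 - A.q) ^ 2 * (1 + A.a) = (1 - A.q) ^ 2 + (1 - A.q) ^ 2 * A.a := by ring
      have h14a : (1 - A.q) ^ 2 = 1 - 2 * A.q + A.q * A.q := by ring
      have h14b : A.q * A.q ≤ A.q * (1 / 10) := mul_le_mul_of_nonneg_left q1 q0.le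
      rw [h14'']
      linarith
    have h14 : A.q * (1.7 * D) ≤ A.q * (A.l * (1.01 * (6 * A.l + 2.8 * e)) +
        (1 + A.c) * A.q * 1.13 + 1.11 * e) := by
      have e1 : (κ - (1 - A.q) ^ 2 * (1 + A.a)) * D =
        κ * D - (1 - A.q) ^ 2 * ((1 + A.a) * D) := by ring
      have e2 : A.q * (A.l * (1.01 * (6 * A.l + 2.8 * e)) +
        (1 + A.c) * A.q * 1.13 + 1.11 * e) = A.q * A.l * (1.01 * (6 * A.l + 2.8 * e)) +
        (1 + A.c) * A.q ^ 2 * 1.13 + 1.11 * (A.q * e) := by ring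
      have e3 : A.q * (1.7 * D) = 1.7 * A.q * D := by ring
      rw [e2, e3]
      rw [e1] at h13
      linarith
    have h15 := le_of_mul_le_mul_left h14 q0
    unfold Dl
    have h16 : A.l * e ≤ e := by nlinarith
    have h17 : 0 ≤ (1 + A.c) * A.q := by positivity
    have h18 : A.l * (1.01 * (6 * A.l + 2.8 * e)) = 6.06 * A.l ^ 2 + 2.828 * (A.l * e) := by ring
    rw [h18] at h15
    nlinarith [sq_nonneg A.l]
  -- the variational inequality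
  have hWn : A.D.nr W ≤ 3 := by
    have h1 : W = κ • Z + r0 := by rw [hr0, hW]; abel
    have h2 := A.D.tri (κ • Z) r0
    rw [A.D.nr_smul, abs_of_nonneg (by linarith : 0 ≤ κ), hZ1, ← h1] at h2
    linarith
  have hWl : κ - A.q * e ≤ A.D.nr W := by
    have h1 : κ • Z = W - r0 := by rw [hr0, hW]; abel
    have h2 := A.D.tri_sub W r0
    rw [← h1, A.D.nr_smul, abs_of_nonneg (by linarith : 0 ≤ κ), hZ1] at h2
    linarith
  have k1 : κ * A.D.nr W ^ 2 - A.D.nr W * A.D.nr r ≤ A.D.f W (A.Kk W) := by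
    rw [hWr, map_add, map_smul, smul_eq_mul, ← A.D.nr_sq]
    have := (abs_le.1 (A.D.cs W r)).1
    linarith
  obtain ⟨y, hy⟩ : ∃ y, y = A.T W := ⟨_, rfl⟩
  obtain ⟨p, hp⟩ : ∃ p, p = A.P y := ⟨_, rfl⟩
  have hYy : Y = y + p := by rw [hY, A.Td'_apply, hp, hy]
  have k2 : A.D.f W (A.Kk W) = A.F.f y (A.S y) + 2 * A.F.f p (A.S y) + A.F.f p (A.S p) +
      A.F.f Y (A.R Y) := by
    rw [A.D_apply, hWE, ← A.Td_s, ← hY, A.Ee_apply, map_add]
    have e1 : A.F.f Y (A.S Y) = A.F.f y (A.S y) + 2 * A.F.f p (A.S y) + A.F.f p (A.S p) := by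
      rw [hYy]
      simp only [map_add, LinearMap.add_apply]
      rw [← A.Ss y p, A.F.symm (A.S y) p]
      ring
    rw [e1]
  have hyd : A.F.nr (A.Qd y) ≤ D := by rw [hy, hD]; exact A.Td W
  have hyi : ∀ i, A.F.nr (A.Q i y) ≤ f i := fun i => by rw [hy, hf]; exact A.Ti i W
  have hyN : A.F.nr y ≤ 1.11 := by rw [hy]; exact (A.Tc W).trans x1
  obtain ⟨Δ, hΔ⟩ : ∃ Δ, Δ = A.Dl + 2.5 * e := ⟨_, rfl⟩
  obtain ⟨Φ, hΦ⟩ : ∃ Φ, Φ = 3 * A.l + 1.4 * e := ⟨_, rfl⟩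
  rw [← hΔ] at hDd ⊢
  rw [← hΦ] at hFi ⊢
  have hΦ0 : 0 ≤ Φ := (hf0 true).trans (hFi true)
  have hΔ0 : 0 ≤ Δ := hD0.trans hDd
  have hΦ2 : 6 * A.l + 2.8 * e = 2 * Φ := by rw [hΦ]; ring
  rw [hΦ2]
  have hdq : A.q * A.l * (A.F.nr (A.Q false y) + A.F.nr (A.Q true y)) ≤
      A.q * A.l * (2 * Φ) := by
    refine mul_le_mul_of_nonneg_left ?_ (by positivity)
    have e1 := (hyi false).trans (hFi false)
    have e2 := (hyi true).trans (hFi true)
    linarith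
  have k3 : A.F.f p (A.S y) ≤ A.a * Δ * (Δ + A.q * A.l * (2 * Φ) + 1.11 * A.q ^ 2) := by
    rw [hp]
    have e1 := (le_abs_self _).trans (A.Pb y (A.S y))
    have e2 := A.Sd y
    have e3 : (1 - A.q) ^ 2 * A.F.nr (A.Qd y) ≤ Δ := by
      have e4 : (1 - A.q) ^ 2 ≤ 1 := pow_le_one₀ (by linarith) (by linarith)
      calc _ ≤ 1 * A.F.nr (A.Qd y) := mul_le_mul_of_nonneg_right e4 (hN0 _)
        _ ≤ Δ := by linarith
    have e5 : A.q ^ 2 * A.F.nr y ≤ A.q ^ 2 * 1.11 := mul_le_mul_of_nonneg_left hyN (by positivity)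
    have e6 : A.F.nr (A.Qd (A.S y)) ≤ Δ + A.q * A.l * (2 * Φ) + 1.11 * A.q ^ 2 := by linarith
    refine e1.trans ?_
    refine mul_le_mul ?_ e6 (hN0 _) (by positivity)
    exact mul_le_mul_of_nonneg_left (hyd.trans hDd) a0
  have k4 : A.F.f p (A.S p) ≤ A.a ^ 2 * Δ ^ 2 := by
    have e1 := A.F.le p (A.S p)
    have e2 := A.Sc p
    have e3 : A.F.nr p ≤ A.a * Δ := by
      rw [hp]
      exact (A.P1 y).trans (mul_le_mul_of_nonneg_left (hyd.trans hDd) a0)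
    calc _ ≤ A.F.nr p * A.F.nr p := e1.trans (mul_le_mul_of_nonneg_left e2 (hN0 _))
      _ ≤ (A.a * Δ) * (A.a * Δ) := mul_le_mul e3 e3 (hN0 _) (by positivity)
      _ = _ := by ring
  have k5 : A.F.f Y (A.R Y) ≤ 2.1 * A.c * A.q ^ 2 * Φ ^ 2 := by
    have e1 := A.Rb Y
    have ha : (1 + A.a) ≤ 1.01 := by linarith
    have e2 : ∀ i, A.F.nr (A.Q i Y) ^ 2 ≤ 1.05 * Φ ^ 2 := by
      intro i
      have e3 := (hYi i).trans (mul_le_mul ha (hFi i) (hf0 _) (by norm_num))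
      calc _ ≤ (1.01 * Φ) ^ 2 := pow_le_pow_left₀ (hN0 _) e3 2
        _ = 1.0201 * Φ ^ 2 := by ring
        _ ≤ _ := by nlinarith [sq_nonneg Φ]
    have e3 := e2 false
    have e4 := e2 true
    refine e1.trans ?_
    calc _ ≤ A.c * A.q ^ 2 * (1.05 * Φ ^ 2 + 1.05 * Φ ^ 2) :=
          mul_le_mul_of_nonneg_left (add_le_add e3 e4) (by positivity)
      _ = _ := by ring
  have k6 : A.F.f y (A.S y) ≤ κ0 * A.D.nr W ^ 2 := by
    have e1 : A.F.f y (A.S y) = A.D0.f W (A.K0 W) := by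
      rw [A.D0_apply, A.K0_apply, ← A.Ts, hy]
    rw [e1, A.D.nr_sq]
    refine (hgr W hWK).trans (mul_le_mul_of_nonneg_left ?_ hκ0)
    rw [A.D0_apply, A.D_apply, A.Td'_apply, map_add]
    have := A.Pp W
    linarith
  have k7 : (κ - κ0) * A.D.nr W ^ 2 ≤ A.D.nr W * A.D.nr r +
      2 * (A.a * Δ * (Δ + A.q * A.l * (2 * Φ) + 1.11 * A.q ^ 2)) + A.a ^ 2 * Δ ^ 2 +
      2.1 * A.c * A.q ^ 2 * Φ ^ 2 := by
    rw [k2] at k1
    linarith
  have k8 : (κ - κ0) * (κ - A.q * e) ^ 2 ≤ (κ - κ0) * A.D.nr W ^ 2 :=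
    mul_le_mul_of_nonneg_left (pow_le_pow_left₀ (by linarith) hWl 2) (by linarith)
  have k9 : A.D.nr W * A.D.nr r ≤ 3.4 * (A.q * e) := by
    have := mul_le_mul hWn hrD (A.D.nr_nonneg _) (by norm_num : (0 : ℝ) ≤ 3)
    have h0 : 0 ≤ A.q * e := by positivity
    linarith
  linarith

/-- the error -/
def er : ℝ := 8 * A.a * A.Dl ^ 2 + 20 * A.c * A.q ^ 2 * A.l ^ 2

/-- **the growth rate with noise** -/
theorem pert {κ0 C0 : ℝ} (hκ : 1 - A.q / 10 ≤ κ0) (hκ2 : κ0 ≤ 2)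
    (hm : ∀ n, A.m (2 * n) ≤ C0 * κ0 ^ (2 * n)) (n : ℕ) :
    A.M (2 * (n + 1)) ≤ (κ0 + A.er) ^ 2 * A.M (2 * n) := by
  have q0 := A.q0
  have q1 := A.q1
  have a0 := A.a0
  have l0 := A.l0
  have l1 := A.l1
  have c0 := A.c0
  have hDl0 : 0 ≤ A.Dl := by unfold Dl; positivity
  have her0 : 0 ≤ A.er := by unfold er; positivity
  by_contra hlt
  push Not at hlt
  obtain ⟨X, hX⟩ : ∃ X : ℕ → V, X = fun k => (A.Kk^[k]) A.Id := ⟨_, rfl⟩
  have hXs : ∀ k, X (k + 1) = A.Kk (X k) := fun k => by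
    rw [hX]; exact Function.iterate_succ_apply' _ _ _
  have hXM : ∀ j k, A.D.f (X j) (X k) = A.M (j + k) := fun j k => by
    rw [hX]; exact A.D_it _ _ _ _
  have hXK : ∀ k, A.K (X k) := fun k => by rw [hX]; exact A.Kk_it k A.KId
  obtain ⟨g, hg⟩ : ∃ g : ℕ → ℝ, g = fun k => A.M (2 * k) := ⟨_, rfl⟩
  have hgX : ∀ k, g k = A.D.nr (X k) ^ 2 := fun k => by
    rw [A.D.nr_sq, hXM, hg, ← two_mul]
  have hg0 : ∀ k, 0 ≤ g k := fun k => by rw [hgX]; positivity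
  have hgc : ∀ k, g (k + 1) ^ 2 ≤ g k * g (k + 2) := by
    intro k
    have e1 : g (k + 1) = A.D.f (X k) (X (k + 2)) := by
      rw [hXM, hg]
      simp only
      rw [show k + (k + 2) = 2 * (k + 1) by omega]
    rw [hgX k, hgX (k + 2), e1, ← mul_pow, ← sq_abs]
    exact pow_le_pow_left₀ (abs_nonneg _) (A.D.cs _ _) 2
  have hgb : ∀ k, g (k + 1) ≤ 1.3 * g k := by
    intro k
    rw [hgX, hgX, hXs]
    have h1 := pow_le_pow_left₀ (A.D.nr_nonneg _) (A.DK (X k)) 2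
    have h2 := sq_nonneg (A.D.nr (X k))
    nlinarith
  have hlt' : (κ0 + A.er) ^ 2 * g n < g (n + 1) := by rw [hg]; exact hlt
  have hgn : 0 < g n := by
    rcases (hg0 n).lt_or_eq with h | h
    · exact h
    · have h1 := hgb n
      rw [← h] at h1 hlt'
      linarith
  -- the ratios
  have hpos : ∀ k, 0 < g (n + k) ∧ (κ0 + A.er) ^ 2 * g (n + k) < g (n + k + 1) ∧
      g (n + k + 1) * g (n + k + 1) ≤ g (n + k) * g (n + k + 2) := by
    intro k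
    induction k with
    | zero =>
      refine ⟨hgn, hlt', ?_⟩
      have := hgc n
      rw [pow_two] at this
      exact this
    | succ k ih =>
      obtain ⟨i1, i2, i3⟩ := ih
      have hsq : 0 ≤ (κ0 + A.er) ^ 2 := sq_nonneg _
      have h1 : 0 < g (n + k + 1) := lt_of_le_of_lt (mul_nonneg hsq i1.le) i2
      have h2 : (κ0 + A.er) ^ 2 * g (n + k + 1) < g (n + k + 2) := by
        have h3 : (κ0 + A.er) ^ 2 * g (n + k) * g (n + k + 1) < g (n + k + 1) * g (n + k + 1) :=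
          mul_lt_mul_of_pos_right i2 h1
        have h4 : g (n + k) * ((κ0 + A.er) ^ 2 * g (n + k + 1)) < g (n + k) * g (n + k + 2) := by
          linarith
        exact lt_of_mul_lt_mul_left h4 i1.le
      refine ⟨h1, h2, ?_⟩
      have := hgc (n + k + 1)
      rw [pow_two] at this
      exact this
  obtain ⟨ρ, hρ⟩ : ∃ ρ : ℕ → ℝ, ρ = fun k => g (n + k + 1) / g (n + k) := ⟨_, rfl⟩
  have hρm : Monotone ρ := by
    refine monotone_nat_of_le_succ fun k => ?_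
    rw [hρ]
    obtain ⟨i1, i2, i3⟩ := hpos k
    obtain ⟨j1, j2, j3⟩ := hpos (k + 1)
    show g (n + k + 1) / g (n + k) ≤ g (n + (k + 1) + 1) / g (n + (k + 1))
    rw [div_le_div_iff₀ i1 j1]
    have e : n + (k + 1) + 1 = n + k + 2 := by omega
    have e' : n + (k + 1) = n + k + 1 := by omega
    rw [e, e']
    linarith
  have hρb : ∀ k, ρ k ≤ 1.3 := by
    intro k
    rw [hρ]
    show g (n + k + 1) / g (n + k) ≤ 1.3
    rw [div_le_iff₀ (hpos k).1]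
    exact hgb _
  have hρl : ∀ k, (κ0 + A.er) ^ 2 < ρ k := by
    intro k
    rw [hρ]
    show _ < g (n + k + 1) / g (n + k)
    rw [lt_div_iff₀ (hpos k).1]
    exact (hpos k).2.1
  obtain ⟨Λ, hΛ⟩ : ∃ Λ, Tendsto ρ atTop (𝓝 Λ) :=
    ⟨_, tendsto_atTop_ciSup hρm ⟨1.3, fun y ⟨k, hk⟩ => hk ▸ hρb k⟩⟩
  have hΛ1 : ∀ k, ρ k ≤ Λ := fun k => hρm.ge_of_tendsto hΛ k
  have hΛ2 : Λ ≤ 1.3 := le_of_tendsto' hΛ hρb
  have hΛ3 : (κ0 + A.er) ^ 2 < Λ := lt_of_lt_of_le (hρl 0) (hΛ1 0)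
  have hΛ0 : 0 ≤ Λ := (sq_nonneg _).trans hΛ3.le
  obtain ⟨κ, hκd⟩ : ∃ κ, κ = Real.sqrt Λ := ⟨_, rfl⟩
  have hκsq : κ ^ 2 = Λ := by rw [hκd, Real.sq_sqrt hΛ0]
  have hκ00 : 0 ≤ κ := by rw [hκd]; exact Real.sqrt_nonneg _
  have hκgt : κ0 + A.er < κ := by
    rw [← hκsq] at hΛ3
    exact lt_of_pow_lt_pow_left₀ 2 hκ00 hΛ3
  have hκle : κ ≤ 2 := by
    by_contra h
    push Not at h
    nlinarith
  have hκge : 1 - A.q / 10 ≤ κ := by linarith
  have hκp : 0 < κ := by linarith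
  have hκ0n : 0 ≤ κ0 := by linarith
  have hgr : ∀ W, A.K W → A.D0.f W (A.K0 W) ≤ κ0 * A.D0.f W W := fun W hW =>
    A.growth hκ0n hm hW
  -- approximate eigenvectors
  have happ : ∀ ε : ℝ, 0 < ε → ∃ Z, A.K Z ∧ A.D.nr Z = 1 ∧ A.D.nr (A.Kk Z - κ • Z) ≤ ε := by
    intro ε hε
    have hlim : Tendsto (fun k => ρ (k + 1) * ρ k - 2 * κ ^ 2 * ρ k + κ ^ 4) atTop (𝓝 0) := by
      have h1 := (((hΛ.comp (tendsto_add_atTop_nat 1)).mul hΛ).sub
        (hΛ.const_mul (2 * κ ^ 2))).add_const (κ ^ 4)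
      have h2 : Λ * Λ - 2 * κ ^ 2 * Λ + κ ^ 4 = 0 := by rw [← hκsq]; ring
      rw [h2] at h1
      exact h1
    obtain ⟨k, hk⟩ := (hlim.eventually_lt_const (show (0 : ℝ) < ε ^ 2 * κ ^ 2 by positivity)).exists
    obtain ⟨i1, i2, i3⟩ := hpos k
    have j1 := (hpos (k + 1)).1
    obtain ⟨Z0, hZ0⟩ : ∃ Z0, Z0 = X (n + k + 1) + κ • X (n + k) := ⟨_, rfl⟩
    have hZK : A.K Z0 := by
      rw [hZ0]; exact A.Kadd _ _ (hXK _) (A.Ksmul _ _ hκ00 (hXK _))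
    have hZn : κ ^ 2 * g (n + k) ≤ A.D.nr Z0 ^ 2 := by
      rw [A.D.nr_sq, hZ0]
      simp only [map_add, LinearMap.add_apply, map_smul, LinearMap.smul_apply, smul_eq_mul]
      rw [A.D.symm (X (n + k)) (X (n + k + 1))]
      have h1 : 0 ≤ A.D.f (X (n + k + 1)) (X (n + k)) :=
        A.Kp _ _ (hXK _) (A.K_Td (hXK _))
      have h2 := A.D.nn (X (n + k + 1))
      have h3 : A.D.f (X (n + k)) (X (n + k)) = g (n + k) := by rw [hgX, A.D.nr_sq]
      rw [h3]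
      have h4 := mul_nonneg hκ00 h1
      nlinarith
    have hZr : A.D.nr (A.Kk Z0 - κ • Z0) ^ 2 =
        g (n + k) * (ρ (k + 1) * ρ k - 2 * κ ^ 2 * ρ k + κ ^ 4) := by
      have e1 : A.Kk Z0 - κ • Z0 = X (n + k + 2) - (κ ^ 2) • X (n + k) := by
        rw [hZ0, map_add, map_smul, ← hXs, ← hXs, smul_add, smul_smul, ← pow_two]
        abel
      rw [e1, A.D.nr_sq]
      simp only [map_sub, LinearMap.sub_apply, map_smul, LinearMap.smul_apply, smul_eq_mul]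
      rw [hXM, hXM, hXM, hXM]
      have e2 : A.M (n + k + 2 + (n + k + 2)) = g (n + k + 2) := by
        rw [hg, show n + k + 2 + (n + k + 2) = 2 * (n + k + 2) by omega]
      have e3 : A.M (n + k + (n + k + 2)) = g (n + k + 1) := by
        rw [hg, show n + k + (n + k + 2) = 2 * (n + k + 1) by omega]
      have e4 : A.M (n + k + 2 + (n + k)) = g (n + k + 1) := by
        rw [hg, show n + k + 2 + (n + k) = 2 * (n + k + 1) by omega]
      have e5 : A.M (n + k + (n + k)) = g (n + k) := by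
        rw [hg, show n + k + (n + k) = 2 * (n + k) by omega]
      rw [e2, e3, e4, e5]
      have r1 : g (n + k + 1) = ρ k * g (n + k) := by
        rw [hρ]; field_simp
      have r2 : g (n + k + 2) = ρ (k + 1) * g (n + k + 1) := by
        rw [hρ]
        show g (n + k + 2) = g (n + (k + 1) + 1) / g (n + (k + 1)) * g (n + k + 1)
        have : n + (k + 1) = n + k + 1 := by omega
        rw [this]
        rw [this] at j1
        field_simp
      rw [r2, r1]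
      ring
    have hZp : 0 < A.D.nr Z0 := by
      have h1 : 0 < κ ^ 2 * g (n + k) := by positivity
      have h2 := lt_of_lt_of_le h1 hZn
      by_contra h3
      have h4 : A.D.nr Z0 = 0 := le_antisymm (not_lt.1 h3) (A.D.nr_nonneg _)
      rw [h4] at h2
      simp at h2
    refine ⟨(A.D.nr Z0)⁻¹ • Z0, A.Ksmul _ _ (by positivity) hZK, ?_, ?_⟩
    · rw [A.D.nr_smul, abs_of_pos (by positivity), inv_mul_cancel₀ hZp.ne']
    · have e1 : A.Kk ((A.D.nr Z0)⁻¹ • Z0) - κ • (A.D.nr Z0)⁻¹ • Z0 =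
          (A.D.nr Z0)⁻¹ • (A.Kk Z0 - κ • Z0) := by
        rw [map_smul, smul_sub, smul_comm κ]
      rw [e1, A.D.nr_smul, abs_of_pos (by positivity), inv_mul_le_iff₀ hZp]
      refine (pow_le_pow_iff_left₀ (A.D.nr_nonneg _) (by positivity) two_ne_zero).1 ?_
      rw [hZr, mul_pow]
      calc _ ≤ g (n + k) * (ε ^ 2 * κ ^ 2) := mul_le_mul_of_nonneg_left hk.le i1.le
        _ = (κ ^ 2 * g (n + k)) * ε ^ 2 := by ring
        _ ≤ _ := mul_le_mul_of_nonneg_right hZn (by positivity)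
  -- the limit
  have hfin := lim0 (f := fun e : ℝ => (κ - κ0) * (κ - A.q * e) ^ 2)
    (g := fun e : ℝ => 3.4 * (A.q * e) +
      2 * A.a * (A.Dl + 2.5 * e) * ((A.Dl + 2.5 * e) + A.q * A.l * (6 * A.l + 2.8 * e) +
        1.11 * A.q ^ 2) + A.a ^ 2 * (A.Dl + 2.5 * e) ^ 2 +
      2.1 * A.c * A.q ^ 2 * (3 * A.l + 1.4 * e) ^ 2) (by fun_prop) (by fun_prop) (e0 := 1)
    one_pos (fun e he0 he1 => by
      obtain ⟨Z, z1, z2, z3⟩ := happ (A.q * e) (by positivity)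
      exact A.main_est hκge hκle hκ0n (by linarith) hgr z1 z2 he0.le (by nlinarith) z3)
  simp only [mul_zero, sub_zero, add_zero, zero_add] at hfin
  have h1 : A.q * A.l * (6 * A.l) + 1.11 * A.q ^ 2 ≤ A.Dl := by
    unfold Dl
    have h2 : 0 ≤ A.l ^ 2 := sq_nonneg _
    have h3 : A.q * A.l * (6 * A.l) = 6 * A.q * A.l ^ 2 := by ring
    rw [h3]
    have h4 : 6 * A.q * A.l ^ 2 ≤ 4 * A.l ^ 2 := by nlinarith
    have h5 : 1.11 * A.q ^ 2 ≤ (1 + A.c) * A.q := by nlinarith [mul_nonneg c0 q0.le]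
    linarith
  have h2 : 2 * A.a * A.Dl * (A.Dl + A.q * A.l * (6 * A.l) + 1.11 * A.q ^ 2) ≤
      4 * A.a * A.Dl ^ 2 := by
    have h3 : A.Dl + A.q * A.l * (6 * A.l) + 1.11 * A.q ^ 2 ≤ 2 * A.Dl := by linarith
    have h4 := mul_le_mul_of_nonneg_left h3 (show 0 ≤ 2 * A.a * A.Dl by positivity)
    linarith
  have h3 : A.a ^ 2 * A.Dl ^ 2 ≤ A.a * A.Dl ^ 2 := by
    have h4 := A.a_le
    have h5 : A.a ^ 2 ≤ A.a := by nlinarith
    exact mul_le_mul_of_nonneg_right h5 (sq_nonneg _)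
  have h4 : 0.98 ≤ κ ^ 2 := by nlinarith
  have h5 : (κ - κ0) * 0.98 ≤ (κ - κ0) * κ ^ 2 := mul_le_mul_of_nonneg_left h4 (by linarith)
  have h6 : 2.1 * A.c * A.q ^ 2 * (3 * A.l) ^ 2 = 18.9 * (A.c * A.q ^ 2 * A.l ^ 2) := by ring
  rw [h6] at hfin
  have h7 : 0 ≤ A.a * A.Dl ^ 2 := by positivity
  have h8 : 0 ≤ A.c * A.q ^ 2 * A.l ^ 2 := by positivity
  have h9 : A.er = 8 * (A.a * A.Dl ^ 2) + 20 * (A.c * A.q ^ 2 * A.l ^ 2) := by unfold er; ring
  rw [h9] at hκgt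
  linarith

end AL

end

end Pool.Agent.N985
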