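import Mathlib
import Pool.Agent.Y14.NoiseRP

/-!
# The multiplicative noise inequality
-/

open MeasureTheory Matrix Filter
open scoped Matrix.Norms.Frobenius ContDiff Topology
open Pool.Agent.H906R3.YM Pool.Agent.W793.YM Pool.Agent.Y14

namespace Pool.Agent.N985

set_option linter.unusedSectionVars false
set_option linter.unusedVariables false

noncomputable section

section multi

variable {ι : Type*} [Fintype ι] [DecidableEq ι]

/-- partial sums -/
def Pht (t β : ℝ) (P : (ι → ℝ) → ℝ) (L : ℕ) (x y : ι → ℝ) : ℝ :=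
  ∑ n ∈ Fintype.piFinset fun _ : ι => Finset.range L,
    (t * al β P n x - ga β P n x) * (t * al β P n y - ga β P n y)

/-- the limit of the partial sums -/
theorem Pht_tendsto {β δ : ℝ} (hβ : 0 < β) (hδ : δ ^ 2 = 1 / β) {P : (ι → ℝ) → ℝ} (hP : MA P)
    (t : ℝ) (x y : ι → ℝ) : Tendsto (fun L => Pht t β P L x y) atTop
      (𝓝 (Real.exp (β * ∑ i, x i * y i) * (t ^ 2 * (P x * P y) - t * P x ^ 2 - t * P y ^ 2 +
        av (fun s => P (x + sg δ s) * P (y + sg δ s))))) := by
  obtain ⟨K, hK⟩ : ∃ K, K = Real.exp (β * ∑ i, x i * y i) := ⟨_, rfl⟩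
  have hKp : ∏ i, Real.exp (β * (x i * y i)) = K := by
    rw [hK, ← Real.exp_sum, Finset.mul_sum]
  have t00 : Tendsto (fun L : ℕ => ∑ n ∈ Fintype.piFinset fun _ : ι => Finset.range L,
      al β P n x * al β P n y) atTop (𝓝 (K * (P x * P y))) := by
    have h := (tend_prod fun i => h00 hβ (x i) (y i)).const_mul (P x * P y)
    rw [hKp] at h
    rw [mul_comm K]
    refine h.congr fun L => ?_
    rw [Finset.mul_sum]
    refine Finset.sum_congr rfl fun n _ => ?_
    unfold al
    rw [Finset.prod_mul_distrib]; ring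
  have t01 : ∀ x y : ι → ℝ, (∏ i, Real.exp (β * (x i * y i)) = K) →
      Tendsto (fun L : ℕ => ∑ n ∈ Fintype.piFinset fun _ : ι => Finset.range L,
      al β P n x * ga β P n y) atTop (𝓝 (K * P x ^ 2)) := by
    intro x y hKp
    have h := tendsto_finsetSum (Finset.univ : Finset (Finset ι)) (fun T _ =>
      (tend_prod fun i => hs0 hβ (decide (i ∈ T)) (x i) (y i)).const_mul (P x * P (vx T)))
    have e : ∑ T : Finset ι, P x * P (vx T) *
        ∏ i, (ls (decide (i ∈ T)) (x i) * Real.exp (β * (x i * y i))) = K * P x ^ 2 := by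
      have e0 : K * P x ^ 2 = (K * P x) * P x := by ring
      have e1 : (K * P x) * P x = (K * P x) * ∑ T : Finset ι, P (vx T) *
          ∏ i, ls (decide (i ∈ T)) (x i) := by rw [← ma_expand hP x]
      rw [e0, e1, Finset.mul_sum]
      refine Finset.sum_congr rfl fun T _ => ?_
      rw [Finset.prod_mul_distrib, hKp]; ring
    rw [e] at h
    refine h.congr fun L => ?_
    have e2 : ∀ n : ι → ℕ, al β P n x * ga β P n y = ∑ T : Finset ι, P x * P (vx T) *
        ∏ i, (cc β (n i) (x i) * cs β (decide (i ∈ T)) (n i) (y i)) := by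
      intro n
      unfold al ga
      rw [Finset.mul_sum]
      refine Finset.sum_congr rfl fun T _ => ?_
      rw [Finset.prod_mul_distrib]; ring
    simp only [e2]
    rw [Finset.sum_comm]
    refine Finset.sum_congr rfl fun T _ => ?_
    rw [Finset.mul_sum]
  have t11 : Tendsto (fun L : ℕ => ∑ n ∈ Fintype.piFinset fun _ : ι => Finset.range L,
      ga β P n x * ga β P n y) atTop
      (𝓝 (K * av (fun s => P (x + sg δ s) * P (y + sg δ s)))) := by
    have h := tendsto_finsetSum (Finset.univ : Finset (Finset ι)) (fun T _ =>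
      tendsto_finsetSum (Finset.univ : Finset (Finset ι)) (fun T' _ =>
      (tend_prod fun i => hs1 hβ hδ (decide (i ∈ T)) (decide (i ∈ T')) (x i) (y i)).const_mul
        (P (vx T) * P (vx T'))))
    have e : ∑ T : Finset ι, ∑ T' : Finset ι, P (vx T) * P (vx T') *
        ∏ i, (Real.exp (β * (x i * y i)) *
          ((ls (decide (i ∈ T)) (y i + δ) * ls (decide (i ∈ T')) (x i + δ) +
            ls (decide (i ∈ T)) (y i - δ) * ls (decide (i ∈ T')) (x i - δ)) / 2)) =
        K * av (fun s => P (x + sg δ s) * P (y + sg δ s)) := by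
      have e1 : ∀ s : ι → Bool, P (x + sg δ s) * P (y + sg δ s) =
          ∑ T : Finset ι, ∑ T' : Finset ι, P (vx T) * P (vx T') *
            ∏ i, (ls (decide (i ∈ T)) ((y + sg δ s : ι → ℝ) i) *
              ls (decide (i ∈ T')) ((x + sg δ s : ι → ℝ) i)) := by
        intro s
        rw [mul_comm, ma_expand hP (y + sg δ s), ma_expand hP (x + sg δ s), Finset.sum_mul_sum]
        refine Finset.sum_congr rfl fun T _ => Finset.sum_congr rfl fun T' _ => ?_
        rw [Finset.prod_mul_distrib]; ring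
      simp only [e1]
      rw [av_sum, Finset.mul_sum]
      refine Finset.sum_congr rfl fun T _ => ?_
      rw [av_sum, Finset.mul_sum]
      refine Finset.sum_congr rfl fun T' _ => ?_
      rw [av_smul]
      have e2 := av_prod (ι := ι) (fun i b =>
        ls (decide (i ∈ T)) (y i + if b then δ else -δ) *
          ls (decide (i ∈ T')) (x i + if b then δ else -δ))
      have e3 : ∀ s : ι → Bool, ∏ i, (ls (decide (i ∈ T)) ((y + sg δ s : ι → ℝ) i) *
          ls (decide (i ∈ T')) ((x + sg δ s : ι → ℝ) i)) = ∏ i, (fun (i : ι) (b : Bool) =>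
        ls (decide (i ∈ T)) (y i + if b then δ else -δ) *
          ls (decide (i ∈ T')) (x i + if b then δ else -δ)) i (s i) := fun s => rfl
      simp only [e3]
      rw [e2, Finset.prod_mul_distrib, hKp]
      simp only [if_true, Bool.false_eq_true, if_false, ← sub_eq_add_neg]
      ring
    rw [e] at h
    refine h.congr fun L => ?_
    have e2 : ∀ n : ι → ℕ, ga β P n x * ga β P n y = ∑ T : Finset ι, ∑ T' : Finset ι,
        P (vx T) * P (vx T') *
        ∏ i, (cs β (decide (i ∈ T)) (n i) (x i) * cs β (decide (i ∈ T')) (n i) (y i)) := by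
      intro n
      unfold ga
      rw [Finset.sum_mul_sum]
      refine Finset.sum_congr rfl fun T _ => Finset.sum_congr rfl fun T' _ => ?_
      rw [Finset.prod_mul_distrib]; ring
    simp only [e2]
    symm
    rw [Finset.sum_comm]
    refine Finset.sum_congr rfl fun T _ => ?_
    rw [Finset.sum_comm]
    refine Finset.sum_congr rfl fun T' _ => ?_
    rw [Finset.mul_sum]
  have hKp' : ∏ i, Real.exp (β * (y i * x i)) = K := by
    rw [← hKp]
    exact Finset.prod_congr rfl fun i _ => by rw [mul_comm (y i)]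
  have h := (((t00.const_mul (t ^ 2)).sub ((t01 x y hKp).const_mul t)).sub
    ((t01 y x hKp').const_mul t)).add t11
  have e : t ^ 2 * (K * (P x * P y)) - t * (K * P x ^ 2) - t * (K * P y ^ 2) +
      K * av (fun s => P (x + sg δ s) * P (y + sg δ s)) =
      K * (t ^ 2 * (P x * P y) - t * P x ^ 2 - t * P y ^ 2 +
        av (fun s => P (x + sg δ s) * P (y + sg δ s))) := by
    ring
  rw [e] at h
  rw [← hK]
  refine h.congr fun L => ?_
  unfold Pht
  rw [Finset.mul_sum, Finset.mul_sum, Finset.mul_sum, ← Finset.sum_sub_distrib,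
    ← Finset.sum_sub_distrib, ← Finset.sum_add_distrib]
  refine Finset.sum_congr rfl fun n _ => ?_
  ring

theorem Pht_bound {β : ℝ} (hβ : 0 < β) {P : (ι → ℝ) → ℝ} (hP : MA P) (t : ℝ) {M : ℝ}
    (hM : 0 ≤ M) : ∃ C : ℝ, ∀ (L : ℕ) (x y : ι → ℝ), (∀ i, |x i| ≤ M) → (∀ i, |y i| ≤ M) →
      |Pht t β P L x y| ≤ C := by
  obtain ⟨B, hB, hB1, hB2⟩ := ma_le hP hM
  obtain ⟨S, hS, hS1⟩ := gg_sum hβ hM
  have key : ∀ (n : ι → ℕ) (x : ι → ℝ), (∀ i, |x i| ≤ M) →
      |t * al β P n x - ga β P n x| ≤ (|t| + 1) * B * ∏ i, gg β M (n i) := by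
    intro n x hx
    have h0 : 0 ≤ ∏ i, gg β M (n i) := Finset.prod_nonneg fun i _ => gg_nonneg hβ hM _
    have h1 : |al β P n x| ≤ B * ∏ i, gg β M (n i) := by
      unfold al
      rw [abs_mul, Finset.abs_prod]
      exact mul_le_mul (hB2 x hx) (Finset.prod_le_prod (fun i _ => abs_nonneg _)
        fun i _ => cc_le hβ (hx i) _) (Finset.prod_nonneg fun _ _ => abs_nonneg _) hB
    have h2 : |ga β P n x| ≤ B * ∏ i, gg β M (n i) := by
      unfold ga
      refine (Finset.abs_sum_le_sum_abs _ _).trans ?_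
      refine le_trans ?_ (mul_le_mul_of_nonneg_right hB1 h0)
      rw [Finset.sum_mul]
      refine Finset.sum_le_sum fun T _ => ?_
      rw [abs_mul, Finset.abs_prod]
      exact mul_le_mul_of_nonneg_left (Finset.prod_le_prod (fun i _ => abs_nonneg _)
        fun i _ => cs_le hβ (hx i) _ _) (abs_nonneg _)
    refine (abs_sub _ _).trans ?_
    rw [abs_mul]
    have h3 := mul_le_mul_of_nonneg_left h1 (abs_nonneg t)
    linarith
  refine ⟨((|t| + 1) * B) ^ 2 * S ^ Fintype.card ι, fun L x y hx hy => ?_⟩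
  unfold Pht
  refine (Finset.abs_sum_le_sum_abs _ _).trans ?_
  have h1 : ∑ n ∈ Fintype.piFinset fun _ : ι => Finset.range L,
      |(t * al β P n x - ga β P n x) * (t * al β P n y - ga β P n y)| ≤
      ∑ n ∈ Fintype.piFinset fun _ : ι => Finset.range L,
        ((|t| + 1) * B) ^ 2 * ∏ i, gg β M (n i) ^ 2 := by
    refine Finset.sum_le_sum fun n _ => ?_
    rw [abs_mul]
    refine (mul_le_mul (key n x hx) (key n y hy) (abs_nonneg _)
      ((abs_nonneg _).trans (key n x hx))).trans (le_of_eq ?_)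
    rw [Finset.prod_pow]; ring
  refine h1.trans ?_
  rw [← Finset.mul_sum, box_sum L (fun _ k => gg β M k ^ 2)]
  refine mul_le_mul_of_nonneg_left ?_ (by positivity)
  refine (Finset.prod_le_prod (fun i _ => Finset.sum_nonneg fun _ _ => sq_nonneg _)
    fun i _ => hS1 L).trans ?_
  rw [Finset.prod_const, Finset.card_univ]

end multi

variable {E : Type*} [Fintype E] [DecidableEq E] {G : Type*} [Group G] [TopologicalSpace G]
  [IsTopologicalGroup G] [CompactSpace G] [SecondCountableTopology G] [MeasurableSpace G]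
  [BorelSpace G] (μ : Measure G) [IsProbabilityMeasure μ] [μ.IsMulLeftInvariant]
  [μ.IsMulRightInvariant] [μ.IsInvInvariant] {N n : ℕ} {L : LD G N n} (T : Refl E)

/-- the basic inequality -/
theorem noise_pos {β δ : ℝ} (hβ : 0 < β) (hδ : δ ^ 2 = 1 / β) {P : (Ix T N → ℝ) → ℝ}
    (hP : MA P) (t : ℝ) {w : (E → G) → ℝ} (hw : Continuous w) (hd : Dep T.R w) :
    0 ≤ T.Ew μ L β w (fun U => t ^ 2 * (P (cv L T U) * P (cv L T (T.tU U))) -
      t * P (cv L T U) ^ 2 - t * P (cv L T (T.tU U)) ^ 2 + av (fun s => P (cv L T U + sg δ s) *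
        P (cv L T (T.tU U) + sg δ s))) := by
  obtain ⟨C, hC⟩ := Pht_bound hβ hP t (Nat.cast_nonneg N : (0 : ℝ) ≤ N)
  obtain ⟨B, hB⟩ : ∃ B, ∀ U, |w U| ≤ B := by
    obtain ⟨B, hB⟩ := (isCompact_univ.image hw.norm).bddAbove
    exact ⟨B, fun U => hB ⟨U, trivial, rfl⟩⟩
  have hB0 : 0 ≤ B := (abs_nonneg _).trans (hB 1)
  have hF : ∀ n : Ix T N → ℕ, Continuous fun U : E → G =>
      w U * (t * al β P n (cv L T U) - ga β P n (cv L T U)) := fun n =>
    hw.mul ((continuous_const.mul ((al_cont hP n).comp (cv_cont T))).sub ((ga_cont n).comp (cv_cont T)))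
  have h1 : ∀ k : ℕ, 0 ≤ ∫ U, w U * w (T.tU U) * Pht t β P k (cv L T U) (cv L T (T.tU U))
      ∂(ME μ E) := by
    intro k
    have e : ∀ U : E → G, w U * w (T.tU U) * Pht t β P k (cv L T U) (cv L T (T.tU U)) =
        ∑ n ∈ Fintype.piFinset fun _ : Ix T N => Finset.range k,
          (w U * (t * al β P n (cv L T U) - ga β P n (cv L T U))) *
          (w (T.tU U) * (t * al β P n (cv L T (T.tU U)) - ga β P n (cv L T (T.tU U)))) := by
      intro U
      unfold Pht
      rw [Finset.mul_sum]
      exact Finset.sum_congr rfl fun n _ => by ring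
    simp only [e]
    have hi : ∀ n ∈ Fintype.piFinset fun _ : Ix T N => Finset.range k,
        Integrable (fun U : E → G => (w U * (t * al β P n (cv L T U) - ga β P n (cv L T U))) *
          (w (T.tU U) * (t * al β P n (cv L T (T.tU U)) - ga β P n (cv L T (T.tU U)))))
          (ME μ E) := fun n _ => integrable_cont μ ((hF n).mul ((hF n).comp T.tU_cont))
    rw [integral_finsetSum _ hi]
    refine Finset.sum_nonneg fun n _ => ?_
    have h2 := T.sq μ (A := fun U : E → G => w U * (t * al β P n (cv L T U) - ga β P n (cv L T U)))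
      (fun U U' h => by
        show w U * _ = w U' * _
        rw [hd U U' h, cv_dep T U U' h])
    rw [h2]
    exact sq_nonneg _
  have hlim : Tendsto (fun k : ℕ => ∫ U, w U * w (T.tU U) *
      Pht t β P k (cv L T U) (cv L T (T.tU U)) ∂(ME μ E)) atTop
      (𝓝 (T.Ew μ L β w (fun U => t ^ 2 * (P (cv L T U) * P (cv L T (T.tU U))) - t * P (cv L T U) ^ 2 -
      t * P (cv L T (T.tU U)) ^ 2 + av (fun s => P (cv L T U + sg δ s) *
        P (cv L T (T.tU U) + sg δ s))))) := by
    unfold Refl.Ew
    refine tendsto_integral_of_dominated_convergence (fun _ => B * B * |C|) (fun k => ?_)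
      (integrable_const _) (fun k => Filter.Eventually.of_forall fun U => ?_)
      (Filter.Eventually.of_forall fun U => ?_)
    · refine Continuous.aestronglyMeasurable ?_
      refine (hw.mul (hw.comp T.tU_cont)).mul ?_
      unfold Pht
      exact continuous_finsetSum _ fun n _ =>
        ((continuous_const.mul ((al_cont hP n).comp (cv_cont T))).sub
        ((ga_cont n).comp (cv_cont T))).mul
        ((continuous_const.mul ((al_cont hP n).comp ((cv_cont T).comp T.tU_cont))).sub
        ((ga_cont n).comp ((cv_cont T).comp T.tU_cont)))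
    · rw [norm_mul, norm_mul, Real.norm_eq_abs, Real.norm_eq_abs, Real.norm_eq_abs]
      refine mul_le_mul (mul_le_mul (hB _) (hB _) (abs_nonneg _) hB0) ?_ (abs_nonneg _)
        (mul_nonneg hB0 hB0)
      exact (hC k _ _ (cv_le T U) (cv_le T _)).trans (le_abs_self _)
    · have h3 := (Pht_tendsto hβ hδ hP t (cv L T U) (cv L T (T.tU U))).const_mul
        (w U * w (T.tU U))
      rw [← ker_cv] at h3
      convert h3 using 2
      ring
  exact ge_of_tendsto' hlim h1

end

end Pool.Agent.N985
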