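import Mathlib
import Pool.Agent.Y14.PathNoise
import Pool.Agent.R990.RPQ

/-!
# Block matrices
-/

open MeasureTheory Matrix Filter
open scoped Matrix.Norms.Frobenius ContDiff Topology
open Pool.Agent.H906R3.YM hiding Pl
open Pool.Agent.W793.YM Pool.Agent.TH618.YM Pool.Agent.Y14 Pool.Agent.R990

namespace Pool.Agent.N985

set_option linter.unusedSectionVars false
set_option linter.unusedVariables false

noncomputable section

/-- block matrices -/
abbrev Mb (B : Type*) (N : ℕ) := Matrix B B (Mat N)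

variable {B : Type*} [Fintype B] [DecidableEq B] {N : ℕ}

lemma ip_add_left (A B C : Mat N) : ip (A + B) C = ip A C + ip B C := by
  rw [ip_apply, ip_apply, ip_apply, conjTranspose_add, add_mul, trace_add, Complex.add_re]

lemma ip_smul_left (c : ℝ) (A B : Mat N) : ip (c • A) B = c * ip A B := by
  rw [ip_apply, ip_apply, conjTranspose_smul, smul_mul_assoc, trace_smul]
  simp

lemma ip_comm (A B : Mat N) : ip A B = ip B A := by
  rw [ip_sum_co, ip_sum_co]
  exact Finset.sum_congr rfl fun c _ => mul_comm _ _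

lemma ip_mul_left (A B C : Mat N) : ip (A * B) C = ip B (Aᴴ * C) := by
  rw [ip_apply, ip_apply, conjTranspose_mul, Matrix.mul_assoc]

lemma ip_mul_right (A B C : Mat N) : ip (A * B) C = ip A (C * Bᴴ) := by
  rw [ip_apply, ip_apply, conjTranspose_mul, Matrix.mul_assoc, trace_mul_comm, Matrix.mul_assoc]

/-- the real scalar product of block matrices -/
def ipb (A C : Mb B N) : ℝ := ∑ u, ∑ v, ip (A u v) (C u v)

lemma ipb_comm (A C : Mb B N) : ipb A C = ipb C A := by
  unfold ipb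
  exact Finset.sum_congr rfl fun u _ => Finset.sum_congr rfl fun v _ => ip_comm _ _

lemma ipb_add_left (A A' C : Mb B N) : ipb (A + A') C = ipb A C + ipb A' C := by
  unfold ipb
  rw [← Finset.sum_add_distrib]
  refine Finset.sum_congr rfl fun u _ => ?_
  rw [← Finset.sum_add_distrib]
  exact Finset.sum_congr rfl fun v _ => by rw [Matrix.add_apply, ip_add_left]

lemma ipb_smul_left (c : ℝ) (A C : Mb B N) : ipb (c • A) C = c * ipb A C := by
  unfold ipb
  rw [Finset.mul_sum]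
  refine Finset.sum_congr rfl fun u _ => ?_
  rw [Finset.mul_sum]
  exact Finset.sum_congr rfl fun v _ => by rw [Matrix.smul_apply, ip_smul_left]

lemma ipb_add_right (A C C' : Mb B N) : ipb A (C + C') = ipb A C + ipb A C' := by
  rw [ipb_comm, ipb_add_left, ipb_comm C, ipb_comm C']

lemma ipb_smul_right (c : ℝ) (A C : Mb B N) : ipb A (c • C) = c * ipb A C := by
  rw [ipb_comm, ipb_smul_left, ipb_comm]

/-- the scalar product as a bilinear map -/
def ipL : Mb B N →ₗ[ℝ] Mb B N →ₗ[ℝ] ℝ :=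
  LinearMap.mk₂ ℝ ipb ipb_add_left ipb_smul_left ipb_add_right ipb_smul_right

lemma ipL_apply (A C : Mb B N) : ipL A C = ipb A C := rfl

lemma ipb_sub_left (A A' C : Mb B N) : ipb (A - A') C = ipb A C - ipb A' C := by
  rw [← ipL_apply, ← ipL_apply, ← ipL_apply, map_sub]; rfl

lemma ipb_sub_right (A C C' : Mb B N) : ipb A (C - C') = ipb A C - ipb A C' := by
  rw [← ipL_apply, ← ipL_apply, ← ipL_apply, map_sub]

lemma ipb_sum_right {ι : Type*} (S : Finset ι) (A : Mb B N) (C : ι → Mb B N) :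
    ipb A (∑ i ∈ S, C i) = ∑ i ∈ S, ipb A (C i) := by
  simp only [← ipL_apply, map_sum]

lemma ipb_sum_left {ι : Type*} (S : Finset ι) (A : Mb B N) (C : ι → Mb B N) :
    ipb (∑ i ∈ S, C i) A = ∑ i ∈ S, ipb (C i) A := by
  rw [ipb_comm, ipb_sum_right]
  exact Finset.sum_congr rfl fun i _ => ipb_comm _ _

lemma nb_eq (A : Mb B N) : ‖A‖ ^ 2 = ipb A A := by
  have h2 : ‖A‖ = Real.sqrt (∑ i, ∑ j, ‖A i j‖ ^ 2) := by
    rw [Matrix.frobenius_norm_def, Real.sqrt_eq_rpow]
    norm_num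
  rw [h2, Real.sq_sqrt (Finset.sum_nonneg fun i _ => Finset.sum_nonneg fun j _ => sq_nonneg _)]
  unfold ipb
  exact Finset.sum_congr rfl fun u _ => Finset.sum_congr rfl fun v _ => norm_sq_ip _

lemma nb_sum (A : Mb B N) : ‖A‖ ^ 2 = ∑ u, ∑ v, ‖A u v‖ ^ 2 := by
  rw [nb_eq]
  unfold ipb
  exact Finset.sum_congr rfl fun u _ => Finset.sum_congr rfl fun v _ => (norm_sq_ip _).symm

lemma ipb_self_nonneg (A : Mb B N) : 0 ≤ ipb A A := by rw [← nb_eq]; positivity

lemma ipb_cs (A C : Mb B N) : |ipb A C| ≤ ‖A‖ * ‖C‖ := by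
  have h : ipb A C ^ 2 ≤ ipb A A * ipb C C := by
    refine Pool.Agent.H906R3.YM.sq_le_of_forall fun t => ?_
    have h1 := ipb_self_nonneg (A + t • C)
    rw [ipb_add_left, ipb_add_right, ipb_add_right, ipb_smul_left, ipb_smul_left, ipb_smul_right,
      ipb_smul_right, ipb_comm C A] at h1
    linarith
  rw [← nb_eq, ← nb_eq, ← mul_pow] at h
  exact abs_le_of_sq_le_sq h (by positivity)

lemma ipb_le (A C : Mb B N) : ipb A C ≤ ‖A‖ * ‖C‖ := (le_abs_self _).trans (ipb_cs A C)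

lemma ipb_mul_left (M A C : Mb B N) : ipb (M * A) C = ipb A (Mᴴ * C) := by
  unfold ipb
  have h1 : ∀ u v, ip ((M * A) u v) (C u v) = ∑ w, ip (A w v) ((Mᴴ) w u * C u v) := by
    intro u v
    rw [Matrix.mul_apply]
    have h2 : ∀ (S : Finset B) (F : B → Mat N) (D : Mat N), ip (∑ w ∈ S, F w) D =
        ∑ w ∈ S, ip (F w) D := by
      intro S F D
      rw [ip_comm, map_sum]
      exact Finset.sum_congr rfl fun w _ => ip_comm _ _
    rw [h2]
    refine Finset.sum_congr rfl fun w _ => ?_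
    rw [ip_mul_left, Matrix.conjTranspose_apply]
    rfl
  have h2 : ∀ w v, ip (A w v) ((Mᴴ * C) w v) = ∑ u, ip (A w v) ((Mᴴ) w u * C u v) := by
    intro w v
    rw [Matrix.mul_apply, map_sum]
  simp only [h1, h2]
  calc _ = ∑ u, ∑ w, ∑ v, ip (A w v) ((Mᴴ) w u * C u v) :=
        Finset.sum_congr rfl fun u _ => Finset.sum_comm
    _ = ∑ w, ∑ u, ∑ v, ip (A w v) ((Mᴴ) w u * C u v) := Finset.sum_comm
    _ = _ := Finset.sum_congr rfl fun w _ => Finset.sum_comm

lemma ip_ct (A C : Mat N) : ip Aᴴ Cᴴ = ip A C := by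
  rw [ip_apply, ip_apply, conjTranspose_conjTranspose, ← re_trace_symm, trace_mul_comm]

lemma ipb_ct (A C : Mb B N) : ipb Aᴴ Cᴴ = ipb A C := by
  unfold ipb
  rw [Finset.sum_comm]
  refine Finset.sum_congr rfl fun u _ => Finset.sum_congr rfl fun v _ => ?_
  rw [Matrix.conjTranspose_apply, Matrix.conjTranspose_apply]
  exact ip_ct _ _

lemma ipb_mul_right (A M C : Mb B N) : ipb (A * M) C = ipb A (C * Mᴴ) := by
  rw [← ipb_ct, Matrix.conjTranspose_mul, ipb_mul_left, ← ipb_ct, Matrix.conjTranspose_mul,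
    Matrix.conjTranspose_conjTranspose, Matrix.conjTranspose_conjTranspose,
    Matrix.conjTranspose_conjTranspose]

lemma norm_ctb (A : Mb B N) : ‖Aᴴ‖ = ‖A‖ := by
  have h : ‖Aᴴ‖ ^ 2 = ‖A‖ ^ 2 := by rw [nb_eq, nb_eq, ipb_ct]
  exact (pow_left_inj₀ (norm_nonneg _) (norm_nonneg _) two_ne_zero).1 h

lemma norm_mulb (A C : Mb B N) : ‖A * C‖ ≤ ‖A‖ * ‖C‖ := by
  have h : ‖A * C‖ ^ 2 ≤ (‖A‖ * ‖C‖) ^ 2 := by
    have hC : ∑ u, ∑ v, ‖C u v‖ ^ 2 = ∑ v, ∑ u, ‖C u v‖ ^ 2 := Finset.sum_comm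
    rw [mul_pow, nb_sum, nb_sum A, nb_sum C, hC, Finset.sum_mul]
    refine Finset.sum_le_sum fun u _ => ?_
    rw [Finset.mul_sum]
    refine Finset.sum_le_sum fun v _ => ?_
    rw [Matrix.mul_apply]
    have h1 : ‖∑ w, A u w * C w v‖ ≤ ∑ w, ‖A u w‖ * ‖C w v‖ :=
      (norm_sum_le _ _).trans (Finset.sum_le_sum fun w _ => norm_mul_le _ _)
    calc _ ≤ (∑ w, ‖A u w‖ * ‖C w v‖) ^ 2 := pow_le_pow_left₀ (norm_nonneg _) h1 2
      _ ≤ _ := Finset.sum_mul_sq_le_sq_mul_sq _ _ _
  exact (pow_le_pow_iff_left₀ (norm_nonneg _) (by positivity) two_ne_zero).1 h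

/-- indices of the real coordinates -/
abbrev Ib (B : Type*) (N : ℕ) := B × B × (Fin N × Fin N × Bool)

/-- real coordinates -/
def cb (i : Ib B N) (A : Mb B N) : ℝ := co i.2.2 (A i.1 i.2.1)

/-- the basis -/
def eb (i : Ib B N) : Mb B N := Matrix.single i.1 i.2.1 (EE i.2.2)

lemma sum_eb (A : Mb B N) : ∑ i, cb i A • eb i = A := by
  ext1 u v
  rw [Matrix.sum_apply, Fintype.sum_prod_type]
  simp only [Fintype.sum_prod_type (α₁ := B)]
  rw [Finset.sum_eq_single u, Finset.sum_eq_single v]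
  · have h1 : ∀ κ : Fin N × Fin N × Bool, (cb (u, v, κ) A • eb (B := B) (u, v, κ)) u v =
        co κ (A u v) • EE κ := by
      intro κ
      unfold cb eb
      rw [Matrix.smul_apply, Matrix.single_apply_same]
    simp only [h1]
    exact sum_EE _
  · intro w _ hw
    refine Finset.sum_eq_zero fun κ _ => ?_
    unfold eb
    rw [Matrix.smul_apply, Matrix.single_apply_of_ne, smul_zero]
    simp [hw]
  · simp
  · intro w _ hw
    refine Finset.sum_eq_zero fun w' _ => Finset.sum_eq_zero fun κ _ => ?_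
    unfold eb
    rw [Matrix.smul_apply, Matrix.single_apply_of_ne, smul_zero]
    simp [hw]
  · simp

lemma ipb_cb (A C : Mb B N) : ipb A C = ∑ i, cb i A * cb i C := by
  unfold ipb cb
  rw [Fintype.sum_prod_type]
  simp only [Fintype.sum_prod_type (α₁ := B)]
  refine Finset.sum_congr rfl fun u _ => Finset.sum_congr rfl fun v _ => ?_
  rw [ip_sum_co]
  exact Finset.sum_congr rfl fun c _ => mul_comm _ _

lemma bil_cb (b : Mb B N →ₗ[ℝ] Mb B N →ₗ[ℝ] ℝ) (A C : Mb B N) :
    b A C = ∑ i, ∑ j, b (eb i) (eb j) * cb i A * cb j C := by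
  have h1 : b A C = ∑ i, cb i A * b (eb i) C := by
    conv_lhs => rw [← sum_eb A]
    rw [map_sum, LinearMap.sum_apply]
    refine Finset.sum_congr rfl fun i _ => ?_
    rw [map_smul, LinearMap.smul_apply, smul_eq_mul]
  rw [h1]
  refine Finset.sum_congr rfl fun i _ => ?_
  have h2 : b (eb i) C = ∑ j, cb j C * b (eb i) (eb j) := by
    conv_lhs => rw [← sum_eb C]
    rw [map_sum]
    refine Finset.sum_congr rfl fun j _ => ?_
    rw [map_smul, smul_eq_mul]
  rw [h2, Finset.mul_sum]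
  exact Finset.sum_congr rfl fun j _ => by ring

lemma cb_cont {X : Type*} [TopologicalSpace X] {F : X → Mb B N} (h : Continuous F)
    (i : Ib B N) : Continuous fun x => cb i (F x) := by
  unfold cb
  exact (co i.2.2).continuous.comp ((continuous_apply i.2.1).comp ((continuous_apply i.1).comp h))

lemma ipb_cont {X : Type*} [TopologicalSpace X] {F H : X → Mb B N} (hF : Continuous F)
    (hH : Continuous H) : Continuous fun x => ipb (F x) (H x) := by
  simp only [ipb_cb]
  exact continuous_finsetSum _ fun i _ => (cb_cont hF i).mul (cb_cont hH i)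

end

end Pool.Agent.N985
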