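import Mathlib
import Pool.Agent.N985.Mb

/-!
# Averages over signs, noise on matrices
-/

open MeasureTheory Matrix Filter
open scoped Matrix.Norms.Frobenius ContDiff Topology
open Pool.Agent.H906R3.YM hiding Pl
open Pool.Agent.W793.YM Pool.Agent.TH618.YM Pool.Agent.Y14 Pool.Agent.R990

namespace Pool.Agent.N985

set_option linter.unusedSectionVars false
set_option linter.unusedVariables false

noncomputable section

section avg

variable {ι : Type*} [Fintype ι] [DecidableEq ι] {W : Type*} [AddCommGroup W] [Module ℝ W]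
  {W' : Type*} [AddCommGroup W'] [Module ℝ W']

/-- the average over the signs -/
def avv (F : (ι → Bool) → W) : W := ((2 : ℝ) ^ Fintype.card ι)⁻¹ • ∑ s, F s

lemma avv_real (F : (ι → Bool) → ℝ) : avv F = av F := by
  unfold avv av
  rw [smul_eq_mul, div_eq_inv_mul]

lemma card_signs : (∑ _s : ι → Bool, (1 : ℝ)) = 2 ^ Fintype.card ι := by
  rw [Finset.sum_const, Finset.card_univ, Fintype.card_fun, Fintype.card_bool, nsmul_eq_mul]
  push_cast
  ring

lemma avv_const (c : W) : avv (fun _ : ι → Bool => c) = c := by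
  unfold avv
  rw [Finset.sum_const, Finset.card_univ, Fintype.card_fun, Fintype.card_bool, ← Nat.cast_smul_eq_nsmul ℝ,
    smul_smul]
  push_cast
  rw [inv_mul_cancel₀ (by positivity), one_smul]

lemma avv_add (F H : (ι → Bool) → W) : avv (fun s => F s + H s) = avv F + avv H := by
  unfold avv
  rw [Finset.sum_add_distrib, smul_add]

lemma avv_sub (F H : (ι → Bool) → W) : avv (fun s => F s - H s) = avv F - avv H := by
  unfold avv
  rw [Finset.sum_sub_distrib, smul_sub]

lemma avv_smul (c : ℝ) (F : (ι → Bool) → W) : avv (fun s => c • F s) = c • avv F := by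
  unfold avv
  rw [← Finset.smul_sum, smul_comm]

lemma avv_sum {κ : Type*} (S : Finset κ) (F : κ → (ι → Bool) → W) :
    avv (fun s => ∑ k ∈ S, F k s) = ∑ k ∈ S, avv (F k) := by
  unfold avv
  rw [Finset.sum_comm, Finset.smul_sum]

lemma avv_map (L : W →ₗ[ℝ] W') (F : (ι → Bool) → W) : L (avv F) = avv (fun s => L (F s)) := by
  unfold avv
  rw [map_smul, map_sum]

/-- mixed signs -/
def mix (p : ι → Prop) [DecidablePred p] (s s' : ι → Bool) : ι → Bool :=
  fun i => if p i then s i else s' i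

/-- exchange of the signs -/
def mixE (p : ι → Prop) [DecidablePred p] : ((ι → Bool) × (ι → Bool)) ≃ ((ι → Bool) × (ι → Bool)) where
  toFun z := (mix p z.1 z.2, mix p z.2 z.1)
  invFun z := (mix p z.1 z.2, mix p z.2 z.1)
  left_inv z := by
    refine Prod.ext ?_ ?_ <;> funext i <;> unfold mix <;> by_cases h : p i <;> simp [h]
  right_inv z := by
    refine Prod.ext ?_ ?_ <;> funext i <;> unfold mix <;> by_cases h : p i <;> simp [h]

/-- independence -/
lemma avv_mix (p : ι → Prop) [DecidablePred p] (F : (ι → Bool) → W) :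
    avv F = avv (fun s => avv (fun s' => F (mix p s s'))) := by
  unfold avv
  rw [← Finset.smul_sum, smul_smul]
  have h1 : ∑ s : ι → Bool, ∑ s' : ι → Bool, F (mix p s s') =
      (2 : ℝ) ^ Fintype.card ι • ∑ s, F s := by
    rw [← Fintype.sum_prod_type' (f := fun s s' => F (mix p s s'))]
    have h2 := Equiv.sum_comp (mixE p) (fun z : (ι → Bool) × (ι → Bool) => F z.1)
    have h3 : (fun z : (ι → Bool) × (ι → Bool) => F (mixE p z).1) =
        fun z => F (mix p z.1 z.2) := rfl
    rw [h3] at h2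
    rw [h2, Fintype.sum_prod_type]
    simp only [Finset.sum_const, Finset.card_univ, Fintype.card_fun, Fintype.card_bool]
    rw [← Finset.smul_sum, ← Nat.cast_smul_eq_nsmul ℝ]
    push_cast
    rfl
  rw [h1, smul_smul]
  congr 1
  field_simp

/-- independence of the coordinates in `p` -/
def DepOn {α : Type*} (p : ι → Prop) (F : (ι → Bool) → α) : Prop :=
  ∀ s s' : ι → Bool, (∀ i, p i → s i = s' i) → F s = F s'

lemma DepOn.mixl {α : Type*} {p : ι → Prop} [DecidablePred p] {F : (ι → Bool) → α}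
    (h : DepOn p F) (s s' : ι → Bool) : F (mix p s s') = F s := by
  refine h _ _ fun i hi => ?_
  unfold mix
  rw [if_pos hi]

lemma DepOn.mixr {α : Type*} {p : ι → Prop} [DecidablePred p] {F : (ι → Bool) → α}
    (h : DepOn (fun i => ¬p i) F) (s s' : ι → Bool) : F (mix p s s') = F s' := by
  refine h _ _ fun i hi => ?_
  unfold mix
  rw [if_neg hi]

/-- restriction of the signs -/
lemma avv_res {κ : Type*} [Fintype κ] [DecidableEq κ] {φ : κ → ι} (hφ : Function.Injective φ)
    (F : (κ → Bool) → W) : avv (fun s : ι → Bool => F (fun i => s (φ i))) = avv F := by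
  classical
  obtain ⟨p, hp⟩ : ∃ p : ι → Prop, p = fun i => i ∈ Set.range φ := ⟨_, rfl⟩
  obtain ⟨e, he⟩ : ∃ e : κ ≃ {i // p i}, ∀ j, (e j : ι) = φ j := by
    subst hp
    exact ⟨Equiv.ofInjective φ hφ, fun j => rfl⟩
  have h1 : ∑ s : ι → Bool, F (fun i => s (φ i)) =
      ∑ z : ({i // p i} → Bool) × ({i // ¬p i} → Bool), F (fun i => z.1 (e i)) := by
    refine Fintype.sum_equiv (Equiv.piEquivPiSubtypeProd p fun _ => Bool) _ _ fun s => ?_
    congr 1
    funext i
    show s (φ i) = s (e i : ι)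
    rw [he]
  have h2 : ∑ t : {i // p i} → Bool, F (fun i => t (e i)) = ∑ t : κ → Bool, F t := by
    refine Fintype.sum_equiv (Equiv.arrowCongr e.symm (Equiv.refl Bool)) _ _ fun t => ?_
    rfl
  unfold avv
  rw [h1, Fintype.sum_prod_type]
  simp only [Finset.sum_const, Finset.card_univ, Fintype.card_fun, Fintype.card_bool]
  rw [← Finset.smul_sum, h2, ← Nat.cast_smul_eq_nsmul ℝ, smul_smul]
  congr 1
  have h3 : Fintype.card ι = Fintype.card κ + Fintype.card {i // ¬p i} := by
    rw [Fintype.card_congr e, Fintype.card_subtype_compl]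
    have := Fintype.card_subtype_le p
    omega
  rw [h3, pow_add]
  push_cast
  field_simp

lemma avv_nonneg {F : (ι → Bool) → ℝ} (h : ∀ s, 0 ≤ F s) : 0 ≤ avv F := by
  rw [avv_real]; exact av_nonneg h

lemma avv_mono {F H : (ι → Bool) → ℝ} (h : ∀ s, F s ≤ H s) : avv F ≤ avv H := by
  rw [avv_real, avv_real]; exact av_mono h

end avg

section mat

variable {N : ℕ} {W : Type*} [AddCommGroup W] [Module ℝ W]

/-- indices of the real coordinates of a matrix -/
abbrev Ic (N : ℕ) := Fin N × Fin N × Bool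

/-- the noise on a matrix -/
def nm (δ : ℝ) (s : Ic N → Bool) : Mat N := ∑ κ, (if s κ then δ else -δ) • EE κ

lemma sgn_avg (κ : Ic N) : avv (fun s : Ic N → Bool => if s κ then (1 : ℝ) else -1) = 0 := by
  have h := avv_res (φ := fun _ : Unit => κ) (fun a b _ => rfl)
    (fun t : Unit → Bool => if t () then (1 : ℝ) else -1)
  rw [h]
  unfold avv
  have h2 : ∑ s : Unit → Bool, (if s () then (1 : ℝ) else -1) = 0 := by
    rw [← Equiv.sum_comp (Equiv.funUnique Unit Bool).symm]
    simp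
  rw [h2, smul_zero]

lemma sgn_avg2 (κ κ' : Ic N) : avv (fun s : Ic N → Bool =>
    (if s κ then (1 : ℝ) else -1) * (if s κ' then (1 : ℝ) else -1)) =
    if κ = κ' then 1 else 0 := by
  split_ifs with h
  · subst h
    have h1 : (fun s : Ic N → Bool => (if s κ then (1 : ℝ) else -1) * (if s κ then (1 : ℝ) else -1)) =
        fun _ => 1 := by
      funext s; split_ifs <;> norm_num
    rw [h1, avv_const]
  · rw [avv_mix (fun i => i = κ)]
    have h1 : ∀ s s' : Ic N → Bool, (if mix (fun i => i = κ) s s' κ then (1 : ℝ) else -1) *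
        (if mix (fun i => i = κ) s s' κ' then (1 : ℝ) else -1) =
        (if s κ then (1 : ℝ) else -1) • (if s' κ' then (1 : ℝ) else -1) := by
      intro s s'
      unfold mix
      rw [if_pos rfl, if_neg (Ne.symm h), smul_eq_mul]
    simp only [h1]
    have h2 : ∀ s : Ic N → Bool, avv (fun s' : Ic N → Bool => (if s κ then (1 : ℝ) else -1) •
        (if s' κ' then (1 : ℝ) else -1)) = 0 := by
      intro s
      rw [avv_smul, sgn_avg, smul_zero]
    simp only [h2]
    exact avv_const 0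

lemma bil_sum2 {κ : Type*} [Fintype κ] {V : Type*} [AddCommGroup V] [Module ℝ V]
    (b : V →ₗ[ℝ] V →ₗ[ℝ] W) (c e : κ → ℝ) (v v' : κ → V) :
    b (∑ i, c i • v i) (∑ j, e j • v' j) = ∑ i, ∑ j, (c i * e j) • b (v i) (v' j) := by
  have h1 : ∀ Z, b (∑ i, c i • v i) Z = ∑ i, c i • b (v i) Z := by
    intro Z
    rw [map_sum, LinearMap.sum_apply]
    exact Finset.sum_congr rfl fun i _ => by rw [map_smul, LinearMap.smul_apply]
  rw [h1]
  refine Finset.sum_congr rfl fun i _ => ?_
  rw [map_sum, Finset.smul_sum]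
  exact Finset.sum_congr rfl fun j _ => by rw [map_smul, smul_smul]

/-- the covariance of the noise -/
lemma nm_bil (δ : ℝ) (b : Mat N →ₗ[ℝ] Mat N →ₗ[ℝ] W) :
    avv (fun s : Ic N → Bool => b (nm δ s) (nm δ s)) = δ ^ 2 • ∑ κ, b (EE κ) (EE κ) := by
  have h1 : ∀ s : Ic N → Bool, b (nm δ s) (nm δ s) = ∑ κ, ∑ κ', (δ ^ 2 *
      ((if s κ then (1 : ℝ) else -1) * (if s κ' then (1 : ℝ) else -1))) • b (EE κ) (EE κ') := by
    intro s
    have e1 : nm δ s = ∑ κ, (δ * (if s κ then (1 : ℝ) else -1)) • EE κ := by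
      unfold nm
      refine Finset.sum_congr rfl fun κ _ => ?_
      congr 1
      split_ifs <;> ring
    rw [e1, bil_sum2]
    refine Finset.sum_congr rfl fun κ _ => ?_
    refine Finset.sum_congr rfl fun κ' _ => ?_
    congr 1
    ring
  simp only [h1]
  rw [avv_sum, Finset.smul_sum]
  refine Finset.sum_congr rfl fun κ _ => ?_
  rw [avv_sum, Finset.sum_eq_single κ]
  · have h2 : ∀ s : Ic N → Bool, (δ ^ 2 * ((if s κ then (1 : ℝ) else -1) *
        (if s κ then (1 : ℝ) else -1))) • b (EE κ) (EE κ) = δ ^ 2 • b (EE κ) (EE κ) := by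
      intro s
      congr 1
      split_ifs <;> ring
    simp only [h2]
    exact avv_const _
  · intro κ' _ hκ
    obtain ⟨c, hc⟩ : ∃ c, c = b (EE κ) (EE κ') := ⟨_, rfl⟩
    rw [← hc]
    have h2 := avv_map (LinearMap.toSpanSingleton ℝ W c) (fun s : Ic N → Bool => δ ^ 2 •
      ((if s κ then (1 : ℝ) else -1) * (if s κ' then (1 : ℝ) else -1)))
    rw [avv_smul, sgn_avg2, if_neg (Ne.symm hκ), smul_zero, map_zero] at h2
    rw [h2]
    rfl
  · simp

/-- the mean of the noise -/
lemma nm_lin (δ : ℝ) (b : Mat N →ₗ[ℝ] W) : avv (fun s : Ic N → Bool => b (nm δ s)) = 0 := by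
  have h1 : ∀ s : Ic N → Bool, b (nm δ s) = ∑ κ, (δ * (if s κ then (1 : ℝ) else -1)) • b (EE κ) := by
    intro s
    unfold nm
    rw [map_sum]
    refine Finset.sum_congr rfl fun κ _ => ?_
    rw [map_smul]
    congr 1
    split_ifs <;> ring
  simp only [h1]
  rw [avv_sum]
  refine Finset.sum_eq_zero fun κ _ => ?_
  have h2 := avv_map (LinearMap.toSpanSingleton ℝ W (b (EE κ))) (fun s : Ic N → Bool => δ •
    (if s κ then (1 : ℝ) else -1))
  rw [avv_smul, sgn_avg, smul_zero, map_zero] at h2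
  rw [h2]
  rfl

lemma co_EE (κ κ' : Ic N) : co κ (EE κ') = if κ = κ' then 1 else 0 := by
  have h1 : co κ (EE κ') = if κ.2.2 then (EE κ' κ.1 κ.2.1).re else (EE κ' κ.1 κ.2.1).im := rfl
  rw [h1, EE_apply]
  obtain ⟨a, b, c⟩ := κ
  obtain ⟨a', b', c'⟩ := κ'
  by_cases h2 : a' = a ∧ b' = b
  · obtain ⟨rfl, rfl⟩ := h2
    cases c <;> cases c' <;> simp
  · rw [if_neg h2]
    have h3 : ¬((a, b, c) = (a', b', c')) := by
      intro h
      simp only [Prod.mk.injEq] at h
      exact h2 ⟨h.1.symm, h.2.1.symm⟩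
    rw [if_neg h3]
    cases c <;> simp

lemma ip_EE (A : Mat N) (κ : Ic N) : ip A (EE κ) = co κ A := by
  rw [ip_sum_co, Finset.sum_eq_single κ]
  · rw [co_EE, if_pos rfl, one_mul]
  · intro κ' _ h
    rw [co_EE, if_neg h, zero_mul]
  · simp

/-- invariance of the covariance under rotations -/
lemma rot_bil {g h : Mat N} (hg : gᴴ * g = 1) (hh : h * hᴴ = 1)
    (b : Mat N →ₗ[ℝ] Mat N →ₗ[ℝ] W) :
    ∑ κ : Ic N, b (g * EE κ * h) (g * EE κ * h) = ∑ κ : Ic N, b (EE κ) (EE κ) := by
  have hg' : g * gᴴ = 1 := mul_eq_one_comm.1 hg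
  have hh' : hᴴ * h = 1 := mul_eq_one_comm.1 hh
  have e1 : ∀ κ : Ic N, g * EE κ * h = ∑ κ', co κ' (g * EE κ * h) • EE κ' :=
    fun κ => (sum_EE _).symm
  have h1 : ∀ κ : Ic N, b (g * EE κ * h) (g * EE κ * h) = ∑ κ', ∑ κ'',
      (co κ' (g * EE κ * h) * co κ'' (g * EE κ * h)) • b (EE κ') (EE κ'') := by
    intro κ
    obtain ⟨M, hM⟩ : ∃ M, M = g * EE κ * h := ⟨_, rfl⟩
    rw [← hM]
    have e2 : M = ∑ κ', co κ' M • EE κ' := (sum_EE _).symm
    have e3 : b M M = b (∑ κ', co κ' M • EE κ') (∑ κ', co κ' M • EE κ') := by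
      rw [← e2]
    rw [e3, bil_sum2]
  simp only [h1]
  rw [Finset.sum_comm]
  refine Finset.sum_congr rfl fun κ' _ => ?_
  rw [Finset.sum_comm]
  have h2 : ∀ κ'', ∑ κ : Ic N, (co κ' (g * EE κ * h) * co κ'' (g * EE κ * h)) • b (EE κ') (EE κ'') =
      (if κ' = κ'' then (1 : ℝ) else 0) • b (EE κ') (EE κ'') := by
    intro κ''
    rw [← Finset.sum_smul]
    congr 1
    have h3 : ∀ κ κ' : Ic N, co κ' (g * EE κ * h) = co κ (gᴴ * EE κ' * hᴴ) := by
      intro κ κ'
      rw [← ip_EE, ← ip_EE, ip_mul_right, ip_mul_left, ip_comm]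
      simp only [Matrix.mul_assoc]
    have h4 : ∑ κ : Ic N, co κ' (g * EE κ * h) * co κ'' (g * EE κ * h) =
        ip (gᴴ * EE κ'' * hᴴ) (gᴴ * EE κ' * hᴴ) := by
      rw [ip_sum_co]
      exact Finset.sum_congr rfl fun κ _ => by rw [h3, h3 κ κ'']
    rw [h4, ip_mul_right, ip_mul_left]
    have h5 : (gᴴ)ᴴ * (gᴴ * EE κ' * hᴴ * (hᴴ)ᴴ) = EE κ' := by
      rw [conjTranspose_conjTranspose, conjTranspose_conjTranspose]
      calc _ = (g * gᴴ) * EE κ' * (hᴴ * h) := by simp only [Matrix.mul_assoc]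
        _ = _ := by rw [hg', hh', one_mul, mul_one]
    rw [h5, ip_EE, co_EE]
  simp only [h2]
  rw [Finset.sum_eq_single κ']
  · rw [if_pos rfl, one_smul]
  · intro κ'' _ h
    rw [if_neg (Ne.symm h), zero_smul]
  · simp

lemma sum_EE_conj (Z : Mat N) : ∑ κ : Ic N, EE κ * Z * (EE κ)ᴴ = (2 * trace Z) • (1 : Mat N) := by
  have h1 : ∀ κ : Ic N, EE κ * Z * (EE κ)ᴴ = Matrix.single κ.1 κ.1 (Z κ.2.1 κ.2.1) := by
    intro κ
    unfold EE
    rw [Matrix.conjTranspose_single]
    rw [Matrix.single_mul_mul_single]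
    congr 1
    obtain ⟨a, b, c⟩ := κ
    cases c
    · simp only [Bool.false_eq_true, if_false]
      rw [Complex.star_def, Complex.conj_I]
      linear_combination (-(Z b b)) * Complex.I_mul_I
    · simp
  simp only [h1]
  rw [Fintype.sum_prod_type]
  simp only [Fintype.sum_prod_type (α₁ := Fin N), Fintype.sum_bool]
  ext a b
  rw [Matrix.sum_apply, Matrix.smul_apply, Matrix.one_apply]
  rw [Finset.sum_eq_single a]
  · rw [Matrix.sum_apply]
    simp only [Matrix.add_apply, Matrix.single_apply]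
    by_cases h : a = b
    · subst h
      simp only [and_self, if_true, smul_eq_mul, mul_one]
      rw [Finset.sum_add_distrib, trace]
      simp only [diag_apply]
      ring
    · simp [h]
  · intro c _ hc
    rw [Matrix.sum_apply]
    refine Finset.sum_eq_zero fun x _ => ?_
    simp [Matrix.single_apply, hc]
  · simp

/-- the second moment of the noise -/
lemma nm_conj (δ : ℝ) (Z : Mat N) : avv (fun s : Ic N → Bool => nm δ s * Z * (nm δ s)ᴴ) =
    (2 * δ ^ 2) • (trace Z) • (1 : Mat N) := by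
  have h1 := nm_bil δ (LinearMap.mk₂ ℝ (fun A C : Mat N => A * Z * Cᴴ)
    (fun A A' C => by rw [add_mul, add_mul]) (fun c A C => by rw [smul_mul_assoc, smul_mul_assoc])
    (fun A C C' => by rw [conjTranspose_add, mul_add])
    (fun c A C => by rw [conjTranspose_smul, star_trivial, mul_smul_comm]))
  simp only [LinearMap.mk₂_apply] at h1
  rw [h1, sum_EE_conj, mul_smul, ← Complex.coe_smul, ← Complex.coe_smul, smul_smul, smul_smul,
    smul_smul]
  congr 1
  push_cast
  ring

lemma nm_norm (δ : ℝ) (Z : Mat N) : avv (fun s : Ic N → Bool => ‖nm δ s * Z‖ ^ 2) =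
    2 * N * δ ^ 2 * ‖Z‖ ^ 2 := by
  have h1 := nm_bil δ (LinearMap.mk₂ ℝ (fun A C : Mat N => ip (A * Z) (C * Z))
    (fun A A' C => by rw [add_mul, ip_add_left]) (fun c A C => by
      rw [smul_mul_assoc, ip_smul_left, smul_eq_mul])
    (fun A C C' => by rw [add_mul, map_add])
    (fun c A C => by rw [smul_mul_assoc, map_smul]))
  simp only [LinearMap.mk₂_apply, ← norm_sq_ip] at h1
  rw [h1, sum_norm_EE, smul_eq_mul]
  ring

lemma nm_norm' (δ : ℝ) (Z : Mat N) : avv (fun s : Ic N → Bool => ‖(nm δ s)ᴴ * Z‖ ^ 2) =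
    2 * N * δ ^ 2 * ‖Z‖ ^ 2 := by
  have h1 := nm_bil δ (LinearMap.mk₂ ℝ (fun A C : Mat N => ip (Aᴴ * Z) (Cᴴ * Z))
    (fun A A' C => by rw [conjTranspose_add, add_mul, ip_add_left]) (fun c A C => by
      rw [conjTranspose_smul, star_trivial, smul_mul_assoc, ip_smul_left, smul_eq_mul])
    (fun A C C' => by rw [conjTranspose_add, add_mul, map_add])
    (fun c A C => by rw [conjTranspose_smul, star_trivial, smul_mul_assoc, map_smul]))
  simp only [LinearMap.mk₂_apply, ← norm_sq_ip] at h1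
  rw [h1]
  have h2 : ∑ κ : Ic N, ‖(EE κ)ᴴ * Z‖ ^ 2 = 2 * N * ‖Z‖ ^ 2 := by
    have h3 : ∀ κ : Ic N, ‖(EE κ)ᴴ * Z‖ ^ 2 = ip Z (EE κ * 1 * (EE κ)ᴴ * Z) := by
      intro κ
      rw [norm_sq_ip, ip_mul_left, conjTranspose_conjTranspose, mul_one]
      simp only [Matrix.mul_assoc]
    simp only [h3]
    rw [← map_sum, ← Finset.sum_mul, sum_EE_conj, trace_one, Fintype.card_fin, smul_mul_assoc,
      one_mul, norm_sq_ip]
    have h4 : ((2 : ℂ) * (N : ℂ)) • Z = ((2 * N : ℝ)) • Z := by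
      rw [← Complex.coe_smul]; push_cast; rfl
    rw [h4, map_smul, smul_eq_mul]
  rw [h2, smul_eq_mul]
  ring

end mat

end

end Pool.Agent.N985
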