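import Mathlib
import Pool.Agent.N985.Nse

/-!
# Functions which are affine in every link matrix
-/

open MeasureTheory Matrix Filter
open scoped Matrix.Norms.Frobenius ContDiff Topology
open Pool.Agent.H906R3.YM hiding Pl
open Pool.Agent.W793.YM Pool.Agent.TH618.YM Pool.Agent.Y14 Pool.Agent.R990

namespace Pool.Agent.N985

set_option linter.unusedSectionVars false
set_option linter.unusedVariables false

noncomputable section

section swap

variable {Λ : Type*} [DecidableEq Λ] [Fintype Λ] {κ : Type*} [DecidableEq κ] [Fintype κ]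
  {V : Type*} {W : Type*} [AddCommGroup W] [Module ℝ W]

/-- averages over the noise of one link -/
lemma avv_one (l0 : Λ) (F : (Λ → V) → W) (a : Λ → (κ → Bool) → V) (x : (Λ × κ → Bool) → (Λ → V))
    (hx : ∀ s s' : Λ × κ → Bool, (∀ l, l ≠ l0 → ∀ k, s (l, k) = s' (l, k)) → ∀ l, l ≠ l0 →
      x s l = x s' l) :
    avv (fun s : Λ × κ → Bool => F (Function.update (x s) l0 (a l0 fun k => s (l0, k)))) =
      avv (fun s : Λ × κ → Bool => avv (fun σ : κ → Bool =>
        F (Function.update (x s) l0 (a l0 σ)))) := by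
  rw [avv_mix (fun i : Λ × κ => i.1 ≠ l0)]
  congr 1
  funext s
  rw [← avv_res (φ := fun k : κ => (l0, k)) (fun k k' h => (Prod.mk.inj h).2)
    (fun σ : κ → Bool => F (Function.update (x s) l0 (a l0 σ)))]
  congr 1
  funext s'
  congr 1
  funext l
  by_cases h : l = l0
  · subst h
    rw [Function.update_self, Function.update_self]
    congr 1
    funext k
    unfold mix
    rw [if_neg (by simp)]
  · rw [Function.update_of_ne h, Function.update_of_ne h]
    refine hx _ _ (fun l' hl' k => ?_) l h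
    unfold mix
    rw [if_pos hl']

/-- exchange of two noises -/
lemma avv_swap (a b : Λ → (κ → Bool) → V) (F : (Λ → V) → W)
    (h : ∀ ζ l, avv (fun σ => F (Function.update ζ l (a l σ))) =
      avv (fun σ => F (Function.update ζ l (b l σ)))) :
    avv (fun s : Λ × κ → Bool => F fun l => a l fun k => s (l, k)) =
      avv (fun s : Λ × κ → Bool => F fun l => b l fun k => s (l, k)) := by
  have key : ∀ S : Finset Λ, avv (fun s : Λ × κ → Bool => F fun l =>
      if l ∈ S then b l (fun k => s (l, k)) else a l fun k => s (l, k)) =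
      avv (fun s : Λ × κ → Bool => F fun l => a l fun k => s (l, k)) := by
    intro S
    induction S using Finset.induction_on with
    | empty => simp
    | insert l0 S hl ih =>
      rw [← ih]
      have e1 : ∀ s : Λ × κ → Bool, (fun l => if l ∈ insert l0 S then b l (fun k => s (l, k))
          else a l fun k => s (l, k)) = Function.update (fun l => if l ∈ S then
            b l (fun k => s (l, k)) else a l fun k => s (l, k)) l0 (b l0 fun k => s (l0, k)) := by
        intro s
        funext l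
        by_cases h' : l = l0
        · subst h'; simp
        · rw [Function.update_of_ne h']
          simp [h']
      have e2 : ∀ s : Λ × κ → Bool, (fun l => if l ∈ S then
            b l (fun k => s (l, k)) else a l fun k => s (l, k)) =
          Function.update (fun l => if l ∈ S then
            b l (fun k => s (l, k)) else a l fun k => s (l, k)) l0 (a l0 fun k => s (l0, k)) := by
        intro s
        funext l
        by_cases h' : l = l0
        · subst h'; simp [hl]
        · rw [Function.update_of_ne h']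
      have hx : ∀ s s' : Λ × κ → Bool, (∀ l, l ≠ l0 → ∀ k, s (l, k) = s' (l, k)) → ∀ l, l ≠ l0 →
          (if l ∈ S then b l (fun k => s (l, k)) else a l fun k => s (l, k)) =
          (if l ∈ S then b l (fun k => s' (l, k)) else a l fun k => s' (l, k)) := by
        intro s s' hs l hl'
        simp only [hs l hl']
      have f1 := avv_one l0 F b (fun s l => if l ∈ S then b l (fun k => s (l, k)) else
        a l fun k => s (l, k)) hx
      have f2 := avv_one l0 F a (fun s l => if l ∈ S then b l (fun k => s (l, k)) else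
        a l fun k => s (l, k)) hx
      have g1 : avv (fun s : Λ × κ → Bool => F fun l => if l ∈ insert l0 S then
          b l (fun k => s (l, k)) else a l fun k => s (l, k)) =
          avv (fun s : Λ × κ → Bool => avv (fun σ : κ → Bool =>
            F (Function.update (fun l => if l ∈ S then b l (fun k => s (l, k)) else
              a l fun k => s (l, k)) l0 (b l0 σ)))) := by
        rw [← f1]
        congr 1
        funext s
        rw [e1]
      have g2 : avv (fun s : Λ × κ → Bool => F fun l => if l ∈ S then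
          b l (fun k => s (l, k)) else a l fun k => s (l, k)) =
          avv (fun s : Λ × κ → Bool => avv (fun σ : κ → Bool =>
            F (Function.update (fun l => if l ∈ S then b l (fun k => s (l, k)) else
              a l fun k => s (l, k)) l0 (a l0 σ)))) := by
        rw [← f2]
        congr 1
        funext s
        rw [← e2]
      rw [g1, g2]
      congr 1
      funext s
      exact (h _ _).symm
  have h1 := key Finset.univ
  simp only [Finset.mem_univ, if_true] at h1
  exact h1.symm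

end swap

section la

variable {Λ : Type*} [DecidableEq Λ] {N : ℕ} {W : Type*} [AddCommGroup W] [Module ℝ W]
  {W' : Type*} [AddCommGroup W'] [Module ℝ W'] {A A' : Set Λ}

/-- functions which are affine in every link matrix and depend on the links in `A` -/
structure LA (A : Set Λ) (F : (Λ → Mat N) → W) : Prop where
  dep : ∀ ζ ζ' : Λ → Mat N, (∀ l ∈ A, ζ l = ζ' l) → F ζ = F ζ'
  aff : ∀ ζ l, ∃ c : W, ∃ f : Mat N →ₗ[ℝ] W, ∀ M, F (Function.update ζ l M) = c + f M

variable {F H : (Λ → Mat N) → W}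

lemma LA.mono (h : LA A F) (hA : A ⊆ A') : LA A' F :=
  ⟨fun ζ ζ' hζ => h.dep ζ ζ' fun l hl => hζ l (hA hl), h.aff⟩

lemma LA.const (A : Set Λ) (c : W) : LA A (fun _ : Λ → Mat N => c) :=
  ⟨fun ζ ζ' _ => rfl, fun ζ l => ⟨c, 0, fun M => by simp⟩⟩

lemma LA.coord (l : Λ) : LA {l} (fun ζ : Λ → Mat N => ζ l) := by
  refine ⟨fun ζ ζ' h => h l rfl, fun ζ l' => ?_⟩
  by_cases h : l = l'
  · subst h
    exact ⟨0, LinearMap.id, fun M => by simp⟩
  · exact ⟨ζ l, 0, fun M => by simp [h]⟩

lemma LA.comp (h : LA A F) (g : W →ₗ[ℝ] W') : LA A (fun ζ => g (F ζ)) := by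
  refine ⟨fun ζ ζ' hζ => by rw [h.dep ζ ζ' hζ], fun ζ l => ?_⟩
  obtain ⟨c, f, hf⟩ := h.aff ζ l
  exact ⟨g c, g.comp f, fun M => by rw [hf, map_add]; rfl⟩

lemma LA.add (h : LA A F) (h' : LA A H) : LA A (fun ζ => F ζ + H ζ) := by
  refine ⟨fun ζ ζ' hζ => by rw [h.dep ζ ζ' hζ, h'.dep ζ ζ' hζ], fun ζ l => ?_⟩
  obtain ⟨c, f, hf⟩ := h.aff ζ l
  obtain ⟨c', f', hf'⟩ := h'.aff ζ l
  exact ⟨c + c', f + f', fun M => by rw [hf, hf', LinearMap.add_apply]; abel⟩

lemma LA.smul (h : LA A F) (c : ℝ) : LA A (fun ζ => c • F ζ) :=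
  h.comp (c • LinearMap.id)

lemma LA.sum {ι : Type*} (S : Finset ι) {F : ι → (Λ → Mat N) → W} (h : ∀ i ∈ S, LA A (F i)) :
    LA A (fun ζ => ∑ i ∈ S, F i ζ) := by
  classical
  induction S using Finset.induction_on with
  | empty => simpa using LA.const A (0 : W)
  | insert a S ha ih =>
    simp only [Finset.sum_insert ha]
    exact (h a (Finset.mem_insert_self _ _)).add (ih fun i hi => h i (Finset.mem_insert_of_mem hi))

/-- a link which does not occur -/
lemma LA.upd (h : LA A F) {l : Λ} (hl : l ∉ A) (ζ : Λ → Mat N) (M : Mat N) :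
    F (Function.update ζ l M) = F ζ := by
  refine h.dep _ _ fun l' hl' => ?_
  have : l' ≠ l := by rintro rfl; exact hl hl'
  rw [Function.update_of_ne this]

lemma LA.bil {W'' : Type*} [AddCommGroup W''] [Module ℝ W''] (h : LA A F)
    {K : (Λ → Mat N) → W'} (h' : LA A' K) (hd : Disjoint A A')
    (b : W →ₗ[ℝ] W' →ₗ[ℝ] W'') : LA (A ∪ A') (fun ζ => b (F ζ) (K ζ)) := by
  refine ⟨fun ζ ζ' hζ => ?_, fun ζ l => ?_⟩
  · rw [h.dep ζ ζ' fun l hl => hζ l (Or.inl hl), h'.dep ζ ζ' fun l hl => hζ l (Or.inr hl)]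
  · by_cases hl : l ∈ A
    · have hl' : l ∉ A' := fun h2 => Set.disjoint_left.1 hd hl h2
      obtain ⟨c, f, hf⟩ := h.aff ζ l
      refine ⟨b c (K ζ), (b.flip (K ζ)).comp f, fun M => ?_⟩
      rw [hf, h'.upd hl', map_add]
      rfl
    · obtain ⟨c, f, hf⟩ := h'.aff ζ l
      refine ⟨b (F ζ) c, (b (F ζ)).comp f, fun M => ?_⟩
      rw [hf, h.upd hl, map_add]
      rfl

/-- products -/
lemma LA.mul {R : Type*} [Ring R] [Algebra ℝ R] {F H : (Λ → Mat N) → R} (h : LA A F)
    (h' : LA A' H) (hd : Disjoint A A') : LA (A ∪ A') (fun ζ => F ζ * H ζ) :=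
  h.bil h' hd (LinearMap.mul ℝ R)

/-- quadratic functions -/
def QA (F : (Λ → Mat N) → W) : Prop := ∀ ζ l, ∃ c : W, ∃ f : Mat N →ₗ[ℝ] W,
  ∃ g : Mat N →ₗ[ℝ] Mat N →ₗ[ℝ] W, ∀ M, F (Function.update ζ l M) = c + f M + g M M

lemma LA.quad {W'' : Type*} [AddCommGroup W''] [Module ℝ W''] (h : LA A F)
    {K : (Λ → Mat N) → W'} (h' : LA A' K)
    (b : W →ₗ[ℝ] W' →ₗ[ℝ] W'') : QA (fun ζ => b (F ζ) (K ζ)) := by
  intro ζ l
  obtain ⟨c, f, hf⟩ := h.aff ζ l
  obtain ⟨c', f', hf'⟩ := h'.aff ζ l
  refine ⟨b c c', (b c).comp f' + (b.flip c').comp f, (b.comp f).compl₂ f', fun M => ?_⟩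
  simp only [hf, hf']
  simp only [map_add, LinearMap.add_apply, LinearMap.comp_apply, LinearMap.flip_apply,
    LinearMap.compl₂_apply]
  abel

/-- reindexing -/
lemma LA.reix {Λ' : Type*} [DecidableEq Λ'] (h : LA A F) (π : Λ → Λ') (hπ : Set.InjOn π A) :
    LA (π '' A) (fun ζ : Λ' → Mat N => F fun l => ζ (π l)) := by
  refine ⟨fun ζ ζ' hζ => h.dep _ _ fun l hl => hζ _ ⟨l, hl, rfl⟩, fun ζ l' => ?_⟩
  by_cases hl : ∃ l ∈ A, π l = l'
  · obtain ⟨l, hlA, rfl⟩ := hl
    obtain ⟨c, f, hf⟩ := h.aff (fun l => ζ (π l)) l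
    refine ⟨c, f, fun M => ?_⟩
    rw [← hf]
    refine h.dep _ _ fun l2 hl2 => ?_
    by_cases h3 : l2 = l
    · subst h3; simp
    · rw [Function.update_of_ne h3, Function.update_of_ne fun h4 => h3 (hπ hl2 hlA h4)]
  · refine ⟨F fun l => ζ (π l), 0, fun M => ?_⟩
    rw [LinearMap.zero_apply, add_zero]
    refine h.dep _ _ fun l2 hl2 => ?_
    rw [Function.update_of_ne fun h4 => hl ⟨l2, hl2, h4⟩]

end la

section noise

variable {Λ : Type*} [DecidableEq Λ] [Fintype Λ] {N : ℕ} {W : Type*} [AddCommGroup W]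
  [Module ℝ W] {A A' : Set Λ}

/-- the noise field -/
def nz (δ : ℝ) (s : Λ × Ic N → Bool) : Λ → Mat N := fun l => nm δ fun k => s (l, k)

/-- the mean of an affine function -/
lemma LA.mean {F : (Λ → Mat N) → W} (h : LA A F) (δ : ℝ) (z : Λ → Mat N) :
    avv (fun s : Λ × Ic N → Bool => F (z + nz δ s)) = F z := by
  have h1 := avv_swap (κ := Ic N) (fun l σ => z l + nm δ σ) (fun l σ => z l) F (fun ζ l => by
    obtain ⟨c, f, hf⟩ := h.aff ζ l
    simp only [hf, map_add]
    rw [avv_add, avv_add, nm_lin, avv_const, avv_const, avv_const, add_zero])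
  rw [avv_const] at h1
  exact h1

/-- rotations of the noise -/
lemma QA.rot {F : (Λ → Mat N) → W} (hF : QA F) (δ : ℝ) (z g h : Λ → Mat N)
    (hg : ∀ l, (g l)ᴴ * g l = 1) (hh : ∀ l, h l * (h l)ᴴ = 1) :
    avv (fun s : Λ × Ic N → Bool => F (fun l => z l + g l * nz δ s l * h l)) =
      avv (fun s : Λ × Ic N → Bool => F (z + nz δ s)) := by
  refine avv_swap (κ := Ic N) (fun l σ => z l + g l * nm δ σ * h l) (fun l σ => z l + nm δ σ) F
    (fun ζ l => ?_)
  obtain ⟨c, f, b, hf⟩ := hF ζ l
  have key : ∀ R : Mat N →ₗ[ℝ] Mat N, avv (fun σ : Ic N → Bool =>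
      F (Function.update ζ l (z l + R (nm δ σ)))) = c + f (z l) + b (z l) (z l) +
      δ ^ 2 • ∑ κ, b (R (EE κ)) (R (EE κ)) := by
    intro R
    have e1 : ∀ σ : Ic N → Bool, F (Function.update ζ l (z l + R (nm δ σ))) =
        (c + f (z l) + b (z l) (z l)) +
        ((f.comp R + (b (z l)).comp R + (b.flip (z l)).comp R) (nm δ σ) +
          ((b.comp R).compl₂ R) (nm δ σ) (nm δ σ)) := by
      intro σ
      rw [hf]
      simp only [map_add, LinearMap.add_apply, LinearMap.comp_apply, LinearMap.flip_apply,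
        LinearMap.compl₂_apply]
      abel
    simp only [e1]
    rw [avv_add (W := W) (fun _ => c + f (z l) + b (z l) (z l)), avv_add (W := W)
      (fun σ : Ic N → Bool => (f.comp R + (b (z l)).comp R + (b.flip (z l)).comp R) (nm δ σ)),
      nm_lin, nm_bil, avv_const, zero_add]
    rfl
  have h1 := key ((LinearMap.mulLeft ℝ (g l)).comp (LinearMap.mulRight ℝ (h l)))
  have h2 := key LinearMap.id
  simp only [LinearMap.comp_apply, LinearMap.mulLeft_apply, LinearMap.mulRight_apply,
    LinearMap.id_apply, ← Matrix.mul_assoc] at h1 h2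
  rw [rot_bil (hg l) (hh l) b] at h1
  exact h1.trans h2.symm

/-- the noise on the links in `A` -/
lemma LA.depOn {F : (Λ → Mat N) → W} (h : LA A F) (δ : ℝ) (z : Λ → Mat N) :
    DepOn (fun i : Λ × Ic N => i.1 ∈ A) (fun s : Λ × Ic N → Bool => F (z + nz δ s)) := by
  intro s s' hs
  refine h.dep _ _ fun l hl => ?_
  show z l + nm δ (fun k => s (l, k)) = z l + nm δ (fun k => s' (l, k))
  congr 2
  funext k
  exact hs _ hl

/-- independence of two factors -/
lemma avv_ind {ι : Type*} [Fintype ι] [DecidableEq ι] {W1 W2 W3 : Type*} [AddCommGroup W1]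
    [Module ℝ W1] [AddCommGroup W2] [Module ℝ W2] [AddCommGroup W3] [Module ℝ W3]
    (p : ι → Prop) {F : (ι → Bool) → W1} {H : (ι → Bool) → W2}
    (hF : DepOn p F) (hH : DepOn (fun i => ¬p i) H) (b : W1 →ₗ[ℝ] W2 →ₗ[ℝ] W3) :
    avv (fun s => b (F s) (H s)) = b (avv F) (avv H) := by
  classical
  rw [avv_mix p]
  have h1 : ∀ s s' : ι → Bool, b (F (mix p s s')) (H (mix p s s')) = b (F s) (H s') := by
    intro s s'
    rw [hF.mixl, hH.mixr]
  simp only [h1]
  have h2 : ∀ s : ι → Bool, avv (fun s' => b (F s) (H s')) = b (F s) (avv H) := fun s =>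
    (avv_map (b (F s)) H).symm
  simp only [h2]
  exact (avv_map (b.flip (avv H)) F).symm

/-- independence with a conjugation -/
lemma avv_cond {ι : Type*} [Fintype ι] [DecidableEq ι] {V : Type*}
    (p : ι → Prop) [DecidablePred p] {F : (ι → Bool) → V} (hF : DepOn (fun i => ¬p i) F)
    (K : (ι → Bool) → V → W) (hK : ∀ v, DepOn p fun s => K s v) :
    avv (fun s => K s (F s)) = avv (fun s => avv (fun s' => K s (F s'))) := by
  rw [avv_mix p]
  congr 1
  funext s
  congr 1
  funext s'
  rw [hF.mixr]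
  exact (hK (F s')).mixl s s'

end noise

end

end Pool.Agent.N985
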