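import Mathlib
import Pool.Agent.N985.La

/-!
# The hopping operators
-/

open MeasureTheory Matrix Filter
open scoped Matrix.Norms.Frobenius ContDiff Topology
open Pool.Agent.H906R3.YM hiding Pl
open Pool.Agent.W793.YM Pool.Agent.TH618.YM Pool.Agent.Y14 Pool.Agent.R990

namespace Pool.Agent.N985

set_option linter.unusedSectionVars false
set_option linter.unusedVariables false

noncomputable section

/-- the box -/
abbrev Bx (k : ℕ) := Fin k × Fin k

/-- the links of the box -/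
abbrev Lk (k : ℕ) := Bool × Bx k

section coords

variable {k : ℕ}

/-- the coordinate along the line -/
def ac (i : Bool) (u : Bx k) : Fin k := if i then u.2 else u.1

/-- the label of the line -/
def oc (i : Bool) (u : Bx k) : Fin k := if i then u.1 else u.2

/-- the point with given coordinates -/
def mkp (i : Bool) (a o : Fin k) : Bx k := if i then (o, a) else (a, o)

@[simp] lemma ac_mkp (i : Bool) (a o : Fin k) : ac i (mkp i a o) = a := by
  cases i <;> rfl

@[simp] lemma oc_mkp (i : Bool) (a o : Fin k) : oc i (mkp i a o) = o := by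
  cases i <;> rfl

lemma mkp_eta (i : Bool) (u : Bx k) : mkp i (ac i u) (oc i u) = u := by
  cases i <;> rfl

lemma oc_mkp_ne {i j : Bool} (h : j ≠ i) (a o : Fin k) : oc j (mkp i a o) = a := by
  cases i <;> cases j <;> first | rfl | exact absurd rfl h

lemma sum_mkp {M : Type*} [AddCommMonoid M] (i : Bool) (f : Bx k → M) :
    ∑ u, f u = ∑ o, ∑ a, f (mkp i a o) := by
  cases i
  · rw [Fintype.sum_prod_type, Finset.sum_comm]; rfl
  · rw [Fintype.sum_prod_type]; rfl

lemma sum_line {M : Type*} [AddCommMonoid M] (i : Bool) (o : Fin k) (f : Bx k → M) :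
    (∑ w, if o = oc i w then f w else 0) = ∑ a, f (mkp i a o) := by
  rw [sum_mkp i]
  simp only [oc_mkp]
  rw [Finset.sum_eq_single o]
  · simp
  · intro o' _ h
    exact Finset.sum_eq_zero fun a _ => if_neg (Ne.symm h)
  · simp

end coords

section line

variable {k N : ℕ}

/-- the link matrices along a line -/
def zt (z : Lk k → Mat N) (i : Bool) (o : Fin k) (j : ℕ) : Mat N :=
  if h : j < k then z (i, mkp i ⟨j, h⟩ o) else 1

/-- the products along a line -/
def Wl (z : Lk k → Mat N) (i : Bool) (o : Fin k) : ℕ → ℕ → Mat N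
  | _, 0 => 1
  | a, n + 1 => zt z i o a * Wl z i o (a + 1) n

/-- the transport along a line -/
def hol (z : Lk k → Mat N) (i : Bool) (o a b : Fin k) : Mat N :=
  if a ≤ b then Wl z i o a (b - a) else (Wl z i o b (a - b))ᴴ

/-- the links of a line -/
def Ln (i : Bool) (o : Fin k) : Set (Lk k) := {l | l.1 = i ∧ oc i l.2 = o}

/-- the links of a line from a given point on -/
def Lm (i : Bool) (o : Fin k) (a : ℕ) : Set (Lk k) :=
  {l | l.1 = i ∧ oc i l.2 = o ∧ a ≤ ac i l.2}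

variable {z : Lk k → Mat N} {i : Bool} {o : Fin k}

lemma Wl_zero (a : ℕ) : Wl z i o a 0 = 1 := rfl

lemma Wl_succ (a n : ℕ) : Wl z i o a (n + 1) = zt z i o a * Wl z i o (a + 1) n := rfl

lemma Wl_add (a n m : ℕ) : Wl z i o a (n + m) = Wl z i o a n * Wl z i o (a + n) m := by
  induction n generalizing a with
  | zero => simp [Wl_zero]
  | succ n ih =>
    have e : n + 1 + m = (n + m) + 1 := by ring
    rw [e, Wl_succ, ih, Wl_succ, ← Matrix.mul_assoc]
    congr 2
    ring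

/-- unitary link matrices -/
def Uz (z : Lk k → Mat N) : Prop := ∀ l, (z l)ᴴ * z l = 1

lemma Uz.zt (hz : Uz z) (i : Bool) (o : Fin k) (j : ℕ) : (zt z i o j)ᴴ * zt z i o j = 1 := by
  unfold N985.zt
  split_ifs with h
  · exact hz _
  · simp

lemma Uz.Wl (hz : Uz z) (i : Bool) (o : Fin k) (a n : ℕ) :
    (Wl z i o a n)ᴴ * Wl z i o a n = 1 := by
  induction n generalizing a with
  | zero => simp [Wl_zero]
  | succ n ih =>
    rw [Wl_succ, conjTranspose_mul, Matrix.mul_assoc, ← Matrix.mul_assoc (N985.zt z i o a)ᴴ,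
      hz.zt, one_mul]
    exact ih _

lemma hol_ct (a b : Fin k) : (hol z i o a b)ᴴ = hol z i o b a := by
  unfold hol
  rcases lt_trichotomy a b with h | h | h
  · rw [if_pos h.le, if_neg (not_le.2 h)]
  · subst h
    simp [Wl_zero]
  · rw [if_neg (not_le.2 h), if_pos h.le, conjTranspose_conjTranspose]

lemma hol_self (a : Fin k) : hol z i o a a = 1 := by
  unfold hol; simp [Wl_zero]

lemma hol_pre (hz : Uz z) (a b : Fin k) :
    hol z i o a b = (Wl z i o 0 a)ᴴ * Wl z i o 0 b := by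
  have key : ∀ a b : Fin k, a ≤ b → Wl z i o a (b - a) = (Wl z i o 0 a)ᴴ * Wl z i o 0 b := by
    intro a b h
    have h1 : (b : ℕ) = a + (b - a : ℕ) := by
      have : (a : ℕ) ≤ b := h
      omega
    have h2 := Wl_add (z := z) (i := i) (o := o) 0 a (b - a)
    rw [← h1, zero_add] at h2
    rw [h2, ← Matrix.mul_assoc, hz.Wl, one_mul]
  unfold hol
  split_ifs with h
  · exact key a b h
  · rw [key b a (not_le.1 h).le, conjTranspose_mul, conjTranspose_conjTranspose]

lemma hol_unit (hz : Uz z) (a b : Fin k) : (hol z i o a b)ᴴ * hol z i o a b = 1 := by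
  rw [hol_pre hz, conjTranspose_mul, conjTranspose_conjTranspose]
  have h1 : Wl z i o 0 a * (Wl z i o 0 a)ᴴ = 1 := mul_eq_one_comm.1 (hz.Wl i o 0 a)
  calc _ = (Wl z i o 0 b)ᴴ * (Wl z i o 0 a * (Wl z i o 0 a)ᴴ) * Wl z i o 0 b := by
        simp only [Matrix.mul_assoc]
    _ = _ := by rw [h1, mul_one, hz.Wl]

lemma hol_mul (hz : Uz z) (a b c : Fin k) :
    hol z i o a b * hol z i o b c = hol z i o a c := by
  rw [hol_pre hz, hol_pre hz, hol_pre hz]
  have h1 : Wl z i o 0 b * (Wl z i o 0 b)ᴴ = 1 := mul_eq_one_comm.1 (hz.Wl i o 0 b)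
  calc _ = (Wl z i o 0 a)ᴴ * (Wl z i o 0 b * (Wl z i o 0 b)ᴴ) * Wl z i o 0 c := by
        simp only [Matrix.mul_assoc]
    _ = _ := by rw [h1, mul_one]

lemma unit_norm {A : Mat N} (hA : Aᴴ * A = 1) (Z : Mat N) : ‖A * Z‖ = ‖Z‖ := by
  have h : ‖A * Z‖ ^ 2 = ‖Z‖ ^ 2 := by
    rw [norm_sq_ip, ip_mul_left, ← Matrix.mul_assoc, hA, one_mul, norm_sq_ip]
  exact (pow_left_inj₀ (norm_nonneg _) (norm_nonneg _) two_ne_zero).1 h

lemma unit_norm' {A : Mat N} (hA : Aᴴ * A = 1) (Z : Mat N) : ‖Aᴴ * Z‖ = ‖Z‖ :=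
  unit_norm (by rw [conjTranspose_conjTranspose]; exact mul_eq_one_comm.1 hA) Z

/-! ### affine dependence -/

lemma Wl_LA (a n : ℕ) : LA (Lm i o a) (fun z : Lk k → Mat N => Wl z i o a n) := by
  induction n generalizing a with
  | zero => exact LA.const _ _
  | succ n ih =>
    by_cases h : a < k
    · have h1 : LA {((i, mkp i ⟨a, h⟩ o) : Lk k)} (fun z : Lk k → Mat N => zt z i o a) := by
        have e : (fun z : Lk k → Mat N => zt z i o a) = fun z => z (i, mkp i ⟨a, h⟩ o) := by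
          funext z; unfold zt; rw [dif_pos h]
        rw [e]
        exact LA.coord _
      refine (h1.mul (ih (a + 1)) ?_).mono ?_
      · rw [Set.disjoint_singleton_left]
        intro h2
        have := h2.2.2
        simp at this
      · rintro l (rfl | hl)
        · exact ⟨rfl, by simp, by simp⟩
        · exact ⟨hl.1, hl.2.1, (Nat.le_succ a).trans hl.2.2⟩
    · have e : (fun z : Lk k → Mat N => Wl z i o a (n + 1)) = fun z => Wl z i o (a + 1) n := by
        funext z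
        rw [Wl_succ]
        unfold zt
        rw [dif_neg h, one_mul]
      rw [e]
      exact (ih (a + 1)).mono fun l hl => ⟨hl.1, hl.2.1, (Nat.le_succ a).trans hl.2.2⟩

/-- the adjoint as a linear map -/
def ctl (N : ℕ) : Mat N →ₗ[ℝ] Mat N where
  toFun A := Aᴴ
  map_add' A C := conjTranspose_add A C
  map_smul' c A := by
    rw [conjTranspose_smul, star_trivial]
    rfl

lemma hol_LA (a b : Fin k) : LA (Ln i o) (fun z : Lk k → Mat N => hol z i o a b) := by
  unfold hol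
  split_ifs with h
  · exact (Wl_LA (a : ℕ) _).mono fun l hl => ⟨hl.1, hl.2.1⟩
  · have h1 : LA (Ln i o) (fun z : Lk k → Mat N => Wl z i o b (a - b)) :=
      (Wl_LA (b : ℕ) _).mono fun l hl => ⟨hl.1, hl.2.1⟩
    exact h1.comp (ctl N)

/-! ### noise -/

lemma one_noise {A : Mat N} (hA : Aᴴ * A = 1) (δ : ℝ) (Z : Mat N) :
    avv (fun s : Ic N → Bool => ‖(A + nm δ s) * Z‖ ^ 2) = (1 + 2 * N * δ ^ 2) * ‖Z‖ ^ 2 := by
  have h1 : ∀ s : Ic N → Bool, ‖(A + nm δ s) * Z‖ ^ 2 = ‖Z‖ ^ 2 +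
      ((2 : ℝ) • (ip (A * Z)).toLinearMap.comp (LinearMap.mulRight ℝ Z)) (nm δ s) +
      ‖nm δ s * Z‖ ^ 2 := by
    intro s
    have e : ‖(A + nm δ s) * Z‖ ^ 2 = ‖A * Z‖ ^ 2 + 2 * ip (A * Z) (nm δ s * Z) +
        ‖nm δ s * Z‖ ^ 2 := by
      rw [add_mul, norm_sq_ip, norm_sq_ip, norm_sq_ip, ip_add_left, map_add, map_add,
        ip_comm (nm δ s * Z) (A * Z)]
      ring
    rw [e, unit_norm hA]
    rfl
  simp only [h1]
  rw [avv_add, avv_add, nm_lin, nm_norm, avv_const]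
  ring

lemma one_noise' {A : Mat N} (hA : Aᴴ * A = 1) (δ : ℝ) (Z : Mat N) :
    avv (fun s : Ic N → Bool => ‖(A + nm δ s)ᴴ * Z‖ ^ 2) = (1 + 2 * N * δ ^ 2) * ‖Z‖ ^ 2 := by
  have h1 : ∀ s : Ic N → Bool, ‖(A + nm δ s)ᴴ * Z‖ ^ 2 = ‖Z‖ ^ 2 +
      ((2 : ℝ) • (ip (Aᴴ * Z)).toLinearMap.comp ((LinearMap.mulRight ℝ Z).comp (ctl N)))
        (nm δ s) + ‖(nm δ s)ᴴ * Z‖ ^ 2 := by
    intro s
    have e : ‖(A + nm δ s)ᴴ * Z‖ ^ 2 = ‖Aᴴ * Z‖ ^ 2 + 2 * ip (Aᴴ * Z) ((nm δ s)ᴴ * Z) +
        ‖(nm δ s)ᴴ * Z‖ ^ 2 := by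
      rw [conjTranspose_add, add_mul, norm_sq_ip, norm_sq_ip, norm_sq_ip, ip_add_left, map_add,
        map_add, ip_comm ((nm δ s)ᴴ * Z) (Aᴴ * Z)]
      ring
    rw [e, unit_norm' hA]
    rfl
  simp only [h1]
  rw [avv_add, avv_add, nm_lin, nm_norm', avv_const]
  ring

lemma avv_link {W : Type*} [AddCommGroup W] [Module ℝ W] (l : Lk k) (F : (Ic N → Bool) → W) :
    avv (fun s : Lk k × Ic N → Bool => F fun κ => s (l, κ)) = avv F :=
  avv_res (φ := fun κ : Ic N => (l, κ)) (fun κ κ' h => (Prod.mk.inj h).2) F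

lemma Wl_noise (hz : Uz z) (δ : ℝ) (a n : ℕ) (Z : Mat N) :
    avv (fun s : Lk k × Ic N → Bool => ‖Wl (z + nz δ s) i o a n * Z‖ ^ 2) ≤
      (1 + 2 * N * δ ^ 2) ^ n * ‖Z‖ ^ 2 := by
  have hc : 0 ≤ 2 * N * δ ^ 2 := by positivity
  induction n generalizing a with
  | zero => simp [Wl_zero, avv_const]
  | succ n ih =>
    by_cases h : a < k
    · obtain ⟨l0, hl0⟩ : ∃ l0 : Lk k, l0 = (i, mkp i ⟨a, h⟩ o) := ⟨_, rfl⟩
      have e1 : ∀ s : Lk k × Ic N → Bool, ‖Wl (z + nz δ s) i o a (n + 1) * Z‖ ^ 2 =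
          ‖(z l0 + nm δ (fun κ => s (l0, κ))) * (Wl (z + nz δ s) i o (a + 1) n * Z)‖ ^ 2 := by
        intro s
        rw [Wl_succ, Matrix.mul_assoc]
        have : zt (z + nz δ s) i o a = z l0 + nm δ (fun κ => s (l0, κ)) := by
          unfold zt
          rw [dif_pos h, ← hl0]
          rfl
        rw [this]
      simp only [e1]
      have h2 := (Wl_LA (N := N) (i := i) (o := o) (a + 1) n).depOn δ z
      have h3 := avv_cond (W := ℝ) (fun j : Lk k × Ic N => j.1 ≠ l0)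
        (F := fun s : Lk k × Ic N → Bool => nm δ (fun κ => s (l0, κ)))
        (fun s s' hs => by
          simp only
          congr 1
          funext κ
          exact hs _ (by simp))
        (fun s M => ‖(z l0 + M) * (Wl (z + nz δ s) i o (a + 1) n * Z)‖ ^ 2)
        (fun M s s' hs => by
          have h6 : Wl (z + nz δ s) i o (a + 1) n = Wl (z + nz δ s') i o (a + 1) n :=
            h2 s s' fun j hj => hs j fun h4 => by
              have h7 : j.1 ∈ Lm i o (a + 1) := hj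
              rw [h4, hl0] at h7
              have := h7.2.2
              simp at this
          simp only [h6])
      rw [h3]
      have h4 : ∀ s : Lk k × Ic N → Bool, avv (fun s' : Lk k × Ic N → Bool =>
          ‖(z l0 + nm δ (fun κ => s' (l0, κ))) * (Wl (z + nz δ s) i o (a + 1) n * Z)‖ ^ 2) =
          (1 + 2 * N * δ ^ 2) * ‖Wl (z + nz δ s) i o (a + 1) n * Z‖ ^ 2 := by
        intro s
        rw [← one_noise (hz l0)]
        exact avv_link l0 (fun σ => ‖(z l0 + nm δ σ) * (Wl (z + nz δ s) i o (a + 1) n * Z)‖ ^ 2)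
      simp only [h4]
      rw [avv_real, av_smul, ← avv_real, pow_succ (1 + 2 * (N : ℝ) * δ ^ 2) n]
      have h5 := mul_le_mul_of_nonneg_left (ih (a + 1)) (by linarith : 0 ≤ 1 + 2 * N * δ ^ 2)
      linarith
    · have e1 : ∀ s : Lk k × Ic N → Bool, Wl (z + nz δ s) i o a (n + 1) =
          Wl (z + nz δ s) i o (a + 1) n := by
        intro s
        rw [Wl_succ]
        unfold zt
        rw [dif_neg h, one_mul]
      simp only [e1]
      refine (ih _).trans ?_
      have h6 : 0 ≤ (1 + 2 * N * δ ^ 2) ^ n * ‖Z‖ ^ 2 := by positivity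
      have h7 := mul_nonneg h6 hc
      rw [pow_succ (1 + 2 * (N : ℝ) * δ ^ 2) n]
      linarith

lemma Wl_noise' (hz : Uz z) (δ : ℝ) (a n : ℕ) (Z : Mat N) :
    avv (fun s : Lk k × Ic N → Bool => ‖(Wl (z + nz δ s) i o a n)ᴴ * Z‖ ^ 2) ≤
      (1 + 2 * N * δ ^ 2) ^ n * ‖Z‖ ^ 2 := by
  have hc : 0 ≤ 2 * N * δ ^ 2 := by positivity
  induction n generalizing a Z with
  | zero => simp [Wl_zero, avv_const]
  | succ n ih =>
    by_cases h : a < k
    · obtain ⟨l0, hl0⟩ : ∃ l0 : Lk k, l0 = (i, mkp i ⟨a, h⟩ o) := ⟨_, rfl⟩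
      have e1 : ∀ s : Lk k × Ic N → Bool, ‖(Wl (z + nz δ s) i o a (n + 1))ᴴ * Z‖ ^ 2 =
          ‖(Wl (z + nz δ s) i o (a + 1) n)ᴴ * ((z l0 + nm δ (fun κ => s (l0, κ)))ᴴ * Z)‖ ^ 2 := by
        intro s
        rw [Wl_succ, conjTranspose_mul, Matrix.mul_assoc]
        have : zt (z + nz δ s) i o a = z l0 + nm δ (fun κ => s (l0, κ)) := by
          unfold zt
          rw [dif_pos h, ← hl0]
          rfl
        rw [this]
      simp only [e1]
      have h2 := (Wl_LA (N := N) (i := i) (o := o) (a + 1) n).depOn δ z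
      have h3 := avv_cond (W := ℝ) (fun j : Lk k × Ic N => j.1 = l0)
        (F := fun s : Lk k × Ic N → Bool => Wl (z + nz δ s) i o (a + 1) n)
        (fun s s' hs => h2 s s' fun j hj => hs j fun h4 => by
          have h7 : j.1 ∈ Lm i o (a + 1) := hj
          rw [h4, hl0] at h7
          have := h7.2.2
          simp at this)
        (fun s M => ‖Mᴴ * ((z l0 + nm δ (fun κ => s (l0, κ)))ᴴ * Z)‖ ^ 2)
        (fun M s s' hs => by
          simp only
          have : (fun κ => s (l0, κ)) = fun κ => s' (l0, κ) := by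
            funext κ
            exact hs _ rfl
          rw [this])
      rw [h3]
      have h4 : avv (fun s : Lk k × Ic N → Bool => avv (fun s' : Lk k × Ic N → Bool =>
          ‖(Wl (z + nz δ s') i o (a + 1) n)ᴴ * ((z l0 + nm δ (fun κ => s (l0, κ)))ᴴ * Z)‖ ^ 2)) ≤
          avv (fun s : Lk k × Ic N → Bool => (1 + 2 * N * δ ^ 2) ^ n *
            ‖(z l0 + nm δ (fun κ => s (l0, κ)))ᴴ * Z‖ ^ 2) :=
        avv_mono fun s => ih _ _
      refine h4.trans (le_of_eq ?_)
      have h5 := avv_link (k := k) l0 (fun σ => ‖(z l0 + nm δ σ)ᴴ * Z‖ ^ 2)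
      rw [one_noise' (hz l0)] at h5
      rw [avv_real, av_smul, ← avv_real, h5, pow_succ (1 + 2 * (N : ℝ) * δ ^ 2) n]
      ring
    · have e1 : ∀ s : Lk k × Ic N → Bool, Wl (z + nz δ s) i o a (n + 1) =
          Wl (z + nz δ s) i o (a + 1) n := by
        intro s
        rw [Wl_succ]
        unfold zt
        rw [dif_neg h, one_mul]
      simp only [e1]
      refine (ih _ _).trans ?_
      have h6 : 0 ≤ (1 + 2 * N * δ ^ 2) ^ n * ‖Z‖ ^ 2 := by positivity
      have h7 := mul_nonneg h6 hc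
      rw [pow_succ (1 + 2 * (N : ℝ) * δ ^ 2) n]
      linarith

/-- the growth of the noise -/
def et (k N : ℕ) (δ : ℝ) : ℝ := (1 + 2 * N * δ ^ 2) ^ k - 1

lemma et_nonneg (δ : ℝ) : 0 ≤ et k N δ := by
  have h : (1 : ℝ) ≤ (1 + 2 * N * δ ^ 2) ^ k := one_le_pow₀ (by
    have : 0 ≤ 2 * N * δ ^ 2 := by positivity
    linarith)
  unfold et; linarith

lemma hol_noise (hz : Uz z) (δ : ℝ) (a b : Fin k) (Z : Mat N) :
    avv (fun s : Lk k × Ic N → Bool =>
      ‖(hol (z + nz δ s) i o a b - hol z i o a b) * Z‖ ^ 2) ≤ et k N δ * ‖Z‖ ^ 2 := by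
  have hc : (1 : ℝ) ≤ 1 + 2 * N * δ ^ 2 := by
    have : 0 ≤ 2 * N * δ ^ 2 := by positivity
    linarith
  have h1 : avv (fun s : Lk k × Ic N → Bool => ‖hol (z + nz δ s) i o a b * Z‖ ^ 2) ≤
      (1 + 2 * N * δ ^ 2) ^ k * ‖Z‖ ^ 2 := by
    unfold hol
    split_ifs with h
    · refine (Wl_noise hz δ _ _ Z).trans ?_
      exact mul_le_mul_of_nonneg_right (pow_le_pow_right₀ hc (by omega)) (sq_nonneg _)
    · refine (Wl_noise' hz δ _ _ Z).trans ?_
      exact mul_le_mul_of_nonneg_right (pow_le_pow_right₀ hc (by omega)) (sq_nonneg _)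
  have h2 := ((hol_LA (N := N) (i := i) (o := o) a b).comp
    ((2 : ℝ) • (ip (hol z i o a b * Z)).toLinearMap.comp (LinearMap.mulRight ℝ Z))).mean δ z
  have e1 : ∀ s : Lk k × Ic N → Bool, ‖(hol (z + nz δ s) i o a b - hol z i o a b) * Z‖ ^ 2 =
      (‖hol (z + nz δ s) i o a b * Z‖ ^ 2 + ‖Z‖ ^ 2) -
      ((2 : ℝ) • (ip (hol z i o a b * Z)).toLinearMap.comp (LinearMap.mulRight ℝ Z))
        (hol (z + nz δ s) i o a b) := by
    intro s
    have e : ((2 : ℝ) • (ip (hol z i o a b * Z)).toLinearMap.comp (LinearMap.mulRight ℝ Z))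
        (hol (z + nz δ s) i o a b) =
        2 * ip (hol z i o a b * Z) (hol (z + nz δ s) i o a b * Z) := rfl
    rw [e, ← unit_norm (hol_unit hz a b) Z, sub_mul, norm_sq_ip, norm_sq_ip, norm_sq_ip]
    have f1 : ∀ A C : Mat N, ip (A - C) (A - C) = ip A A + ip C C - 2 * ip C A := by
      intro A C
      have : ip (A - C) (A - C) = ip (A + (-1 : ℝ) • C) (A + (-1 : ℝ) • C) := by
        rw [neg_one_smul, ← sub_eq_add_neg]
      rw [this, ip_add_left, ip_smul_left, map_add, map_add, map_smul, map_smul, ip_comm A C,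
        smul_eq_mul, smul_eq_mul]
      ring
    exact f1 _ _
  have e2 : ((2 : ℝ) • (ip (hol z i o a b * Z)).toLinearMap.comp (LinearMap.mulRight ℝ Z))
      (hol z i o a b) = 2 * ‖Z‖ ^ 2 := by
    rw [← unit_norm (hol_unit (i := i) (o := o) hz a b) Z, norm_sq_ip]
    rfl
  simp only [e1]
  rw [avv_sub, avv_add, avv_const, h2, e2]
  unfold et
  linarith

end line

end

end Pool.Agent.N985
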