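import Mathlib
import Pool.Agent.N985.Cell

/-!
# The hopping operators: projections, masks, noise
-/

open MeasureTheory Matrix Filter
open scoped Matrix.Norms.Frobenius ContDiff Topology
open Pool.Agent.H906R3.YM hiding Pl
open Pool.Agent.W793.YM Pool.Agent.TH618.YM Pool.Agent.Y14 Pool.Agent.R990

namespace Pool.Agent.N985

set_option linter.unusedSectionVars false
set_option linter.unusedVariables false

noncomputable section

section lops

variable {k N : ℕ}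

/-- operators along the lines -/
def lop (i : Bool) (D : Bx k → Bx k → Mat N) : Mb (Bx k) N :=
  Matrix.of fun u w => if oc i u = oc i w then ((k : ℝ)⁻¹) • D u w else 0

lemma lop_apply (i : Bool) (D : Bx k → Bx k → Mat N) (u w : Bx k) :
    lop i D u w = if oc i u = oc i w then ((k : ℝ)⁻¹) • D u w else 0 := rfl

lemma lop_mul (i : Bool) (D : Bx k → Bx k → Mat N) (Z : Mb (Bx k) N) (u v : Bx k) :
    (lop i D * Z) u v = ((k : ℝ)⁻¹) • ∑ a, D u (mkp i a (oc i u)) * Z (mkp i a (oc i u)) v := by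
  rw [Matrix.mul_apply]
  have h1 : ∀ w, lop i D u w * Z w v = if oc i u = oc i w then ((k : ℝ)⁻¹) • (D u w * Z w v)
      else 0 := by
    intro w
    rw [lop_apply]
    split_ifs with h
    · rw [smul_mul_assoc]
    · rw [zero_mul]
  simp only [h1]
  rw [sum_line, Finset.smul_sum]

lemma lop_norm (i : Bool) (D : Bx k → Bx k → Mat N) (Z : Mb (Bx k) N) (u v : Bx k) :
    ‖(lop i D * Z) u v‖ ^ 2 ≤
      (k : ℝ)⁻¹ * ∑ a, ‖D u (mkp i a (oc i u)) * Z (mkp i a (oc i u)) v‖ ^ 2 := by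
  rw [lop_mul, norm_smul, mul_pow]
  have h1 : ‖∑ a, D u (mkp i a (oc i u)) * Z (mkp i a (oc i u)) v‖ ^ 2 ≤
      k * ∑ a, ‖D u (mkp i a (oc i u)) * Z (mkp i a (oc i u)) v‖ ^ 2 := by
    refine (pow_le_pow_left₀ (norm_nonneg _) (norm_sum_le _ _) 2).trans ?_
    refine (sq_sum_le_card_mul_sum_sq).trans (le_of_eq ?_)
    rw [Finset.card_univ, Fintype.card_fin]
  have h2 : ‖((k : ℝ)⁻¹)‖ ^ 2 = (k : ℝ)⁻¹ * (k : ℝ)⁻¹ := by
    rw [Real.norm_eq_abs, sq_abs, pow_two]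
  rw [h2]
  rcases Nat.eq_zero_or_pos k with hk | hk
  · subst hk
    simp
  · have hk0 : (0 : ℝ) < k := by exact_mod_cast hk
    calc _ ≤ (k : ℝ)⁻¹ * (k : ℝ)⁻¹ * (k * ∑ a, ‖D u (mkp i a (oc i u)) *
          Z (mkp i a (oc i u)) v‖ ^ 2) := mul_le_mul_of_nonneg_left h1 (by positivity)
      _ = _ := by field_simp

/-- masks -/
def Qm (i : Bool) : Mb (Bx k) N →ₗ[ℝ] Mb (Bx k) N where
  toFun X := Matrix.of fun u v => if oc i u = oc i v then X u v else 0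
  map_add' X Y := by
    ext1 u v
    simp only [Matrix.of_apply, Matrix.add_apply]
    split_ifs <;> simp
  map_smul' c X := by
    ext1 u v
    simp only [Matrix.of_apply, Matrix.smul_apply, RingHom.id_apply]
    split_ifs <;> simp

/-- the diagonal mask -/
def Qdm : Mb (Bx k) N →ₗ[ℝ] Mb (Bx k) N where
  toFun X := Matrix.of fun u v => if u = v then X u v else 0
  map_add' X Y := by
    ext1 u v
    simp only [Matrix.of_apply, Matrix.add_apply]
    split_ifs <;> simp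
  map_smul' c X := by
    ext1 u v
    simp only [Matrix.of_apply, Matrix.smul_apply, RingHom.id_apply]
    split_ifs <;> simp

lemma Qm_apply (i : Bool) (X : Mb (Bx k) N) (u v : Bx k) :
    Qm i X u v = if oc i u = oc i v then X u v else 0 := rfl

lemma Qdm_apply (X : Mb (Bx k) N) (u v : Bx k) : Qdm X u v = if u = v then X u v else 0 := rfl

lemma Qm_sa (i : Bool) (X Y : Mb (Bx k) N) : ipb (Qm i X) Y = ipb X (Qm i Y) := by
  unfold ipb
  refine Finset.sum_congr rfl fun u _ => Finset.sum_congr rfl fun v _ => ?_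
  rw [Qm_apply, Qm_apply]
  split_ifs
  · rfl
  · rw [ip_comm]; simp

lemma Qdm_sa (X Y : Mb (Bx k) N) : ipb (Qdm X) Y = ipb X (Qdm Y) := by
  unfold ipb
  refine Finset.sum_congr rfl fun u _ => Finset.sum_congr rfl fun v _ => ?_
  rw [Qdm_apply, Qdm_apply]
  split_ifs
  · rfl
  · rw [ip_comm]; simp

lemma Qm_Qm (i : Bool) (X : Mb (Bx k) N) : Qm i (Qm i X) = Qm i X := by
  ext1 u v
  rw [Qm_apply, Qm_apply]
  split_ifs <;> rfl

lemma Qdm_Qdm (X : Mb (Bx k) N) : Qdm (Qdm X) = Qdm X := by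
  ext1 u v
  rw [Qdm_apply, Qdm_apply]
  split_ifs <;> rfl

lemma Qdm_Qm (i : Bool) (X : Mb (Bx k) N) : Qdm (Qm i X) = Qdm X := by
  ext1 u v
  rw [Qdm_apply, Qdm_apply, Qm_apply]
  by_cases h : u = v
  · subst h; simp
  · simp [h]

lemma proj_norm {Q : Mb (Bx k) N →ₗ[ℝ] Mb (Bx k) N} (h1 : ∀ X Y, ipb (Q X) Y = ipb X (Q Y))
    (h2 : ∀ X, Q (Q X) = Q X) (X : Mb (Bx k) N) : ‖Q X‖ ≤ ‖X‖ := by
  have h3 : ‖Q X‖ ^ 2 ≤ ‖X‖ * ‖Q X‖ := by
    rw [nb_eq, h1, h2]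
    exact ipb_le _ _
  by_contra hlt
  push Not at hlt
  have h4 : 0 < ‖Q X‖ := (norm_nonneg _).trans_lt hlt
  nlinarith

lemma Qm_norm (i : Bool) (X : Mb (Bx k) N) : ‖Qm i X‖ ≤ ‖X‖ :=
  proj_norm (Qm_sa i) (Qm_Qm i) X

lemma Qdm_norm (X : Mb (Bx k) N) : ‖Qdm X‖ ≤ ‖X‖ :=
  proj_norm Qdm_sa Qdm_Qdm X

lemma Qm_ct (i : Bool) (X : Mb (Bx k) N) : Qm i Xᴴ = (Qm i X)ᴴ := by
  ext1 u v
  rw [Matrix.conjTranspose_apply, Qm_apply, Qm_apply, Matrix.conjTranspose_apply]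
  by_cases h : oc i u = oc i v
  · rw [if_pos h, if_pos h.symm]
  · rw [if_neg h, if_neg (Ne.symm h), star_zero]

lemma Qdm_ct (X : Mb (Bx k) N) : Qdm Xᴴ = (Qdm X)ᴴ := by
  ext1 u v
  rw [Matrix.conjTranspose_apply, Qdm_apply, Qdm_apply, Matrix.conjTranspose_apply]
  by_cases h : u = v
  · rw [if_pos h, if_pos h.symm]
  · rw [if_neg h, if_neg (Ne.symm h), star_zero]

/-- the masks commute with the operators along the lines -/
lemma Qm_lop (i : Bool) (D : Bx k → Bx k → Mat N) (X : Mb (Bx k) N) :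
    Qm i (lop i D * X) = lop i D * Qm i X := by
  ext1 u v
  rw [Qm_apply, lop_mul, lop_mul]
  by_cases h : oc i u = oc i v
  · rw [if_pos h]
    congr 1
    refine Finset.sum_congr rfl fun a _ => ?_
    rw [Qm_apply, oc_mkp, if_pos h]
  · rw [if_neg h, Finset.sum_eq_zero, smul_zero]
    intro a _
    rw [Qm_apply, oc_mkp, if_neg h, mul_zero]

lemma Qdm_lop (i : Bool) (D : Bx k → Bx k → Mat N) (X : Mb (Bx k) N) :
    Qdm (lop i D * Qm i X) = Qdm (lop i D * X) := by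
  rw [← Qm_lop, Qdm_Qm]

lemma lop_norm_sum (i : Bool) {D : Bx k → Bx k → Mat N}
    (hD : ∀ u w (Z : Mat N), ‖D u w * Z‖ = ‖Z‖) (X : Mb (Bx k) N) (u v : Bx k) :
    ‖(lop i D * X) u v‖ ^ 2 ≤ (k : ℝ)⁻¹ * ∑ a, ‖X (mkp i a (oc i u)) v‖ ^ 2 := by
  refine (lop_norm i D X u v).trans (le_of_eq ?_)
  simp only [hD]

lemma Qm_lop_norm {i j : Bool} (hij : j ≠ i) {D : Bx k → Bx k → Mat N}
    (hD : ∀ u w (Z : Mat N), ‖D u w * Z‖ = ‖Z‖) (X : Mb (Bx k) N) :
    ‖Qm j (lop i D * X)‖ ^ 2 ≤ (k : ℝ)⁻¹ * ‖X‖ ^ 2 := by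
  rw [nb_sum, nb_sum X, sum_mkp i, sum_mkp i]
  have h1 : ∀ o b, ∑ v, ‖Qm j (lop i D * X) (mkp i b o) v‖ ^ 2 ≤
      ∑ v, if b = oc j v then (k : ℝ)⁻¹ * ∑ a, ‖X (mkp i a o) v‖ ^ 2 else 0 := by
    intro o b
    refine Finset.sum_le_sum fun v _ => ?_
    rw [Qm_apply, oc_mkp_ne hij]
    split_ifs with h
    · have := lop_norm_sum i hD X (mkp i b o) v
      rw [oc_mkp] at this
      exact this
    · simp
  refine (Finset.sum_le_sum fun o _ => Finset.sum_le_sum fun b _ => h1 o b).trans (le_of_eq ?_)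
  rw [Finset.mul_sum]
  refine Finset.sum_congr rfl fun o _ => ?_
  rw [Finset.sum_comm, Finset.mul_sum]
  have h2 : ∀ v : Bx k, (∑ b, if b = oc j v then (k : ℝ)⁻¹ * ∑ a, ‖X (mkp i a o) v‖ ^ 2 else 0) =
      (k : ℝ)⁻¹ * ∑ a, ‖X (mkp i a o) v‖ ^ 2 := by
    intro v
    rw [Finset.sum_ite_eq']
    simp
  simp only [h2]
  simp only [Finset.mul_sum]
  rw [Finset.sum_comm]

lemma Qdm_lop_norm (i : Bool) {D : Bx k → Bx k → Mat N}
    (hD : ∀ u w (Z : Mat N), ‖D u w * Z‖ = ‖Z‖) (X : Mb (Bx k) N) :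
    ‖Qdm (lop i D * X)‖ ^ 2 ≤ (k : ℝ)⁻¹ * ‖X‖ ^ 2 := by
  have h0 : ‖X‖ ^ 2 = ∑ v, ∑ u, ‖X u v‖ ^ 2 := by rw [nb_sum, Finset.sum_comm]
  have h0' : ‖Qdm (lop i D * X)‖ ^ 2 = ∑ v, ∑ u, ‖Qdm (lop i D * X) u v‖ ^ 2 := by
    rw [nb_sum, Finset.sum_comm]
  rw [h0, h0', Finset.mul_sum]
  refine Finset.sum_le_sum fun v _ => ?_
  rw [Finset.sum_eq_single v]
  · rw [Qdm_apply, if_pos rfl]
    refine (lop_norm_sum i hD X v v).trans ?_
    refine mul_le_mul_of_nonneg_left ?_ (by positivity)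
    rw [sum_mkp i]
    exact Finset.single_le_sum (f := fun o => ∑ a, ‖X (mkp i a o) v‖ ^ 2)
      (fun o _ => Finset.sum_nonneg fun a _ => sq_nonneg _) (Finset.mem_univ _)
  · intro u _ hu
    rw [Qdm_apply, if_neg hu]
    simp
  · simp

/-! ### the projections -/

variable {z : Lk k → Mat N}

/-- the hopping along the lines -/
def Pm (z : Lk k → Mat N) (i : Bool) : Mb (Bx k) N :=
  lop i fun u w => hol z i (oc i u) (ac i u) (ac i w)

lemma Pm_ct (z : Lk k → Mat N) (i : Bool) : (Pm z i)ᴴ = Pm z i := by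
  ext1 u w
  rw [Matrix.conjTranspose_apply]
  unfold Pm
  rw [lop_apply, lop_apply]
  by_cases h : oc i u = oc i w
  · rw [if_pos h, if_pos h.symm, star_eq_conjTranspose, conjTranspose_smul, star_trivial, hol_ct,
      h]
  · rw [if_neg h, if_neg (Ne.symm h), star_zero]

lemma Pm_sq (hz : Uz z) (i : Bool) : Pm z i * Pm z i = Pm z i := by
  ext1 u v
  unfold Pm
  rw [lop_mul, lop_apply]
  have hk : (k : ℝ) ≠ 0 := by
    have := (oc i u).pos
    exact_mod_cast this.ne'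
  by_cases h : oc i u = oc i v
  · rw [if_pos h]
    congr 1
    have h1 : ∀ a : Fin k, hol z i (oc i u) (ac i u) (ac i (mkp i a (oc i u))) *
        lop i (fun u w => hol z i (oc i u) (ac i u) (ac i w)) (mkp i a (oc i u)) v =
        (k : ℝ)⁻¹ • hol z i (oc i u) (ac i u) (ac i v) := by
      intro a
      rw [lop_apply, oc_mkp, if_pos h, mul_smul_comm, ac_mkp, hol_mul hz]
    simp only [h1]
    rw [Finset.sum_const, Finset.card_univ, Fintype.card_fin, ← Nat.cast_smul_eq_nsmul ℝ,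
      smul_smul, mul_inv_cancel₀ hk, one_smul]
  · rw [if_neg h, Finset.sum_eq_zero, smul_zero]
    intro a _
    rw [lop_apply, oc_mkp, if_neg h, mul_zero]

lemma Pm_norm (hz : Uz z) (i : Bool) (X : Mb (Bx k) N) : ‖Pm z i * X‖ ≤ ‖X‖ := by
  refine proj_norm (Q := LinearMap.mulLeft ℝ (Pm z i)) (fun X Y => ?_) (fun X => ?_) X
  · show ipb (Pm z i * X) Y = ipb X (Pm z i * Y)
    rw [ipb_mul_left, Pm_ct]
  · show Pm z i * (Pm z i * X) = Pm z i * X
    rw [← Matrix.mul_assoc, Pm_sq hz]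

lemma mul_Pm (i : Bool) (X : Mb (Bx k) N) : X * Pm z i = (Pm z i * Xᴴ)ᴴ := by
  rw [Matrix.conjTranspose_mul, Matrix.conjTranspose_conjTranspose, Pm_ct]

lemma Pm_norm' (hz : Uz z) (i : Bool) (X : Mb (Bx k) N) : ‖X * Pm z i‖ ≤ ‖X‖ := by
  rw [mul_Pm, norm_ctb, ← norm_ctb X]
  exact Pm_norm hz i _

lemma Q1 (i : Bool) (X : Mb (Bx k) N) : Qm i (Pm z i * X) = Pm z i * Qm i X := Qm_lop _ _ _

lemma Q1' (i : Bool) (X : Mb (Bx k) N) : Qm i (X * Pm z i) = Qm i X * Pm z i := by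
  rw [mul_Pm, Qm_ct, Q1, Qm_ct, mul_Pm]

lemma Q2 (hz : Uz z) {i j : Bool} (hij : j ≠ i) (X : Mb (Bx k) N) :
    ‖Qm j (Pm z i * X)‖ ^ 2 ≤ (k : ℝ)⁻¹ * ‖X‖ ^ 2 :=
  Qm_lop_norm hij (fun u w Z => unit_norm (hol_unit hz _ _) Z) X

lemma Q2' (hz : Uz z) {i j : Bool} (hij : j ≠ i) (X : Mb (Bx k) N) :
    ‖Qm j (X * Pm z i)‖ ^ 2 ≤ (k : ℝ)⁻¹ * ‖X‖ ^ 2 := by
  rw [mul_Pm, Qm_ct, norm_ctb, ← norm_ctb X]
  exact Q2 hz hij _

lemma Q3 (hz : Uz z) (i : Bool) (X : Mb (Bx k) N) :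
    ‖Qdm (Pm z i * X)‖ ^ 2 ≤ (k : ℝ)⁻¹ * ‖X‖ ^ 2 :=
  Qdm_lop_norm i (fun u w Z => unit_norm (hol_unit hz _ _) Z) X

lemma Q3' (hz : Uz z) (i : Bool) (X : Mb (Bx k) N) :
    ‖Qdm (X * Pm z i)‖ ^ 2 ≤ (k : ℝ)⁻¹ * ‖X‖ ^ 2 := by
  rw [mul_Pm, Qdm_ct, norm_ctb, ← norm_ctb X]
  exact Q3 hz i _

lemma Q4 (i : Bool) (X : Mb (Bx k) N) : Qdm (Pm z i * Qm i X) = Qdm (Pm z i * X) :=
  Qdm_lop _ _ _

lemma Q4' (i : Bool) (X : Mb (Bx k) N) : Qdm (Qm i X * Pm z i) = Qdm (X * Pm z i) := by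
  rw [mul_Pm, mul_Pm, Qdm_ct, Qdm_ct, ← Qm_ct, Q4]

/-- single blocks -/
def sgl {B : Type*} [DecidableEq B] (u v : B) : Mat N →ₗ[ℝ] Mb B N where
  toFun A := Matrix.single u v A
  map_add' A C := Matrix.single_add _ _ _ _
  map_smul' c A := by rw [RingHom.id_apply, Matrix.smul_single]

lemma LA.mat {Λ : Type*} [DecidableEq Λ] {A : Set Λ} {B : Type*} [Fintype B] [DecidableEq B]
    {F : (Λ → Mat N) → Mb B N} (h : ∀ u v, LA A fun ζ => F ζ u v) : LA A F := by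
  have e : F = fun ζ => ∑ u, ∑ v, sgl u v (F ζ u v) := by
    funext ζ
    exact Matrix.matrix_eq_sum_single (F ζ)
  rw [e]
  exact LA.sum _ fun u _ => LA.sum _ fun v _ => (h u v).comp (sgl u v)

/-- the links in the direction `i` -/
def Ld (i : Bool) : Set (Lk k) := {l | l.1 = i}

lemma Pm_LA' (i : Bool) (u w : Bx k) :
    LA (Ln i (oc i u)) (fun z : Lk k → Mat N => Pm z i u w) := by
  unfold Pm
  simp only [lop_apply]
  split_ifs with h
  · exact (hol_LA _ _).smul _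
  · exact LA.const _ _

lemma Pm_LA (i : Bool) : LA (Ld i) (fun z : Lk k → Mat N => Pm z i) :=
  LA.mat fun u w => (Pm_LA' i u w).mono fun l hl => hl.1

/-- the variation of the hopping -/
def Dm (z : Lk k → Mat N) (δ : ℝ) (i : Bool) (s : Lk k × Ic N → Bool) : Mb (Bx k) N :=
  Pm (z + nz δ s) i - Pm z i

lemma Dm_ct (δ : ℝ) (i : Bool) (s : Lk k × Ic N → Bool) : (Dm z δ i s)ᴴ = Dm z δ i s := by
  unfold Dm
  rw [Matrix.conjTranspose_sub, Pm_ct, Pm_ct]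

lemma Dm_lop (δ : ℝ) (i : Bool) (s : Lk k × Ic N → Bool) : Dm z δ i s =
    lop i fun u w => hol (z + nz δ s) i (oc i u) (ac i u) (ac i w) -
      hol z i (oc i u) (ac i u) (ac i w) := by
  ext1 u w
  unfold Dm Pm
  rw [Matrix.sub_apply, lop_apply, lop_apply, lop_apply]
  split_ifs
  · rw [smul_sub]
  · rw [sub_zero]

lemma Dm_mean (z : Lk k → Mat N) (δ : ℝ) (i : Bool) : avv (Dm z δ i) = 0 := by
  have h1 := (Pm_LA (N := N) (k := k) i).mean δ z
  have h2 : avv (fun s : Lk k × Ic N → Bool => Pm (z + nz δ s) i - Pm z i) = 0 := by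
    rw [avv_sub, h1, avv_const, sub_self]
  exact h2

lemma Dm_dep (z : Lk k → Mat N) (δ : ℝ) (i : Bool) :
    DepOn (fun j : Lk k × Ic N => j.1.1 = i) (Dm z δ i) := by
  intro s s' h
  unfold Dm
  congr 1
  exact (Pm_LA (N := N) (k := k) i).depOn δ z s s' h

lemma Dm_dep' (z : Lk k → Mat N) (δ : ℝ) (i : Bool) (u w : Bx k) :
    DepOn (fun j : Lk k × Ic N => j.1 ∈ Ln i (oc i u)) (fun s => Dm z δ i s u w) := by
  intro s s' h
  have e : ∀ s, Dm z δ i s u w = Pm (z + nz δ s) i u w - Pm z i u w := fun s => rfl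
  simp only [e]
  congr 1
  exact (Pm_LA' (N := N) (k := k) i u w).depOn δ z s s' h

lemma avv_nb (δ : ℝ) (hz : Uz z) (i : Bool) (X : Mb (Bx k) N) :
    avv (fun s => ‖Dm z δ i s * X‖ ^ 2) ≤ et k N δ * ‖X‖ ^ 2 := by
  rcases Nat.eq_zero_or_pos k with hk | hk
  · subst hk
    have : ∀ A : Mb (Bx 0) N, ‖A‖ ^ 2 = 0 := by
      intro A
      rw [nb_sum]
      simp
    simp only [this]
    rw [avv_const]
    simp
  have hk0 : (0 : ℝ) < k := by exact_mod_cast hk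
  have e1 : ∀ s, ‖Dm z δ i s * X‖ ^ 2 = ∑ u, ∑ v, ‖(Dm z δ i s * X) u v‖ ^ 2 := fun s => nb_sum _
  simp only [e1]
  rw [avv_sum]
  simp only [avv_sum]
  have h1 : ∀ u v, avv (fun s => ‖(Dm z δ i s * X) u v‖ ^ 2) ≤
      (k : ℝ)⁻¹ * (et k N δ * ∑ a, ‖X (mkp i a (oc i u)) v‖ ^ 2) := by
    intro u v
    refine (avv_mono (H := fun s : Lk k × Ic N → Bool => (k : ℝ)⁻¹ *
      ∑ a, ‖(hol (z + nz δ s) i (oc i u) (ac i u) a -
        hol z i (oc i u) (ac i u) a) * X (mkp i a (oc i u)) v‖ ^ 2) fun s => ?_).trans ?_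
    · rw [Dm_lop]
      have := lop_norm i (fun u w => hol (z + nz δ s) i (oc i u) (ac i u) (ac i w) -
        hol z i (oc i u) (ac i u) (ac i w)) X u v
      simp only [ac_mkp] at this
      exact this
    · rw [avv_real, av_smul, ← avv_real, avv_sum]
      have hkk : (0 : ℝ) ≤ (k : ℝ)⁻¹ := by positivity
      refine mul_le_mul_of_nonneg_left ?_ hkk
      rw [Finset.mul_sum]
      exact Finset.sum_le_sum fun a _ => hol_noise hz δ _ _ _
  refine (Finset.sum_le_sum fun u _ => Finset.sum_le_sum fun v _ => h1 u v).trans (le_of_eq ?_)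
  rw [sum_mkp i, nb_sum X, sum_mkp i, Finset.mul_sum]
  refine Finset.sum_congr rfl fun o _ => ?_
  simp only [oc_mkp]
  rw [Finset.sum_const, Finset.card_univ, Fintype.card_fin, nsmul_eq_mul]
  simp only [← Finset.mul_sum]
  rw [Finset.sum_comm (f := fun v a => ‖X (mkp i a o) v‖ ^ 2)]
  field_simp

lemma avv_nb' (δ : ℝ) (hz : Uz z) (i : Bool) (X : Mb (Bx k) N) :
    avv (fun s => ‖X * Dm z δ i s‖ ^ 2) ≤ et k N δ * ‖X‖ ^ 2 := by
  have h1 : ∀ s, ‖X * Dm z δ i s‖ = ‖Dm z δ i s * Xᴴ‖ := by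
    intro s
    rw [← norm_ctb, Matrix.conjTranspose_mul, Dm_ct]
  simp only [h1]
  refine (avv_nb δ hz i _).trans (le_of_eq ?_)
  rw [norm_ctb]

/-- the effect of the noise on one family of lines -/
def Rr (z : Lk k → Mat N) (δ : ℝ) (i : Bool) : Mb (Bx k) N →ₗ[ℝ] Mb (Bx k) N where
  toFun X := avv fun s => Dm z δ i s * X * Dm z δ i s
  map_add' X Y := by
    rw [← avv_add]
    congr 1
    funext s
    rw [mul_add, add_mul]
  map_smul' c X := by
    rw [RingHom.id_apply, ← avv_smul]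
    congr 1
    funext s
    rw [mul_smul_comm, smul_mul_assoc]

lemma Rr_apply (δ : ℝ) (i : Bool) (X : Mb (Bx k) N) :
    Rr z δ i X = avv fun s => Dm z δ i s * X * Dm z δ i s := rfl

lemma avv_ip (Z : Mb (Bx k) N) {ι : Type*} [Fintype ι] [DecidableEq ι]
    (F : (ι → Bool) → Mb (Bx k) N) : ipb Z (avv F) = avv (fun s => ipb Z (F s)) :=
  avv_map (ipL Z) F

lemma Rr_sa (δ : ℝ) (i : Bool) (X Y : Mb (Bx k) N) :
    ipb (Rr z δ i X) Y = ipb X (Rr z δ i Y) := by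
  rw [ipb_comm, Rr_apply, Rr_apply, avv_ip, avv_ip]
  congr 1
  funext s
  rw [ipb_comm, ipb_mul_right, ipb_mul_left, Dm_ct, ← Matrix.mul_assoc]

lemma Rr_ip (δ : ℝ) (hz : Uz z) (i : Bool) (X Y : Mb (Bx k) N) :
    |ipb X (Rr z δ i Y)| ≤ et k N δ * ‖X‖ * ‖Y‖ := by
  have h : ipb X (Rr z δ i Y) ^ 2 ≤ (et k N δ * ‖X‖ ^ 2) * (et k N δ * ‖Y‖ ^ 2) := by
    refine Pool.Agent.H906R3.YM.sq_le_of_forall fun t => ?_
    have h1 : ∀ s, ‖Dm z δ i s * X + t • (Y * Dm z δ i s)‖ ^ 2 = ‖Dm z δ i s * X‖ ^ 2 +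
        (2 * t) * ipb X (Dm z δ i s * Y * Dm z δ i s) + t ^ 2 * ‖Y * Dm z δ i s‖ ^ 2 := by
      intro s
      have e1 : ipb X (Dm z δ i s * Y * Dm z δ i s) = ipb (Dm z δ i s * X) (Y * Dm z δ i s) := by
        rw [ipb_mul_left, Dm_ct, ← Matrix.mul_assoc]
      rw [e1, nb_eq, nb_eq, nb_eq, ipb_add_left, ipb_add_right, ipb_add_right, ipb_smul_left,
        ipb_smul_left, ipb_smul_right, ipb_smul_right, ipb_comm (Y * Dm z δ i s) (Dm z δ i s * X)]
      ring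
    have h2 : 0 ≤ avv (fun s => ‖Dm z δ i s * X + t • (Y * Dm z δ i s)‖ ^ 2) :=
      avv_nonneg fun s => sq_nonneg _
    simp only [h1] at h2
    rw [avv_add, avv_add, avv_real (fun s => 2 * t * ipb X (Dm z δ i s * Y * Dm z δ i s)),
      av_smul, ← avv_real, ← avv_ip, avv_real (fun s => t ^ 2 * ‖Y * Dm z δ i s‖ ^ 2), av_smul,
      ← avv_real, ← Rr_apply] at h2
    have h3 := avv_nb δ hz i X
    have h4 := mul_le_mul_of_nonneg_left (avv_nb' δ hz i Y) (sq_nonneg t)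
    linarith
  have h5 : (et k N δ * ‖X‖ ^ 2) * (et k N δ * ‖Y‖ ^ 2) = (et k N δ * ‖X‖ * ‖Y‖) ^ 2 := by ring
  rw [h5] at h
  have := et_nonneg (k := k) (N := N) δ
  exact abs_le_of_sq_le_sq h (by positivity)

lemma Rr_norm (δ : ℝ) (hz : Uz z) (i : Bool) (X : Mb (Bx k) N) :
    ‖Rr z δ i X‖ ≤ et k N δ * ‖X‖ := by
  have h1 := (le_abs_self _).trans (Rr_ip δ hz i (Rr z δ i X) X)
  rw [← nb_eq] at h1
  by_contra hlt
  push Not at hlt
  have h0 : 0 ≤ et k N δ * ‖X‖ := mul_nonneg (et_nonneg δ) (norm_nonneg _)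
  have h2 : 0 < ‖Rr z δ i X‖ := h0.trans_lt hlt
  nlinarith

/-- localisation -/
lemma Rr_loc (z : Lk k → Mat N) (δ : ℝ) (i : Bool) (X : Mb (Bx k) N) :
    Qm i (Rr z δ i X) = Rr z δ i X := by
  ext1 u v
  rw [Qm_apply]
  split_ifs with h
  · rfl
  · symm
    have e1 : Rr z δ i X u v = avv (fun s => (Dm z δ i s * X * Dm z δ i s) u v) := by
      rw [Rr_apply]
      exact avv_map (W := Mb (Bx k) N) (W' := Mat N)
        ({ toFun := fun M => M u v, map_add' := fun _ _ => rfl, map_smul' := fun _ _ => rfl })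
        (fun s => Dm z δ i s * X * Dm z δ i s)
    rw [e1]
    have e2 : ∀ s, (Dm z δ i s * X * Dm z δ i s) u v =
        ∑ w', ∑ w, Dm z δ i s u w * X w w' * (Dm z δ i s v w')ᴴ := by
      intro s
      rw [Matrix.mul_apply]
      refine Finset.sum_congr rfl fun w' _ => ?_
      rw [Matrix.mul_apply, Finset.sum_mul]
      refine Finset.sum_congr rfl fun w _ => ?_
      congr 1
      conv_lhs => rw [← Dm_ct]
      rw [Matrix.conjTranspose_apply]
      rfl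
    simp only [e2]
    rw [avv_sum]
    refine Finset.sum_eq_zero fun w' _ => ?_
    rw [avv_sum]
    refine Finset.sum_eq_zero fun w _ => ?_
    have h1 := avv_ind (W3 := Mat N) (fun j : Lk k × Ic N => j.1 ∈ Ln i (oc i u))
      (F := fun s => Dm z δ i s u w) (H := fun s => Dm z δ i s v w')
      (Dm_dep' z δ i u w) (fun s s' hs => Dm_dep' z δ i v w' s s' fun j hj => hs j fun hj' => by
        have h2 := hj.2
        rw [hj'.2] at h2
        exact h h2)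
      (LinearMap.mk₂ ℝ (fun A C => A * X w w' * Cᴴ)
        (fun A A' C => by rw [add_mul, add_mul]) (fun c A C => by
          rw [smul_mul_assoc, smul_mul_assoc])
        (fun A C C' => by rw [conjTranspose_add, mul_add])
        (fun c A C => by rw [conjTranspose_smul, star_trivial, mul_smul_comm]))
    simp only [LinearMap.mk₂_apply] at h1
    rw [h1]
    have h3 : avv (fun s => Dm z δ i s u w) = 0 := by
      have := avv_map (W := Mb (Bx k) N) (W' := Mat N)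
        ({ toFun := fun M => M u w, map_add' := fun _ _ => rfl, map_smul' := fun _ _ => rfl })
        (Dm z δ i)
      rw [Dm_mean, map_zero] at this
      exact this.symm
    rw [h3, zero_mul, zero_mul]

lemma Rr_Qm (z : Lk k → Mat N) (δ : ℝ) (i : Bool) (X : Mb (Bx k) N) :
    Rr z δ i (Qm i X) = Rr z δ i X := by
  have h1 : Rr z δ i (Qm i X) = Qm i (Rr z δ i X) := by
    rw [Rr_apply, Rr_apply, avv_map]
    congr 1
    funext s
    have e1 : Qm i (Dm z δ i s * X) = Dm z δ i s * Qm i X := by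
      rw [Dm_lop]; exact Qm_lop _ _ _
    have e2 : ∀ Y : Mb (Bx k) N, Qm i (Y * Dm z δ i s) = Qm i Y * Dm z δ i s := by
      intro Y
      have f1 : ∀ Y : Mb (Bx k) N, Y * Dm z δ i s = (Dm z δ i s * Yᴴ)ᴴ := by
        intro Y
        rw [Matrix.conjTranspose_mul, Matrix.conjTranspose_conjTranspose, Dm_ct]
      have f2 : ∀ Y : Mb (Bx k) N, Qm i (Dm z δ i s * Y) = Dm z δ i s * Qm i Y := by
        intro Y
        rw [Dm_lop]; exact Qm_lop _ _ _
      have f3 : Qm i (Dm z δ i s * Yᴴ)ᴴ = (Qm i (Dm z δ i s * Yᴴ))ᴴ := Qm_ct _ _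
      have f4 : Qm i Yᴴ = (Qm i Y)ᴴ := Qm_ct _ _
      rw [f1, f1 (Qm i Y), f3, f2, f4]
    rw [e2, e1]
  rw [h1, Rr_loc]

end lops

end

end Pool.Agent.N985
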