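import Mathlib
import Pool.Agent.N985.Cell2

/-!
# The random walk of the strings: one step with noise
-/

open MeasureTheory Matrix Filter
open scoped Matrix.Norms.Frobenius ContDiff Topology
open Pool.Agent.H906R3.YM hiding Pl
open Pool.Agent.W793.YM Pool.Agent.TH618.YM Pool.Agent.Y14 Pool.Agent.R990

namespace Pool.Agent.N985

set_option linter.unusedSectionVars false
set_option linter.unusedVariables false

noncomputable section

section step

variable {k N : ℕ} {z : Lk k → Mat N}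

/-- one step of the random walk -/
def Sc (z : Lk k → Mat N) (q : ℝ) : Mb (Bx k) N :=
  (1 - q) • 1 + (q / 2) • (Pm z false + Pm z true)

lemma Sc_ct (z : Lk k → Mat N) (q : ℝ) : (Sc z q)ᴴ = Sc z q := by
  unfold Sc
  rw [Matrix.conjTranspose_add, Matrix.conjTranspose_smul, Matrix.conjTranspose_smul,
    Matrix.conjTranspose_add, Pm_ct, Pm_ct, Matrix.conjTranspose_one, star_trivial, star_trivial]

lemma Sc_LA (q : ℝ) : LA Set.univ (fun z : Lk k → Mat N => Sc z q) := by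
  unfold Sc
  refine (LA.const _ _).add (LA.smul (LA.add ?_ ?_) _)
  · exact (Pm_LA false).mono (Set.subset_univ _)
  · exact (Pm_LA true).mono (Set.subset_univ _)

lemma Sc_norm (hz : Uz z) {q : ℝ} (q0 : 0 ≤ q) (q1 : q ≤ 1) (X : Mb (Bx k) N) :
    ‖Sc z q * X‖ ≤ ‖X‖ := by
  have e : Sc z q * X = (1 - q) • X + ((q / 2) • (Pm z false * X) + (q / 2) • (Pm z true * X)) := by
    unfold Sc
    rw [add_mul, smul_mul_assoc, smul_mul_assoc, one_mul, add_mul, smul_add]
  rw [e]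
  have h1 : ‖(1 - q) • X‖ = (1 - q) * ‖X‖ := by
    rw [norm_smul, Real.norm_eq_abs, abs_of_nonneg (by linarith)]
  have h2 : ∀ i, ‖(q / 2) • (Pm z i * X)‖ ≤ (q / 2) * ‖X‖ := by
    intro i
    rw [norm_smul, Real.norm_eq_abs, abs_of_nonneg (by linarith)]
    exact mul_le_mul_of_nonneg_left (Pm_norm hz i X) (by linarith)
  have h3 := norm_add_le ((1 - q) • X)
    ((q / 2) • (Pm z false * X) + (q / 2) • (Pm z true * X))
  have h4 := norm_add_le ((q / 2) • (Pm z false * X)) ((q / 2) • (Pm z true * X))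
  have h5 := h2 false
  have h6 := h2 true
  rw [h1] at h3
  linarith

lemma Sc_norm' (hz : Uz z) {q : ℝ} (q0 : 0 ≤ q) (q1 : q ≤ 1) (X : Mb (Bx k) N) :
    ‖X * Sc z q‖ ≤ ‖X‖ := by
  have : X * Sc z q = (Sc z q * Xᴴ)ᴴ := by
    rw [Matrix.conjTranspose_mul, Matrix.conjTranspose_conjTranspose, Sc_ct]
  rw [this, norm_ctb, ← norm_ctb X]
  exact Sc_norm hz q0 q1 _

/-- left and right multiplication -/
def cjL (M M' : Mb (Bx k) N) : Mb (Bx k) N →ₗ[ℝ] Mb (Bx k) N where
  toFun X := M * X * M'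
  map_add' X Y := by rw [mul_add, add_mul]
  map_smul' c X := by rw [RingHom.id_apply, mul_smul_comm, smul_mul_assoc]

lemma cjL_apply (M M' X : Mb (Bx k) N) : cjL M M' X = M * X * M' := rfl

/-- one step with noise -/
def NS (z : Lk k → Mat N) (δ q : ℝ) (X : Mb (Bx k) N) : Mb (Bx k) N :=
  avv fun s : Lk k × Ic N → Bool => Sc (z + nz δ s) q * X * Sc (z + nz δ s) q

/-- the effect of the noise on one step -/
def RR (z : Lk k → Mat N) (δ q : ℝ) : Mb (Bx k) N →ₗ[ℝ] Mb (Bx k) N :=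
  (q ^ 2 / 4) • (Rr z δ false + Rr z δ true)

lemma RR_apply (δ q : ℝ) (X : Mb (Bx k) N) :
    RR z δ q X = (q ^ 2 / 4) • (Rr z δ false X + Rr z δ true X) := rfl

lemma avv_mulmul {ι : Type*} [Fintype ι] [DecidableEq ι] (A C : Mb (Bx k) N)
    (F : (ι → Bool) → Mb (Bx k) N) : avv (fun s => A * F s * C) = A * avv F * C :=
  (avv_map (cjL A C) F).symm

lemma NS_eq (z : Lk k → Mat N) (δ q : ℝ) (X : Mb (Bx k) N) :
    NS z δ q X = Sc z q * X * Sc z q + RR z δ q X := by
  have e1 : ∀ s : Lk k × Ic N → Bool, Sc (z + nz δ s) q = Sc z q +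
      (q / 2) • (Dm z δ false s + Dm z δ true s) := by
    intro s
    unfold Sc Dm
    rw [add_assoc, ← smul_add]
    congr 2
    abel
  have e2 : ∀ s : Lk k × Ic N → Bool, Sc (z + nz δ s) q * X * Sc (z + nz δ s) q =
      Sc z q * X * Sc z q +
      ((q / 2) • (1 * Dm z δ false s * (X * Sc z q)) + (q / 2) • (1 * Dm z δ true s * (X * Sc z q)) +
      ((q / 2) • (Sc z q * X * Dm z δ false s * 1) + (q / 2) • (Sc z q * X * Dm z δ true s * 1)) +
      ((q ^ 2 / 4) • (Dm z δ false s * X * Dm z δ false s) +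
        (q ^ 2 / 4) • (Dm z δ true s * X * Dm z δ true s) +
        ((q ^ 2 / 4) • (Dm z δ false s * X * Dm z δ true s) +
        (q ^ 2 / 4) • (Dm z δ true s * X * Dm z δ false s)))) := by
    intro s
    rw [e1]
    simp only [add_mul, mul_add, smul_mul_assoc, mul_smul_comm, smul_add, smul_smul,
      Matrix.mul_assoc, one_mul, mul_one]
    have : q / 2 * (q / 2) = q ^ 2 / 4 := by ring
    simp only [this]
    abel
  have hm : ∀ i, avv (Dm z δ i) = 0 := fun i => Dm_mean z δ i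
  have m1 : ∀ (i : Bool) (A C : Mb (Bx k) N), avv (fun s => A * Dm z δ i s * C) = 0 := by
    intro i A C
    rw [avv_mulmul, hm, mul_zero, zero_mul]
  have m2 : ∀ i j : Bool, i ≠ j → avv (fun s => Dm z δ i s * X * Dm z δ j s) = 0 := by
    intro i j hij
    have h1 := avv_ind (W3 := Mb (Bx k) N) (fun l : Lk k × Ic N => l.1.1 = i)
      (F := Dm z δ i) (H := Dm z δ j) (Dm_dep z δ i)
      (fun s s' hs => Dm_dep z δ j s s' fun l hl => hs l fun h2 => hij (h2.symm.trans hl))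
      (LinearMap.mk₂ ℝ (fun A C => A * X * C)
        (fun A A' C => by rw [add_mul, add_mul]) (fun c A C => by
          rw [smul_mul_assoc, smul_mul_assoc])
        (fun A C C' => by rw [mul_add])
        (fun c A C => by rw [mul_smul_comm]))
    simp only [LinearMap.mk₂_apply] at h1
    rw [h1, hm, zero_mul, zero_mul]
  unfold NS
  simp only [e2]
  simp only [avv_add, avv_smul, m1, m2 false true (by simp), m2 true false (by simp), avv_const]
  rw [RR_apply, Rr_apply, Rr_apply, smul_add]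
  simp

lemma RR_sa (δ q : ℝ) (X Y : Mb (Bx k) N) : ipb (RR z δ q X) Y = ipb X (RR z δ q Y) := by
  rw [RR_apply, RR_apply, ipb_smul_left, ipb_smul_right, ipb_add_left, ipb_add_right, Rr_sa, Rr_sa]

lemma RR_norm (δ : ℝ) (hz : Uz z) (q : ℝ) (X : Mb (Bx k) N) :
    ‖RR z δ q X‖ ≤ et k N δ / 2 * q ^ 2 * ‖X‖ := by
  rw [RR_apply, norm_smul, Real.norm_eq_abs, abs_of_nonneg (by positivity)]
  have h1 := norm_add_le (Rr z δ false X) (Rr z δ true X)
  have h2 := Rr_norm δ hz false X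
  have h3 := Rr_norm δ hz true X
  have h4 : ‖Rr z δ false X + Rr z δ true X‖ ≤ 2 * (et k N δ * ‖X‖) := by linarith
  have h5 := mul_le_mul_of_nonneg_left h4 (show 0 ≤ q ^ 2 / 4 by positivity)
  linarith

lemma RR_form (δ : ℝ) (hz : Uz z) (q : ℝ) (X : Mb (Bx k) N) :
    ipb X (RR z δ q X) ≤ et k N δ / 2 * q ^ 2 * (‖Qm false X‖ ^ 2 + ‖Qm true X‖ ^ 2) := by
  have key : ∀ i, ipb X (Rr z δ i X) ≤ et k N δ * ‖Qm i X‖ ^ 2 := by
    intro i
    rw [← Rr_loc, ← Rr_Qm, ← Qm_sa]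
    refine (le_abs_self _).trans ((Rr_ip δ hz i _ _).trans (le_of_eq (by ring)))
  rw [RR_apply, ipb_smul_right, ipb_add_right]
  have h1 := add_le_add (key false) (key true)
  have h2 := mul_le_mul_of_nonneg_left h1 (show 0 ≤ q ^ 2 / 4 by positivity)
  have h3 : 0 ≤ et k N δ * q ^ 2 * (‖Qm false X‖ ^ 2 + ‖Qm true X‖ ^ 2) :=
    mul_nonneg (mul_nonneg (et_nonneg δ) (sq_nonneg q)) (add_nonneg (sq_nonneg _) (sq_nonneg _))
  linarith

end step

/-! ### gauge transformations -/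

section cov

variable {k N : ℕ} {z g h : Lk k → Mat N} {γ : Bx k → Mat N}

/-- the gauge transformation as a block matrix -/
def Gd (γ : Bx k → Mat N) : Mb (Bx k) N := Matrix.diagonal γ

lemma Gd_mul (γ : Bx k → Mat N) (X : Mb (Bx k) N) (u v : Bx k) : (Gd γ * X) u v = γ u * X u v :=
  Matrix.diagonal_mul _ _ _ _

lemma mul_Gd (γ : Bx k → Mat N) (X : Mb (Bx k) N) (u v : Bx k) :
    (X * (Gd γ)ᴴ) u v = X u v * (γ v)ᴴ := by
  unfold Gd
  rw [Matrix.diagonal_conjTranspose, Matrix.mul_diagonal]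
  rfl

lemma Gd_unit (hγ : ∀ u, (γ u)ᴴ * γ u = 1) : (Gd γ)ᴴ * Gd γ = 1 := by
  unfold Gd
  rw [Matrix.diagonal_conjTranspose, Matrix.diagonal_mul_diagonal]
  have : (fun u => star γ u * γ u) = fun _ => (1 : Mat N) := by
    funext u
    exact hγ u
  rw [this, Matrix.diagonal_one]

lemma Gd_unit' (hγ : ∀ u, (γ u)ᴴ * γ u = 1) : Gd γ * (Gd γ)ᴴ = 1 := by
  unfold Gd
  rw [Matrix.diagonal_conjTranspose, Matrix.diagonal_mul_diagonal]
  have : (fun u => γ u * star γ u) = fun _ => (1 : Mat N) := by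
    funext u
    exact mul_eq_one_comm.1 (hγ u)
  rw [this, Matrix.diagonal_one]

/-- compatibility of the transformations of the links with those of the points -/
structure Cmp (g h : Lk k → Mat N) (γ : Bx k → Mat N) : Prop where
  u : ∀ u, (γ u)ᴴ * γ u = 1
  g : ∀ l, g l = γ l.2
  h : ∀ i o (a : ℕ) (h1 : a < k) (h2 : a + 1 < k),
    h (i, mkp i ⟨a, h1⟩ o) = γ (mkp i ⟨a + 1, h2⟩ o)

lemma Wl_cov (hc : Cmp g h γ) (i : Bool) (o : Fin k) (a n : ℕ) (ha : a < k) (hn : a + n < k) :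
    Wl (fun l => g l * z l * (h l)ᴴ) i o a n =
      γ (mkp i ⟨a, ha⟩ o) * Wl z i o a n * (γ (mkp i ⟨a + n, hn⟩ o))ᴴ := by
  induction n generalizing a with
  | zero =>
    rw [Wl_zero, Wl_zero, mul_one]
    exact (mul_eq_one_comm.1 (hc.u _)).symm
  | succ n ih =>
    rw [Wl_succ, Wl_succ, ih (a + 1) (by omega) (by omega)]
    have e1 : zt (fun l => g l * z l * (h l)ᴴ) i o a = γ (mkp i ⟨a, ha⟩ o) * zt z i o a *
        (γ (mkp i ⟨a + 1, by omega⟩ o))ᴴ := by
      unfold zt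
      rw [dif_pos ha, dif_pos ha]
      show g (i, mkp i ⟨a, ha⟩ o) * _ * (h (i, mkp i ⟨a, ha⟩ o))ᴴ = _
      rw [hc.g, hc.h i o a ha (by omega)]
    rw [e1]
    have e2 := hc.u (mkp i ⟨a + 1, by omega⟩ o)
    have e3 : (⟨a + 1 + n, by omega⟩ : Fin k) = ⟨a + (n + 1), hn⟩ := by
      apply Fin.ext; simp only; ring
    rw [← e3]
    calc _ = γ (mkp i ⟨a, ha⟩ o) * zt z i o a * ((γ (mkp i ⟨a + 1, by omega⟩ o))ᴴ *
          γ (mkp i ⟨a + 1, by omega⟩ o)) * Wl z i o (a + 1) n *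
          (γ (mkp i ⟨a + 1 + n, by omega⟩ o))ᴴ := by simp only [Matrix.mul_assoc]
      _ = _ := by
          rw [e2, mul_one]
          simp only [Matrix.mul_assoc]

lemma hol_cov (hc : Cmp g h γ) (i : Bool) (o a b : Fin k) :
    hol (fun l => g l * z l * (h l)ᴴ) i o a b =
      γ (mkp i a o) * hol z i o a b * (γ (mkp i b o))ᴴ := by
  have key : ∀ a b : Fin k, a ≤ b → Wl (fun l => g l * z l * (h l)ᴴ) i o a (b - a) =
      γ (mkp i a o) * Wl z i o a (b - a) * (γ (mkp i b o))ᴴ := by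
    intro a b hab
    have hab' : (a : ℕ) ≤ b := hab
    have h1 := Wl_cov (z := z) hc i o a (b - a) a.2 (by omega)
    rw [h1]
    congr 4
    apply Fin.ext
    simp only
    omega
  unfold hol
  split_ifs with h1
  · exact key a b h1
  · rw [key b a (not_le.1 h1).le, conjTranspose_mul, conjTranspose_mul,
      conjTranspose_conjTranspose, Matrix.mul_assoc]

lemma Pm_cov (hc : Cmp g h γ) (i : Bool) :
    Pm (fun l => g l * z l * (h l)ᴴ) i = Gd γ * Pm z i * (Gd γ)ᴴ := by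
  ext1 u w
  rw [mul_Gd, Gd_mul]
  unfold Pm
  rw [lop_apply, lop_apply, hol_cov hc, mkp_eta]
  split_ifs with h1
  · rw [h1, mkp_eta, mul_smul_comm, smul_mul_assoc]
  · rw [mul_zero, zero_mul]

lemma Sc_cov (hc : Cmp g h γ) (q : ℝ) :
    Sc (fun l => g l * z l * (h l)ᴴ) q = Gd γ * Sc z q * (Gd γ)ᴴ := by
  unfold Sc
  rw [Pm_cov hc, Pm_cov hc]
  simp only [mul_add, add_mul, mul_smul_comm, smul_mul_assoc, mul_one, Gd_unit' hc.u]

lemma NS_cov (hc : Cmp g h γ) (hh : ∀ l, (h l)ᴴ * h l = 1) (δ q : ℝ) (X : Mb (Bx k) N) :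
    NS (fun l => g l * z l * (h l)ᴴ) δ q (Gd γ * X * (Gd γ)ᴴ) =
      Gd γ * NS z δ q X * (Gd γ)ᴴ := by
  have hg : ∀ l, (g l)ᴴ * g l = 1 := fun l => by rw [hc.g]; exact hc.u _
  have h1 := ((Sc_LA (k := k) (N := N) q).quad (Sc_LA (k := k) (N := N) q)
    (LinearMap.mk₂ ℝ (fun A C => A * X * C)
        (fun A A' C => by rw [add_mul, add_mul]) (fun c A C => by
          rw [smul_mul_assoc, smul_mul_assoc])
        (fun A C C' => by rw [mul_add])
        (fun c A C => by rw [mul_smul_comm]))).rot δ z (fun l => (g l)ᴴ) h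
    (fun l => by rw [conjTranspose_conjTranspose]; exact mul_eq_one_comm.1 (hg l))
    (fun l => mul_eq_one_comm.1 (hh l))
  simp only [LinearMap.mk₂_apply] at h1
  unfold NS
  rw [← h1, ← avv_mulmul]
  congr 1
  funext s
  have e1 : (fun l => g l * z l * (h l)ᴴ) + nz δ s =
      fun l => g l * ((fun l => z l + (g l)ᴴ * nz δ s l * h l) l) * (h l)ᴴ := by
    funext l
    show g l * z l * (h l)ᴴ + nz δ s l = g l * (z l + (g l)ᴴ * nz δ s l * h l) * (h l)ᴴ
    rw [mul_add, add_mul]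
    congr 1
    have f1 : g l * (g l)ᴴ = 1 := mul_eq_one_comm.1 (hg l)
    have f2 : h l * (h l)ᴴ = 1 := mul_eq_one_comm.1 (hh l)
    calc _ = 1 * nz δ s l * 1 := by rw [one_mul, mul_one]
      _ = (g l * (g l)ᴴ) * nz δ s l * (h l * (h l)ᴴ) := by rw [f1, f2]
      _ = _ := by simp only [Matrix.mul_assoc]
  rw [e1, Sc_cov hc]
  obtain ⟨S, hS⟩ : ∃ S, S = Sc (fun l => z l + (g l)ᴴ * nz δ s l * h l) q := ⟨_, rfl⟩
  rw [← hS]
  have f3 := Gd_unit hc.u
  calc _ = Gd γ * S * ((Gd γ)ᴴ * Gd γ) * X * ((Gd γ)ᴴ * Gd γ) * S * (Gd γ)ᴴ := by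
        simp only [Matrix.mul_assoc]
    _ = _ := by
        rw [f3, mul_one, mul_one]
        simp only [Matrix.mul_assoc]

lemma RR_cov (hc : Cmp g h γ) (hh : ∀ l, (h l)ᴴ * h l = 1) (δ q : ℝ) (X : Mb (Bx k) N) :
    RR (fun l => g l * z l * (h l)ᴴ) δ q (Gd γ * X * (Gd γ)ᴴ) =
      Gd γ * RR z δ q X * (Gd γ)ᴴ := by
  have h1 := NS_cov (z := z) hc hh δ q X
  rw [NS_eq, NS_eq, Sc_cov hc] at h1
  obtain ⟨S, hS⟩ : ∃ S, S = Sc z q := ⟨_, rfl⟩
  have f3 := Gd_unit hc.u
  have h2 : Gd γ * Sc z q * (Gd γ)ᴴ * (Gd γ * X * (Gd γ)ᴴ) * (Gd γ * Sc z q * (Gd γ)ᴴ) =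
      Gd γ * (Sc z q * X * Sc z q) * (Gd γ)ᴴ := by
    rw [← hS]
    calc _ = Gd γ * S * ((Gd γ)ᴴ * Gd γ) * X * ((Gd γ)ᴴ * Gd γ) * S * (Gd γ)ᴴ := by
          simp only [Matrix.mul_assoc]
      _ = _ := by
          rw [f3, mul_one, mul_one]
          simp only [Matrix.mul_assoc]
  rw [h2, mul_add, add_mul] at h1
  exact add_left_cancel h1

end cov

/-! ### cones -/

section cones

variable {B : Type*} [Fintype B] [DecidableEq B] {N : ℕ}

/-- sums of squares -/
inductive Sos : Mb B N → Prop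
  | zero : Sos 0
  | add (A : Mb B N) {X : Mb B N} : Sos X → Sos (X + A * Aᴴ)

lemma Sos.plus {X Y : Mb B N} (h : Sos X) (h' : Sos Y) : Sos (X + Y) := by
  induction h' with
  | zero => rw [add_zero]; exact h
  | add A _ ih => rw [← add_assoc]; exact Sos.add A ih

lemma Sos.smul {X : Mb B N} (h : Sos X) {c : ℝ} (hc : 0 ≤ c) : Sos (c • X) := by
  induction h with
  | zero => rw [smul_zero]; exact Sos.zero
  | add A _ ih =>
    have e : c • (A * Aᴴ) = (Real.sqrt c • A) * (Real.sqrt c • A)ᴴ := by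
      rw [Matrix.conjTranspose_smul, star_trivial, smul_mul_assoc, mul_smul_comm, smul_smul,
        Real.mul_self_sqrt hc]
    rw [smul_add, e]
    exact Sos.add _ ih

lemma Sos.conj {X : Mb B N} (h : Sos X) (M : Mb B N) : Sos (M * X * Mᴴ) := by
  induction h with
  | zero => rw [mul_zero, zero_mul]; exact Sos.zero
  | add A _ ih =>
    have e : M * (A * Aᴴ) * Mᴴ = (M * A) * (M * A)ᴴ := by
      rw [Matrix.conjTranspose_mul]
      simp only [Matrix.mul_assoc]
    rw [mul_add, add_mul, e]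
    exact Sos.add _ ih

lemma Sos.sum {ι : Type*} (S : Finset ι) {F : ι → Mb B N} (h : ∀ i ∈ S, Sos (F i)) :
    Sos (∑ i ∈ S, F i) := by
  classical
  induction S using Finset.induction_on with
  | empty => simpa using Sos.zero
  | insert a S ha ih =>
    rw [Finset.sum_insert ha]
    exact (h a (Finset.mem_insert_self _ _)).plus
      (ih fun i hi => h i (Finset.mem_insert_of_mem hi))

lemma Sos.one : Sos (1 : Mb B N) := by
  have := Sos.add (1 : Mb B N) Sos.zero
  rw [Matrix.conjTranspose_one, mul_one, zero_add] at this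
  exact this

lemma Sos.avv {ι : Type*} [Fintype ι] [DecidableEq ι] {F : (ι → Bool) → Mb B N}
    (h : ∀ s, Sos (F s)) : Sos (N985.avv F) := by
  unfold N985.avv
  exact (Sos.sum _ fun s _ => h s).smul (by positivity)

/-- positive forms -/
def Psd (X : Mb B N) : Prop := ∀ Z : Mb B N, 0 ≤ ipb Z (X * Z)

lemma Sos.psd {X : Mb B N} (h : Sos X) : Psd X := by
  intro Z
  induction h with
  | zero =>
    rw [zero_mul]
    have : ipb Z 0 = 0 := by
      have := ipb_smul_right 0 Z (0 : Mb B N)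
      rw [zero_smul, zero_mul] at this
      exact this
    rw [this]
  | add A _ ih =>
    rw [add_mul, ipb_add_right]
    refine add_nonneg ih ?_
    have : ipb Z (A * Aᴴ * Z) = ipb (Aᴴ * Z) (Aᴴ * Z) := by
      rw [ipb_mul_left, Matrix.conjTranspose_conjTranspose, Matrix.mul_assoc]
    rw [this]
    exact ipb_self_nonneg _

lemma Psd.conj {X : Mb B N} (h : Psd X) (M : Mb B N) : Psd (M * X * Mᴴ) := by
  intro Z
  have : ipb Z (M * X * Mᴴ * Z) = ipb (Mᴴ * Z) (X * (Mᴴ * Z)) := by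
    rw [ipb_mul_left, Matrix.conjTranspose_conjTranspose]
    simp only [Matrix.mul_assoc]
  rw [this]
  exact h _

lemma Sos_Psd {X Y : Mb B N} (h : Sos X) (h' : Psd Y) : 0 ≤ ipb X Y := by
  induction h with
  | zero =>
    have : ipb (0 : Mb B N) Y = 0 := by
      have := ipb_smul_left 0 (0 : Mb B N) Y
      rw [zero_smul, zero_mul] at this
      exact this
    rw [this]
  | add A _ ih =>
    rw [ipb_add_left]
    refine add_nonneg ih ?_
    rw [ipb_mul_right, Matrix.conjTranspose_conjTranspose]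
    exact h' A

lemma Psd_bound {X : Mb B N} {C : ℝ} (h : ‖X‖ ≤ C) : Psd (C • (1 : Mb B N) - X) := by
  intro Z
  rw [sub_mul, smul_mul_assoc, one_mul, ipb_sub_right, ipb_smul_right, ← nb_eq]
  have h1 := ipb_le Z (X * Z)
  have h2 := mul_le_mul_of_nonneg_left (norm_mulb X Z) (norm_nonneg Z)
  have h3 := mul_le_mul_of_nonneg_right h (sq_nonneg ‖Z‖)
  nlinarith

/-- the traces of the diagonal blocks -/
def Tr : Mb B N →ₗ[ℝ] Mb B N where
  toFun X := Matrix.of fun u v => if u = v then (trace (X u v)) • (1 : Mat N) else 0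
  map_add' X Y := by
    ext1 u v
    simp only [Matrix.of_apply, Matrix.add_apply]
    split_ifs
    · rw [trace_add, add_smul]
    · simp
  map_smul' c X := by
    ext1 u v
    simp only [Matrix.of_apply, Matrix.smul_apply, RingHom.id_apply]
    split_ifs
    · rw [trace_smul, smul_assoc]
    · simp

lemma Tr_apply (X : Mb B N) (u v : B) :
    Tr X u v = if u = v then (trace (X u v)) • (1 : Mat N) else 0 := rfl

lemma Tr_eq (X : Mb B N) : (2 : ℝ) • Tr X = ∑ u : B, ∑ κ : Ic N,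
    (Matrix.single u u (EE κ) : Mb B N) * X * (Matrix.single u u (EE κ) : Mb B N)ᴴ := by
  ext1 a b
  rw [Matrix.smul_apply, Tr_apply, Matrix.sum_apply]
  have h1 : ∀ (u : B) (κ : Ic N), (Matrix.single u u (EE κ) : Mb B N) * X *
      (Matrix.single u u (EE κ) : Mb B N)ᴴ =
      Matrix.single u u (EE κ * X u u * (EE κ)ᴴ) := by
    intro u κ
    rw [Matrix.conjTranspose_single, Matrix.single_mul_mul_single]
    rfl
  simp only [h1]
  by_cases h : a = b
  · subst h
    rw [if_pos rfl, Finset.sum_eq_single a]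
    · rw [Matrix.sum_apply]
      simp only [Matrix.single_apply_same]
      rw [sum_EE_conj, mul_smul, ← Complex.coe_smul]
      push_cast
      rfl
    · intro u _ hu
      rw [Matrix.sum_apply]
      exact Finset.sum_eq_zero fun κ _ => Matrix.single_apply_of_ne _ _ _ _ _ (by simp [hu])
    · simp
  · rw [if_neg h, smul_zero]
    symm
    refine Finset.sum_eq_zero fun u _ => ?_
    rw [Matrix.sum_apply]
    exact Finset.sum_eq_zero fun κ _ => Matrix.single_apply_of_ne _ _ _ _ _ (by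
      rintro ⟨rfl, rfl⟩; exact h rfl)

lemma Sos.tr {X : Mb B N} (h : Sos X) : Sos (Tr X) := by
  have h1 : Tr X = (1 / 2 : ℝ) • ((2 : ℝ) • Tr X) := by
    rw [smul_smul]; norm_num
  rw [h1, Tr_eq]
  exact (Sos.sum _ fun u _ => Sos.sum _ fun κ _ => h.conj _).smul (by norm_num)

lemma ip_one_smul (x y : ℂ) : ip (x • (1 : Mat N)) (y • (1 : Mat N)) =
    N * (x * (starRingEnd ℂ) y).re := by
  rw [ip_apply, conjTranspose_smul, conjTranspose_one, smul_mul_smul_comm, one_mul, trace_smul,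
    trace_one, Fintype.card_fin, smul_eq_mul]
  simp [Complex.mul_re]
  ring

lemma ip_tr (A C : Mat N) : ip (trace A • (1 : Mat N)) C = (trace A * (starRingEnd ℂ) (trace C)).re := by
  rw [ip_apply, conjTranspose_smul, conjTranspose_one, smul_mul_assoc, one_mul, trace_smul,
    smul_eq_mul]
  simp [Complex.mul_re]

lemma Tr_sa (X Y : Mb B N) : ipb (Tr X) Y = ipb X (Tr Y) := by
  unfold ipb
  refine Finset.sum_congr rfl fun u _ => Finset.sum_congr rfl fun v _ => ?_
  rw [Tr_apply, Tr_apply]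
  split_ifs
  · rw [ip_tr, ip_comm, ip_tr]
    simp [Complex.mul_re]
    ring
  · rw [ip_comm]; simp

lemma Tr_Tr (X : Mb B N) : Tr (Tr X) = (N : ℝ) • Tr X := by
  ext1 u v
  rw [Matrix.smul_apply, Tr_apply, Tr_apply, ← Complex.coe_smul]
  split_ifs
  · rw [trace_smul, trace_one, Fintype.card_fin, smul_smul, smul_eq_mul, mul_comm]
    push_cast
    rfl
  · simp

lemma Tr_norm (X : Mb B N) : ‖Tr X‖ ≤ N * ‖X‖ := by
  have h1 : ‖Tr X‖ ^ 2 ≤ N * (‖X‖ * ‖Tr X‖) := by
    rw [nb_eq, Tr_sa, Tr_Tr, ipb_smul_right]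
    exact mul_le_mul_of_nonneg_left (ipb_le _ _) (Nat.cast_nonneg N)
  by_contra hlt
  push Not at hlt
  have h2 : 0 ≤ N * ‖X‖ := mul_nonneg (Nat.cast_nonneg N) (norm_nonneg _)
  have h4 : 0 < ‖Tr X‖ := h2.trans_lt hlt
  nlinarith

end cones

end

end Pool.Agent.N985
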