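import Mathlib
import Pool.Agent.W793.YM.Inf
import Pool.Agent.TH618.YM.SiteRP
import Pool.Agent.W793.YM.Rebase

/-!
# Infinite volume limits: reflections, translations and reflection positivity
-/

open MeasureTheory Matrix Filter
open scoped Matrix.Norms.Frobenius ContDiff Topology
open Pool.Agent.H906R3.YM hiding Pl
open Pool.Agent.W793.YM Pool.Agent.TH618.YM

namespace Pool.Agent.N985

set_option linter.unusedSectionVars false
set_option linter.unusedVariables false

noncomputable section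

section maps

variable {d : ℕ} {G : Type*} [Group G]

/-- translation -/
def sh (z : Fin d → ℤ) (V : Ez d → G) : Ez d → G := fun e => V (e.1 + z, e.2)

/-- reflection of the points -/
def rp (τ : Fin d) (x : Fin d → ℤ) : Fin d → ℤ := Function.update x τ (-x τ)

/-- reflection in the hyperplane `x τ = 0` -/
def rf (τ : Fin d) (V : Ez d → G) : Ez d → G := fun e =>
  if e.2 = τ then (V (Function.update e.1 τ (-1 - e.1 τ), e.2))⁻¹ else V (rp τ e.1, e.2)

lemma rf_same (τ : Fin d) (V : Ez d → G) (x : Fin d → ℤ) :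
    rf τ V (x, τ) = (V (Function.update x τ (-1 - x τ), τ))⁻¹ := by
  unfold rf; simp

lemma rf_ne {τ k : Fin d} (hk : k ≠ τ) (V : Ez d → G) (x : Fin d → ℤ) :
    rf τ V (x, k) = V (rp τ x, k) := by
  unfold rf; simp [hk]

lemma rf_rf (τ : Fin d) (V : Ez d → G) : rf τ (rf τ V) = V := by
  funext e
  obtain ⟨x, k⟩ := e
  by_cases h : k = τ
  · subst h
    rw [rf_same, rf_same, inv_inv]
    congr 2
    funext i
    by_cases hi : i = k
    · subst hi; simp
    · simp [hi]
  · rw [rf_ne h, rf_ne h]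
    congr 2
    funext i
    unfold rp
    by_cases hi : i = τ
    · subst hi; simp
    · simp [hi]

lemma sh_sh (z w : Fin d → ℤ) (V : Ez d → G) : sh z (sh w V) = sh (z + w) V := by
  funext e
  unfold sh
  simp only
  rw [add_assoc]

lemma sh_zero (V : Ez d → G) : sh 0 V = V := by
  funext e; unfold sh; simp

variable {l : ℕ}

lemma lf_tr (z : Fin d → ℤ) (U : Ed d l → G) : lf (tr (zt l z) U) = sh z (lf U) := by
  funext e
  unfold lf tr sh zt
  simp only
  congr 2
  funext i
  simp

lemma lf_gt (γ : (Fin d → ZMod l) → G) (U : Ed d l → G) :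
    lf (gt γ U) = gz (fun x => γ (zt l x)) (lf U) := by
  funext e
  unfold lf gt gz
  simp only [zt_add]
  rfl

lemma lf_rf {m : ℕ} [NeZero m] (hm : 2 ≤ m) (τ : Fin d) (U : Ed d (2 * m) → G) :
    lf ((SR hm τ).tU U) = rf τ (lf U) := by
  funext e
  obtain ⟨x, k⟩ := e
  by_cases h : k = τ
  · subst h
    rw [rf_same]
    show (SR hm k).tU U (_, k) = _
    rw [sU_i0]
    unfold lf
    simp only
    congr 3
    funext i
    unfold rC
    by_cases hi : i = k
    · subst hi; simp
    · simp [hi]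
  · rw [rf_ne h]
    show (SR hm τ).tU U (_, k) = _
    rw [sU_ne _ _ h]
    unfold lf rp
    simp only
    congr 2
    funext i
    unfold rB
    by_cases hi : i = τ
    · subst hi; simp
    · simp [hi]

end maps

section top

variable {d : ℕ} {G : Type*} [Group G] [TopologicalSpace G] [IsTopologicalGroup G]

lemma sh_cont (z : Fin d → ℤ) : Continuous (sh (G := G) z) :=
  continuous_pi fun e => continuous_apply _

lemma rf_cont (τ : Fin d) : Continuous (rf (G := G) τ) := by
  refine continuous_pi fun e => ?_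
  unfold rf
  by_cases h : e.2 = τ
  · simp only [h, if_true]; exact (continuous_apply _).inv
  · simp only [h, if_false]; exact continuous_apply _

lemma lf_cont {l : ℕ} : Continuous (lf (d := d) (l := l) (G := G)) :=
  continuous_pi fun e => continuous_apply _

end top

/-- links of the half space -/
def HS {d : ℕ} (τ : Fin d) (h : ℕ) (e : Ez d) : Prop := 0 ≤ e.1 τ ∧ e.1 τ ≤ h

/-- links of the hyperplane -/
def HP {d : ℕ} (τ : Fin d) (e : Ez d) : Prop := e.2 ≠ τ ∧ e.1 τ = 0

variable {G : Type*} [Group G] [TopologicalSpace G] [IsTopologicalGroup G] [CompactSpace G]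
  [SecondCountableTopology G] [MeasurableSpace G] [BorelSpace G] (μ : Measure G)
  [IsProbabilityMeasure μ] [μ.IsMulLeftInvariant] [μ.IsMulRightInvariant] [μ.IsInvInvariant]
  {N n : ℕ} (L : LD G N n) {d : ℕ}

/-- limits of the expectations of the theories on the periodic lattices -/
structure IV (β : ℝ) (E : ((Ez d → G) → ℝ) → ℝ) : Prop where
  lim : ∃ s : ℕ → ℕ, Tendsto s atTop atTop ∧ ∀ F : (Ez d → G) → ℝ, Continuous F →
    Tendsto (fun j => EX μ L β (fun U : Ed d (2 * (s j + 1)) → G => F (lf U))) atTop (𝓝 (E F))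

variable {μ L} {β : ℝ} {E : ((Ez d → G) → ℝ) → ℝ}

section basic

variable {F H : (Ez d → G) → ℝ}

lemma IV.add (h : IV μ L β E) (hF : Continuous F) (hH : Continuous H) :
    E (fun V => F V + H V) = E F + E H := by
  obtain ⟨s, hs, hl⟩ := h.lim
  refine tendsto_nhds_unique (hl _ (hF.add hH)) (((hl _ hF).add (hl _ hH)).congr fun j => ?_)
  exact (EX_add μ (hF.comp lf_cont) (hH.comp lf_cont)).symm

lemma IV.smul (h : IV μ L β E) (c : ℝ) (hF : Continuous F) : E (fun V => c * F V) = c * E F := by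
  obtain ⟨s, hs, hl⟩ := h.lim
  refine tendsto_nhds_unique (hl _ (continuous_const.mul hF)) (((hl _ hF).const_mul c).congr
    fun j => ?_)
  exact (EX_smul μ c _).symm

lemma IV.mono (h : IV μ L β E) (hF : Continuous F) (hH : Continuous H) (hle : ∀ V, F V ≤ H V) :
    E F ≤ E H := by
  obtain ⟨s, hs, hl⟩ := h.lim
  exact le_of_tendsto_of_tendsto' (hl _ hF) (hl _ hH) fun j =>
    EX_mono μ (hF.comp lf_cont) (hH.comp lf_cont) fun U => hle _

lemma IV.const (h : IV μ L β E) (c : ℝ) : E (fun _ => c) = c := by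
  obtain ⟨s, hs, hl⟩ := h.lim
  refine tendsto_nhds_unique (hl _ continuous_const) (tendsto_const_nhds.congr fun j => ?_)
  exact (EX_const μ c).symm

lemma IV.sub (h : IV μ L β E) (hF : Continuous F) (hH : Continuous H) :
    E (fun V => F V - H V) = E F - E H := by
  have h2 : Continuous fun V => (-1) * H V := continuous_const.mul hH
  have h1 : E (fun V => F V + (-1) * H V) = E F + E (fun V => (-1) * H V) := h.add hF h2
  rw [h.smul (-1) hH] at h1
  have e : (fun V => F V - H V) = fun V => F V + (-1) * H V := by funext V; ring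
  rw [e, h1]; ring

lemma IV.sum (h : IV μ L β E) {ι : Type*} (S : Finset ι) {F : ι → (Ez d → G) → ℝ}
    (hF : ∀ i, Continuous (F i)) : E (fun V => ∑ i ∈ S, F i V) = ∑ i ∈ S, E (F i) := by
  classical
  induction S using Finset.induction_on with
  | empty => simpa using h.const 0
  | insert a S ha ih =>
    simp only [Finset.sum_insert ha]
    rw [h.add (hF a) (continuous_finsetSum _ fun i _ => hF i), ih]

lemma IV.shift (h : IV μ L β E) (z : Fin d → ℤ) (hF : Continuous F) :
    E (fun V => F (sh z V)) = E F := by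
  obtain ⟨s, hs, hl⟩ := h.lim
  refine tendsto_nhds_unique (hl _ (hF.comp (sh_cont z))) ((hl _ hF).congr fun j => ?_)
  rw [← EX_tr μ (zt _ z)]
  congr 1
  funext U
  rw [lf_tr]

lemma EX_srf {m : ℕ} [NeZero m] (hm : 2 ≤ m) (τ : Fin d) {F : (Ed d (2 * m) → G) → ℝ} :
    EX μ L β (fun U => F ((SR hm τ).tU U)) = EX μ L β F := by
  have h1 : ∀ F : (Ed d (2 * m) → G) → ℝ, Zt μ L β (fun U => F ((SR hm τ).tU U)) =
      Zt μ L β F := by
    intro F
    unfold Zt
    rw [← (SR hm τ).integral μ (fun U => F U * Real.exp (-(β * act L U)))]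
    refine integral_congr_ae (Filter.Eventually.of_forall fun U => ?_)
    simp only
    rw [act_sS (L := L) (i0 := τ) hm U, act_sS (L := L) (i0 := τ) hm ((SR hm τ).tU U),
      (SR hm τ).tU_tU, add_comm]
  unfold EX
  rw [h1]

lemma IV.ev (h : IV μ L β E) (k : ℕ) : ∃ s : ℕ → ℕ, (∀ j, k ≤ s j) ∧
    ∀ F : (Ez d → G) → ℝ, Continuous F →
    Tendsto (fun j => EX μ L β (fun U : Ed d (2 * (s j + 1)) → G => F (lf U))) atTop
      (𝓝 (E F)) := by
  obtain ⟨s, hs, hl⟩ := h.lim
  obtain ⟨j0, hj0⟩ := eventually_atTop.1 (hs.eventually_ge_atTop k)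
  refine ⟨fun j => s (j + j0), fun j => hj0 _ (Nat.le_add_left _ _), fun F hF => ?_⟩
  exact (hl F hF).comp (tendsto_add_atTop_nat j0)

lemma IV.refl (h : IV μ L β E) (τ : Fin d) (hF : Continuous F) :
    E (fun V => F (rf τ V)) = E F := by
  obtain ⟨s, hs, hl⟩ := h.ev 1
  refine tendsto_nhds_unique (hl _ (hF.comp (rf_cont τ))) ((hl _ hF).congr fun j => ?_)
  have hm : 2 ≤ s j + 1 := by have := hs j; omega
  rw [← EX_srf (μ := μ) (L := L) (β := β) hm τ]
  congr 1
  funext U
  rw [lf_rf hm]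

end basic

/-! ### site reflections -/

section psd

variable {Eg : Type*} [Fintype Eg] [DecidableEq Eg]

/-- positivity, the links in `P` being fixed -/
lemma SB_psd (T : Refl Eg) (P : Eg → Prop) (hP : ∀ (U : Eg → G) e, P e → T.tU U e = U e)
    (hPth : ∀ e, P (T.th e) ↔ P e) {I : Type*} [Fintype I] {f : I → (Eg → G) → ℝ}
    (hf : ∀ i, Continuous (f i)) (hd : ∀ i, Dep (fun e => P e ∨ T.R e) (f i))
    {M : I → I → (Eg → G) → ℝ} (hM : ∀ i j, Continuous (M i j)) (hMd : ∀ i j, Dep P (M i j))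
    (hMp : ∀ U, ∀ c : I → ℝ, 0 ≤ ∑ i, ∑ j, M i j U * c i * c j) :
    0 ≤ ∫ U, ∑ i, ∑ j, M i j U * f i (T.tU U) * f j U ∂(ME μ Eg) := by
  classical
  have hc : ∀ i j, Continuous fun U => M i j U * f i (T.tU U) * f j U := fun i j =>
    ((hM i j).mul ((hf i).comp T.tU_cont)).mul (hf j)
  have hcs : Continuous fun U => ∑ i, ∑ j, M i j U * f i (T.tU U) * f j U :=
    continuous_finsetSum _ fun i _ => continuous_finsetSum _ fun j _ => hc i j
  rw [integral_merge μ P hcs]
  refine integral_nonneg fun p => ?_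
  show 0 ≤ ∫ U, ∑ i, ∑ j, M i j (mg P p U) * f i (T.tU (mg P p U)) * f j (mg P p U) ∂(ME μ Eg)
  have h1 : ∀ U : Eg → G, T.tU (mg P p U) = mg P p (T.tU U) := by
    intro U
    funext e
    by_cases h : P e
    · rw [hP _ _ h]
      unfold mg
      rw [dif_pos h, dif_pos h]
    · have h2 : ¬P (T.th e) := fun h' => h ((hPth e).1 h')
      unfold Refl.tU mg
      rw [dif_neg h, dif_neg h2]
  have hdp : ∀ i, Dep T.R fun U : Eg → G => f i (mg P p U) := by
    intro i U U' h
    refine hd i _ _ fun e he => ?_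
    unfold mg
    by_cases h' : P e
    · rw [dif_pos h', dif_pos h']
    · rw [dif_neg h', dif_neg h']
      exact h e (he.resolve_left h')
  have hMc : ∀ i j (U : Eg → G), M i j (mg P p U) = M i j (mg P p 1) := fun i j U =>
    hMd i j _ _ fun e he => by
      unfold mg
      rw [dif_pos he, dif_pos he]
  have hfc : ∀ i, Continuous fun U : Eg → G => f i (mg P p U) := fun i =>
    (hf i).comp (mg_cont P p)
  have e1 : ∀ i j, ∫ U, M i j (mg P p U) * f i (T.tU (mg P p U)) * f j (mg P p U) ∂(ME μ Eg) =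
      M i j (mg P p 1) * (∫ U, f i (mg P p U) ∂(ME μ Eg)) * (∫ U, f j (mg P p U) ∂(ME μ Eg)) := by
    intro i j
    have e2 : (fun U : Eg → G => M i j (mg P p U) * f i (T.tU (mg P p U)) * f j (mg P p U)) =
        fun U => M i j (mg P p 1) * ((fun U => f j (mg P p U)) U *
          (fun U => f i (mg P p (T.tU U))) U) := by
      funext U
      rw [hMc, h1]
      ring
    rw [e2, integral_const_mul, integral_indep μ T.R (hdp j) (T.dep (hdp i)),
      T.integral μ (fun U => f i (mg P p U))]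
    ring
  have hi : ∀ i j, Integrable (fun U : Eg → G => M i j (mg P p U) * f i (T.tU (mg P p U)) *
      f j (mg P p U)) (ME μ Eg) := fun i j =>
    integrable_cont μ ((hc i j).comp (mg_cont P p))
  rw [integral_finsetSum _ fun i _ => integrable_finsetSum _ fun j _ => hi i j]
  have e3 : ∀ i, ∫ U, ∑ j, M i j (mg P p U) * f i (T.tU (mg P p U)) * f j (mg P p U) ∂(ME μ Eg) =
      ∑ j, M i j (mg P p 1) * (∫ U, f i (mg P p U) ∂(ME μ Eg)) *
        (∫ U, f j (mg P p U) ∂(ME μ Eg)) := by
    intro i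
    rw [integral_finsetSum _ fun j _ => hi i j]
    exact Finset.sum_congr rfl fun j _ => e1 i j
  simp only [e3]
  exact hMp _ _

end psd

lemma HS_HQ {m : ℕ} [NeZero m] {τ : Fin d} {h : ℕ} (hh : h < m) {α : Type*}
    {X : (Ez d → G) → α} (hX : Dep (HS τ h) X) :
    Dep (HQ (m := m) τ) fun U : Ed d (2 * m) → G => X (lf U) := by
  intro U U' hU
  refine hX _ _ fun e he => ?_
  unfold lf
  refine hU _ ?_
  have h1 : ((e.1 τ : ℤ) : ZMod (2 * m)).val ≤ h := by
    obtain ⟨k, hk⟩ := Int.eq_ofNat_of_zero_le he.1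
    have h2 : k ≤ h := by have := he.2; omega
    rw [hk, Int.cast_natCast, val_nat (by omega)]
    exact h2
  unfold HQ
  split_ifs with h2
  · show ((e.1 τ : ℤ) : ZMod (2 * m)).val < m
    omega
  · show ((e.1 τ : ℤ) : ZMod (2 * m)).val ≤ m
    omega

lemma HP_PP {m : ℕ} [NeZero m] {τ : Fin d} {α : Type*} {X : (Ez d → G) → α} (hX : Dep (HP τ) X) :
    Dep (PP (m := m) τ) fun U : Ed d (2 * m) → G => X (lf U) := by
  intro U U' hU
  refine hX _ _ fun e he => ?_
  unfold lf
  refine hU _ ⟨he.1, Or.inl ?_⟩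
  show ((e.1 τ : ℤ) : ZMod (2 * m)) = 0
  rw [he.2]; simp

/-- **reflection positivity for hyperplanes through the sites** -/
theorem IV.site (hE : IV μ L β E) (τ : Fin d) {I : Type*} [Fintype I]
    {A : I → (Ez d → G) → ℝ} (hA : ∀ i, Continuous (A i)) {h : ℕ} (hd : ∀ i, Dep (HS τ h) (A i))
    {M : I → I → (Ez d → G) → ℝ} (hM : ∀ i j, Continuous (M i j))
    (hMd : ∀ i j, Dep (HP τ) (M i j))
    (hMp : ∀ V, ∀ c : I → ℝ, 0 ≤ ∑ i, ∑ j, M i j V * c i * c j) :
    0 ≤ E (fun V => ∑ i, ∑ j, M i j V * A i (rf τ V) * A j V) := by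
  obtain ⟨s, hs, hl⟩ := hE.ev (h + 1)
  refine ge_of_tendsto' (hl _ (continuous_finsetSum _ fun i _ => continuous_finsetSum _ fun j _ =>
    ((hM i j).mul ((hA i).comp (rf_cont τ))).mul (hA j))) fun k => ?_
  have hm : 2 ≤ s k + 1 := by have := hs k; omega
  have hh : h < s k + 1 := by have := hs k; omega
  unfold EX
  refine div_nonneg ?_ (Zt_pos μ β).le
  unfold Zt
  have h1 := SB_psd (μ := μ) (SR (d := d) hm τ) (PP τ) PP_fix PP_th (I := I)
    (f := fun i U => A i (lf U) * Real.exp (-(β * sS L τ U)))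
    (fun i => ((hA i).comp lf_cont).mul (Real.continuous_exp.comp
      (continuous_const.mul (sS_cont τ)).neg))
    (fun i => Dep_HQ hm fun U U' hU => by
      have e1 := HS_HQ (m := s k + 1) hh (hd i) U U' hU
      simp only at e1 ⊢
      rw [e1, sS_dep (L := L) hm U U' hU])
    (M := fun i j U => M i j (lf U)) (fun i j => (hM i j).comp lf_cont)
    (fun i j => HP_PP (hMd i j)) (fun U c => hMp _ c)
  refine h1.trans (le_of_eq ?_)
  refine integral_congr_ae (Filter.Eventually.of_forall fun U => ?_)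
  simp only
  rw [act_sS (i0 := τ) hm, Finset.sum_mul]
  refine Finset.sum_congr rfl fun i _ => ?_
  rw [Finset.sum_mul]
  refine Finset.sum_congr rfl fun j _ => ?_
  rw [lf_rf hm]
  have h2 : ∀ a b : ℝ, Real.exp (-(β * (a + b))) =
      Real.exp (-(β * a)) * Real.exp (-(β * b)) := by
    intro a b
    rw [← Real.exp_add]
    congr 1; ring
  rw [h2]
  ring

end

end Pool.Agent.N985
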