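import Mathlib
import Pool.Agent.N985.Fw1
import Pool.Agent.N985.Mb

/-!
# Half space functionals with values in the block matrices
-/

open MeasureTheory Matrix Filter
open scoped Matrix.Norms.Frobenius ContDiff Topology
open Pool.Agent.H906R3.YM hiding Pl
open Pool.Agent.W793.YM Pool.Agent.TH618.YM Pool.Agent.Y14 Pool.Agent.R990

namespace Pool.Agent.N985

set_option linter.unusedSectionVars false
set_option linter.unusedVariables false

noncomputable section

/-- unit vectors -/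
abbrev ez {d : ℕ} (τ : Fin d) : Fin d → ℤ := Pi.single τ 1

/-- log-convex sequences -/
lemma logconv {c : ℕ → ℝ} (h0 : ∀ n, 0 ≤ c n) (hc : ∀ n, c (n + 1) ^ 2 ≤ c n * c (n + 2))
    {C r : ℝ} (hr : 0 ≤ r) (hb : ∀ n, c n ≤ C * r ^ n) : c 1 ≤ r * c 0 := by
  by_contra hlt
  push Not at hlt
  have hc1 : 0 < c 1 := lt_of_le_of_lt (mul_nonneg hr (h0 0)) hlt
  have hc0 : 0 < c 0 := by
    rcases (h0 0).lt_or_eq with h | h
    · exact h
    · have h1 := hc 0
      rw [← h, zero_mul] at h1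
      nlinarith
  obtain ⟨ρ, hρ⟩ : ∃ ρ, ρ = c 1 / c 0 := ⟨_, rfl⟩
  have hρr : r < ρ := by rw [hρ, lt_div_iff₀ hc0]; exact hlt
  have hρ0 : 0 < ρ := lt_of_le_of_lt hr hρr
  have hstep : ∀ n, 0 < c n ∧ ρ * c n ≤ c (n + 1) := by
    intro n
    induction n with
    | zero => exact ⟨hc0, by rw [hρ, div_mul_cancel₀ _ hc0.ne']⟩
    | succ n ih =>
      obtain ⟨ih1, ih2⟩ := ih
      have hp : 0 < c (n + 1) := lt_of_lt_of_le (mul_pos hρ0 ih1) ih2
      refine ⟨hp, ?_⟩
      have h1 := hc n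
      have h2 : ρ * c (n + 1) * c n ≤ c (n + 2) * c n := by nlinarith
      exact le_of_mul_le_mul_right h2 ih1
  have hgrow : ∀ n, c 0 * ρ ^ n ≤ c n := by
    intro n
    induction n with
    | zero => simp
    | succ n ih =>
      have h1 := (hstep n).2
      rw [pow_succ]
      nlinarith
  rcases hr.lt_or_eq with hr0 | hr0
  · have h1 : ∀ n, c 0 * (ρ / r) ^ n ≤ C := by
      intro n
      have h2 := (hgrow n).trans (hb n)
      rw [div_pow, mul_div_assoc', div_le_iff₀ (by positivity)]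
      exact h2
    have h3 : Tendsto (fun n : ℕ => c 0 * (ρ / r) ^ n) atTop atTop :=
      (tendsto_pow_atTop_atTop_of_one_lt (by rw [lt_div_iff₀ hr0, one_mul]; exact hρr)).const_mul_atTop
        hc0
    obtain ⟨n, hn⟩ := (h3.eventually_gt_atTop C).exists
    exact absurd (h1 n) (not_le.2 hn)
  · have h1 := hb 1
    rw [← hr0] at h1
    simp at h1
    linarith

variable {G : Type*} [Group G] [TopologicalSpace G] [IsTopologicalGroup G] [CompactSpace G]
  [SecondCountableTopology G] [MeasurableSpace G] [BorelSpace G] {μ : Measure G}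
  [IsProbabilityMeasure μ] [μ.IsMulLeftInvariant] [μ.IsMulRightInvariant] [μ.IsInvInvariant]
  {N n : ℕ} {L : LD G N n} {d : ℕ} {B : Type*} [Fintype B] [DecidableEq B]

variable (L) in
/-- half space observables -/
structure Ob (τ : Fin d) (a b : B → Fin d → ℤ) (X : (Ez d → G) → Mb B N) : Prop where
  cont : Continuous X
  loc : ∃ h : ℕ, Dep (HS τ h) X
  cov : ∀ γ V u v, X (gz γ V) u v = L.rho (γ (a u)) * X V u v * (L.rho (γ (b v)))ᴴ

variable (L) in
/-- the transfer operator -/
def TT (τ : Fin d) (a b : B → Fin d → ℤ) (X : (Ez d → G) → Mb B N) (V : Ez d → G) : Mb B N :=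
  Matrix.of fun u v => L.rho (V (a u, τ)) * X (sh (ez τ) V) u v * (L.rho (V (b v, τ)))ᴴ

/-- the scalar product of reflection positivity -/
def sf (E : ((Ez d → G) → ℝ) → ℝ) (τ : Fin d) (X Y : (Ez d → G) → Mb B N) : ℝ :=
  E (fun V => ipb (X (rf τ V)) (Y V))

variable {τ : Fin d} {a b : B → Fin d → ℤ} {X Y : (Ez d → G) → Mb B N}

lemma TT_apply (V : Ez d → G) (u v : B) : TT L τ a b X V u v =
    L.rho (V (a u, τ)) * X (sh (ez τ) V) u v * (L.rho (V (b v, τ)))ᴴ := rfl

lemma sh_gz (z : Fin d → ℤ) (γ : (Fin d → ℤ) → G) (V : Ez d → G) :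
    sh z (gz γ V) = gz (fun x => γ (x + z)) (sh z V) := by
  funext e
  unfold sh gz
  simp only
  rw [add_right_comm]

lemma Ob.T (h : Ob L τ a b X) (ha : ∀ u, a u τ = 0) (hb : ∀ u, b u τ = 0) :
    Ob L τ a b (TT L τ a b X) := by
  refine ⟨?_, ?_, ?_⟩
  · refine continuous_matrix fun u v => ?_
    refine ((L.cont.comp (continuous_apply _)).mul ?_).mul
      ((ctL N).continuous.comp (L.cont.comp (continuous_apply _)))
    exact (continuous_apply v).comp ((continuous_apply u).comp (h.cont.comp (sh_cont _)))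
  · obtain ⟨k, hk⟩ := h.loc
    refine ⟨k + 1, fun V V' hV => ?_⟩
    ext1 u v
    rw [TT_apply, TT_apply, hV (a u, τ) ⟨(ha u).ge, by show a u τ ≤ _; rw [ha]; positivity⟩,
      hV (b v, τ) ⟨(hb v).ge, by show b v τ ≤ _; rw [hb]; positivity⟩]
    rw [hk (sh (ez τ) V) (sh (ez τ) V') fun e he => ?_]
    unfold sh
    refine hV _ ⟨?_, ?_⟩
    · show (0 : ℤ) ≤ e.1 τ + ez τ τ
      have := he.1
      simp; linarith
    · show e.1 τ + ez τ τ ≤ _
      have := he.2
      simp; linarith
  · intro γ V u v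
    rw [TT_apply, TT_apply, sh_gz, h.cov]
    have e1 : ∀ x : Fin d → ℤ, gz γ V (x, τ) = γ x * V (x, τ) * (γ (x + ez τ))⁻¹ := fun x => rfl
    rw [e1, e1]
    simp only [map_mul, L.rho_inv, conjTranspose_mul, conjTranspose_conjTranspose]
    have f1 := L.unit' (γ (a u + ez τ))
    have f2 := L.unit' (γ (b v + ez τ))
    obtain ⟨A, hA⟩ : ∃ A, A = L.rho (γ (a u + ez τ)) := ⟨_, rfl⟩
    obtain ⟨C, hC⟩ : ∃ C, C = L.rho (γ (b v + ez τ)) := ⟨_, rfl⟩
    rw [← hA] at f1 ⊢
    rw [← hC] at f2 ⊢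
    calc _ = L.rho (γ (a u)) * L.rho (V (a u, τ)) * (Aᴴ * A) * X (sh (ez τ) V) u v * (Cᴴ * C) *
          (L.rho (V (b v, τ)))ᴴ * (L.rho (γ (b v)))ᴴ := by simp only [Matrix.mul_assoc]
      _ = _ := by
          rw [f1, f2, mul_one, mul_one]
          simp only [Matrix.mul_assoc]

lemma Ob.add (h : Ob L τ a b X) (h' : Ob L τ a b Y) : Ob L τ a b (fun V => X V + Y V) := by
  refine ⟨h.cont.add h'.cont, ?_, fun γ V u v => ?_⟩
  · obtain ⟨k, hk⟩ := h.loc
    obtain ⟨k', hk'⟩ := h'.loc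
    refine ⟨max k k', fun V V' hV => ?_⟩
    simp only
    rw [hk V V' fun e he => hV e ⟨he.1, he.2.trans (by exact_mod_cast le_max_left _ _)⟩,
      hk' V V' fun e he => hV e ⟨he.1, he.2.trans (by exact_mod_cast le_max_right _ _)⟩]
  · rw [Matrix.add_apply, Matrix.add_apply, h.cov, h'.cov, mul_add, add_mul]

lemma Ob.smul (h : Ob L τ a b X) (c : ℝ) : Ob L τ a b (fun V => c • X V) := by
  refine ⟨h.cont.const_smul c, ?_, fun γ V u v => ?_⟩
  · obtain ⟨k, hk⟩ := h.loc
    refine ⟨k, fun V V' hV => ?_⟩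
    simp only
    rw [hk V V' hV]
  · rw [Matrix.smul_apply, Matrix.smul_apply, h.cov, mul_smul_comm, smul_mul_assoc]

lemma Ob.zero : Ob L τ a b (fun _ => (0 : Mb B N)) := by
  refine ⟨continuous_const, ⟨0, fun _ _ _ => rfl⟩, fun γ V u v => ?_⟩
  simp

variable (L) in
/-- the space of the observables -/
def OB (τ : Fin d) (a b : B → Fin d → ℤ) : Submodule ℝ ((Ez d → G) → Mb B N) where
  carrier := {X | Ob L τ a b X}
  add_mem' := fun h h' => h.add h'
  zero_mem' := Ob.zero
  smul_mem' := fun c _ h => h.smul c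

variable {β : ℝ} {E : ((Ez d → G) → ℝ) → ℝ}

section forms

lemma sfc (hX : Continuous X) (hY : Continuous Y) :
    Continuous fun V => ipb (X (rf τ V)) (Y V) := ipb_cont (hX.comp (rf_cont τ)) hY

variable (hE : IV μ L β E)
include hE

lemma sf_add_left {X' : (Ez d → G) → Mb B N} (hX : Continuous X) (hX' : Continuous X')
    (hY : Continuous Y) : sf E τ (fun V => X V + X' V) Y = sf E τ X Y + sf E τ X' Y := by
  refine Eq.trans ?_ (hE.add (sfc (τ := τ) hX hY) (sfc (τ := τ) hX' hY))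
  unfold sf
  congr 1
  funext V
  rw [ipb_add_left]

lemma sf_smul_left (c : ℝ) (hX : Continuous X) (hY : Continuous Y) :
    sf E τ (fun V => c • X V) Y = c * sf E τ X Y := by
  refine Eq.trans ?_ (hE.smul c (sfc (τ := τ) hX hY))
  unfold sf
  congr 1
  funext V
  rw [ipb_smul_left]

lemma sf_comm (hX : Continuous X) (hY : Continuous Y) : sf E τ X Y = sf E τ Y X := by
  refine (hE.refl τ (sfc (τ := τ) hX hY)).symm.trans ?_
  unfold sf
  congr 1
  funext V
  rw [rf_rf, ipb_comm]

lemma sf_add_right {Y' : (Ez d → G) → Mb B N} (hX : Continuous X) (hY : Continuous Y)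
    (hY' : Continuous Y') : sf E τ X (fun V => Y V + Y' V) = sf E τ X Y + sf E τ X Y' := by
  have e : sf E τ X (fun V => Y V + Y' V) = sf E τ (fun V => Y V + Y' V) X :=
    sf_comm hE hX (hY.add hY')
  rw [e, sf_add_left hE hY hY' hX, sf_comm hE hY hX, sf_comm hE hY' hX]

lemma sf_smul_right (c : ℝ) (hX : Continuous X) (hY : Continuous Y) :
    sf E τ X (fun V => c • Y V) = c * sf E τ X Y := by
  have e : sf E τ X (fun V => c • Y V) = sf E τ (fun V => c • Y V) X :=
    sf_comm hE hX (hY.const_smul c)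
  rw [e, sf_smul_left hE c hY hX, sf_comm hE hY hX]

/-- positivity of quadratic forms which depend on the hyperplane -/
theorem hq (hX : Continuous X) {h : ℕ} (hd : Dep (HS τ h) X)
    {q : (Ez d → G) → Mb B N →ₗ[ℝ] Mb B N →ₗ[ℝ] ℝ} (hq : ∀ A C, Continuous fun V => q V A C)
    (hqd : ∀ A C, Dep (HP τ) fun V => q V A C) (hp : ∀ V A, 0 ≤ q V A A) :
    0 ≤ E (fun V => q V (X (rf τ V)) (X V)) := by
  have h1 := hE.site τ (I := Ib B N) (A := fun i V => cb i (X V)) (fun i => cb_cont hX i)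
    (h := h) (fun i V V' hV => by simp only; rw [hd V V' hV])
    (M := fun i j V => q V (eb i) (eb j)) (fun i j => hq _ _) (fun i j => hqd _ _)
    (fun V c => ?_)
  · refine h1.trans (le_of_eq ?_)
    congr 1
    funext V
    rw [bil_cb]
  · have h2 := hp V (∑ i, c i • eb i)
    refine h2.trans (le_of_eq ?_)
    obtain ⟨Z, hZ⟩ : ∃ Z, Z = ∑ i, c i • (eb i : Mb B N) := ⟨_, rfl⟩
    have h3 : q V (∑ i, c i • (eb i : Mb B N)) Z = ∑ i, c i * q V (eb i) Z := by
      rw [map_sum, LinearMap.sum_apply]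
      exact Finset.sum_congr rfl fun i _ => by
        rw [map_smul, LinearMap.smul_apply, smul_eq_mul]
    have h4 : ∀ i, q V (eb i) Z = ∑ j, c j * q V (eb i) (eb j) := by
      intro i
      rw [hZ, map_sum]
      exact Finset.sum_congr rfl fun j _ => by rw [map_smul, smul_eq_mul]
    have h5 : q V (∑ i, c i • (eb i : Mb B N)) (∑ i, c i • eb i) =
        ∑ i, c i * q V (eb i) Z := by rw [← hZ] at h3 ⊢; exact h3
    rw [h5]
    refine Finset.sum_congr rfl fun i _ => ?_
    rw [h4, Finset.mul_sum]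
    exact Finset.sum_congr rfl fun j _ => by ring

lemma sf_nonneg (hX : Continuous X) {h : ℕ} (hd : Dep (HS τ h) X) : 0 ≤ sf E τ X X := by
  have h1 := hq hE hX hd (q := fun _ => ipL) (fun A C => continuous_const)
    (fun A C V V' _ => rfl) (fun V A => ipb_self_nonneg A)
  exact h1

lemma rf_HP {α : Type*} {F : (Ez d → G) → α} (hF : Dep (HP τ) F) (V : Ez d → G) :
    F (rf τ V) = F V := by
  refine hF _ _ fun e he => ?_
  obtain ⟨x, k⟩ := e
  rw [rf_ne he.1]
  congr 2
  unfold rp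
  have h0 : x τ = 0 := he.2
  rw [h0, neg_zero, ← h0, Function.update_eq_self]

lemma HP_HS {α : Type*} {F : (Ez d → G) → α} (hF : Dep (HP τ) F) (h : ℕ) : Dep (HS τ h) F :=
  fun V V' hV => hF _ _ fun e he => hV e ⟨he.2.ge, by rw [he.2]; positivity⟩

/-- bounds for the maps which depend on the hyperplane -/
theorem hb (hX : Continuous X) {h : ℕ} (hd : Dep (HS τ h) X)
    {K : (Ez d → G) → Mb B N →ₗ[ℝ] Mb B N} (hK : ∀ A, Continuous fun V => K V A)
    (hKd : ∀ A, Dep (HP τ) fun V => K V A) {c : ℝ} (hc : ∀ V A, ‖K V A‖ ^ 2 ≤ c * ‖A‖ ^ 2) :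
    sf E τ (fun V => K V (X V)) (fun V => K V (X V)) ≤ c * sf E τ X X := by
  have hrf : ∀ V, K (rf τ V) = K V := fun V => LinearMap.ext fun A => rf_HP hE (hKd A) V
  have h1 := hq hE hX hd (q := fun V => c • ipL - (ipL.comp (K V)).compl₂ (K V))
    (fun A C => by
      show Continuous fun V => c * ipb A C - ipb (K V A) (K V C)
      exact continuous_const.sub (ipb_cont (hK A) (hK C)))
    (fun A C V V' hV => by
      show c * ipb A C - ipb (K V A) (K V C) = c * ipb A C - ipb (K V' A) (K V' C)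
      have e1 : K V A = K V' A := hKd A V V' hV
      have e2 : K V C = K V' C := hKd C V V' hV
      rw [e1, e2])
    (fun V A => by
      show 0 ≤ c * ipb A A - ipb (K V A) (K V A)
      have := hc V A
      rw [nb_eq, nb_eq] at this
      linarith)
  have hXc : Continuous fun V => ipb (X (rf τ V)) (X V) := ipb_cont (hX.comp (rf_cont τ)) hX
  have hKX : Continuous fun V => K V (X V) := by
    have e : (fun V => K V (X V)) = fun V => ∑ i, cb i (X V) • K V (eb i) := by
      funext V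
      conv_lhs => rw [← sum_eb (X V)]
      rw [map_sum]
      exact Finset.sum_congr rfl fun i _ => by rw [map_smul]
    rw [e]
    exact continuous_finsetSum _ fun i _ => (cb_cont hX i).smul (hK _)
  have c4 : Continuous fun V => ipb (K V (X (rf τ V))) (K V (X V)) := by
    have h := sfc (τ := τ) hKX hKX
    simp only [hrf] at h
    exact h
  have h2 : E (fun V => c * ipb (X (rf τ V)) (X V) -
      ipb (K V (X (rf τ V))) (K V (X V))) =
      c * sf E τ X X - sf E τ (fun V => K V (X V)) (fun V => K V (X V)) := by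
    refine (hE.sub (F := fun V => c * ipb (X (rf τ V)) (X V)) (continuous_const.mul hXc)
      c4).trans ?_
    rw [hE.smul c hXc]
    unfold sf
    congr 2
    funext V
    simp only [hrf]
  have h3 : 0 ≤ E (fun V => c * ipb (X (rf τ V)) (X V) -
      ipb (K V (X (rf τ V))) (K V (X V))) := h1
  rw [h2] at h3
  linarith

end forms

end

end Pool.Agent.N985
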