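import Mathlib
import Pool.Agent.N985.Fw2

/-!
# The transfer operator: symmetry, positivity, contraction
-/

open MeasureTheory Matrix Filter
open scoped Matrix.Norms.Frobenius ContDiff Topology
open Pool.Agent.H906R3.YM hiding Pl
open Pool.Agent.W793.YM Pool.Agent.TH618.YM Pool.Agent.Y14 Pool.Agent.R990

namespace Pool.Agent.N985

set_option linter.unusedSectionVars false
set_option linter.unusedVariables false

noncomputable section

variable {G : Type*} [Group G] [TopologicalSpace G] [IsTopologicalGroup G] [CompactSpace G]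
  [SecondCountableTopology G] [MeasurableSpace G] [BorelSpace G] {μ : Measure G}
  [IsProbabilityMeasure μ] [μ.IsMulLeftInvariant] [μ.IsMulRightInvariant] [μ.IsInvInvariant]
  {N n : ℕ} {L : LD G N n} {d : ℕ} {B : Type*} [Fintype B] [DecidableEq B]
  {τ : Fin d} {a b : B → Fin d → ℤ} {X Y : (Ez d → G) → Mb B N}
  {β : ℝ} {E : ((Ez d → G) → ℝ) → ℝ}

lemma TT_cont (h : Continuous X) : Continuous (TT L τ a b X) := by
  refine continuous_matrix fun u v => ?_
  refine ((L.cont.comp (continuous_apply _)).mul ?_).mul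
    ((ctL N).continuous.comp (L.cont.comp (continuous_apply _)))
  exact (continuous_apply v).comp ((continuous_apply u).comp (h.comp (sh_cont _)))

lemma norm_TT (X : (Ez d → G) → Mb B N) (V : Ez d → G) :
    ‖TT L τ a b X V‖ = ‖X (sh (ez τ) V)‖ := by
  have h : ‖TT L τ a b X V‖ ^ 2 = ‖X (sh (ez τ) V)‖ ^ 2 := by
    rw [nb_sum, nb_sum]
    refine Finset.sum_congr rfl fun u _ => Finset.sum_congr rfl fun v _ => ?_
    rw [TT_apply, norm_conj]
  exact (pow_left_inj₀ (norm_nonneg _) (norm_nonneg _) two_ne_zero).1 h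

/-- the reflected transfer operator -/
lemma rf_sh (ha : ∀ u, a u τ = 0) (V : Ez d → G) : rf τ (sh (ez τ) V) = sh (-ez τ) (rf τ V) := by
  funext e
  obtain ⟨x, k⟩ := e
  by_cases h : k = τ
  · subst h
    rw [rf_same]
    show _ = rf k V (x + -ez k, k)
    rw [rf_same]
    unfold sh
    simp only
    congr 2
    refine Prod.ext ?_ rfl
    funext i
    by_cases hi : i = k
    · subst hi; simp; ring
    · simp [hi]
  · rw [rf_ne h]
    show _ = rf τ V (x + -ez τ, k)
    rw [rf_ne h]
    unfold sh rp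
    simp only
    congr 1
    refine Prod.ext ?_ rfl
    funext i
    by_cases hi : i = τ
    · subst hi; simp; ring
    · simp [hi]

lemma rf_sh' (V : Ez d → G) : rf τ (sh (ez τ) V) = sh (-ez τ) (rf τ V) :=
  rf_sh (B := Empty) (a := fun u => 0) (fun u => rfl) V

lemma ip_TT (ha : ∀ u, a u τ = 0) (hb : ∀ u, b u τ = 0) (X Y : (Ez d → G) → Mb B N)
    (V : Ez d → G) : ipb (TT L τ a b X (rf τ (sh (ez τ) V))) (Y (sh (ez τ) V)) =
      ipb (X (rf τ V)) (TT L τ a b Y V) := by
  unfold ipb
  refine Finset.sum_congr rfl fun u _ => Finset.sum_congr rfl fun v _ => ?_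
  rw [TT_apply, TT_apply]
  have e1 : ∀ x : Fin d → ℤ, x τ = 0 → rf τ (sh (ez τ) V) (x, τ) = (V (x, τ))⁻¹ := by
    intro x hx
    rw [rf_same]
    unfold sh
    simp only
    congr 2
    refine Prod.ext ?_ rfl
    funext i
    by_cases hi : i = τ
    · subst hi; simp [hx]
    · simp [hi]
  have e2 : sh (ez τ) (rf τ (sh (ez τ) V)) = rf τ V := by
    rw [rf_sh', sh_sh, add_neg_cancel, sh_zero]
  rw [e1 _ (ha u), e1 _ (hb v), e2, L.rho_inv, L.rho_inv, conjTranspose_conjTranspose,
    ip_mul_right, ip_mul_left, conjTranspose_conjTranspose]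
  simp only [Matrix.mul_assoc]

section forms

variable (hE : IV μ L β E)
include hE

lemma sf_TT (ha : ∀ u, a u τ = 0) (hb : ∀ u, b u τ = 0) (hX : Continuous X)
    (hY : Continuous Y) : sf E τ (TT L τ a b X) Y = sf E τ X (TT L τ a b Y) := by
  unfold sf
  rw [← hE.shift (ez τ) (sfc (τ := τ) (TT_cont (L := L) (a := a) (b := b) (τ := τ) hX) hY)]
  congr 1
  funext V
  exact ip_TT ha hb X Y V

omit hE in
/-- reflection and gauge transformations -/
lemma rf_gz (γ' : (Fin d → ℤ) → G) (W : Ez d → G) :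
    rf τ (gz γ' W) = gz (fun x => γ' (rp τ x)) (rf τ W) := by
  funext e
  obtain ⟨x, k⟩ := e
  by_cases h : k = τ
  · subst h
    rw [rf_same]
    unfold gz
    rw [rf_same]
    simp only
    have e1 : Function.update x k (-1 - x k) + Pi.single k 1 = rp k x := by
      unfold rp
      funext i
      by_cases hi : i = k
      · subst hi; simp; ring
      · simp [hi]
    have e2 : rp k (x + Pi.single k 1) = Function.update x k (-1 - x k) := by
      unfold rp
      funext i
      by_cases hi : i = k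
      · subst hi; simp; ring
      · simp [hi]
    rw [e1, e2]
    group
  · rw [rf_ne h]
    unfold gz
    rw [rf_ne h]
    simp only
    have e1 : rp τ (x + Pi.single k 1) = rp τ x + Pi.single k 1 := by
      unfold rp
      funext i
      by_cases hi : i = τ
      · subst hi; simp [Ne.symm h]
      · simp [hi]
    rw [e1]

omit hE in
/-- reflection positivity on the periodic lattice -/
theorem link_tor {m : ℕ} [NeZero m] (hm : 2 ≤ m) {h : ℕ} (hmh : h + 2 < m) (hβ : 0 ≤ β)
    (ha : ∀ u, a u τ = 0) (hb : ∀ u, b u τ = 0) (hX : Ob L τ a b X) (hd : Dep (HS τ h) X) :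
    0 ≤ EX μ L β (fun U : Ed d (2 * m) → G =>
      ipb (X (rf τ (lf U))) (TT L τ a b X (lf U))) := by
  have hXT := TT_cont (L := L) (a := a) (b := b) (τ := τ) hX.cont
  obtain ⟨c, hc, hred⟩ := Zt_red μ (L := L) hm τ β
  have hg : GI fun U : Ed d (2 * m) → G =>
      ipb (X (rf τ (lf U))) (TT L τ a b X (lf U)) := by
    intro γ U
    show ipb (X (rf τ (lf (gt γ U)))) (TT L τ a b X (lf (gt γ U))) = _
    rw [lf_gt]
    obtain ⟨γ', hγ'⟩ : ∃ γ' : (Fin d → ℤ) → G, γ' = fun x => γ (zt (2 * m) x) := ⟨_, rfl⟩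
    rw [← hγ', rf_gz]
    have hT := hX.T ha hb
    unfold ipb
    refine Finset.sum_congr rfl fun u _ => Finset.sum_congr rfl fun v _ => ?_
    rw [hX.cov, hT.cov]
    have f1 : ∀ x : Fin d → ℤ, x τ = 0 → rp τ x = x := by
      intro x hx
      unfold rp
      rw [hx, neg_zero, ← hx, Function.update_eq_self]
    rw [f1 _ (ha u), f1 _ (hb v), ip_unit]
  have hcont : Continuous fun U : Ed d (2 * m) → G =>
      ipb (X (rf τ (lf U))) (TT L τ a b X (lf U)) := (sfc hX.cont hXT).comp lf_cont
  unfold EX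
  refine div_nonneg ?_ (Zt_pos μ β).le
  rw [hred _ hcont hg]
  refine mul_nonneg hc.le ?_
  obtain ⟨Yf, hYf⟩ : ∃ Yf : (Ed d (2 * m) → G) → Mb B N,
    Yf = fun U => X (sh (ez τ) (lf U)) := ⟨_, rfl⟩
  have hYc : Continuous Yf := by
    rw [hYf]; exact hX.cont.comp ((sh_cont _).comp lf_cont)
  -- values of coordinates
  have hval : ∀ t : ℤ, 0 ≤ t → t ≤ h + 1 → ((t : ℤ) : ZMod (2 * m)).val = t.toNat := by
    intro t h0 h1
    obtain ⟨k, hk⟩ := Int.eq_ofNat_of_zero_le h0
    have h2 : k ≤ h + 1 := by omega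
    rw [hk, Int.cast_natCast, val_nat (by omega)]
    simp
  have hfixY : ∀ U, X (sh (ez τ) (lf (fix τ U))) = Yf U := by
    intro U
    rw [hYf]
    refine hd _ _ fun e he => ?_
    unfold sh lf
    obtain ⟨x, k⟩ := e
    simp only
    by_cases hk : k = τ
    · subst hk
      refine fix_i0 _ _ ?_
      rw [eq_zero_iff, eq_m_iff hm]
      have h1 := he.1
      have h2 := he.2
      simp only at h1 h2
      have h3 := hval (x k + 1) (by omega) (by omega)
      have h4 : (x + ez k) k = x k + 1 := by simp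
      rw [h4, h3]
      omega
    · exact fix_ne _ _ hk
  have hfixX : ∀ U, X (rf τ (lf (fix τ U))) = Yf ((TR hm τ).tU U) := by
    intro U
    rw [hYf]
    refine hd _ _ fun e he => ?_
    obtain ⟨x, k⟩ := e
    have h1 := he.1
    have h2 := he.2
    simp only at h1 h2
    by_cases hk : k = τ
    · subst hk
      rw [rf_same]
      unfold sh lf
      simp only
      rw [tU_i0]
      congr 1
      rw [fix_i0]
      · congr 2
        unfold rB
        funext i
        by_cases hi : i = k
        · subst hi; simp; ring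
        · simp [hi]
      · rw [eq_zero_iff, eq_m_iff hm]
        have h4 : (Function.update x k (-1 - x k)) k = -1 - x k := by simp
        rw [h4]
        have h5 := hval (x k + 1) (by omega) (by omega)
        have h6 : (((-1 - x k : ℤ)) : ZMod (2 * m)) = -(((x k + 1 : ℤ)) : ZMod (2 * m)) := by
          push_cast; ring
        rw [h6, val_neg', h5]
        split_ifs with h7
        · omega
        · omega
    · rw [rf_ne hk]
      unfold sh lf
      simp only
      rw [tU_ne _ _ hk, fix_ne _ _ hk]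
      congr 2
      unfold rp rA
      funext i
      by_cases hi : i = τ
      · subst hi; simp
      · simp [hi]
  have hD : ∀ U : Ed d (2 * m) → G, TT L τ a b X (lf (fix τ U)) = X (sh (ez τ) (lf (fix τ U))) := by
    intro U
    ext1 u v
    rw [TT_apply]
    have f1 : ∀ x : Fin d → ℤ, x τ = 0 → lf (fix τ U) (x, τ) = 1 := by
      intro x hx
      unfold lf
      refine fix_i0' _ _ (Or.inl ?_)
      simp [hx]
    rw [f1 _ (ha u), f1 _ (hb v), map_one, conjTranspose_one, one_mul, mul_one]
  have hYd : Dep (TR hm τ).R Yf := by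
    intro U U' hU
    rw [hYf]
    refine hd _ _ fun e he => ?_
    obtain ⟨x, k⟩ := e
    have h1 := he.1
    have h2 := he.2
    simp only at h1 h2
    unfold sh lf
    refine hU _ ?_
    have h3 := hval (x τ + 1) (by omega) (by omega)
    have h4 : (x + ez τ) τ = x τ + 1 := by simp
    show if k = τ then H2 m _ else H1 m _
    unfold H1 H2
    simp only
    rw [h4, h3]
    split_ifs
    · omega
    · omega
  have e2 : ∀ U, ipb (X (rf τ (lf (fix τ U)))) (TT L τ a b X (lf (fix τ U))) =
      ∑ i, cb i (Yf ((TR hm τ).tU U)) * cb i (Yf U) := by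
    intro U
    rw [hD, hfixX, hfixY, ipb_cb]
  simp only [e2]
  have hcc : ∀ i, Continuous fun U : Ed d (2 * m) → G =>
      cb i (Yf ((TR hm τ).tU U)) * cb i (Yf U) := fun i =>
    (cb_cont (hYc.comp (TR hm τ).tU_cont) i).mul (cb_cont hYc i)
  have e3 := Ew_sum μ (L := L) (TR hm τ) (β := β) (w := (wR L β m τ).1) (Sm_cont (wR L β m τ))
    Finset.univ (F := fun i (U : Ed d (2 * m) → G) =>
      cb i (Yf ((TR hm τ).tU U)) * cb i (Yf U)) hcc
  rw [e3]
  refine Finset.sum_nonneg fun i _ => ?_
  have h5 := (TR hm τ).B_self μ (L := L) hβ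
    (f := fun U : Ed d (2 * m) → G => cb i (Yf U) * (wR L β m τ).1 U)
    ((cb_cont hYc i).mul (Sm_cont _)) (fun U U' hU => by
      simp only
      rw [hYd U U' hU, wR_dep (L := L) hm β τ U U' hU])
  refine h5.trans (le_of_eq ?_)
  unfold Refl.Ew Refl.B
  refine integral_congr_ae (Filter.Eventually.of_forall fun U => ?_)
  simp only
  ring

/-- reflection positivity for the hyperplanes between the sites -/
theorem link_pos (hβ : 0 ≤ β) (ha : ∀ u, a u τ = 0) (hb : ∀ u, b u τ = 0)
    (hX : Ob L τ a b X) : 0 ≤ sf E τ X (TT L τ a b X) := by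
  obtain ⟨h, hd⟩ := hX.loc
  obtain ⟨s, hs, hl⟩ := hE.ev (h + 2)
  have hXT := TT_cont (L := L) (a := a) (b := b) (τ := τ) hX.cont
  unfold sf
  refine ge_of_tendsto' (hl _ (sfc hX.cont hXT)) fun k => ?_
  have hh := hs k
  exact link_tor (by omega) (h := h) (by omega) hβ ha hb hX hd

/-- Cauchy-Schwarz inequality -/
lemma sf_cs (hX : Ob L τ a b X) (hY : Ob L τ a b Y) :
    sf E τ X Y ^ 2 ≤ sf E τ X X * sf E τ Y Y := by
  refine Pool.Agent.H906R3.YM.sq_le_of_forall fun t => ?_
  obtain ⟨Z, hZd⟩ : ∃ Z : (Ez d → G) → Mb B N, Z = fun V => t • Y V := ⟨_, rfl⟩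
  have hZO : Ob L τ a b Z := by rw [hZd]; exact hY.smul t
  have hW := hX.add hZO
  obtain ⟨h, hd⟩ := hW.loc
  have h1 := sf_nonneg hE hW.cont hd
  have e1 : ∀ {A : (Ez d → G) → Mb B N}, Continuous A → sf E τ Z A = t * sf E τ Y A :=
    fun hA => by rw [hZd]; exact sf_smul_left hE t hY.cont hA
  have e2 : ∀ {A : (Ez d → G) → Mb B N}, Continuous A → sf E τ A Z = t * sf E τ A Y :=
    fun hA => by rw [hZd]; exact sf_smul_right hE t hA hY.cont
  rw [sf_add_left hE hX.cont hZO.cont hW.cont, sf_add_right hE hX.cont hX.cont hZO.cont,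
    sf_add_right hE hZO.cont hX.cont hZO.cont, e1 hX.cont, e1 hZO.cont, e2 hX.cont, e2 hY.cont,
    sf_comm hE hY.cont hX.cont] at h1
  linarith

/-- the transfer operator is a contraction -/
theorem TT_contr (ha : ∀ u, a u τ = 0) (hb : ∀ u, b u τ = 0)
    (hX : Ob L τ a b X) : sf E τ (TT L τ a b X) (TT L τ a b X) ≤ sf E τ X X := by
  obtain ⟨C, hC⟩ : ∃ C, ∀ V, ‖X V‖ ≤ C := by
    obtain ⟨C, hC⟩ := (isCompact_range hX.cont.norm).bddAbove
    exact ⟨C, fun V => hC ⟨V, rfl⟩⟩
  have hC0 : 0 ≤ C := (norm_nonneg _).trans (hC 1)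
  obtain ⟨S, hS⟩ : ∃ S : ℕ → (Ez d → G) → Mb B N, S = fun k => (TT L τ a b)^[k] X := ⟨_, rfl⟩
  have hS0 : S 0 = X := by rw [hS]; rfl
  have hS1 : ∀ k, S (k + 1) = TT L τ a b (S k) := fun k => by
    rw [hS]; exact Function.iterate_succ_apply' _ _ _
  have hSO : ∀ k, Ob L τ a b (S k) := by
    intro k
    induction k with
    | zero => rw [hS0]; exact hX
    | succ k ih => rw [hS1]; exact ih.T ha hb
  have hSn : ∀ k V, ‖S k V‖ ≤ C := by
    intro k
    induction k with
    | zero => intro V; rw [hS0]; exact hC V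
    | succ k ih => intro V; rw [hS1, norm_TT]; exact ih _
  have h1 := logconv (c := fun k => sf E τ (S k) (S k)) (fun k => by
      obtain ⟨h, hd⟩ := (hSO k).loc
      exact sf_nonneg hE (hSO k).cont hd)
    (fun k => by
      have e1 : sf E τ (S (k + 1)) (S (k + 1)) = sf E τ (S k) (S (k + 2)) := by
        have e2 : sf E τ (S (k + 1)) (S (k + 1)) = sf E τ (TT L τ a b (S k)) (S (k + 1)) := by
          rw [← hS1 k]
        rw [e2, sf_TT hE ha hb (hSO k).cont (hSO (k + 1)).cont, ← hS1]

      rw [e1]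
      exact sf_cs hE (hSO k) (hSO (k + 2)))
    (C := C ^ 2) (r := 1) zero_le_one (fun k => by
      rw [one_pow, mul_one]
      unfold sf
      rw [← hE.const (C ^ 2)]
      refine hE.mono (sfc (hSO k).cont (hSO k).cont) continuous_const fun V => ?_
      refine (ipb_le _ _).trans ?_
      rw [pow_two]
      exact mul_le_mul (hSn _ _) (hSn _ _) (norm_nonneg _) hC0)

  rw [hS1, hS0, one_mul] at h1
  exact h1

end forms

end

end Pool.Agent.N985
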