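import Mathlib
import Pool.Agent.N985.Cell3
import Pool.Agent.N985.Fw3
import Pool.Agent.N985.Al2

/-!
# Hyperplane maps acting on the observables
-/

open MeasureTheory Matrix Filter
open scoped Matrix.Norms.Frobenius ContDiff Topology
open Pool.Agent.H906R3.YM hiding Pl
open Pool.Agent.W793.YM Pool.Agent.TH618.YM Pool.Agent.Y14 Pool.Agent.R990

namespace Pool.Agent.N985

set_option linter.unusedSectionVars false
set_option linter.unusedVariables false

noncomputable section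

variable {G : Type*} [Group G] [TopologicalSpace G] [IsTopologicalGroup G] [CompactSpace G]
  [SecondCountableTopology G] [MeasurableSpace G] [BorelSpace G] {μ : Measure G}
  [IsProbabilityMeasure μ] [μ.IsMulLeftInvariant] [μ.IsMulRightInvariant] [μ.IsInvInvariant]
  {N n : ℕ} {L : LD G N n} {d : ℕ} {B : Type*} [Fintype B] [DecidableEq B]
  {τ : Fin d} {a b : B → Fin d → ℤ}
  {β : ℝ} {E : ((Ez d → G) → ℝ) → ℝ}

variable (L) in
/-- conjugation by gauge transformations -/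
def gcj (a b : B → Fin d → ℤ) (γ : (Fin d → ℤ) → G) (A : Mb B N) : Mb B N :=
  Matrix.of fun u v => L.rho (γ (a u)) * A u v * (L.rho (γ (b v)))ᴴ

lemma gcj_apply (γ : (Fin d → ℤ) → G) (A : Mb B N) (u v : B) :
    gcj L a b γ A u v = L.rho (γ (a u)) * A u v * (L.rho (γ (b v)))ᴴ := rfl

lemma Ob.cov' {X : (Ez d → G) → Mb B N} (h : Ob L τ a b X) (γ : (Fin d → ℤ) → G) (V : Ez d → G) :
    X (gz γ V) = gcj L a b γ (X V) := by
  ext1 u v
  exact h.cov γ V u v

variable (L) in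
/-- maps which depend on the links of the hyperplane -/
structure HM (τ : Fin d) (a b : B → Fin d → ℤ)
    (K : (Ez d → G) → Mb B N →ₗ[ℝ] Mb B N) : Prop where
  cont : ∀ A, Continuous fun V => K V A
  dep : ∀ A, Dep (HP τ) fun V => K V A
  cov : ∀ γ V A, K (gz γ V) (gcj L a b γ A) = gcj L a b γ (K V A)

lemma cont_lin {K : (Ez d → G) → Mb B N →ₗ[ℝ] Mb B N} (hK : ∀ A, Continuous fun V => K V A)
    {X : (Ez d → G) → Mb B N} (hX : Continuous X) : Continuous fun V => K V (X V) := by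
  have e : (fun V => K V (X V)) = fun V => ∑ i, cb i (X V) • K V (eb i) := by
    funext V
    conv_lhs => rw [← sum_eb (X V)]
    rw [map_sum]
    exact Finset.sum_congr rfl fun i _ => by rw [map_smul]
  rw [e]
  exact continuous_finsetSum _ fun i _ => (cb_cont hX i).smul (hK _)

lemma HM.ob {K : (Ez d → G) → Mb B N →ₗ[ℝ] Mb B N} (hK : HM L τ a b K)
    {X : (Ez d → G) → Mb B N} (hX : Ob L τ a b X) : Ob L τ a b (fun V => K V (X V)) := by
  refine ⟨cont_lin hK.cont hX.cont, ?_, fun γ V u v => ?_⟩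
  · obtain ⟨h, hd⟩ := hX.loc
    refine ⟨h, fun V V' hV => ?_⟩
    simp only
    rw [hd V V' hV]
    refine hK.dep _ V V' fun e he => hV e ⟨he.2.ge, ?_⟩
    rw [he.2]; positivity
  · rw [hX.cov', hK.cov]
    rfl

/-- the action on the observables -/
def HM.lin {K : (Ez d → G) → Mb B N →ₗ[ℝ] Mb B N} (hK : HM L τ a b K) :
    OB L τ a b →ₗ[ℝ] OB L τ a b where
  toFun X := ⟨fun V => K V (X.1 V), hK.ob X.2⟩
  map_add' X Y := by
    apply Subtype.ext
    funext V
    exact map_add (K V) _ _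
  map_smul' c X := by
    apply Subtype.ext
    funext V
    exact map_smul (K V) c _

lemma HM.lin_apply {K : (Ez d → G) → Mb B N →ₗ[ℝ] Mb B N} (hK : HM L τ a b K)
    (X : OB L τ a b) (V : Ez d → G) : (hK.lin X).1 V = K V (X.1 V) := rfl

/-- the transfer operator on the observables -/
def TL (ha : ∀ u, a u τ = 0) (hb : ∀ u, b u τ = 0) : OB L τ a b →ₗ[ℝ] OB L τ a b where
  toFun X := ⟨TT L τ a b X.1, X.2.T ha hb⟩
  map_add' X Y := by
    apply Subtype.ext
    funext V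
    ext1 u v
    show TT L τ a b (X.1 + Y.1) V u v = TT L τ a b X.1 V u v + TT L τ a b Y.1 V u v
    rw [TT_apply, TT_apply, TT_apply]
    show _ * (X.1 (sh (ez τ) V) u v + Y.1 (sh (ez τ) V) u v) * _ = _
    rw [mul_add, add_mul]
  map_smul' c X := by
    apply Subtype.ext
    funext V
    ext1 u v
    show TT L τ a b (c • X.1) V u v = c • TT L τ a b X.1 V u v
    rw [TT_apply, TT_apply]
    show _ * (c • X.1 (sh (ez τ) V) u v) * _ = _
    rw [mul_smul_comm, smul_mul_assoc]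

lemma TL_apply (ha : ∀ u, a u τ = 0) (hb : ∀ u, b u τ = 0) (X : OB L τ a b) :
    (TL ha hb X).1 = TT L τ a b X.1 := rfl

section forms

variable (hE : IV μ L β E)
include hE

/-- the scalar product of the observables -/
def FF (τ : Fin d) (a b : B → Fin d → ℤ) : Fm (OB L τ a b) where
  f := LinearMap.mk₂ ℝ (fun X Y => sf E τ X.1 Y.1)
    (fun X X' Y => sf_add_left hE X.2.cont X'.2.cont Y.2.cont)
    (fun c X Y => sf_smul_left hE c X.2.cont Y.2.cont)
    (fun X Y Y' => sf_add_right hE X.2.cont Y.2.cont Y'.2.cont)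
    (fun c X Y => sf_smul_right hE c X.2.cont Y.2.cont)
  symm X Y := sf_comm hE X.2.cont Y.2.cont
  nn X := by
    obtain ⟨h, hd⟩ := X.2.loc
    exact sf_nonneg hE X.2.cont hd

lemma FF_apply (X Y : OB L τ a b) : (FF hE τ a b).f X Y = sf E τ X.1 Y.1 := rfl

lemma HM.nr_le {K : (Ez d → G) → Mb B N →ₗ[ℝ] Mb B N} (hK : HM L τ a b K) {c : ℝ} (c0 : 0 ≤ c)
    (hc : ∀ V A, ‖K V A‖ ≤ c * ‖A‖) (X : OB L τ a b) :
    (FF hE τ a b).nr (hK.lin X) ≤ c * (FF hE τ a b).nr X := by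
  obtain ⟨h, hd⟩ := X.2.loc
  have h1 := hb hE X.2.cont hd hK.cont hK.dep (c := c ^ 2) (fun V A => by
    rw [← mul_pow]
    exact pow_le_pow_left₀ (norm_nonneg _) (hc V A) 2)
  have h2 : (FF hE τ a b).nr (hK.lin X) ^ 2 ≤ (c * (FF hE τ a b).nr X) ^ 2 := by
    rw [Fm.nr_sq, mul_pow, Fm.nr_sq]
    exact h1
  exact (pow_le_pow_iff_left₀ (Fm.nr_nonneg _ _) (mul_nonneg c0 (Fm.nr_nonneg _ _))
    two_ne_zero).1 h2

lemma HM.nr_le' {K : (Ez d → G) → Mb B N →ₗ[ℝ] Mb B N} (hK : HM L τ a b K)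
    (hc : ∀ V A, ‖K V A‖ ≤ ‖A‖) (X : OB L τ a b) :
    (FF hE τ a b).nr (hK.lin X) ≤ (FF hE τ a b).nr X := by
  have := hK.nr_le hE zero_le_one (fun V A => by rw [one_mul]; exact hc V A) X
  rwa [one_mul] at this

lemma HM.sa {K : (Ez d → G) → Mb B N →ₗ[ℝ] Mb B N} (hK : HM L τ a b K)
    (hs : ∀ V A C, ipb (K V A) C = ipb A (K V C)) (X Y : OB L τ a b) :
    (FF hE τ a b).f (hK.lin X) Y = (FF hE τ a b).f X (hK.lin Y) := by
  rw [FF_apply, FF_apply]
  unfold sf
  congr 1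
  funext V
  have h1 : (hK.lin X).1 (rf τ V) = K V (X.1 (rf τ V)) := by
    rw [HM.lin_apply]
    exact congrFun (congrArg DFunLike.coe
      (LinearMap.ext fun A => rf_HP hE (hK.dep A) V : K (rf τ V) = K V)) _
  rw [h1, HM.lin_apply, hs]

/-- positivity of quadratic forms -/
lemma hq' {X : (Ez d → G) → Mb B N} (hX : Continuous X) {h : ℕ} (hd : Dep (HS τ h) X)
    {q : (Ez d → G) → Mb B N → Mb B N → ℝ}
    (l1 : ∀ V A A' C, q V (A + A') C = q V A C + q V A' C)
    (l2 : ∀ V (c : ℝ) A C, q V (c • A) C = c • q V A C)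
    (l3 : ∀ V A C C', q V A (C + C') = q V A C + q V A C')
    (l4 : ∀ V (c : ℝ) A C, q V A (c • C) = c • q V A C)
    (hqc : ∀ A C, Continuous fun V => q V A C)
    (hqd : ∀ A C, Dep (HP τ) fun V => q V A C) (hp : ∀ V A, 0 ≤ q V A A) :
    0 ≤ E (fun V => q V (X (rf τ V)) (X V)) :=
  hq hE hX hd (q := fun V => LinearMap.mk₂ ℝ (q V) (l1 V) (l2 V) (l3 V) (l4 V)) hqc hqd hp

/-- upper bounds for the forms of the hyperplane maps -/
lemma HM.form {K : (Ez d → G) → Mb B N →ₗ[ℝ] Mb B N} (hK : HM L τ a b K)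
    {Q1 Q2 : Mb B N →ₗ[ℝ] Mb B N} (hQ1 : HM L τ a b fun _ => Q1) (hQ2 : HM L τ a b fun _ => Q2)
    {c : ℝ} (hc : ∀ V A, ipb A (K V A) ≤ c * (‖Q1 A‖ ^ 2 + ‖Q2 A‖ ^ 2)) (X : OB L τ a b) :
    (FF hE τ a b).f X (hK.lin X) ≤ c * ((FF hE τ a b).nr (hQ1.lin X) ^ 2 +
      (FF hE τ a b).nr (hQ2.lin X) ^ 2) := by
  obtain ⟨h, hd⟩ := X.2.loc
  obtain ⟨q, hqq⟩ : ∃ q : (Ez d → G) → Mb B N → Mb B N → ℝ, ∀ V A C, q V A C =
    c * (ipb (Q1 A) (Q1 C) + ipb (Q2 A) (Q2 C)) - ipb A (K V C) := ⟨_, fun _ _ _ => rfl⟩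
  have h1 := hq' hE X.2.cont hd (q := q)
    (fun V A A' C => by
      rw [hqq, hqq, hqq, map_add, map_add, ipb_add_left, ipb_add_left, ipb_add_left]; ring)
    (fun V c A C => by
      rw [hqq, hqq, map_smul, map_smul, ipb_smul_left, ipb_smul_left, ipb_smul_left, smul_eq_mul]
      ring)
    (fun V A C C' => by
      rw [hqq, hqq, hqq, map_add, map_add, map_add, ipb_add_right, ipb_add_right, ipb_add_right]
      ring)
    (fun V c A C => by
      rw [hqq, hqq, map_smul, map_smul, map_smul, ipb_smul_right, ipb_smul_right, ipb_smul_right,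
        smul_eq_mul]
      ring)
    (fun A C => by
      simp only [hqq]
      exact continuous_const.sub (ipb_cont continuous_const (hK.cont C)))
    (fun A C V V' hV => by
      simp only [hqq]
      have e2 : K V C = K V' C := hK.dep C V V' hV
      rw [e2])
    (fun V A => by
      rw [hqq]
      have := hc V A
      rw [nb_eq, nb_eq] at this
      linarith)
  simp only [hqq] at h1
  rw [Fm.nr_sq, Fm.nr_sq, FF_apply, FF_apply, FF_apply]
  obtain ⟨f1, hf1⟩ : ∃ f : (Ez d → G) → ℝ, f = fun V => ipb (Q1 (X.1 (rf τ V))) (Q1 (X.1 V)) :=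
    ⟨_, rfl⟩
  obtain ⟨f2, hf2⟩ : ∃ f : (Ez d → G) → ℝ, f = fun V => ipb (Q2 (X.1 (rf τ V))) (Q2 (X.1 V)) :=
    ⟨_, rfl⟩
  obtain ⟨f3, hf3⟩ : ∃ f : (Ez d → G) → ℝ, f = fun V => ipb (X.1 (rf τ V)) (K V (X.1 V)) :=
    ⟨_, rfl⟩
  have d1 : Continuous fun V => Q1 (X.1 V) := (hQ1.ob X.2).cont
  have d2 : Continuous fun V => Q2 (X.1 V) := (hQ2.ob X.2).cont
  have d3 : Continuous fun V => K V (X.1 V) := (hK.ob X.2).cont
  have c1 : Continuous f1 := by
    rw [hf1]; exact ipb_cont (d1.comp (rf_cont τ)) d1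
  have c2 : Continuous f2 := by
    rw [hf2]; exact ipb_cont (d2.comp (rf_cont τ)) d2
  have c3 : Continuous f3 := by
    rw [hf3]; exact ipb_cont (X.2.cont.comp (rf_cont τ)) d3
  have g1 : sf E τ (hQ1.lin X).1 (hQ1.lin X).1 = E f1 := by
    unfold sf; rw [hf1]; simp only [HM.lin_apply]
  have g2 : sf E τ (hQ2.lin X).1 (hQ2.lin X).1 = E f2 := by
    unfold sf; rw [hf2]; simp only [HM.lin_apply]
  have g3 : sf E τ X.1 (hK.lin X).1 = E f3 := by
    unfold sf; rw [hf3]; simp only [HM.lin_apply]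
  rw [g1, g2, g3]
  have e0 : (fun V => c * (ipb (Q1 (X.1 (rf τ V))) (Q1 (X.1 V)) +
      ipb (Q2 (X.1 (rf τ V))) (Q2 (X.1 V))) - ipb (X.1 (rf τ V)) (K V (X.1 V))) =
      fun V => c * (f1 V + f2 V) - f3 V := by
    rw [hf1, hf2, hf3]
  have c12 : Continuous fun V => f1 V + f2 V := c1.add c2
  have e1 : E (fun V => c * (f1 V + f2 V) - f3 V) = E (fun V => c * (f1 V + f2 V)) - E f3 :=
    hE.sub (F := fun V => c * (f1 V + f2 V)) (H := f3) (continuous_const.mul c12) c3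
  have e2 : E (fun V => c * (f1 V + f2 V)) = c * E (fun V => f1 V + f2 V) :=
    hE.smul (F := fun V => f1 V + f2 V) c c12
  rw [e0, e1, e2, hE.add c1 c2] at h1
  linarith

lemma TL_s (ha : ∀ u, a u τ = 0) (hb : ∀ u, b u τ = 0) (X Y : OB L τ a b) :
    (FF hE τ a b).f (TL ha hb X) Y = (FF hE τ a b).f X (TL ha hb Y) :=
  sf_TT hE ha hb X.2.cont Y.2.cont

lemma TL_p (hβ : 0 ≤ β) (ha : ∀ u, a u τ = 0) (hb : ∀ u, b u τ = 0) (X : OB L τ a b) :
    0 ≤ (FF hE τ a b).f X (TL ha hb X) := link_pos hE hβ ha hb X.2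

lemma TL_c (ha : ∀ u, a u τ = 0) (hb : ∀ u, b u τ = 0) (X : OB L τ a b) :
    (FF hE τ a b).nr (TL ha hb X) ≤ (FF hE τ a b).nr X := by
  have h1 : (FF hE τ a b).nr (TL ha hb X) ^ 2 ≤ (FF hE τ a b).nr X ^ 2 := by
    rw [Fm.nr_sq, Fm.nr_sq]
    exact TT_contr hE ha hb X.2
  exact (pow_le_pow_iff_left₀ (Fm.nr_nonneg _ _) (Fm.nr_nonneg _ _) two_ne_zero).1 h1

end forms

/-! ### the box -/

section box

variable {k : ℕ} {dr : Bool → Fin d}

/-- the points of the box -/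
def ps (dr : Bool → Fin d) (u : Bx k) : Fin d → ℤ :=
  Pi.single (dr false) (u.1 : ℤ) + Pi.single (dr true) (u.2 : ℤ)

variable (L) in
/-- the link matrices of the box -/
def zV (dr : Bool → Fin d) (V : Ez d → G) : Lk k → Mat N := fun l => L.rho (V (ps dr l.2, dr l.1))

lemma ps_eq (i : Bool) (a o : Fin k) :
    ps dr (mkp i a o) = Pi.single (dr i) (a : ℤ) + Pi.single (dr !i) (o : ℤ) := by
  cases i
  · rfl
  · exact add_comm _ _

lemma ps_succ (i : Bool) (o : Fin k) (a : ℕ) (h1 : a < k) (h2 : a + 1 < k) :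
    ps dr (mkp i ⟨a, h1⟩ o) + ez (dr i) = ps dr (mkp i ⟨a + 1, h2⟩ o) := by
  rw [ps_eq, ps_eq]
  simp only
  push_cast
  rw [Pi.single_add]
  abel

lemma ps_ne {τ : Fin d} (hτ : ∀ i, dr i ≠ τ) (u : Bx k) : ps dr u τ = 0 := by
  unfold ps
  rw [Pi.add_apply, Pi.single_eq_of_ne (hτ false).symm, Pi.single_eq_of_ne (hτ true).symm,
    add_zero]

lemma zV_unit (V : Ez d → G) : Uz (zV (k := k) L dr V) := fun l => L.unit' _

lemma zV_cont (l : Lk k) : Continuous fun V : Ez d → G => zV L dr V l :=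
  L.cont.comp (continuous_apply _)

lemma zV_dep {τ : Fin d} (hτ : ∀ i, dr i ≠ τ) : Dep (HP τ) (zV (k := k) L dr) := by
  intro V V' h
  funext l
  unfold zV
  rw [h _ ⟨hτ _, ps_ne hτ _⟩]

lemma zV_gz (γ : (Fin d → ℤ) → G) (V : Ez d → G) : zV (k := k) L dr (gz γ V) =
    fun l => (fun l : Lk k => L.rho (γ (ps dr l.2))) l * zV L dr V l *
      ((fun l : Lk k => L.rho (γ (ps dr l.2 + ez (dr l.1)))) l)ᴴ := by
  funext l
  unfold zV gz
  simp only [map_mul, L.rho_inv]

lemma cmp_ps (γ : (Fin d → ℤ) → G) : Cmp (fun l : Lk k => L.rho (γ (ps dr l.2)))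
    (fun l : Lk k => L.rho (γ (ps dr l.2 + ez (dr l.1)))) (fun u => L.rho (γ (ps dr u))) := by
  refine ⟨fun u => L.unit' _, fun l => rfl, fun i o a h1 h2 => ?_⟩
  simp only
  rw [ps_succ i o a h1 h2]

lemma gcj_ps (γ : (Fin d → ℤ) → G) (A : Mb (Bx k) N) : gcj L (ps dr) (ps dr) γ A =
    Gd (fun u => L.rho (γ (ps dr u))) * A * (Gd (fun u => L.rho (γ (ps dr u))))ᴴ := by
  ext1 u v
  rw [mul_Gd, Gd_mul]
  rfl

lemma Wl_cont {X : Type*} [TopologicalSpace X] {z : X → Lk k → Mat N}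
    (hz : ∀ l, Continuous fun x => z x l) (i : Bool) (o : Fin k) (a n : ℕ) :
    Continuous fun x => Wl (z x) i o a n := by
  induction n generalizing a with
  | zero => exact continuous_const
  | succ n ih =>
    simp only [Wl_succ]
    refine Continuous.mul ?_ (ih _)
    unfold zt
    split_ifs
    · exact hz _
    · exact continuous_const

lemma Pm_cont {X : Type*} [TopologicalSpace X] {z : X → Lk k → Mat N}
    (hz : ∀ l, Continuous fun x => z x l) (i : Bool) : Continuous fun x => Pm (z x) i := by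
  refine continuous_matrix fun u w => ?_
  unfold Pm
  simp only [lop_apply]
  split_ifs
  · refine Continuous.const_smul (g := fun x => hol (z x) i (oc i u) (ac i u)
      (ac i w)) ?_ (k : ℝ)⁻¹
    unfold hol
    split_ifs
    · exact Wl_cont hz _ _ _ _
    · exact (ctL N).continuous.comp (Wl_cont hz i (oc i u) (ac i w) (ac i u - ac i w))
  · exact continuous_const

lemma Sc_cont {X : Type*} [TopologicalSpace X] {z : X → Lk k → Mat N}
    (hz : ∀ l, Continuous fun x => z x l) (q : ℝ) : Continuous fun x => Sc (z x) q := by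
  unfold Sc
  exact continuous_const.add (((Pm_cont hz false).add (Pm_cont hz true)).const_smul (q / 2))

lemma avv_cont {X : Type*} [TopologicalSpace X] {ι : Type*} [Fintype ι] [DecidableEq ι]
    {F : X → (ι → Bool) → Mb B N} (h : ∀ s, Continuous fun x => F x s) :
    Continuous fun x => avv (F x) := by
  unfold avv
  exact (continuous_finsetSum _ fun s _ => h s).const_smul ((2 : ℝ) ^ Fintype.card ι)⁻¹

lemma mb_mul_cont {X : Type*} [TopologicalSpace X] {F H : X → Mb B N} (hF : Continuous F)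
    (hH : Continuous H) : Continuous fun x => F x * H x := hF.matrix_mul hH

variable {τ : Fin d} (hτ : ∀ i, dr i ≠ τ)
include hτ

/-- left multiplication by the hopping operators -/
lemma HM_lP (i : Bool) {b : Bx k → Fin d → ℤ} : HM L τ (ps dr) b
    (fun V => LinearMap.mulLeft ℝ (Pm (zV L dr V) i)) := by
  refine ⟨fun A => mb_mul_cont (Pm_cont zV_cont i) continuous_const,
    fun A V V' h => ?_, fun γ V A => ?_⟩
  · show Pm (zV L dr V) i * A = Pm (zV L dr V') i * A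
    rw [zV_dep hτ V V' h]
  · show Pm (zV L dr (gz γ V)) i * gcj L (ps dr) b γ A = gcj L (ps dr) b γ (Pm (zV L dr V) i * A)
    rw [zV_gz, Pm_cov (cmp_ps γ)]
    have e1 : ∀ C : Mb (Bx k) N, gcj L (ps dr) b γ C =
        Gd (fun u => L.rho (γ (ps dr u))) * C * (Gd (fun u => L.rho (γ (b u))))ᴴ := by
      intro C
      ext1 u v
      rw [mul_Gd, Gd_mul]
      rfl
    rw [e1, e1]
    have f3 := Gd_unit (cmp_ps (L := L) (dr := dr) (k := k) γ).u
    obtain ⟨S, hS⟩ : ∃ S, S = Pm (zV L dr V) i := ⟨_, rfl⟩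
    rw [← hS]
    calc _ = Gd (fun u => L.rho (γ (ps dr u))) * S * ((Gd fun u => L.rho (γ (ps dr u)))ᴴ *
          Gd fun u => L.rho (γ (ps dr u))) * A * (Gd (fun u => L.rho (γ (b u))))ᴴ := by
          simp only [Matrix.mul_assoc]
      _ = _ := by
          rw [f3, mul_one]
          simp only [Matrix.mul_assoc]

/-- right multiplication by the hopping operators -/
lemma HM_rP (i : Bool) {a : Bx k → Fin d → ℤ} : HM L τ a (ps dr)
    (fun V => LinearMap.mulRight ℝ (Pm (zV L dr V) i)) := by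
  refine ⟨fun A => mb_mul_cont continuous_const (Pm_cont zV_cont i),
    fun A V V' h => ?_, fun γ V A => ?_⟩
  · show A * Pm (zV L dr V) i = A * Pm (zV L dr V') i
    rw [zV_dep hτ V V' h]
  · show gcj L a (ps dr) γ A * Pm (zV L dr (gz γ V)) i = gcj L a (ps dr) γ (A * Pm (zV L dr V) i)
    rw [zV_gz, Pm_cov (cmp_ps γ)]
    have e1 : ∀ C : Mb (Bx k) N, gcj L a (ps dr) γ C =
        Gd (fun u => L.rho (γ (a u))) * C * (Gd (fun u => L.rho (γ (ps dr u))))ᴴ := by
      intro C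
      ext1 u v
      rw [mul_Gd, Gd_mul]
      rfl
    rw [e1, e1]
    have f3 := Gd_unit (cmp_ps (L := L) (dr := dr) (k := k) γ).u
    obtain ⟨S, hS⟩ : ∃ S, S = Pm (zV L dr V) i := ⟨_, rfl⟩
    rw [← hS]
    calc _ = Gd (fun u => L.rho (γ (a u))) * A * ((Gd fun u => L.rho (γ (ps dr u)))ᴴ *
          Gd fun u => L.rho (γ (ps dr u))) * S * (Gd (fun u => L.rho (γ (ps dr u))))ᴴ := by
          simp only [Matrix.mul_assoc]
      _ = _ := by
          rw [f3, mul_one]
          simp only [Matrix.mul_assoc]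

lemma HM_S (q : ℝ) : HM L τ (ps dr) (ps dr)
    (fun V => cjL (Sc (zV (k := k) L dr V) q) (Sc (zV (k := k) L dr V) q)) := by
  refine ⟨fun A => mb_mul_cont (mb_mul_cont (Sc_cont zV_cont q) continuous_const)
    (Sc_cont zV_cont q), fun A V V' h => ?_, fun γ V A => ?_⟩
  · simp only [cjL_apply]
    rw [zV_dep hτ V V' h]
  · rw [cjL_apply, cjL_apply, zV_gz, Sc_cov (cmp_ps γ), gcj_ps, gcj_ps]
    have f3 := Gd_unit (cmp_ps (L := L) (dr := dr) (k := k) γ).u
    obtain ⟨S, hS⟩ : ∃ S, S = Sc (zV L dr V) q := ⟨_, rfl⟩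
    rw [← hS]
    obtain ⟨Γ, hΓ⟩ : ∃ Γ : Mb (Bx k) N, Γ = Gd (fun u => L.rho (γ (ps dr u))) := ⟨_, rfl⟩
    rw [← hΓ] at f3 ⊢
    calc _ = Γ * S * (Γᴴ * Γ) * A * (Γᴴ * Γ) * S * Γᴴ := by simp only [Matrix.mul_assoc]
      _ = _ := by
          rw [f3, mul_one, mul_one]
          simp only [Matrix.mul_assoc]

lemma HM_R (δ q : ℝ) : HM L τ (ps dr) (ps dr) (fun V => RR (zV (k := k) L dr V) δ q) := by
  refine ⟨fun A => ?_, fun A V V' h => ?_, fun γ V A => ?_⟩
  · have e : (fun V => RR (zV (k := k) L dr V) δ q A) = fun V =>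
        NS (zV L dr V) δ q A - Sc (zV L dr V) q * A * Sc (zV L dr V) q := by
      funext V
      rw [NS_eq]
      abel
    rw [e]
    refine Continuous.sub ?_ ?_
    · unfold NS
      refine avv_cont fun s => ?_
      have h1 : Continuous fun V : Ez d → G => Sc (zV (k := k) L dr V + nz δ s) q :=
        Sc_cont (z := fun V : Ez d → G => zV (k := k) L dr V + nz δ s)
          (fun l => (zV_cont l).add continuous_const) q
      exact mb_mul_cont (mb_mul_cont h1 continuous_const) h1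
    · exact mb_mul_cont (mb_mul_cont (Sc_cont zV_cont q) continuous_const) (Sc_cont zV_cont q)
  · simp only
    rw [zV_dep hτ V V' h]
  · rw [zV_gz, gcj_ps, gcj_ps]
    exact RR_cov (cmp_ps γ) (fun l => L.unit' _) δ q A

omit hτ in
lemma HM_Q (i : Bool) {a b : Bx k → Fin d → ℤ} : HM L τ a b (fun _ => Qm i) := by
  refine ⟨fun A => continuous_const, fun A V V' h => rfl, fun γ V A => ?_⟩
  ext1 u v
  rw [gcj_apply, Qm_apply, Qm_apply, gcj_apply]
  split_ifs
  · rfl
  · simp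

omit hτ in
lemma HM_Qd {a b : Bx k → Fin d → ℤ} : HM L τ a b (fun _ => Qdm) := by
  refine ⟨fun A => continuous_const, fun A V V' h => rfl, fun γ V A => ?_⟩
  ext1 u v
  rw [gcj_apply, Qdm_apply, Qdm_apply, gcj_apply]
  split_ifs
  · rfl
  · simp

omit hτ in
lemma HM_Tr (c : ℝ) {a : Bx k → Fin d → ℤ} : HM L τ a a (fun _ => c • Tr) := by
  refine ⟨fun A => continuous_const, fun A V V' h => rfl, fun γ V A => ?_⟩
  ext1 u v
  rw [gcj_apply]
  show c • Tr (gcj L a a γ A) u v = _ * (c • Tr A u v) * _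
  rw [Tr_apply, Tr_apply]
  split_ifs with h
  · subst h
    have h1 : L.rho (γ (a u)) * (L.rho (γ (a u)))ᴴ = 1 := mul_eq_one_comm.1 (L.unit' _)
    have h2 : trace (gcj L a a γ A u u) = trace (A u u) := by
      rw [gcj_apply, trace_mul_comm, ← Matrix.mul_assoc, L.unit', one_mul]
    rw [h2, mul_smul_comm, smul_mul_assoc, mul_smul_comm, smul_mul_assoc, mul_one, h1]
  · simp

end box

end

end Pool.Agent.N985
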