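import Mathlib
import Pool.Agent.N985.Inst

/-!
# The perturbation lemma for the strings
-/

open MeasureTheory Matrix Filter
open scoped Matrix.Norms.Frobenius ContDiff Topology
open Pool.Agent.H906R3.YM hiding Pl
open Pool.Agent.W793.YM Pool.Agent.TH618.YM Pool.Agent.Y14 Pool.Agent.R990

namespace Pool.Agent.N985

set_option linter.unusedSectionVars false
set_option linter.unusedVariables false

noncomputable section

variable {G : Type*} [Group G] [TopologicalSpace G] [IsTopologicalGroup G] [CompactSpace G]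
  [SecondCountableTopology G] [MeasurableSpace G] [BorelSpace G] {μ : Measure G}
  [IsProbabilityMeasure μ] [μ.IsMulLeftInvariant] [μ.IsMulRightInvariant] [μ.IsInvInvariant]
  {N n : ℕ} {L : LD G N n} {d : ℕ}
  {β : ℝ} {E : ((Ez d → G) → ℝ) → ℝ}

section comp

variable {B : Type*} [Fintype B] [DecidableEq B] {τ : Fin d} {a b : B → Fin d → ℤ}

lemma HM.comp {K K' : (Ez d → G) → Mb B N →ₗ[ℝ] Mb B N} (hK : HM L τ a b K)
    (hK' : HM L τ a b K') : HM L τ a b (fun V => (K V).comp (K' V)) := by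
  refine ⟨fun A => ?_, fun A V V' h => ?_, fun γ V A => ?_⟩
  · exact cont_lin hK.cont (hK'.cont A)
  · show K V (K' V A) = K V' (K' V' A)
    have e1 : K' V A = K' V' A := hK'.dep A V V' h
    rw [e1]
    exact hK.dep _ V V' h
  · show K (gz γ V) (K' (gz γ V) (gcj L a b γ A)) = gcj L a b γ (K V (K' V A))
    rw [hK'.cov, hK.cov]

lemma HM.comp_lin {K K' : (Ez d → G) → Mb B N →ₗ[ℝ] Mb B N} (hK : HM L τ a b K)
    (hK' : HM L τ a b K') (X : OB L τ a b) : (hK.comp hK').lin X = hK.lin (hK'.lin X) := by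
  apply Subtype.ext
  funext V
  rw [HM.lin_apply, HM.lin_apply, HM.lin_apply, LinearMap.comp_apply]

end comp

section ops

variable {k : ℕ} {dr : Bool → Fin d} {τ : Fin d} (hτ : ∀ i, dr i ≠ τ)

variable (L) in
/-- the observables of the strings -/
abbrev OK (k : ℕ) (τ : Fin d) (dr : Bool → Fin d) : Submodule ℝ ((Ez d → G) → Mb (Bx k) N) :=
  OB L τ (ps dr) (ps dr)

/-- left hopping -/
def lPo (i : Bool) : OK L k τ dr →ₗ[ℝ] OK L k τ dr := (HM_lP hτ i).lin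

/-- right hopping -/
def rPo (i : Bool) : OK L k τ dr →ₗ[ℝ] OK L k τ dr := (HM_rP hτ i).lin

/-- one step -/
def So (q : ℝ) : OK L k τ dr →ₗ[ℝ] OK L k τ dr := (HM_S hτ q).lin

/-- the noise -/
def Ro (δ q : ℝ) : OK L k τ dr →ₗ[ℝ] OK L k τ dr := (HM_R hτ δ q).lin

/-- the noise on the string direction -/
def Po (c : ℝ) : OK L k τ dr →ₗ[ℝ] OK L k τ dr := (HM_Tr c).lin

/-- mask -/
def Qo (i : Bool) : OK L k τ dr →ₗ[ℝ] OK L k τ dr := (HM_Q i).lin

/-- mask -/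
def Qdo : OK L k τ dr →ₗ[ℝ] OK L k τ dr := HM_Qd.lin

/-- the transfer operator -/
def To : OK L k τ dr →ₗ[ℝ] OK L k τ dr := TL (ps_ne hτ) (ps_ne hτ)

lemma lPo_apply (i : Bool) (x : OK L k τ dr) (V : Ez d → G) :
    (lPo hτ i x).1 V = Pm (zV L dr V) i * x.1 V := rfl

lemma rPo_apply (i : Bool) (x : OK L k τ dr) (V : Ez d → G) :
    (rPo hτ i x).1 V = x.1 V * Pm (zV L dr V) i := rfl

lemma So_apply (q : ℝ) (x : OK L k τ dr) (V : Ez d → G) :
    (So hτ q x).1 V = Sc (zV L dr V) q * x.1 V * Sc (zV L dr V) q := rfl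

lemma Ro_apply (δ q : ℝ) (x : OK L k τ dr) (V : Ez d → G) :
    (Ro hτ δ q x).1 V = RR (zV L dr V) δ q (x.1 V) := rfl

lemma Po_apply (c : ℝ) (x : OK L k τ dr) (V : Ez d → G) :
    (Po c x).1 V = c • Tr (x.1 V) := rfl

lemma Qo_apply (i : Bool) (x : OK L k τ dr) (V : Ez d → G) : (Qo i x).1 V = Qm i (x.1 V) := rfl

lemma Qdo_apply (x : OK L k τ dr) (V : Ez d → G) : (Qdo x).1 V = Qdm (x.1 V) := rfl

lemma To_apply (x : OK L k τ dr) (V : Ez d → G) (u v : Bx k) :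
    (To hτ x).1 V u v = L.rho (V (ps dr u, τ)) * x.1 (sh (ez τ) V) u v *
      (L.rho (V (ps dr v, τ)))ᴴ := rfl

lemma OK_ext {x y : OK L k τ dr} (h : ∀ V, x.1 V = y.1 V) : x = y := Subtype.ext (funext h)

lemma OK_add (x y : OK L k τ dr) (V : Ez d → G) : (x + y).1 V = x.1 V + y.1 V := rfl

lemma OK_smul (c : ℝ) (x : OK L k τ dr) (V : Ez d → G) : (c • x).1 V = c • x.1 V := rfl

lemma So_eq (i : Bool) (q : ℝ) (x : OK L k τ dr) : So hτ q x = (1 - q) ^ 2 • x +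
    (((1 - q) * (q / 2)) • (lPo hτ i x + rPo hτ i x) +
    (((1 - q) * (q / 2)) • (lPo hτ (!i) x + rPo hτ (!i) x) +
    (q ^ 2 / 4) • (lPo hτ false (rPo hτ false x) + lPo hτ false (rPo hτ true x) +
      (lPo hτ true (rPo hτ false x) + lPo hτ true (rPo hτ true x))))) := by
  refine OK_ext fun V => ?_
  simp only [OK_add, OK_smul, lPo_apply, rPo_apply, So_apply]
  obtain ⟨A, hA⟩ : ∃ A, A = Pm (zV L dr V) false := ⟨_, rfl⟩
  obtain ⟨C, hC⟩ : ∃ C, C = Pm (zV L dr V) true := ⟨_, rfl⟩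
  obtain ⟨X, hX⟩ : ∃ X, X = x.1 V := ⟨_, rfl⟩
  unfold Sc
  rw [← hA, ← hC, ← hX]
  have e1 : (1 - q) * (1 - q) = (1 - q) ^ 2 := by ring
  have e2 : q / 2 * (1 - q) = (1 - q) * (q / 2) := by ring
  have e3 : q / 2 * (q / 2) = q ^ 2 / 4 := by ring
  cases i
  · simp only [Bool.not_false, ← hA, ← hC]
    simp only [add_mul, mul_add, smul_mul_assoc, mul_smul_comm, smul_add, smul_smul, one_mul,
      mul_one, e1, e2, e3, Matrix.mul_assoc]
    abel
  · simp only [Bool.not_true, ← hA, ← hC]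
    simp only [add_mul, mul_add, smul_mul_assoc, mul_smul_comm, smul_add, smul_smul, one_mul,
      mul_one, e1, e2, e3, Matrix.mul_assoc]
    abel

lemma Qo_lPo (i : Bool) (x : OK L k τ dr) : Qo i (lPo hτ i x) = lPo hτ i (Qo i x) :=
  OK_ext fun V => by rw [Qo_apply, lPo_apply, lPo_apply, Qo_apply, Q1]

lemma Qo_rPo (i : Bool) (x : OK L k τ dr) : Qo i (rPo hτ i x) = rPo hτ i (Qo i x) :=
  OK_ext fun V => by rw [Qo_apply, rPo_apply, rPo_apply, Qo_apply, Q1']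

lemma Qdo_lPo (i : Bool) (x : OK L k τ dr) : Qdo (lPo hτ i x) = Qdo (lPo hτ i (Qo i x)) :=
  OK_ext fun V => by rw [Qdo_apply, Qdo_apply, lPo_apply, lPo_apply, Qo_apply, Q4]

lemma Qdo_rPo (i : Bool) (x : OK L k τ dr) : Qdo (rPo hτ i x) = Qdo (rPo hτ i (Qo i x)) :=
  OK_ext fun V => by rw [Qdo_apply, Qdo_apply, rPo_apply, rPo_apply, Qo_apply, Q4']

lemma Po_To (c : ℝ) (x : OK L k τ dr) : Po c (To hτ x) = To hτ (Po c x) := by
  refine OK_ext fun V => ?_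
  ext1 u v
  show c • Tr ((To hτ x).1 V) u v = L.rho (V (ps dr u, τ)) * (c • Tr (x.1 (sh (ez τ) V)) u v) *
      (L.rho (V (ps dr v, τ)))ᴴ
  rw [Tr_apply, Tr_apply]
  split_ifs with h
  · subst h
    rw [To_apply]
    have h1 : L.rho (V (ps dr u, τ)) * (L.rho (V (ps dr u, τ)))ᴴ = 1 :=
      mul_eq_one_comm.1 (L.unit' _)
    have h2 : trace (L.rho (V (ps dr u, τ)) * x.1 (sh (ez τ) V) u u *
        (L.rho (V (ps dr u, τ)))ᴴ) = trace (x.1 (sh (ez τ) V) u u) := by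
      rw [trace_mul_comm, ← Matrix.mul_assoc, L.unit', one_mul]
    rw [h2, mul_smul_comm, smul_mul_assoc, mul_smul_comm, smul_mul_assoc, mul_one, h1]
  · simp

lemma Qdo_To (x : OK L k τ dr) : Qdo (To hτ x) = To hτ (Qdo x) := by
  refine OK_ext fun V => ?_
  ext1 u v
  rw [Qdo_apply, Qdm_apply, To_apply, To_apply, Qdo_apply, Qdm_apply]
  split_ifs
  · rfl
  · simp

lemma Qo_To (i : Bool) (x : OK L k τ dr) : Qo i (To hτ x) = To hτ (Qo i x) := by
  refine OK_ext fun V => ?_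
  ext1 u v
  rw [Qo_apply, Qm_apply, To_apply, To_apply, Qo_apply, Qm_apply]
  split_ifs
  · rfl
  · simp

lemma Tr_Qdm (X : Mb (Bx k) N) : Tr (Qdm X) = Tr X := by
  ext1 u v
  rw [Tr_apply, Tr_apply]
  split_ifs with h
  · subst h; rw [Qdm_apply, if_pos rfl]
  · rfl

lemma Qdm_Tr (X : Mb (Bx k) N) : Qdm (Tr X) = Tr X := by
  ext1 u v
  rw [Qdm_apply]
  split_ifs with h
  · rfl
  · rw [Tr_apply, if_neg h]

lemma Tr_Qm (i : Bool) (X : Mb (Bx k) N) : Tr (Qm i X) = Tr X := by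
  ext1 u v
  rw [Tr_apply, Tr_apply]
  split_ifs with h
  · subst h; rw [Qm_apply, if_pos rfl]
  · rfl

lemma Qm_Tr (i : Bool) (X : Mb (Bx k) N) : Qm i (Tr X) = Tr X := by
  ext1 u v
  rw [Qm_apply]
  split_ifs with h
  · rfl
  · rw [Tr_apply, if_neg]
    rintro rfl
    exact h rfl

lemma Po_Qdo (c : ℝ) (x : OK L k τ dr) : Po c (Qdo x) = Po c x :=
  OK_ext fun V => by rw [Po_apply, Po_apply, Qdo_apply, Tr_Qdm]

lemma Qdo_Po (c : ℝ) (x : OK L k τ dr) : Qdo (Po c x) = Po c x :=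
  OK_ext fun V => by rw [Qdo_apply, Po_apply, map_smul, Qdm_Tr]

lemma Po_Qo (i : Bool) (c : ℝ) (x : OK L k τ dr) : Po c (Qo i x) = Po c x :=
  OK_ext fun V => by rw [Po_apply, Po_apply, Qo_apply, Tr_Qm]

lemma Qo_Po (i : Bool) (c : ℝ) (x : OK L k τ dr) : Qo i (Po c x) = Po c x :=
  OK_ext fun V => by rw [Qo_apply, Po_apply, map_smul, Qm_Tr]

lemma Po_Po (c c' : ℝ) (x : OK L k τ dr) : Po c (Po c' x) = (N * c : ℝ) • Po c' x :=
  OK_ext fun V => by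
    rw [Po_apply, Po_apply, map_smul, Tr_Tr, OK_smul, Po_apply, smul_smul, smul_smul, smul_smul]
    congr 1
    ring

end ops

section bounds

variable (hE : IV μ L β E) {k : ℕ} {dr : Bool → Fin d} {τ : Fin d} (hτ : ∀ i, dr i ≠ τ)

/-- the seminorm of the observables of the strings -/
def nro (x : OK L k τ dr) : ℝ := (FF hE τ (ps dr) (ps dr)).nr x

lemma nro_nonneg (x : OK L k τ dr) : 0 ≤ nro hE x := Fm.nr_nonneg _ _

lemma nro_tri (x y : OK L k τ dr) : nro hE (x + y) ≤ nro hE x + nro hE y := Fm.tri _ _ _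

lemma nro_smul {c : ℝ} (hc : 0 ≤ c) (x : OK L k τ dr) : nro hE (c • x) = c * nro hE x := by
  unfold nro
  rw [Fm.nr_smul, abs_of_nonneg hc]

/-- the width of the box -/
def lk0 (k : ℕ) : ℝ := Real.sqrt ((k : ℝ)⁻¹)

lemma lk0_nonneg (k : ℕ) : 0 ≤ lk0 k := Real.sqrt_nonneg _

lemma lk0_sq (k : ℕ) : lk0 k ^ 2 = (k : ℝ)⁻¹ := Real.sq_sqrt (by positivity)

lemma of_sq {A C : Mb (Bx k) N} (h : ‖A‖ ^ 2 ≤ (k : ℝ)⁻¹ * ‖C‖ ^ 2) : ‖A‖ ≤ lk0 k * ‖C‖ := by
  rw [← lk0_sq, ← mul_pow] at h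
  exact (pow_le_pow_iff_left₀ (norm_nonneg _) (mul_nonneg (lk0_nonneg k) (norm_nonneg _))
    two_ne_zero).1 h

lemma lPo_le (i : Bool) (x : OK L k τ dr) : nro hE (lPo hτ i x) ≤ nro hE x :=
  (HM_lP hτ i).nr_le' hE (fun V A => Pm_norm (zV_unit V) i A) x

lemma rPo_le (i : Bool) (x : OK L k τ dr) : nro hE (rPo hτ i x) ≤ nro hE x :=
  (HM_rP hτ i).nr_le' hE (fun V A => Pm_norm' (zV_unit V) i A) x

lemma Qo_le (i : Bool) (x : OK L k τ dr) : nro hE (Qo i x) ≤ nro hE x :=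
  (HM_Q i).nr_le' hE (fun V A => Qm_norm i A) x

lemma Qdo_le (x : OK L k τ dr) : nro hE (Qdo x) ≤ nro hE x :=
  HM_Qd.nr_le' hE (fun V A => Qdm_norm A) x

lemma So_le {q : ℝ} (q0 : 0 ≤ q) (q1 : q ≤ 1) (x : OK L k τ dr) :
    nro hE (So hτ q x) ≤ nro hE x :=
  (HM_S hτ q).nr_le' hE (fun V A => by
    rw [cjL_apply]
    exact (Sc_norm' (zV_unit V) q0 q1 _).trans (Sc_norm (zV_unit V) q0 q1 _)) x

lemma Ro_le (δ q : ℝ) (x : OK L k τ dr) :
    nro hE (Ro hτ δ q x) ≤ et k N δ / 2 * q ^ 2 * nro hE x :=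
  (HM_R hτ δ q).nr_le hE (mul_nonneg (div_nonneg (et_nonneg δ) two_pos.le) (sq_nonneg q))
    (fun V A => RR_norm δ (zV_unit V) q A) x

lemma Po_le {c : ℝ} (hc : 0 ≤ c) (x : OK L k τ dr) : nro hE (Po c x) ≤ N * c * nro hE x :=
  (HM_Tr c).nr_le hE (mul_nonneg (Nat.cast_nonneg N) hc) (fun V A => by
    show ‖c • Tr A‖ ≤ _
    rw [norm_smul, Real.norm_eq_abs, abs_of_nonneg hc]
    have := mul_le_mul_of_nonneg_left (Tr_norm A) hc
    linarith) x

lemma QlP_le {i j : Bool} (hij : j ≠ i) (x : OK L k τ dr) :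
    nro hE (Qo j (lPo hτ i x)) ≤ lk0 k * nro hE x := by
  have h := ((HM_Q (L := L) (τ := τ) j).comp (HM_lP hτ i)).nr_le hE (lk0_nonneg k)
    (fun V A => of_sq (Q2 (zV_unit V) hij A)) x
  rw [HM.comp_lin] at h
  exact h

lemma QrP_le {i j : Bool} (hij : j ≠ i) (x : OK L k τ dr) :
    nro hE (Qo j (rPo hτ i x)) ≤ lk0 k * nro hE x := by
  have h := ((HM_Q (L := L) (τ := τ) j).comp (HM_rP hτ i)).nr_le hE (lk0_nonneg k)
    (fun V A => of_sq (Q2' (zV_unit V) hij A)) x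
  rw [HM.comp_lin] at h
  exact h

lemma QdlP_le (i : Bool) (x : OK L k τ dr) :
    nro hE (Qdo (lPo hτ i x)) ≤ lk0 k * nro hE (Qo i x) := by
  rw [Qdo_lPo]
  have h := ((HM_Qd (L := L) (τ := τ)).comp (HM_lP hτ i)).nr_le hE (lk0_nonneg k)
    (fun V A => of_sq (Q3 (zV_unit V) i A)) (Qo i x)
  rw [HM.comp_lin] at h
  exact h

lemma QdrP_le (i : Bool) (x : OK L k τ dr) :
    nro hE (Qdo (rPo hτ i x)) ≤ lk0 k * nro hE (Qo i x) := by
  rw [Qdo_rPo]
  have h := ((HM_Qd (L := L) (τ := τ)).comp (HM_rP hτ i)).nr_le hE (lk0_nonneg k)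
    (fun V A => of_sq (Q3' (zV_unit V) i A)) (Qo i x)
  rw [HM.comp_lin] at h
  exact h

lemma lr_le (i j : Bool) (x : OK L k τ dr) : nro hE (lPo hτ i (rPo hτ j x)) ≤ nro hE x :=
  (lPo_le hE hτ i _).trans (rPo_le hE hτ j _)

/-- the mobility estimate for the lines -/
lemma Si_le (i : Bool) {q : ℝ} (q0 : 0 ≤ q) (q1 : q ≤ 1) (x : OK L k τ dr) :
    nro hE (Qo i (So hτ q x)) ≤ (1 - q) * nro hE (Qo i x) + q * lk0 k * nro hE x +
      q ^ 2 * nro hE x := by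
  have hne : i ≠ !i := by cases i <;> simp
  obtain ⟨y, hy⟩ : ∃ y, y = lPo hτ false (rPo hτ false x) + lPo hτ false (rPo hτ true x) +
      (lPo hτ true (rPo hτ false x) + lPo hτ true (rPo hτ true x)) := ⟨_, rfl⟩
  have hy1 : nro hE y ≤ 4 * nro hE x := by
    rw [hy]
    have t1 := nro_tri hE (lPo hτ false (rPo hτ false x) + lPo hτ false (rPo hτ true x))
      (lPo hτ true (rPo hτ false x) + lPo hτ true (rPo hτ true x))
    have t2 := nro_tri hE (lPo hτ false (rPo hτ false x)) (lPo hτ false (rPo hτ true x))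
    have t3 := nro_tri hE (lPo hτ true (rPo hτ false x)) (lPo hτ true (rPo hτ true x))
    have u1 := lr_le hE hτ false false x
    have u2 := lr_le hE hτ false true x
    have u3 := lr_le hE hτ true false x
    have u4 := lr_le hE hτ true true x
    linarith
  have e1 : Qo i (So hτ q x) = (1 - q) ^ 2 • Qo i x +
      (((1 - q) * (q / 2)) • (lPo hτ i (Qo i x) + rPo hτ i (Qo i x)) +
      (((1 - q) * (q / 2)) • (Qo i (lPo hτ (!i) x) + Qo i (rPo hτ (!i) x)) +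
      (q ^ 2 / 4) • Qo i y)) := by
    rw [So_eq hτ i, ← hy]
    simp only [map_add, map_smul, Qo_lPo, Qo_rPo]
  rw [e1]
  have p1 : 0 ≤ (1 - q) ^ 2 := sq_nonneg _
  have p2 : 0 ≤ (1 - q) * (q / 2) := mul_nonneg (by linarith) (by linarith)
  have p3 : 0 ≤ q ^ 2 / 4 := div_nonneg (sq_nonneg q) (by norm_num)
  have t1 := nro_tri hE ((1 - q) ^ 2 • Qo i x)
      (((1 - q) * (q / 2)) • (lPo hτ i (Qo i x) + rPo hτ i (Qo i x)) +
      (((1 - q) * (q / 2)) • (Qo i (lPo hτ (!i) x) + Qo i (rPo hτ (!i) x)) +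
      (q ^ 2 / 4) • Qo i y))
  have t2 := nro_tri hE (((1 - q) * (q / 2)) • (lPo hτ i (Qo i x) + rPo hτ i (Qo i x)))
      (((1 - q) * (q / 2)) • (Qo i (lPo hτ (!i) x) + Qo i (rPo hτ (!i) x)) +
      (q ^ 2 / 4) • Qo i y)
  have t3 := nro_tri hE (((1 - q) * (q / 2)) • (Qo i (lPo hτ (!i) x) + Qo i (rPo hτ (!i) x)))
      ((q ^ 2 / 4) • Qo i y)
  rw [nro_smul hE p1] at t1
  rw [nro_smul hE p2] at t2
  rw [nro_smul hE p2, nro_smul hE p3] at t3
  have t4 := nro_tri hE (lPo hτ i (Qo i x)) (rPo hτ i (Qo i x))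
  have t5 := nro_tri hE (Qo i (lPo hτ (!i) x)) (Qo i (rPo hτ (!i) x))
  have u1 := lPo_le hE hτ i (Qo i x)
  have u2 := rPo_le hE hτ i (Qo i x)
  have u3 := QlP_le hE hτ hne x
  have u4 := QrP_le hE hτ hne x
  have u5 := (Qo_le hE i y).trans hy1
  have v1 : nro hE (lPo hτ i (Qo i x) + rPo hτ i (Qo i x)) ≤ 2 * nro hE (Qo i x) := by linarith
  have v2 : nro hE (Qo i (lPo hτ (!i) x) + Qo i (rPo hτ (!i) x)) ≤ 2 * (lk0 k * nro hE x) := by
    linarith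
  have w1 := mul_le_mul_of_nonneg_left v1 p2
  have w2 := mul_le_mul_of_nonneg_left v2 p2
  have w3 := mul_le_mul_of_nonneg_left u5 p3
  have x1 : 0 ≤ q ^ 2 * (lk0 k * nro hE x) :=
    mul_nonneg (sq_nonneg q) (mul_nonneg (lk0_nonneg k) (nro_nonneg hE x))
  obtain ⟨A, hA⟩ : ∃ A, A = nro hE (Qo i x) := ⟨_, rfl⟩
  obtain ⟨C, hC⟩ : ∃ C, C = lk0 k * nro hE x := ⟨_, rfl⟩
  obtain ⟨D, hD⟩ : ∃ D, D = nro hE x := ⟨_, rfl⟩
  have e2 : q * lk0 k * nro hE x = q * C := by rw [hC]; ring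
  rw [e2, ← hD, ← hA]
  rw [← hA] at t1 w1
  rw [← hC] at w2 x1
  rw [← hD] at w3
  nlinarith

/-- the mobility estimate for the points -/
lemma Sd_le {q : ℝ} (q0 : 0 ≤ q) (q1 : q ≤ 1) (x : OK L k τ dr) :
    nro hE (Qdo (So hτ q x)) ≤ (1 - q) ^ 2 * nro hE (Qdo x) +
      q * lk0 k * (nro hE (Qo false x) + nro hE (Qo true x)) + q ^ 2 * nro hE x := by
  obtain ⟨y, hy⟩ : ∃ y, y = lPo hτ false (rPo hτ false x) + lPo hτ false (rPo hτ true x) +
      (lPo hτ true (rPo hτ false x) + lPo hτ true (rPo hτ true x)) := ⟨_, rfl⟩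
  have hy1 : nro hE y ≤ 4 * nro hE x := by
    rw [hy]
    have t1 := nro_tri hE (lPo hτ false (rPo hτ false x) + lPo hτ false (rPo hτ true x))
      (lPo hτ true (rPo hτ false x) + lPo hτ true (rPo hτ true x))
    have t2 := nro_tri hE (lPo hτ false (rPo hτ false x)) (lPo hτ false (rPo hτ true x))
    have t3 := nro_tri hE (lPo hτ true (rPo hτ false x)) (lPo hτ true (rPo hτ true x))
    have u1 := lr_le hE hτ false false x
    have u2 := lr_le hE hτ false true x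
    have u3 := lr_le hE hτ true false x
    have u4 := lr_le hE hτ true true x
    linarith
  have e1 : Qdo (So hτ q x) = (1 - q) ^ 2 • Qdo x +
      (((1 - q) * (q / 2)) • (Qdo (lPo hτ false x) + Qdo (rPo hτ false x)) +
      (((1 - q) * (q / 2)) • (Qdo (lPo hτ true x) + Qdo (rPo hτ true x)) +
      (q ^ 2 / 4) • Qdo y)) := by
    rw [So_eq hτ false, ← hy]
    simp only [map_add, map_smul, Bool.not_false]
  rw [e1]
  have p1 : 0 ≤ (1 - q) ^ 2 := sq_nonneg _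
  have p2 : 0 ≤ (1 - q) * (q / 2) := mul_nonneg (by linarith) (by linarith)
  have p3 : 0 ≤ q ^ 2 / 4 := div_nonneg (sq_nonneg q) (by norm_num)
  have t1 := nro_tri hE ((1 - q) ^ 2 • Qdo x)
      (((1 - q) * (q / 2)) • (Qdo (lPo hτ false x) + Qdo (rPo hτ false x)) +
      (((1 - q) * (q / 2)) • (Qdo (lPo hτ true x) + Qdo (rPo hτ true x)) +
      (q ^ 2 / 4) • Qdo y))
  have t2 := nro_tri hE (((1 - q) * (q / 2)) • (Qdo (lPo hτ false x) + Qdo (rPo hτ false x)))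
      (((1 - q) * (q / 2)) • (Qdo (lPo hτ true x) + Qdo (rPo hτ true x)) +
      (q ^ 2 / 4) • Qdo y)
  have t3 := nro_tri hE (((1 - q) * (q / 2)) • (Qdo (lPo hτ true x) + Qdo (rPo hτ true x)))
      ((q ^ 2 / 4) • Qdo y)
  rw [nro_smul hE p1] at t1
  rw [nro_smul hE p2] at t2
  rw [nro_smul hE p2, nro_smul hE p3] at t3
  have t4 := nro_tri hE (Qdo (lPo hτ false x)) (Qdo (rPo hτ false x))
  have t5 := nro_tri hE (Qdo (lPo hτ true x)) (Qdo (rPo hτ true x))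
  have u1 := QdlP_le hE hτ false x
  have u2 := QdrP_le hE hτ false x
  have u3 := QdlP_le hE hτ true x
  have u4 := QdrP_le hE hτ true x
  have u5 := (Qdo_le hE y).trans hy1
  have v1 : nro hE (Qdo (lPo hτ false x) + Qdo (rPo hτ false x)) ≤
      2 * (lk0 k * nro hE (Qo false x)) := by linarith
  have v2 : nro hE (Qdo (lPo hτ true x) + Qdo (rPo hτ true x)) ≤
      2 * (lk0 k * nro hE (Qo true x)) := by linarith
  have w1 := mul_le_mul_of_nonneg_left v1 p2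
  have w2 := mul_le_mul_of_nonneg_left v2 p2
  have w3 := mul_le_mul_of_nonneg_left u5 p3
  have x1 : 0 ≤ q ^ 2 * (lk0 k * nro hE (Qo false x)) :=
    mul_nonneg (sq_nonneg q) (mul_nonneg (lk0_nonneg k) (nro_nonneg hE _))
  have x2 : 0 ≤ q ^ 2 * (lk0 k * nro hE (Qo true x)) :=
    mul_nonneg (sq_nonneg q) (mul_nonneg (lk0_nonneg k) (nro_nonneg hE _))
  obtain ⟨A, hA⟩ : ∃ A, A = lk0 k * nro hE (Qo false x) := ⟨_, rfl⟩
  obtain ⟨C, hC⟩ : ∃ C, C = lk0 k * nro hE (Qo true x) := ⟨_, rfl⟩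
  obtain ⟨D, hD⟩ : ∃ D, D = nro hE x := ⟨_, rfl⟩
  have e2 : q * lk0 k * (nro hE (Qo false x) + nro hE (Qo true x)) = q * A + q * C := by
    rw [hC, hA]; ring
  rw [e2, ← hD]
  rw [← hA] at w1 x1
  rw [← hC] at w2 x2
  rw [← hD] at w3
  nlinarith

end bounds

end

end Pool.Agent.N985
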