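import Mathlib
import Pool.Agent.N985.Inst2

/-!
# The perturbation lemma for the strings
-/

open MeasureTheory Matrix Filter
open scoped Matrix.Norms.Frobenius ContDiff Topology
open Pool.Agent.H906R3.YM hiding Pl
open Pool.Agent.W793.YM Pool.Agent.TH618.YM Pool.Agent.Y14 Pool.Agent.R990

namespace Pool.Agent.N985

set_option linter.unusedSectionVars false
set_option linter.unusedVariables false

noncomputable section

variable {G : Type*} [Group G] [TopologicalSpace G] [IsTopologicalGroup G] [CompactSpace G]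
  [SecondCountableTopology G] [MeasurableSpace G] [BorelSpace G] {μ : Measure G}
  [IsProbabilityMeasure μ] [μ.IsMulLeftInvariant] [μ.IsMulRightInvariant] [μ.IsInvInvariant]
  {N n : ℕ} {L : LD G N n} {d : ℕ}
  {β : ℝ} {E : ((Ez d → G) → ℝ) → ℝ} {k : ℕ} {dr : Bool → Fin d} {τ : Fin d}

/-- the identity -/
def Ido : OK L k τ dr := ⟨fun _ => 1, continuous_const, ⟨0, fun _ _ _ => rfl⟩, fun γ V u v => by
  by_cases h : u = v
  · subst h
    rw [Matrix.one_apply_eq, mul_one]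
    exact (mul_eq_one_comm.1 (L.unit' _)).symm
  · rw [Matrix.one_apply_ne h, mul_zero, zero_mul]⟩

lemma Ido_apply (V : Ez d → G) : (Ido : OK L k τ dr).1 V = 1 := rfl

section

variable (hE : IV μ L β E) (hτ : ∀ i, dr i ≠ τ)
include hE

lemma Kp_pos {x y : OK L k τ dr} (hx : ∀ V, Sos (x.1 V)) (hy : ∀ V, Psd (y.1 V)) :
    0 ≤ (FF hE τ (ps dr) (ps dr)).f x y := by
  rw [FF_apply]
  unfold sf
  have h1 := hE.mono (F := fun _ => (0 : ℝ)) (H := fun V => ipb (x.1 (rf τ V)) (y.1 V))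
    continuous_const (ipb_cont (x.2.cont.comp (rf_cont τ)) y.2.cont)
    (fun V => Sos_Psd (hx _) (hy _))
  rwa [hE.const] at h1

omit hE in
lemma K_bound (x : OK L k τ dr) : ∃ r : ℝ, 0 ≤ r ∧ ∀ V, Psd ((r • Ido - x : OK L k τ dr).1 V) := by
  obtain ⟨C, hC⟩ : ∃ C, ∀ V, ‖x.1 V‖ ≤ C := by
    obtain ⟨C, hC⟩ := (isCompact_range x.2.cont.norm).bddAbove
    exact ⟨C, fun V => hC ⟨V, rfl⟩⟩
  refine ⟨C, (norm_nonneg _).trans (hC 1), fun V => ?_⟩
  have e : (C • Ido - x : OK L k τ dr).1 V = C • (1 : Mb (Bx k) N) - x.1 V := rfl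
  rw [e]
  exact Psd_bound (hC V)

lemma Po_s (c : ℝ) (x y : OK L k τ dr) : (FF hE τ (ps dr) (ps dr)).f (Po c x) y =
    (FF hE τ (ps dr) (ps dr)).f x (Po c y) :=
  (HM_Tr c).sa hE (fun V A C => by
    show ipb (c • Tr A) C = ipb A (c • Tr C)
    rw [ipb_smul_left, ipb_smul_right, Tr_sa]) x y

lemma Qdo_s (x y : OK L k τ dr) : (FF hE τ (ps dr) (ps dr)).f (Qdo x) y =
    (FF hE τ (ps dr) (ps dr)).f x (Qdo y) :=
  HM_Qd.sa hE (fun V A C => Qdm_sa A C) x y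

lemma So_s (q : ℝ) (x y : OK L k τ dr) : (FF hE τ (ps dr) (ps dr)).f (So hτ q x) y =
    (FF hE τ (ps dr) (ps dr)).f x (So hτ q y) :=
  (HM_S hτ q).sa hE (fun V A C => by
    rw [cjL_apply, cjL_apply, ipb_mul_right, ipb_mul_left, Sc_ct, ← Matrix.mul_assoc]) x y

lemma Ro_s (δ q : ℝ) (x y : OK L k τ dr) : (FF hE τ (ps dr) (ps dr)).f (Ro hτ δ q x) y =
    (FF hE τ (ps dr) (ps dr)).f x (Ro hτ δ q y) :=
  (HM_R hτ δ q).sa hE (fun V A C => RR_sa δ q A C) x y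

lemma Po_p (hN : 0 < N) (hβ : 0 ≤ β) {c : ℝ} (hc : 0 ≤ c) (x : OK L k τ dr) :
    0 ≤ (FF hE τ (ps dr) (ps dr)).f x (Po c (To hτ x)) := by
  have hN0 : (0 : ℝ) < N := by exact_mod_cast hN
  have h1 := TL_p hE hβ (ps_ne (k := k) hτ) (ps_ne hτ) (Po 1 x : OK L k τ dr)
  have h2 : (FF hE τ (ps dr) (ps dr)).f (Po 1 x) (To hτ (Po 1 x)) =
      N * (FF hE τ (ps dr) (ps dr)).f x (Po 1 (To hτ x)) := by
    rw [← Po_To, Po_s, Po_Po, mul_one, map_smul, smul_eq_mul]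
  have h3 : 0 ≤ (N : ℝ) * (FF hE τ (ps dr) (ps dr)).f x (Po 1 (To hτ x)) := by
    rw [← h2]; exact h1
  have h4 : 0 ≤ (FF hE τ (ps dr) (ps dr)).f x (Po 1 (To hτ x)) :=
    nonneg_of_mul_nonneg_right h3 hN0
  have h5 : Po c (To hτ x) = c • Po 1 (To hτ x) :=
    OK_ext fun V => by rw [Po_apply, OK_smul, Po_apply, one_smul]
  rw [h5, map_smul, smul_eq_mul]
  exact mul_nonneg hc h4

lemma Ro_form (δ q : ℝ) (x : OK L k τ dr) : (FF hE τ (ps dr) (ps dr)).f x (Ro hτ δ q x) ≤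
    et k N δ / 2 * q ^ 2 * (nro hE (Qo false x) ^ 2 + nro hE (Qo true x) ^ 2) :=
  (HM_R hτ δ q).form hE (HM_Q false) (HM_Q true) (fun V A => RR_form δ (zV_unit V) q A) x

omit hE in
lemma K_T {x : OK L k τ dr} {V : Ez d → G} : (To hτ x).1 V =
    Gd (fun u => L.rho (V (ps dr u, τ))) * x.1 (sh (ez τ) V) *
      (Gd (fun u => L.rho (V (ps dr u, τ))))ᴴ := by
  ext1 u v
  rw [mul_Gd, Gd_mul]
  rfl

/-- the data of the perturbation lemma -/
def ALi (hβ : 0 ≤ β) (hN : 0 < N) {q δ : ℝ} (hq0 : 0 < q) (hq1 : q ≤ 1 / 10)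
    (ha : N * (2 * δ ^ 2) ≤ q / 10) (hl : lk0 k ≤ 1) (hc : (1 + 1) * q ≤ lk0 k)
    (het : et k N δ ≤ 2) : AL (OK L k τ dr) where
  F := FF hE τ (ps dr) (ps dr)
  T := To hτ
  S := So hτ q
  R := Ro hτ δ q
  P := Po (2 * δ ^ 2)
  Q := fun i => Qo i
  Qd := Qdo
  Id := Ido
  K := fun x => ∀ V, Sos (x.1 V)
  K' := fun x => ∀ V, Psd (x.1 V)
  q := q
  a := N * (2 * δ ^ 2)
  l := lk0 k
  c := 1
  q0 := hq0
  q1 := hq1
  a0 := mul_nonneg (Nat.cast_nonneg N) (mul_nonneg two_pos.le (sq_nonneg δ))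
  a1 := ha
  l0 := lk0_nonneg k
  l1 := hl
  c0 := zero_le_one
  cq := hc
  Ts := fun x y => TL_s hE _ _ x y
  Tp := fun x => TL_p hE hβ _ _ x
  Tc := fun x => TL_c hE _ _ x
  Ps := fun x y => Po_s hE _ x y
  PT := fun x => Po_To hτ _ x
  Pp := fun x => Po_p hE hτ hN hβ (mul_nonneg two_pos.le (sq_nonneg δ)) x
  Ss := fun x y => So_s hE hτ q x y
  Rs := fun x y => Ro_s hE hτ δ q x y
  Pb := fun x y => by
    have h1 : (FF hE τ (ps dr) (ps dr)).f (Po (2 * δ ^ 2) x) y =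
        (FF hE τ (ps dr) (ps dr)).f (Po (2 * δ ^ 2) (Qdo x)) (Qdo y) := by
      rw [Po_Qdo, ← Qdo_s, Qdo_Po]
    rw [h1]
    refine (Fm.cs _ _ _).trans ?_
    exact mul_le_mul_of_nonneg_right
      (Po_le hE (mul_nonneg two_pos.le (sq_nonneg δ)) (Qdo x)) (Fm.nr_nonneg _ _)
  P1 := fun x => by
    have h1 := Po_le hE (mul_nonneg two_pos.le (sq_nonneg δ)) (Qdo x)
    rw [Po_Qdo] at h1
    exact h1
  P2 := fun x => Po_le hE (mul_nonneg two_pos.le (sq_nonneg δ)) x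
  Pd := fun x => by
    have h1 := Po_le hE (mul_nonneg two_pos.le (sq_nonneg δ)) (Qdo x)
    rw [Po_Qdo] at h1
    rw [Qdo_Po]
    exact h1
  Pi := fun i x => by
    have h1 := Po_le hE (mul_nonneg two_pos.le (sq_nonneg δ)) (Qo i x)
    rw [Po_Qo] at h1
    rw [Qo_Po]
    exact h1
  Td := fun x => by
    rw [Qdo_To]
    exact TL_c hE _ _ _
  Ti := fun i x => by
    rw [Qo_To]
    exact TL_c hE _ _ _
  Qc := fun i x => Qo_le hE i x
  Qdc := fun x => Qdo_le hE x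
  Sc := fun x => So_le hE hτ hq0.le (by linarith) x
  Si := fun i x => Si_le hE hτ i hq0.le (by linarith) x
  Sd := fun x => Sd_le hE hτ hq0.le (by linarith) x
  Rc := fun x => by
    refine (Ro_le hE hτ δ q x).trans ?_
    have h1 : et k N δ / 2 * q ^ 2 ≤ 1 * q ^ 2 :=
      mul_le_mul_of_nonneg_right (by linarith) (sq_nonneg q)
    exact mul_le_mul_of_nonneg_right h1 (Fm.nr_nonneg _ _)
  Rb := fun x => by
    refine (Ro_form hE hτ δ q x).trans ?_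
    have h1 : et k N δ / 2 * q ^ 2 ≤ 1 * q ^ 2 :=
      mul_le_mul_of_nonneg_right (by linarith) (sq_nonneg q)
    exact mul_le_mul_of_nonneg_right h1 (add_nonneg (sq_nonneg _) (sq_nonneg _))
  KId := fun V => Sos.one
  Kadd := fun x y hx hy V => (hx V).plus (hy V)
  Ksmul := fun r x hr hx V => (hx V).smul hr
  KT := fun x hx V => by
    rw [K_T]
    exact (hx _).conj _
  KS := fun x hx V => by
    rw [So_apply]
    have := (hx V).conj (Sc (zV L dr V) q)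
    rw [Sc_ct] at this
    exact this
  KP := fun x hx V => by
    rw [Po_apply]
    exact (hx V).tr.smul (mul_nonneg two_pos.le (sq_nonneg δ))
  KE := fun x hx V => by
    rw [OK_add, So_apply, Ro_apply, ← NS_eq]
    unfold NS
    refine Sos.avv fun s => ?_
    have := (hx V).conj (Sc (zV L dr V + nz δ s) q)
    rw [Sc_ct] at this
    exact this
  Kp := fun x y hx hy => Kp_pos hE hx fun V => (hy V).psd
  KT' := fun x hx V => by
    rw [K_T]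
    exact (hx _).conj _
  KS' := fun x hx V => by
    rw [So_apply]
    have := (hx V).conj (Sc (zV L dr V) q)
    rw [Sc_ct] at this
    exact this
  Kp' := fun x y hx hy => Kp_pos hE hx hy
  Kd := fun x hx => K_bound x

end

/-! ### the growth rates -/

section growth

variable (hτ : ∀ i, dr i ≠ τ)

/-- the squares of the strings -/
def Zo (q : ℝ) : ℕ → OK L k τ dr
  | 0 => To hτ Ido
  | n + 1 => To hτ (So hτ q (Zo q n))

/-- the squares of the strings with noise -/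
def Zd (q δ : ℝ) : ℕ → OK L k τ dr
  | 0 => To hτ Ido + Po (2 * δ ^ 2) (To hτ Ido)
  | n + 1 => To hτ (So hτ q (Zd q δ n) + Ro hτ δ q (Zd q δ n)) +
      Po (2 * δ ^ 2) (To hτ (So hτ q (Zd q δ n) + Ro hτ δ q (Zd q δ n)))

variable (hE : IV μ L β E)

/-- the squared norm of the strings -/
def mo (q : ℝ) (n : ℕ) : ℝ := (FF hE τ (ps dr) (ps dr)).f Ido (Zo (L := L) (k := k) hτ q n)

/-- the squared norm of the strings with noise -/
def Mo (q δ : ℝ) (n : ℕ) : ℝ :=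
  (FF hE τ (ps dr) (ps dr)).f Ido (Zd (L := L) (k := k) hτ q δ n)

lemma ALi_m (hβ : 0 ≤ β) (hN : 0 < N) {q δ : ℝ} (hq0 : 0 < q) (hq1 : q ≤ 1 / 10)
    (ha : N * (2 * δ ^ 2) ≤ q / 10) (hl : lk0 k ≤ 1) (hc : (1 + 1) * q ≤ lk0 k)
    (het : et k N δ ≤ 2) (n : ℕ) :
    (ALi (dr := dr) hE hτ hβ hN hq0 hq1 ha hl hc het).m n = mo (k := k) hτ hE q n := by
  obtain ⟨A, hA⟩ : ∃ A, A = ALi (dr := dr) hE hτ hβ hN hq0 hq1 ha hl hc het := ⟨_, rfl⟩
  have h1 : ∀ n, A.T ((A.K0^[n]) A.Id) = Zo hτ q n := by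
    intro n
    induction n with
    | zero => rw [hA]; rfl
    | succ n ih =>
      rw [Function.iterate_succ_apply', AL.K0_apply, ih, hA]
      rfl
  rw [← hA]
  show A.F.f A.Id (A.T ((A.K0^[n]) A.Id)) = _
  rw [h1, hA]
  rfl

lemma ALi_M (hβ : 0 ≤ β) (hN : 0 < N) {q δ : ℝ} (hq0 : 0 < q) (hq1 : q ≤ 1 / 10)
    (ha : N * (2 * δ ^ 2) ≤ q / 10) (hl : lk0 k ≤ 1) (hc : (1 + 1) * q ≤ lk0 k)
    (het : et k N δ ≤ 2) (n : ℕ) :
    (ALi (dr := dr) hE hτ hβ hN hq0 hq1 ha hl hc het).M n = Mo (k := k) hτ hE q δ n := by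
  obtain ⟨A, hA⟩ : ∃ A, A = ALi (dr := dr) hE hτ hβ hN hq0 hq1 ha hl hc het := ⟨_, rfl⟩
  have h1 : ∀ n, A.Td' ((A.Kk^[n]) A.Id) = Zd hτ q δ n := by
    intro n
    induction n with
    | zero => rw [hA]; rfl
    | succ n ih =>
      rw [Function.iterate_succ_apply', AL.Kk_apply, ih, hA]
      rfl
  rw [← hA]
  show A.F.f A.Id (A.Td' ((A.Kk^[n]) A.Id)) = _
  rw [h1, hA]
  rfl

/-- **the growth with noise** -/
theorem mo_pert (hβ : 0 ≤ β) (hN : 0 < N) {q δ : ℝ} (hq0 : 0 < q) (hq1 : q ≤ 1 / 10)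
    (ha : N * (2 * δ ^ 2) ≤ q / 10) (hl : lk0 k ≤ 1) (hc : (1 + 1) * q ≤ lk0 k)
    (het : et k N δ ≤ 2) {κ0 C0 : ℝ} (hκ : 1 - q / 10 ≤ κ0) (hκ2 : κ0 ≤ 2)
    (hm : ∀ n, mo (k := k) hτ hE q (2 * n) ≤ C0 * κ0 ^ (2 * n)) (n : ℕ) :
    Mo (k := k) hτ hE q δ (2 * (n + 1)) ≤
      (κ0 + (8 * (N * (2 * δ ^ 2)) * (4 * lk0 k ^ 2 + (1 + 1) * q) ^ 2 +
        20 * 1 * q ^ 2 * lk0 k ^ 2)) ^ 2 * Mo (k := k) hτ hE q δ (2 * n) := by
  have h1 := (ALi (dr := dr) hE hτ hβ hN hq0 hq1 ha hl hc het).pert (κ0 := κ0) (C0 := C0) hκ hκ2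
    (fun n => by rw [ALi_m]; exact hm n) n
  rw [ALi_M, ALi_M] at h1
  exact h1

end growth

end

end Pool.Agent.N985
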