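import Mathlib
import Pool.Agent.N985.Inst3

/-!
# The strings as functions of the link matrices
-/

open MeasureTheory Matrix Filter
open scoped Matrix.Norms.Frobenius ContDiff Topology
open Pool.Agent.H906R3.YM hiding Pl
open Pool.Agent.W793.YM Pool.Agent.TH618.YM Pool.Agent.Y14 Pool.Agent.R990

namespace Pool.Agent.N985

set_option linter.unusedSectionVars false
set_option linter.unusedVariables false

noncomputable section

section psi

variable {d k N : ℕ}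

lemma ez_same (τ : Fin d) : ez τ τ = 1 := Pi.single_eq_same _ _

lemma ez_ne {i τ : Fin d} (h : i ≠ τ) : ez τ i = 0 := Pi.single_eq_of_ne h _

/-- translation of link matrices -/
def shm (z : Fin d → ℤ) (y : Ez d → Mat N) : Ez d → Mat N := fun e => y (e.1 + z, e.2)

/-- the link matrices of the box -/
def zy (dr : Bool → Fin d) (y : Ez d → Mat N) : Lk k → Mat N := fun l => y (ps dr l.2, dr l.1)

/-- the links in the direction of the string -/
def Dy (dr : Bool → Fin d) (τ : Fin d) (y : Ez d → Mat N) : Mb (Bx k) N :=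
  Gd fun u => y (ps dr u, τ)

/-- the string -/
def Ps (dr : Bool → Fin d) (τ : Fin d) (q : ℝ) : ℕ → (Ez d → Mat N) → Mb (Bx k) N
  | 0, y => Dy dr τ y
  | n + 1, y => Dy dr τ y * Sc (zy dr (shm (ez τ) y)) q * Ps dr τ q n (shm (ez τ) y)

variable {dr : Bool → Fin d} {τ τ0 : Fin d}

/-- links near the box in the hyperplane `x τ0 = 0` -/
def Br (k : ℕ) (τ τ0 : Fin d) (e : Ez d) : Prop :=
  e.2 ≠ τ0 ∧ e.1 τ0 = 0 ∧ ∀ i, i ≠ τ → 0 ≤ e.1 i ∧ e.1 i ≤ k

/-- the links of the string -/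
def An (k : ℕ) (τ τ0 : Fin d) (n : ℕ) : Set (Ez d) :=
  {e | Br k τ τ0 e ∧ 0 ≤ e.1 τ ∧ e.1 τ ≤ n ∧ (e.2 = τ ∨ 1 ≤ e.1 τ)}

/-- the first links in the direction of the string -/
def AD (k : ℕ) (τ τ0 : Fin d) : Set (Ez d) := {e | Br k τ τ0 e ∧ e.1 τ = 0 ∧ e.2 = τ}

/-- the first links of the hops -/
def AS (k : ℕ) (τ τ0 : Fin d) : Set (Ez d) := {e | Br k τ τ0 e ∧ e.1 τ = 1 ∧ e.2 ≠ τ}

/-- the directions -/
structure Dirs (dr : Bool → Fin d) (τ τ0 : Fin d) : Prop where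
  ne : dr false ≠ dr true
  t : ∀ i, dr i ≠ τ
  t0 : ∀ i, dr i ≠ τ0
  tt : τ ≠ τ0

lemma Dirs.inj (h : Dirs dr τ τ0) : Function.Injective dr := by
  intro i j hij
  cases i <;> cases j
  · rfl
  · exact absurd hij h.ne
  · exact absurd hij.symm h.ne
  · rfl

lemma ps_inj (h : Dirs dr τ τ0) : Function.Injective (ps (k := k) dr) := by
  intro u v huv
  unfold ps at huv
  have h1 := congrFun huv (dr false)
  have h2 := congrFun huv (dr true)
  simp only [Pi.add_apply, Pi.single_eq_same, Pi.single_eq_of_ne h.ne,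
    Pi.single_eq_of_ne h.ne.symm, add_zero, zero_add] at h1 h2
  refine Prod.ext (Fin.ext ?_) (Fin.ext ?_)
  · exact_mod_cast h1
  · exact_mod_cast h2

lemma ps_bd (h : Dirs dr τ τ0) (u : Bx k) (i : Fin d) : 0 ≤ ps dr u i ∧ ps dr u i ≤ k := by
  unfold ps
  rw [Pi.add_apply]
  have h1 : ((u.1 : ℕ) : ℤ) ≤ k := by exact_mod_cast u.1.2.le
  have h2 : ((u.2 : ℕ) : ℤ) ≤ k := by exact_mod_cast u.2.2.le
  have h3 : (0 : ℤ) ≤ ((u.1 : ℕ) : ℤ) := Int.natCast_nonneg _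
  have h4 : (0 : ℤ) ≤ ((u.2 : ℕ) : ℤ) := Int.natCast_nonneg _
  have hk : (0 : ℤ) ≤ k := Int.natCast_nonneg _
  by_cases e1 : i = dr false
  · subst e1
    rw [Pi.single_eq_same, Pi.single_eq_of_ne h.ne, add_zero]
    exact ⟨h3, h1⟩
  · rw [Pi.single_eq_of_ne e1, zero_add]
    by_cases e2 : i = dr true
    · subst e2
      rw [Pi.single_eq_same]
      exact ⟨h4, h2⟩
    · rw [Pi.single_eq_of_ne e2]
      exact ⟨le_rfl, hk⟩

lemma mem_AD (h : Dirs dr τ τ0) (u : Bx k) : (ps dr u, τ) ∈ AD k τ τ0 :=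
  ⟨⟨h.tt, ps_ne h.t0 u, fun i _ => ps_bd h u i⟩, ps_ne h.t u, rfl⟩

lemma mem_AS (h : Dirs dr τ τ0) (l : Lk k) : (ps dr l.2 + ez τ, dr l.1) ∈ AS k τ τ0 := by
  refine ⟨⟨h.t0 _, ?_, fun i hi => ?_⟩, ?_, h.t _⟩
  · show (ps dr l.2 + ez τ) τ0 = 0
    rw [Pi.add_apply, ps_ne h.t0, ez_ne h.tt.symm, add_zero]
  · show 0 ≤ (ps dr l.2 + ez τ) i ∧ (ps dr l.2 + ez τ) i ≤ k
    rw [Pi.add_apply, ez_ne hi, add_zero]
    exact ps_bd h l.2 i
  · show (ps dr l.2 + ez τ) τ = 1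
    rw [Pi.add_apply, ps_ne h.t, ez_same, zero_add]

lemma AD_An (n : ℕ) : AD k τ τ0 ⊆ An k τ τ0 n := fun e he =>
  ⟨he.1, he.2.1.ge, by rw [he.2.1]; positivity, Or.inl he.2.2⟩

lemma AS_An (n : ℕ) : AS k τ τ0 ⊆ An k τ τ0 (n + 1) := fun e he =>
  ⟨he.1, by rw [he.2.1]; norm_num, by rw [he.2.1]; push_cast; linarith [Int.natCast_nonneg n],
    Or.inr he.2.1.ge⟩

/-- the translated links -/
def shA (τ : Fin d) (A : Set (Ez d)) : Set (Ez d) := (fun e : Ez d => (e.1 + ez τ, e.2)) '' A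

lemma shA_An (h : Dirs dr τ τ0) (n : ℕ) : shA τ (An k τ τ0 n) ⊆ An k τ τ0 (n + 1) := by
  rintro _ ⟨e, he, rfl⟩
  have e1 : (e.1 + ez τ) τ = e.1 τ + 1 := by rw [Pi.add_apply, ez_same]
  refine ⟨⟨he.1.1, ?_, fun i hi => ?_⟩, ?_, ?_, Or.inr ?_⟩
  · show (e.1 + ez τ) τ0 = 0
    rw [Pi.add_apply, ez_ne h.tt.symm, add_zero]
    exact he.1.2.1
  · show 0 ≤ (e.1 + ez τ) i ∧ (e.1 + ez τ) i ≤ k
    rw [Pi.add_apply, ez_ne hi, add_zero]
    exact he.1.2.2 i hi
  · show 0 ≤ (e.1 + ez τ) τ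
    rw [e1]; linarith [he.2.1]
  · show (e.1 + ez τ) τ ≤ _
    rw [e1]; push_cast; linarith [he.2.2.1]
  · show 1 ≤ (e.1 + ez τ) τ
    rw [e1]; linarith [he.2.1]

lemma disj1 (n : ℕ) : Disjoint (AD k τ τ0) (shA τ (An k τ τ0 n)) := by
  rw [Set.disjoint_left]
  rintro _ h1 ⟨e, he, rfl⟩
  have e1 : (e.1 + ez τ) τ = e.1 τ + 1 := by rw [Pi.add_apply, ez_same]
  have h2 : (e.1 + ez τ) τ = 0 := h1.2.1
  rw [e1] at h2
  linarith [he.2.1]

lemma disj2 : Disjoint (AD k τ τ0) (AS k τ τ0) := by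
  rw [Set.disjoint_left]
  intro e h1 h2
  exact h2.2.2 h1.2.2

lemma disj3 (n : ℕ) : Disjoint (AS k τ τ0) (shA τ (An k τ τ0 n)) := by
  rw [Set.disjoint_left]
  rintro _ h1 ⟨e, he, rfl⟩
  have e1 : (e.1 + ez τ) τ = e.1 τ + 1 := by rw [Pi.add_apply, ez_same]
  have h2 : (e.1 + ez τ) τ = 1 := h1.2.1
  rw [e1] at h2
  rcases he.2.2.2 with h3 | h3
  · exact h1.2.2 h3
  · linarith

lemma Dy_LA (h : Dirs dr τ τ0) :
    LA (AD k τ τ0) (fun y : Ez d → Mat N => Dy (k := k) dr τ y) := by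
  refine LA.mat fun u v => ?_
  unfold Dy Gd
  simp only [Matrix.diagonal_apply]
  split_ifs with h1
  · subst h1
    exact (LA.coord (ps dr u, τ)).mono (Set.singleton_subset_iff.2 (mem_AD h u))
  · exact LA.const _ _

lemma Sy_LA (h : Dirs dr τ τ0) (q : ℝ) :
    LA (AS k τ τ0) (fun y : Ez d → Mat N => Sc (k := k) (zy dr (shm (ez τ) y)) q) := by
  have hinj : Function.Injective fun l : Lk k => ((ps dr l.2 + ez τ, dr l.1) : Ez d) := by
    intro l l' hl
    have h1 := (Prod.mk.inj hl).1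
    have h2 := (Prod.mk.inj hl).2
    exact Prod.ext (h.inj h2) (ps_inj h (add_right_cancel h1))
  have h1 := (Sc_LA (k := k) (N := N) q).reix
    (fun l : Lk k => ((ps dr l.2 + ez τ, dr l.1) : Ez d)) hinj.injOn
  refine LA.mono h1 ?_
  rintro _ ⟨l, _, rfl⟩
  exact mem_AS h l

lemma Ps_LA (h : Dirs dr τ τ0) (q : ℝ) (n : ℕ) :
    LA (An k τ τ0 n) (fun y : Ez d → Mat N => Ps (k := k) dr τ q n y) := by
  induction n with
  | zero => exact (Dy_LA h).mono (AD_An 0)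
  | succ n ih =>
    have h1 : LA (shA τ (An k τ τ0 n)) (fun y : Ez d → Mat N =>
        Ps (k := k) dr τ q n (shm (ez τ) y)) := by
      refine ih.reix (fun e : Ez d => ((e.1 + ez τ, e.2) : Ez d)) ?_
      intro e _ e' _ hee
      exact Prod.ext (add_right_cancel (Prod.mk.inj hee).1) (Prod.mk.inj hee).2
    have h2 := ((Dy_LA (N := N) (k := k) h).mul (Sy_LA h q) disj2).mul h1
      (Set.disjoint_union_left.2 ⟨disj1 n, disj3 n⟩)
    refine LA.mono h2 ?_
    exact Set.union_subset (Set.union_subset (AD_An _) (AS_An _)) (shA_An h n)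

/-! ### noise -/

variable {ι : Type*} [Fintype ι] [DecidableEq ι]

/-- a noise field -/
def nzp (φ : Ez d × Ic N → ι) (δ : ℝ) (s : ι → Bool) : Ez d → Mat N :=
  fun e => nm δ fun κ => s (φ (e, κ))

lemma shm_add (z : Fin d → ℤ) (y y' : Ez d → Mat N) : shm z (y + y') = shm z y + shm z y' := rfl

lemma shm_nzp (z : Fin d → ℤ) (φ : Ez d × Ic N → ι) (δ : ℝ) (s : ι → Bool) :
    shm z (nzp φ δ s) = nzp (fun p => φ ((p.1.1 + z, p.1.2), p.2)) δ s := rfl

lemma LA.depOn' {W : Type*} [AddCommGroup W] [Module ℝ W] {A : Set (Ez d)}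
    {F : (Ez d → Mat N) → W} (h : LA A F) (φ : Ez d × Ic N → ι) (δ : ℝ)
    (y : Ez d → Mat N) : DepOn (fun i => ∃ p : Ez d × Ic N, p.1 ∈ A ∧ φ p = i)
      (fun s : ι → Bool => F (y + nzp φ δ s)) := by
  intro s s' hs
  refine h.dep _ _ fun e he => ?_
  show y e + nm δ (fun κ => s (φ (e, κ))) = y e + nm δ (fun κ => s' (φ (e, κ)))
  congr 2
  funext κ
  exact hs _ ⟨(e, κ), he, rfl⟩

/-- complementary dependence -/
lemma dep_compl {α : Type*} {A A' : Set (Ez d)} {B : Set (Ez d × Ic N)}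
    {φ : Ez d × Ic N → ι} (hφ : Set.InjOn φ B) (hA : ∀ p : Ez d × Ic N, p.1 ∈ A → p ∈ B)
    (hA' : ∀ p : Ez d × Ic N, p.1 ∈ A' → p ∈ B) (hd : Disjoint A A') {F : (ι → Bool) → α}
    (h : DepOn (fun i => ∃ p : Ez d × Ic N, p.1 ∈ A' ∧ φ p = i) F) :
    DepOn (fun i => ¬∃ p : Ez d × Ic N, p.1 ∈ A ∧ φ p = i) F := by
  intro s s' hs
  refine h s s' fun i hi => hs i ?_
  rintro ⟨p, hp, hpi⟩
  obtain ⟨p', hp', hpi'⟩ := hi
  have h1 : p = p' := hφ (hA p hp) (hA' p' hp') (hpi.trans hpi'.symm)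
  subst h1
  exact Set.disjoint_left.1 hd hp hp'

lemma Tr_Gd {g : Bx k → Mat N} (hg : ∀ u, (g u)ᴴ * g u = 1) (X : Mb (Bx k) N) :
    Tr (Gd g * X * (Gd g)ᴴ) = Tr X := by
  ext1 u v
  rw [Tr_apply, Tr_apply, mul_Gd, Gd_mul]
  split_ifs with h
  · subst h
    congr 1
    rw [trace_mul_comm, ← Matrix.mul_assoc, hg, one_mul]
  · rfl

/-- the noise on the links in the direction of the string -/
lemma ND (g : Bx k → Mat N) (δ : ℝ) (X : Mb (Bx k) N) :
    avv (fun s : Bx k × Ic N → Bool => Gd (g + nz δ s) * X * (Gd (g + nz δ s))ᴴ) =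
      Gd g * X * (Gd g)ᴴ + (2 * δ ^ 2) • Tr X := by
  ext1 u v
  have e0 : avv (fun s : Bx k × Ic N → Bool => Gd (g + nz δ s) * X * (Gd (g + nz δ s))ᴴ) u v =
      avv (fun s : Bx k × Ic N → Bool => (Gd (g + nz δ s) * X * (Gd (g + nz δ s))ᴴ) u v) :=
    avv_map (W := Mb (Bx k) N) (W' := Mat N)
      ({ toFun := fun M => M u v, map_add' := fun _ _ => rfl, map_smul' := fun _ _ => rfl })
      (fun s : Bx k × Ic N → Bool => Gd (g + nz δ s) * X * (Gd (g + nz δ s))ᴴ)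
  rw [e0, Matrix.add_apply, Matrix.smul_apply, mul_Gd, Gd_mul, Tr_apply]
  simp only [mul_Gd, Gd_mul]
  by_cases h : u = v
  · subst h
    rw [if_pos rfl]
    have h1 := avv_res (W := Mat N) (φ := fun κ : Ic N => (u, κ))
      (fun κ κ' h => (Prod.mk.inj h).2)
      (fun σ : Ic N → Bool => (g u + nm δ σ) * X u u * (g u + nm δ σ)ᴴ)
    have h2 : (fun s : Bx k × Ic N → Bool => (g + nz δ s) u * X u u * ((g + nz δ s) u)ᴴ) =
        fun s => (fun σ : Ic N → Bool => (g u + nm δ σ) * X u u * (g u + nm δ σ)ᴴ)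
          (fun κ => s (u, κ)) := rfl
    rw [h2, h1]
    have h3 : ∀ σ : Ic N → Bool, (g u + nm δ σ) * X u u * (g u + nm δ σ)ᴴ =
        g u * X u u * (g u)ᴴ +
        ((LinearMap.mulRight ℝ (X u u * (g u)ᴴ) +
          (LinearMap.mulLeft ℝ (g u * X u u)).comp (ctl N)) (nm δ σ) +
          nm δ σ * X u u * (nm δ σ)ᴴ) := by
      intro σ
      show _ = g u * X u u * (g u)ᴴ + ((nm δ σ * (X u u * (g u)ᴴ) +
        g u * X u u * (nm δ σ)ᴴ) + nm δ σ * X u u * (nm δ σ)ᴴ)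
      rw [conjTranspose_add, add_mul, add_mul, mul_add, mul_add, ← Matrix.mul_assoc (nm δ σ)]
      abel
    simp only [h3]
    rw [avv_add, avv_add, nm_lin, nm_conj, avv_const, zero_add]
  · rw [if_neg h, smul_zero, add_zero]
    have h1 := avv_ind (W3 := Mat N) (fun j : Bx k × Ic N => j.1 ∈ ({u} : Set (Bx k)))
      (F := fun s : Bx k × Ic N → Bool => (g + nz δ s) u)
      (H := fun s : Bx k × Ic N → Bool => (g + nz δ s) v)
      ((LA.coord u).depOn δ g) (fun s s' hs => (LA.coord v).depOn δ g s s' fun j hj => hs j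
        fun hj' => h (by
          have a1 : j.1 = v := hj
          have a2 : j.1 = u := hj'
          exact a2.symm.trans a1))
      (LinearMap.mk₂ ℝ (fun A C => A * X u v * Cᴴ)
        (fun A A' C => by rw [add_mul, add_mul]) (fun c A C => by
          rw [smul_mul_assoc, smul_mul_assoc])
        (fun A C C' => by rw [conjTranspose_add, mul_add])
        (fun c A C => by rw [conjTranspose_smul, star_trivial, mul_smul_comm]))
    simp only [LinearMap.mk₂_apply] at h1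
    rw [h1, (LA.coord u).mean δ g, (LA.coord v).mean δ g]

end psi

section rec

variable {G : Type*} [Group G] [TopologicalSpace G] [IsTopologicalGroup G] [CompactSpace G]
  [SecondCountableTopology G] [MeasurableSpace G] [BorelSpace G]
  {N n : ℕ} {L : LD G N n} {d k : ℕ} {dr : Bool → Fin d} {τ τ0 : Fin d}

variable (L) in
/-- the link matrices of a configuration -/
def yV (V : Ez d → G) : Ez d → Mat N := fun e => L.rho (V e)

lemma shm_yV (z : Fin d → ℤ) (V : Ez d → G) : shm z (yV L V) = yV L (sh z V) := rfl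

lemma zy_yV (V : Ez d → G) : zy (k := k) dr (yV L V) = zV L dr V := rfl

variable {ι : Type*} [Fintype ι] [DecidableEq ι]

lemma avv_conjM {B : Type*} [Fintype B] [DecidableEq B] (A C : Mb B N)
    (F : (ι → Bool) → Mb B N) : avv (fun s => A * F s * C) = A * avv F * C := by
  have := avv_map ((LinearMap.mulRight ℝ C).comp (LinearMap.mulLeft ℝ A)) F
  exact this.symm

/-- **the average over the noise of the squares of the strings** -/
theorem rec_noise (h : Dirs dr τ τ0) (q δ : ℝ) (n : ℕ) (φ : Ez d × Ic N → ι)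
    (hφ : Set.InjOn φ {p | p.1 ∈ An k τ τ0 n}) (V : Ez d → G) :
    avv (fun s : ι → Bool => Ps (k := k) dr τ q n (yV L V + nzp φ δ s) *
      (Ps (k := k) dr τ q n (yV L V + nzp φ δ s))ᴴ) = (Zd (L := L) (k := k) h.t q δ n).1 V := by
  classical
  -- the links in the direction of the string
  have hD : ∀ (n : ℕ) (φ : Ez d × Ic N → ι) (hφ : Set.InjOn φ {p | p.1 ∈ An k τ τ0 n})
      (V : Ez d → G) (X : Mb (Bx k) N), avv (fun s : ι → Bool =>
        Dy dr τ (yV L V + nzp φ δ s) * X * (Dy dr τ (yV L V + nzp φ δ s))ᴴ) =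
      Gd (fun u => L.rho (V (ps dr u, τ))) * X * (Gd (fun u => L.rho (V (ps dr u, τ))))ᴴ +
        (2 * δ ^ 2) • Tr (Gd (fun u => L.rho (V (ps dr u, τ))) * X *
          (Gd (fun u => L.rho (V (ps dr u, τ))))ᴴ) := by
    intro n φ hφ V X
    rw [Tr_Gd (fun u => L.unit' _), ← ND]
    have h1 := avv_res (W := Mb (Bx k) N) (φ := fun p : Bx k × Ic N => φ ((ps dr p.1, τ), p.2))
      (fun p p' hp => by
        have h2 := hφ (AD_An n (mem_AD h p.1)) (AD_An n (mem_AD h p'.1)) hp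
        have h3 := (Prod.mk.inj h2).1
        exact Prod.ext (ps_inj h (Prod.mk.inj h3).1) (Prod.mk.inj h2).2)
      (fun s : Bx k × Ic N → Bool => Gd ((fun u => L.rho (V (ps dr u, τ))) + nz δ s) * X *
        (Gd ((fun u => L.rho (V (ps dr u, τ))) + nz δ s))ᴴ)
    exact h1
  induction n generalizing φ V with
  | zero =>
    have e1 : ∀ s : ι → Bool, Ps (k := k) dr τ q 0 (yV L V + nzp φ δ s) *
        (Ps (k := k) dr τ q 0 (yV L V + nzp φ δ s))ᴴ =
        Dy (k := k) dr τ (yV L V + nzp φ δ s) * 1 * (Dy dr τ (yV L V + nzp φ δ s))ᴴ := by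
      intro s
      rw [mul_one]
      rfl
    simp only [e1]
    rw [hD 0 φ hφ]
    show _ = (To h.t Ido).1 V + (Po (2 * δ ^ 2) (To h.t Ido)).1 V
    rw [Po_apply, K_T]
    rfl
  | succ n ih =>
    obtain ⟨φ', hφ'⟩ : ∃ φ' : Ez d × Ic N → ι, φ' = fun p => φ ((p.1.1 + ez τ, p.1.2), p.2) :=
      ⟨_, rfl⟩
    have hinj' : Set.InjOn φ' {p | p.1 ∈ An k τ τ0 n} := by
      intro p hp p' hp' hpp
      rw [hφ'] at hpp
      have h1 := hφ (shA_An h n ⟨p.1, hp, rfl⟩) (shA_An h n ⟨p'.1, hp', rfl⟩) hpp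
      have h2 := (Prod.mk.inj h1).1
      exact Prod.ext (Prod.ext (add_right_cancel (Prod.mk.inj h2).1) (Prod.mk.inj h2).2)
        (Prod.mk.inj h1).2
    have hIH := ih φ' hinj' (sh (ez τ) V)
    obtain ⟨D, hDd⟩ : ∃ D : (ι → Bool) → Mb (Bx k) N, D = fun s => Dy dr τ (yV L V + nzp φ δ s) :=
      ⟨_, rfl⟩
    obtain ⟨S, hS⟩ : ∃ S : (ι → Bool) → Mb (Bx k) N, S = fun s =>
      Sc (zy dr (shm (ez τ) (yV L V + nzp φ δ s))) q := ⟨_, rfl⟩
    obtain ⟨Q, hQ⟩ : ∃ Q : (ι → Bool) → Mb (Bx k) N, Q = fun s =>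
      Ps dr τ q n (shm (ez τ) (yV L V + nzp φ δ s)) := ⟨_, rfl⟩
    have dD : DepOn (fun i => ∃ p : Ez d × Ic N, p.1 ∈ AD k τ τ0 ∧ φ p = i) D := by
      rw [hDd]; exact (Dy_LA h).depOn' φ δ _
    have dS : DepOn (fun i => ∃ p : Ez d × Ic N, p.1 ∈ AS k τ τ0 ∧ φ p = i) S := by
      rw [hS]; exact (Sy_LA h q).depOn' φ δ _
    have hLQ : LA (shA τ (An k τ τ0 n)) (fun y : Ez d → Mat N =>
        Ps (k := k) dr τ q n (shm (ez τ) y)) := by
      refine (Ps_LA h q n).reix (fun e : Ez d => ((e.1 + ez τ, e.2) : Ez d)) ?_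
      intro e _ e' _ hee
      exact Prod.ext (add_right_cancel (Prod.mk.inj hee).1) (Prod.mk.inj hee).2
    have dQ : DepOn (fun i => ∃ p : Ez d × Ic N, p.1 ∈ shA τ (An k τ τ0 n) ∧ φ p = i) Q := by
      rw [hQ]; exact hLQ.depOn' φ δ _
    have bD : ∀ p : Ez d × Ic N, p.1 ∈ AD k τ τ0 → p ∈ {p : Ez d × Ic N | p.1 ∈ An k τ τ0 (n + 1)} :=
      fun p hp => AD_An _ hp
    have bS : ∀ p : Ez d × Ic N, p.1 ∈ AS k τ τ0 → p ∈ {p : Ez d × Ic N | p.1 ∈ An k τ τ0 (n + 1)} :=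
      fun p hp => AS_An _ hp
    have bQ : ∀ p : Ez d × Ic N, p.1 ∈ shA τ (An k τ τ0 n) →
        p ∈ {p : Ez d × Ic N | p.1 ∈ An k τ τ0 (n + 1)} := fun p hp => shA_An h n hp
    have e1 : ∀ s : ι → Bool, Ps (k := k) dr τ q (n + 1) (yV L V + nzp φ δ s) *
        (Ps (k := k) dr τ q (n + 1) (yV L V + nzp φ δ s))ᴴ =
        D s * (S s * (Q s * (Q s)ᴴ) * S s) * (D s)ᴴ := by
      intro s
      have f1 : Ps (k := k) dr τ q (n + 1) (yV L V + nzp φ δ s) = D s * S s * Q s := by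
        rw [hDd, hS, hQ]; rfl
      have f2 : (S s)ᴴ = S s := by rw [hS]; exact Sc_ct _ _
      rw [f1, Matrix.conjTranspose_mul, Matrix.conjTranspose_mul, f2]
      simp only [Matrix.mul_assoc]
    simp only [e1]
    -- first step
    have s1 : avv (fun s => D s * (S s * (Q s * (Q s)ᴴ) * S s) * (D s)ᴴ) =
        avv (fun s => D s * avv (fun s' => S s' * (Q s' * (Q s')ᴴ) * S s') * (D s)ᴴ) := by
      have h1 := avv_cond (W := Mb (Bx k) N) (V := Mb (Bx k) N)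
        (fun i => ∃ p : Ez d × Ic N, p.1 ∈ AD k τ τ0 ∧ φ p = i)
        (F := fun s => S s * (Q s * (Q s)ᴴ) * S s)
        (fun s s' hs => by
          have a1 := dep_compl hφ bD bS disj2 dS s s' hs
          have a2 := dep_compl hφ bD bQ (disj1 n) dQ s s' hs
          simp only [a1, a2])
        (fun s v => D s * v * (D s)ᴴ) (fun v s s' hs => by
          have a1 := dD s s' hs
          simp only [a1])
      rw [h1]
      congr 1
      funext s
      exact avv_conjM _ _ _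
    -- second step
    have s2 : avv (fun s' => S s' * (Q s' * (Q s')ᴴ) * S s') =
        avv (fun s => S s * avv (fun s' => Q s' * (Q s')ᴴ) * S s) := by
      have h1 := avv_cond (W := Mb (Bx k) N) (V := Mb (Bx k) N)
        (fun i => ∃ p : Ez d × Ic N, p.1 ∈ AS k τ τ0 ∧ φ p = i)
        (F := fun s => Q s * (Q s)ᴴ)
        (fun s s' hs => by
          have a2 := dep_compl hφ bS bQ (disj3 n) dQ s s' hs
          simp only [a2])
        (fun s v => S s * v * S s) (fun v s s' hs => by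
          have a1 := dS s s' hs
          simp only [a1])
      rw [h1]
      congr 1
      funext s
      exact avv_conjM _ _ _
    have s3 : avv (fun s' => Q s' * (Q s')ᴴ) = (Zd (L := L) (k := k) h.t q δ n).1 (sh (ez τ) V) := by
      rw [← hIH, hQ, hφ']
      rfl
    have s4 : ∀ X : Mb (Bx k) N, avv (fun s => S s * X * S s) =
        NS (zV L dr (sh (ez τ) V)) δ q X := by
      intro X
      unfold NS
      rw [hS]
      have h1 := avv_res (W := Mb (Bx k) N)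
        (φ := fun p : Lk k × Ic N => φ ((ps dr p.1.2 + ez τ, dr p.1.1), p.2))
        (fun p p' hp => by
          have h2 := hφ (bS (_, _) (mem_AS h p.1)) (bS (_, _) (mem_AS h p'.1)) hp
          have h3 := (Prod.mk.inj h2).1
          exact Prod.ext (Prod.ext (h.inj (Prod.mk.inj h3).2)
            (ps_inj h (add_right_cancel (Prod.mk.inj h3).1))) (Prod.mk.inj h2).2)
        (fun s : Lk k × Ic N → Bool => Sc (zV L dr (sh (ez τ) V) + nz δ s) q * X *
          Sc (zV L dr (sh (ez τ) V) + nz δ s) q)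
      exact h1
    rw [s1, s2, s3, s4]
    have s5 := hD (n + 1) φ hφ V (NS (zV L dr (sh (ez τ) V)) δ q
      ((Zd (L := L) (k := k) h.t q δ n).1 (sh (ez τ) V)))
    rw [hDd, s5]
    show _ = (To h.t (So h.t q (Zd h.t q δ n) + Ro h.t δ q (Zd h.t q δ n))).1 V +
      (Po (2 * δ ^ 2) (To h.t (So h.t q (Zd h.t q δ n) + Ro h.t δ q (Zd h.t q δ n)))).1 V
    rw [Po_apply, K_T, OK_add, So_apply, Ro_apply, ← NS_eq]

/-- the squares of the strings -/
lemma rec_zero (h : Dirs dr τ τ0) (q : ℝ) (n : ℕ) (V : Ez d → G) :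
    Ps (k := k) dr τ q n (yV L V) * (Ps (k := k) dr τ q n (yV L V))ᴴ =
      (Zo (L := L) (k := k) h.t q n).1 V := by
  induction n generalizing V with
  | zero =>
    show Dy (k := k) dr τ (yV L V) * (Dy dr τ (yV L V))ᴴ = (To h.t Ido).1 V
    rw [K_T, Ido_apply, mul_one]
    rfl
  | succ n ih =>
    show (Dy dr τ (yV L V) * Sc (zy dr (shm (ez τ) (yV L V))) q *
      Ps dr τ q n (shm (ez τ) (yV L V))) * (Dy dr τ (yV L V) *
      Sc (zy dr (shm (ez τ) (yV L V))) q * Ps dr τ q n (shm (ez τ) (yV L V)))ᴴ =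
      (To h.t (So h.t q (Zo h.t q n))).1 V
    rw [K_T, So_apply, ← ih (sh (ez τ) V), shm_yV, zy_yV, Matrix.conjTranspose_mul,
      Matrix.conjTranspose_mul, Sc_ct]
    simp only [Matrix.mul_assoc]
    rfl

end rec

end

end Pool.Agent.N985
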