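import Mathlib
import Pool.Agent.N985.Psi
import Pool.Agent.N985.NoiseT
import Pool.Agent.R990.NQ

/-!
# The noise inequality for the strings
-/

open MeasureTheory Matrix Filter
open scoped Matrix.Norms.Frobenius ContDiff Topology
open Pool.Agent.H906R3.YM hiding Pl
open Pool.Agent.W793.YM Pool.Agent.TH618.YM Pool.Agent.Y14 Pool.Agent.R990

namespace Pool.Agent.N985

set_option linter.unusedSectionVars false
set_option linter.unusedVariables false

noncomputable section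

section ob

variable {G : Type*} [Group G] [TopologicalSpace G] [IsTopologicalGroup G] [CompactSpace G]
  [SecondCountableTopology G] [MeasurableSpace G] [BorelSpace G]
  {N n : ℕ} {L : LD G N n} {d k : ℕ} {dr : Bool → Fin d} {τ τ0 : Fin d}

/-- the end points of the strings -/
def psn (dr : Bool → Fin d) (τ : Fin d) (n : ℕ) (v : Bx k) : Fin d → ℤ :=
  ps dr v + Pi.single τ ((n : ℤ) + 1)

lemma psn_succ (n : ℕ) (v : Bx k) : psn dr τ n v + ez τ = psn dr τ (n + 1) v := by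
  unfold psn ez
  push_cast
  rw [add_assoc, ← Pi.single_add]

lemma psn_zero (v : Bx k) : ps dr v + ez τ = psn dr τ 0 v := by
  unfold psn ez
  simp

lemma psn_t0 (h : Dirs dr τ τ0) (n : ℕ) (v : Bx k) : psn dr τ n v τ0 = 0 := by
  unfold psn
  rw [Pi.add_apply, ps_ne h.t0, Pi.single_eq_of_ne h.tt.symm, add_zero]

lemma Gd_mul3 (a b c : Bx k → Mat N) : Gd (fun u => a u * b u * (c u)ᴴ) =
    Gd a * Gd b * (Gd c)ᴴ := by
  ext1 u v
  rw [mul_Gd, Gd_mul]
  unfold Gd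
  rw [Matrix.diagonal_apply, Matrix.diagonal_apply]
  split_ifs with h
  · subst h; rfl
  · simp

lemma Dy_gz (γ : (Fin d → ℤ) → G) (V : Ez d → G) : Dy (k := k) dr τ (yV L (gz γ V)) =
    Gd (fun u => L.rho (γ (ps dr u))) * Dy dr τ (yV L V) *
      (Gd (fun u => L.rho (γ (ps dr u + ez τ))))ᴴ := by
  unfold Dy
  rw [← Gd_mul3]
  congr 1
  funext u
  show L.rho (γ (ps dr u) * V (ps dr u, τ) * (γ (ps dr u + ez τ))⁻¹) = _
  rw [map_mul, map_mul, L.rho_inv]
  rfl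

lemma Ps_gz (q : ℝ) (n : ℕ) (γ : (Fin d → ℤ) → G) (V : Ez d → G) :
    Ps (k := k) dr τ q n (yV L (gz γ V)) = Gd (fun u => L.rho (γ (ps dr u))) *
      Ps dr τ q n (yV L V) * (Gd (fun v => L.rho (γ (psn dr τ n v))))ᴴ := by
  induction n generalizing γ V with
  | zero =>
    show Dy dr τ (yV L (gz γ V)) = _ * Dy dr τ (yV L V) * _
    rw [Dy_gz]
    simp only [psn_zero]
  | succ n ih =>
    obtain ⟨γ', hγ'⟩ : ∃ γ' : (Fin d → ℤ) → G, γ' = fun x => γ (x + ez τ) := ⟨_, rfl⟩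
    show Dy dr τ (yV L (gz γ V)) * Sc (zy dr (shm (ez τ) (yV L (gz γ V)))) q *
      Ps dr τ q n (shm (ez τ) (yV L (gz γ V))) = _ * (Dy dr τ (yV L V) *
        Sc (zy dr (shm (ez τ) (yV L V))) q * Ps dr τ q n (shm (ez τ) (yV L V))) * _
    rw [shm_yV, shm_yV, zy_yV, zy_yV, sh_gz, ← hγ', ih, Dy_gz, zV_gz, Sc_cov (cmp_ps γ')]
    have e1 : (fun u : Bx k => L.rho (γ (ps dr u + ez τ))) = fun u => L.rho (γ' (ps dr u)) := by
      rw [hγ']
    have e2 : (fun v : Bx k => L.rho (γ' (psn dr τ n v))) =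
        fun v => L.rho (γ (psn dr τ (n + 1) v)) := by
      rw [hγ']
      simp only [psn_succ]
    rw [e1, e2]
    have f3 := Gd_unit (cmp_ps (L := L) (dr := dr) (k := k) γ').u
    obtain ⟨Γ, hΓ⟩ : ∃ Γ : Mb (Bx k) N, Γ = Gd (fun u => L.rho (γ' (ps dr u))) := ⟨_, rfl⟩
    rw [← hΓ] at f3 ⊢
    obtain ⟨S, hS⟩ : ∃ S : Mb (Bx k) N, S = Sc (zV L dr (sh (ez τ) V)) q := ⟨_, rfl⟩
    rw [← hS]
    obtain ⟨D, hD⟩ : ∃ D : Mb (Bx k) N, D = Dy dr τ (yV L V) := ⟨_, rfl⟩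
    rw [← hD]
    obtain ⟨Q, hQ⟩ : ∃ Q : Mb (Bx k) N, Q = Ps dr τ q n (yV L (sh (ez τ) V)) := ⟨_, rfl⟩
    rw [← hQ]
    calc _ = Gd (fun u => L.rho (γ (ps dr u))) * D * (Γᴴ * Γ) * S * (Γᴴ * Γ) * Q *
          (Gd fun v => L.rho (γ (psn dr τ (n + 1) v)))ᴴ := by simp only [Matrix.mul_assoc]
      _ = _ := by
          rw [f3, mul_one, mul_one]
          simp only [Matrix.mul_assoc]

lemma Ps_cont {X : Type*} [TopologicalSpace X] (q : ℝ) (n : ℕ) {y : X → Ez d → Mat N}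
    (hy : ∀ e, Continuous fun x => y x e) : Continuous fun x => Ps (k := k) dr τ q n (y x) := by
  have hD : ∀ {y : X → Ez d → Mat N}, (∀ e, Continuous fun x => y x e) →
      Continuous fun x => Dy (k := k) dr τ (y x) := by
    intro y hy
    refine continuous_matrix fun u v => ?_
    unfold Dy Gd
    simp only [Matrix.diagonal_apply]
    split_ifs
    · exact hy _
    · exact continuous_const
  induction n generalizing y with
  | zero => exact hD hy
  | succ n ih =>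
    have hy' : ∀ e, Continuous fun x => shm (ez τ) (y x) e := fun e => hy _
    have h1 : Continuous fun x => Sc (k := k) (zy dr (shm (ez τ) (y x))) q :=
      Sc_cont (z := fun x => zy dr (shm (ez τ) (y x))) (fun l => hy' _) q
    exact mb_mul_cont (mb_mul_cont (hD hy) h1) (ih hy')

lemma yV_cont (e : Ez d) : Continuous fun V : Ez d → G => yV L V e :=
  L.cont.comp (continuous_apply _)

lemma Ps_dep (h : Dirs dr τ τ0) (q : ℝ) (n : ℕ) :
    Dep (HP τ0) fun V : Ez d → G => Ps (k := k) dr τ q n (yV L V) := by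
  intro V V' hV
  refine (Ps_LA h q n).dep _ _ fun e he => ?_
  unfold yV
  rw [hV e ⟨he.1.1, he.1.2.1⟩]

/-- the string as an observable -/
def Po' (h : Dirs dr τ τ0) (q : ℝ) (n : ℕ) : OB L τ0 (ps (k := k) dr) (psn dr τ n) :=
  ⟨fun V => Ps dr τ q n (yV L V), Ps_cont q n yV_cont,
    ⟨0, fun V V' hV => Ps_dep h q n V V' fun e he => hV e ⟨he.2.ge, by rw [he.2]; simp⟩⟩,
    fun γ V u v => by rw [Ps_gz, mul_Gd, Gd_mul]⟩

lemma Po'_apply (h : Dirs dr τ τ0) (q : ℝ) (n : ℕ) (V : Ez d → G) :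
    (Po' (L := L) (k := k) h q n).1 V = Ps dr τ q n (yV L V) := rfl

end ob

section torus

variable {G : Type*} [Group G] [TopologicalSpace G] [IsTopologicalGroup G] [CompactSpace G]
  [SecondCountableTopology G] [MeasurableSpace G] [BorelSpace G] {μ : Measure G}
  [IsProbabilityMeasure μ] [μ.IsMulLeftInvariant] [μ.IsMulRightInvariant] [μ.IsInvInvariant]
  {N n0 : ℕ} {L : LD G N n0} {d k : ℕ} {dr : Bool → Fin d} {τ τ0 : Fin d} {m : ℕ} [NeZero m]

lemma ma_of_LA {E' : Type*} [DecidableEq E'] [Fintype E'] {A : Set E'}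
    {F : (E' → Mat N) → ℝ} (h : LA A F) (J : Finset E') :
    MA (fun w : IJ J N → ℝ => F (mx J w)) := by
  intro w i t
  obtain ⟨c, f, hf⟩ := h.aff (mx J w) i.1.1
  have e1 : ∀ s : ℝ, mx J (Function.update w i s) = Function.update (mx J w) i.1.1
      ((1 - s) • mx J (Function.update w i 0) i.1.1 + s • mx J (Function.update w i 1) i.1.1) := by
    intro s
    funext e
    by_cases he : e = i.1.1
    · subst he
      rw [Function.update_self]
      exact mx_MM (N := N) (J := J) i.1.1 w i s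
    · rw [Function.update_of_ne he]
      refine mx_congr fun j hj => ?_
      have : j ≠ i := by
        rintro rfl
        exact he hj.symm
      simp [this]
  obtain ⟨M0, hM0⟩ : ∃ M0, M0 = mx J (Function.update w i 0) i.1.1 := ⟨_, rfl⟩
  obtain ⟨M1, hM1⟩ : ∃ M1, M1 = mx J (Function.update w i 1) i.1.1 := ⟨_, rfl⟩
  rw [← hM0, ← hM1] at e1
  simp only
  rw [e1 t, e1 0, e1 1, hf, hf, hf]
  simp only [map_add, map_smul, smul_eq_mul]
  ring

/-- the projection to the torus -/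
def pit (m : ℕ) (τ0 : Fin d) (e : Ez d) : Ed d (2 * m) := (W793.YM.zt (2 * m) (e.1 + ez τ0), e.2)

lemma pit_inj {n : ℕ} (hm : k + n < 2 * m) :
    Set.InjOn (pit (d := d) m τ0) (An k τ τ0 n) := by
  intro e he e' he' hee
  have h1 := (Prod.mk.inj hee).1
  have h2 := (Prod.mk.inj hee).2
  refine Prod.ext ?_ h2
  funext i
  have h3 := congrFun h1 i
  unfold W793.YM.zt at h3
  rw [Pi.add_apply, Pi.add_apply, ZMod.intCast_eq_intCast_iff_dvd_sub] at h3
  have h4 : |(e'.1 i + ez τ0 i) - (e.1 i + ez τ0 i)| < ((2 * m : ℕ) : ℤ) := by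
    have b1 : 0 ≤ e.1 i ∧ e.1 i ≤ k + n := by
      by_cases hi : i = τ
      · subst hi
        exact ⟨he.2.1, he.2.2.1.trans (by linarith [Int.natCast_nonneg k])⟩
      · have := he.1.2.2 i hi
        exact ⟨this.1, this.2.trans (by linarith [Int.natCast_nonneg n])⟩
    have b2 : 0 ≤ e'.1 i ∧ e'.1 i ≤ k + n := by
      by_cases hi : i = τ
      · subst hi
        exact ⟨he'.2.1, he'.2.2.1.trans (by linarith [Int.natCast_nonneg k])⟩
      · have := he'.1.2.2 i hi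
        exact ⟨this.1, this.2.trans (by linarith [Int.natCast_nonneg n])⟩
    have b3 : ((k : ℤ) + n) < ((2 * m : ℕ) : ℤ) := by exact_mod_cast hm
    rw [abs_lt]
    constructor <;> linarith [b1.1, b1.2, b2.1, b2.2]
  have h5 := Int.eq_zero_of_abs_lt_dvd h3 h4
  linarith

lemma pit_J (hm : 2 ≤ m) {n : ℕ} {e : Ez d} (he : e ∈ An k τ τ0 n) :
    pit m τ0 e ∈ (TR (d := d) hm τ0).J := by
  show pit m τ0 e ∈ Finset.univ.filter _
  rw [Finset.mem_filter]
  refine ⟨Finset.mem_univ _, he.1.1, Or.inl ?_⟩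
  show (((e.1 + ez τ0) τ0 : ℤ) : ZMod (2 * m)) = 1
  rw [Pi.add_apply, he.1.2.1, ez_same]
  simp

/-- the string in terms of the coordinates -/
def Pc (hm : 2 ≤ m) (k : ℕ) (dr : Bool → Fin d) (τ τ0 : Fin d) (q : ℝ) (n : ℕ)
    (w : IJ (TR (d := d) hm τ0).J N → ℝ) : Mb (Bx k) N :=
  Ps dr τ q n fun e => mx (TR hm τ0).J w (pit m τ0 e)

lemma Pc_cv (hm : 2 ≤ m) (h : Dirs dr τ τ0) (q : ℝ) (n : ℕ) (U : Ed d (2 * m) → G) :
    Pc (N := N) hm k dr τ τ0 q n (cv L (TR hm τ0) U) =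
      Ps dr τ q n (yV L (sh (ez τ0) (lf U))) := by
  unfold Pc
  refine (Ps_LA h q n).dep _ _ fun e he => ?_
  rw [mx_cv _ _ (pit_J hm he)]
  rfl

lemma tU_pit (hm : 2 ≤ m) {n : ℕ} (U : Ed d (2 * m) → G) {e : Ez d} (he : e ∈ An k τ τ0 n) :
    (TR hm τ0).tU U (pit m τ0 e) = lf U e := by
  unfold pit
  rw [tU_ne _ _ he.1.1]
  unfold lf
  congr 2
  rw [W793.YM.zt_add, rA_eq']
  unfold rB
  have h1 : W793.YM.zt (2 * m) e.1 τ0 = 0 := by
    unfold W793.YM.zt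
    rw [he.1.2.1]
    simp
  rw [h1, neg_zero, ← h1, Function.update_eq_self]
  rfl

lemma Pc_tU (hm : 2 ≤ m) (h : Dirs dr τ τ0) (q : ℝ) (n : ℕ) (U : Ed d (2 * m) → G) :
    Pc (N := N) hm k dr τ τ0 q n (cv L (TR hm τ0) ((TR hm τ0).tU U)) =
      Ps dr τ q n (yV L (lf U)) := by
  unfold Pc
  refine (Ps_LA h q n).dep _ _ fun e he => ?_
  rw [mx_cv _ _ (pit_J hm he), tU_pit hm U he]
  rfl

lemma Pc_MA (hm : 2 ≤ m) (h : Dirs dr τ τ0) (q : ℝ) {n : ℕ} (hmn : k + n < 2 * m)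
    (i : Ib (Bx k) N) : MA fun w => cb i (Pc (N := N) hm k dr τ τ0 q n w) := by
  have h1 := ((Ps_LA (N := N) (k := k) h q n).reix (pit m τ0) (pit_inj hmn)).comp
    (({ toFun := fun A => cb i A, map_add' := fun A C => map_add (co i.2.2) _ _,
        map_smul' := fun c A => map_smul (co i.2.2) _ _ } : Mb (Bx k) N →ₗ[ℝ] ℝ))
  exact ma_of_LA h1 (TR hm τ0).J

lemma mx_sg {E' : Type*} [DecidableEq E'] [Fintype E'] {J : Finset E'} (δ : ℝ)
    (s : IJ J N → Bool) {e : E'} (he : e ∈ J) :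
    mx J (sg δ s) e = nm δ fun κ => s (⟨e, he⟩, κ) := by
  unfold mx
  rw [dif_pos he]
  rfl

/-- the average over the noise -/
lemma Pc_noise (hm : 2 ≤ m) (hk : 0 < k) (h : Dirs dr τ τ0) (q δ : ℝ) {n : ℕ}
    (hmn : k + n < 2 * m) (U : Ed d (2 * m) → G) :
    av (fun s => ipb (Pc (N := N) hm k dr τ τ0 q n (cv L (TR hm τ0) ((TR hm τ0).tU U) + sg δ s))
      (Pc (N := N) hm k dr τ τ0 q n (cv L (TR hm τ0) ((TR hm τ0).tU U) + sg δ s))) =
      ipb 1 ((Zd (L := L) (k := k) h.t q δ n).1 (lf U)) := by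
  classical
  obtain ⟨e0, he0⟩ : ∃ e0 : Ez d, e0 ∈ An k τ τ0 n :=
    ⟨_, AD_An n (mem_AD h ((⟨0, hk⟩, ⟨0, hk⟩) : Bx k))⟩
  obtain ⟨J, hJ⟩ : ∃ J, J = (TR (d := d) hm τ0).J := ⟨_, rfl⟩
  have hmem : ∀ e ∈ An k τ τ0 n, pit m τ0 e ∈ J := fun e he => by rw [hJ]; exact pit_J hm he
  obtain ⟨φ, hφ⟩ : ∃ φ : Ez d × Ic N → IJ J N, φ = fun p =>
    if hp : pit m τ0 p.1 ∈ J then (⟨pit m τ0 p.1, hp⟩, p.2) else (⟨pit m τ0 e0, hmem e0 he0⟩, p.2) :=
    ⟨_, rfl⟩
  have hφ1 : ∀ p : Ez d × Ic N, ∀ hp : pit m τ0 p.1 ∈ J, φ p = (⟨pit m τ0 p.1, hp⟩, p.2) := by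
    intro p hp
    rw [hφ]
    exact dif_pos hp
  have hinj : Set.InjOn φ {p | p.1 ∈ An k τ τ0 n} := by
    intro p hp p' hp' hpp
    rw [hφ1 p (hmem _ hp), hφ1 p' (hmem _ hp')] at hpp
    have h1 := (Prod.mk.inj hpp).1
    have h2 := Subtype.mk.inj h1
    exact Prod.ext (pit_inj hmn hp hp' h2) (Prod.mk.inj hpp).2
  subst hJ
  have e1 : ∀ s, Pc (N := N) hm k dr τ τ0 q n (cv L (TR hm τ0) ((TR hm τ0).tU U) + sg δ s) =
      Ps dr τ q n (yV L (lf U) + nzp φ δ s) := by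
    intro s
    unfold Pc
    refine (Ps_LA h q n).dep _ _ fun e he => ?_
    rw [mx_add, mx_cv _ _ (pit_J hm he), tU_pit hm U he, mx_sg δ s (pit_J hm he)]
    show L.rho (lf U e) + _ = L.rho (lf U e) + nm δ (fun κ => s (φ (e, κ)))
    congr 2
    funext κ
    rw [hφ1 (e, κ) (pit_J hm he)]
  simp only [e1]
  rw [← rec_noise h q δ n φ hinj (lf U), ← avv_real]
  have h2 := avv_map (ipL (1 : Mb (Bx k) N)) (fun s => Ps (k := k) dr τ q n (yV L (lf U) + nzp φ δ s) *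
      (Ps (k := k) dr τ q n (yV L (lf U) + nzp φ δ s))ᴴ)
  have h3 : ∀ M : Mb (Bx k) N, ipb M M = ipL 1 (M * Mᴴ) := by
    intro M
    rw [ipL_apply, ← ipb_mul_right, one_mul]
  simp only [h3]
  exact h2.symm

/-- **the noise inequality on the torus** -/
theorem ni_tor (hm : 2 ≤ m) (hk : 0 < k) (h : Dirs dr τ τ0) (q : ℝ) {β δ : ℝ} (hβ : 0 < β)
    (hδ : δ ^ 2 = 1 / β) {n : ℕ} (hmn : k + n < 2 * m) (t : ℝ) :
    0 ≤ t ^ 2 * EX μ L β (fun U : Ed d (2 * m) → G => ipb ((Po' (L := L) (k := k) h q n).1 (lf U))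
        (TT L τ0 (ps dr) (psn dr τ n) (Po' (L := L) (k := k) h q n).1 (lf U))) -
      2 * t * EX μ L β (fun U : Ed d (2 * m) → G => ipb ((Po' (L := L) (k := k) h q n).1 (lf U))
        ((Po' (L := L) (k := k) h q n).1 (lf U))) +
      EX μ L β (fun U : Ed d (2 * m) → G => ipb 1 ((Zd (L := L) (k := k) h.t q δ n).1 (lf U))) := by
  obtain ⟨ψ, hψ⟩ : ∃ ψ, ψ = Po' (L := L) (k := k) h q n := ⟨_, rfl⟩
  rw [← hψ]
  obtain ⟨c, hc, hred⟩ := Zt_red μ (L := L) hm τ0 β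
  obtain ⟨w, hw⟩ : ∃ w, w = (wR L β m τ0).1 := ⟨_, rfl⟩
  have hwc : Continuous w := by rw [hw]; exact Sm_cont _
  have hw0 : ∀ U, 0 ≤ w U := by rw [hw]; exact wR_nonneg β τ0
  have hwd : Dep (TR (d := d) hm τ0).R w := by rw [hw]; exact wR_dep hm β τ0
  rw [← hw] at hred
  -- the three observables
  obtain ⟨F1, hF1⟩ : ∃ F1 : (Ed d (2 * m) → G) → ℝ, F1 = fun U => ipb (ψ.1 (lf U))
    (TT L τ0 (ps dr) (psn dr τ n) ψ.1 (lf U)) := ⟨_, rfl⟩
  obtain ⟨F2, hF2⟩ : ∃ F2 : (Ed d (2 * m) → G) → ℝ, F2 = fun U => ipb (ψ.1 (lf U)) (ψ.1 (lf U)) :=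
    ⟨_, rfl⟩
  obtain ⟨F3, hF3⟩ : ∃ F3 : (Ed d (2 * m) → G) → ℝ, F3 = fun U => ipb 1
    ((Zd (L := L) (k := k) h.t q δ n).1 (lf U)) := ⟨_, rfl⟩
  rw [← hF1, ← hF2, ← hF3]
  have hTT := TT_cont (L := L) (τ := τ0) (a := ps dr) (b := psn dr τ n) ψ.2.cont
  have c1 : Continuous F1 := by
    rw [hF1]; exact (ipb_cont ψ.2.cont hTT).comp lf_cont
  have c2 : Continuous F2 := by
    rw [hF2]; exact (ipb_cont ψ.2.cont ψ.2.cont).comp lf_cont
  have c3 : Continuous F3 := by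
    rw [hF3]; exact (ipb_cont continuous_const (Zd h.t q δ n).2.cont).comp lf_cont
  have ha : ∀ u : Bx k, ps dr u τ0 = 0 := ps_ne h.t0
  have hb : ∀ u : Bx k, psn dr τ n u τ0 = 0 := psn_t0 h n
  have g1 : GI F1 := by
    intro γ U
    rw [hF1]
    simp only
    rw [lf_gt]
    unfold ipb
    refine Finset.sum_congr rfl fun u _ => Finset.sum_congr rfl fun v _ => ?_
    rw [ψ.2.cov, (ψ.2.T ha hb).cov, ip_unit]
  have g2 : GI F2 := by
    intro γ U
    rw [hF2]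
    simp only
    rw [lf_gt]
    unfold ipb
    refine Finset.sum_congr rfl fun u _ => Finset.sum_congr rfl fun v _ => ?_
    rw [ψ.2.cov, ip_unit]
  have g3 : GI F3 := by
    intro γ U
    rw [hF3]
    simp only
    rw [lf_gt]
    show ipb ((Ido : OK L k τ dr).1 (gz (fun x => γ (W793.YM.zt (2 * m) x)) (lf U)))
      ((Zd h.t q δ n).1 (gz (fun x => γ (W793.YM.zt (2 * m) x)) (lf U))) =
      ipb ((Ido : OK L k τ dr).1 (lf U)) ((Zd h.t q δ n).1 (lf U))
    unfold ipb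
    refine Finset.sum_congr rfl fun u _ => Finset.sum_congr rfl fun v _ => ?_
    rw [(Zd h.t q δ n).2.cov, (Ido : OK L k τ dr).2.cov, ip_unit]
  have gg : GI (fun U : Ed d (2 * m) → G => (1 : ℝ)) := fun γ U => rfl
  unfold EX
  have hZ := Zt_pos μ (L := L) (d := d) (l := 2 * m) β
  obtain ⟨Z1, hZ1⟩ : ∃ Z1, Z1 = Zt μ L β (fun _ : Ed d (2 * m) → G => (1 : ℝ)) := ⟨_, rfl⟩
  rw [← hZ1] at hZ ⊢
  have e0 : t ^ 2 * (Zt μ L β F1 / Z1) - 2 * t * (Zt μ L β F2 / Z1) + Zt μ L β F3 / Z1 =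
      (t ^ 2 * Zt μ L β F1 - 2 * t * Zt μ L β F2 + Zt μ L β F3) / Z1 := by
    ring
  rw [e0]
  refine div_nonneg ?_ hZ.le
  rw [hred F1 c1 g1, hred F2 c2 g2, hred F3 c3 g3]
  -- the coordinates
  obtain ⟨X, hX⟩ : ∃ X : (Ed d (2 * m) → G) → Mb (Bx k) N, X = fun U =>
    Pc hm k dr τ τ0 q n (cv L (TR hm τ0) U) := ⟨_, rfl⟩
  obtain ⟨Y, hY⟩ : ∃ Y : (IJ (TR (d := d) hm τ0).J N → Bool) → (Ed d (2 * m) → G) → Mb (Bx k) N,
    Y = fun s U => Pc hm k dr τ τ0 q n (cv L (TR hm τ0) U + sg δ s) := ⟨_, rfl⟩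
  have hPcc : Continuous fun w : IJ (TR (d := d) hm τ0).J N → ℝ => Pc hm k dr τ τ0 q n w := by
    unfold Pc
    exact Ps_cont q n fun e => mm_cont (mx_MM _)
  have cX : Continuous X := by rw [hX]; exact hPcc.comp (cv_cont _)
  have cY : ∀ s, Continuous (Y s) := by
    intro s
    rw [hY]
    exact hPcc.comp ((cv_cont _).add continuous_const)
  have k1 : ∀ U, F1 (fix τ0 U) = ipb (X ((TR hm τ0).tU U)) (X U) := by
    intro U
    rw [hF1, hX]
    simp only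
    rw [Pc_tU hm h, Pc_cv hm h, hψ]
    have a1 : (Po' (L := L) (k := k) h q n).1 (lf (fix τ0 U)) = Ps dr τ q n (yV L (lf U)) := by
      rw [Po'_apply]
      refine (Ps_LA h q n).dep _ _ fun e he => ?_
      show L.rho (fix τ0 U (_, e.2)) = L.rho (U (_, e.2))
      rw [fix_ne _ _ he.1.1]
    have a2 : TT L τ0 (ps dr) (psn dr τ n) (Po' (L := L) (k := k) h q n).1 (lf (fix τ0 U)) =
        Ps dr τ q n (yV L (sh (ez τ0) (lf U))) := by
      have a3 : (Po' (L := L) (k := k) h q n).1 (sh (ez τ0) (lf (fix τ0 U))) =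
          Ps dr τ q n (yV L (sh (ez τ0) (lf U))) := by
        rw [Po'_apply]
        refine (Ps_LA h q n).dep _ _ fun e he => ?_
        show L.rho (fix τ0 U (_, e.2)) = L.rho (U (_, e.2))
        rw [fix_ne _ _ he.1.1]
      ext1 u v
      rw [TT_apply, a3]
      have f1 : ∀ x : Fin d → ℤ, x τ0 = 0 → lf (fix τ0 U) (x, τ0) = 1 := by
        intro x hx
        unfold lf
        refine fix_i0' _ _ (Or.inl ?_)
        simp [hx]
      rw [f1 _ (ha u), f1 _ (hb v), map_one, conjTranspose_one, one_mul, mul_one]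
    rw [a1, a2]
  have k2 : ∀ U, F2 (fix τ0 U) = ipb (X ((TR hm τ0).tU U)) (X ((TR hm τ0).tU U)) := by
    intro U
    rw [hF2, hX]
    simp only
    rw [Pc_tU hm h, hψ]
    have a1 : (Po' (L := L) (k := k) h q n).1 (lf (fix τ0 U)) = Ps dr τ q n (yV L (lf U)) := by
      rw [Po'_apply]
      refine (Ps_LA h q n).dep _ _ fun e he => ?_
      show L.rho (fix τ0 U (_, e.2)) = L.rho (U (_, e.2))
      rw [fix_ne _ _ he.1.1]
    rw [a1]
  have k3 : ∀ U, F3 (fix τ0 U) = av (fun s => ipb (Y s ((TR hm τ0).tU U))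
      (Y s ((TR hm τ0).tU U))) := by
    intro U
    have a1 : ∀ s, Pc (N := N) hm k dr τ τ0 q n
        (cv L (TR hm τ0) ((TR hm τ0).tU (fix τ0 U)) + sg δ s) =
        Pc (N := N) hm k dr τ τ0 q n (cv L (TR hm τ0) ((TR hm τ0).tU U) + sg δ s) := by
      intro s
      unfold Pc
      refine (Ps_LA h q n).dep _ _ fun e he => ?_
      rw [mx_add, mx_add, mx_cv _ _ (pit_J hm he), mx_cv _ _ (pit_J hm he), tU_pit hm _ he,
        tU_pit hm _ he]
      congr 2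
      show fix τ0 U (_, e.2) = U (_, e.2)
      rw [fix_ne _ _ he.1.1]
    have a2 := Pc_noise (L := L) (N := N) hm hk h q δ hmn (fix τ0 U)
    simp only [a1] at a2
    rw [hF3, hY]
    exact a2.symm
  simp only [k1, k2, k3]
  -- the sum over the coordinates
  have main := fun i : Ib (Bx k) N => noise_pos μ (L := L) (TR (d := d) hm τ0) hβ hδ
    (Pc_MA (N := N) hm h q hmn i) t hwc hwd
  have cP : ∀ i : Ib (Bx k) N, Continuous fun U => cb i (X U) := fun i => cb_cont cX i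
  have cPs : ∀ (i : Ib (Bx k) N) s, Continuous fun U => cb i (Y s U) := fun i s =>
    cb_cont (cY s) i
  have tc := (TR (d := d) hm τ0).tU_cont (G := G)
  have hx : ∀ U, Pc hm k dr τ τ0 q n (cv L (TR hm τ0) U) = X U := fun U => by rw [hX]
  have hy : ∀ s U, Pc hm k dr τ τ0 q n (cv L (TR hm τ0) U + sg δ s) = Y s U := fun s U => by
    rw [hY]
  simp only [hx, hy] at main
  obtain ⟨Gi, hGi⟩ : ∃ Gi : Ib (Bx k) N → (Ed d (2 * m) → G) → ℝ, Gi = fun i U =>
    t ^ 2 * (cb i (X U) * cb i (X ((TR (d := d) hm τ0).tU U))) -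
      t * cb i (X U) ^ 2 - t * cb i (X ((TR (d := d) hm τ0).tU U)) ^ 2 +
      av (fun s => cb i (Y s U) * cb i (Y s ((TR (d := d) hm τ0).tU U))) := ⟨_, rfl⟩
  have cG : ∀ i, Continuous (Gi i) := by
    intro i
    rw [hGi]
    exact (((continuous_const.mul ((cP i).mul ((cP i).comp tc))).sub (continuous_const.mul
      ((cP i).pow 2))).sub (continuous_const.mul (((cP i).comp tc).pow 2))).add
      (Y14.av_cont fun s => (cPs i s).mul ((cPs i s).comp tc))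
  have main' : ∀ i ∈ (Finset.univ : Finset (Ib (Bx k) N)),
      0 ≤ (TR (d := d) hm τ0).Ew μ L β w (Gi i) := by
    intro i _
    rw [hGi]
    exact main i
  have hsum := Finset.sum_nonneg main'
  rw [← Refl.Ew_sum μ (TR (d := d) hm τ0) hwc Finset.univ (fun i _ => cG i)] at hsum
  obtain ⟨H1, hH1⟩ : ∃ H1 : (Ed d (2 * m) → G) → ℝ, H1 = fun U => ipb (X ((TR (d := d) hm τ0).tU U)) (X U) :=
    ⟨_, rfl⟩
  obtain ⟨H2, hH2⟩ : ∃ H2 : (Ed d (2 * m) → G) → ℝ, H2 = fun U => ipb (X ((TR (d := d) hm τ0).tU U)) (X ((TR (d := d) hm τ0).tU U)) :=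
    ⟨_, rfl⟩
  obtain ⟨H3, hH3⟩ : ∃ H3 : (Ed d (2 * m) → G) → ℝ, H3 = fun U =>
    av (fun s => ipb (Y s ((TR (d := d) hm τ0).tU U)) (Y s ((TR (d := d) hm τ0).tU U))) := ⟨_, rfl⟩
  rw [← hH1, ← hH2, ← hH3]
  have d1 : Continuous H1 := by rw [hH1]; exact ipb_cont (cX.comp tc) cX
  have d2 : Continuous H2 := by rw [hH2]; exact ipb_cont (cX.comp tc) (cX.comp tc)
  have d3 : Continuous H3 := by
    rw [hH3]; exact Y14.av_cont fun s => ipb_cont ((cY s).comp tc) ((cY s).comp tc)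
  have hle : ∀ U, (∑ i, Gi i U) ≤ (t ^ 2 * H1 U + ((-t) * H2 ((TR (d := d) hm τ0).tU U) + (-t) * H2 U)) +
        ((1 / 2) * H3 ((TR (d := d) hm τ0).tU U) + (1 / 2) * H3 U) := by
    intro U
    rw [hH1, hH2, hH3, hGi]
    simp only [(TR (d := d) hm τ0).tU_tU]
    have e1 : (∑ i : Ib (Bx k) N, (t ^ 2 * (cb i (X U) * cb i (X ((TR (d := d) hm τ0).tU U))) -
      t * cb i (X U) ^ 2 - t * cb i (X ((TR (d := d) hm τ0).tU U)) ^ 2 + av (fun s => cb i (Y s U) *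
        cb i (Y s ((TR (d := d) hm τ0).tU U))))) = t ^ 2 * ipb (X ((TR (d := d) hm τ0).tU U)) (X U) + ((-t) * ipb (X U) (X U) +
        (-t) * ipb (X ((TR (d := d) hm τ0).tU U)) (X ((TR (d := d) hm τ0).tU U))) + av (fun s => ipb (Y s U) (Y s ((TR (d := d) hm τ0).tU U))) := by
      simp only [ipb_cb]
      rw [av_sum, Finset.mul_sum, Finset.mul_sum, Finset.mul_sum, ← Finset.sum_add_distrib,
        ← Finset.sum_add_distrib, ← Finset.sum_add_distrib]
      exact Finset.sum_congr rfl fun i _ => by ring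
    rw [e1]
    have e2 : av (fun s => ipb (Y s U) (Y s ((TR (d := d) hm τ0).tU U))) ≤
        (1 / 2) * av (fun s => ipb (Y s U) (Y s U)) +
        (1 / 2) * av (fun s => ipb (Y s ((TR (d := d) hm τ0).tU U)) (Y s ((TR (d := d) hm τ0).tU U))) := by
      rw [← av_smul, ← av_smul, ← av_add]
      refine av_mono fun s => ?_
      have := ipb_self_nonneg (Y s U - Y s ((TR (d := d) hm τ0).tU U))
      rw [ipb_sub_left, ipb_sub_right, ipb_sub_right, ipb_comm (Y s ((TR (d := d) hm τ0).tU U)) (Y s U)] at this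
      linarith
    linarith
  have hcs : Continuous fun U => ∑ i, Gi i U := continuous_finsetSum _ fun i _ => cG i
  have m1 : Continuous fun U => t ^ 2 * H1 U := continuous_const.mul d1
  have m2 : Continuous fun U => (-t) * H2 ((TR (d := d) hm τ0).tU U) := continuous_const.mul (d2.comp tc)
  have m3 : Continuous fun U => (-t) * H2 U := continuous_const.mul d2
  have m4 : Continuous fun U => (1 / 2) * H3 ((TR (d := d) hm τ0).tU U) := continuous_const.mul (d3.comp tc)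
  have m5 : Continuous fun U => (1 / 2) * H3 U := continuous_const.mul d3
  have m23 : Continuous fun U => (-t) * H2 ((TR (d := d) hm τ0).tU U) + (-t) * H2 U := m2.add m3
  have m123 : Continuous fun U => t ^ 2 * H1 U + ((-t) * H2 ((TR (d := d) hm τ0).tU U) + (-t) * H2 U) :=
    m1.add m23
  have m45 : Continuous fun U => (1 / 2) * H3 ((TR (d := d) hm τ0).tU U) + (1 / 2) * H3 U := m4.add m5
  have m6 : Continuous fun U => (t ^ 2 * H1 U + ((-t) * H2 ((TR (d := d) hm τ0).tU U) +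
      (-t) * H2 U)) + ((1 / 2) * H3 ((TR (d := d) hm τ0).tU U) + (1 / 2) * H3 U) := m123.add m45
  have h2 := hsum.trans ((TR (d := d) hm τ0).Ew_mono μ (L := L) hwc hw0 hcs m6 hle)
  have q1 := (TR (d := d) hm τ0).Ew_add μ (L := L) (β := β) hwc m123 m45
  have q2 := (TR (d := d) hm τ0).Ew_add μ (L := L) (β := β) hwc m1 m23
  have q3 := (TR (d := d) hm τ0).Ew_add μ (L := L) (β := β) hwc m2 m3
  have q4 := (TR (d := d) hm τ0).Ew_add μ (L := L) (β := β) hwc m4 m5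
  have r1 := (TR (d := d) hm τ0).Ew_smul μ (L := L) (β := β) (w := w) (F := H1) (t ^ 2)
  have r2 := (TR (d := d) hm τ0).Ew_smul μ (L := L) (β := β) (w := w) (F := fun U => H2 ((TR (d := d) hm τ0).tU U)) (-t)
  have r3 := (TR (d := d) hm τ0).Ew_smul μ (L := L) (β := β) (w := w) (F := H2) (-t)
  have r4 := (TR (d := d) hm τ0).Ew_smul μ (L := L) (β := β) (w := w) (F := fun U => H3 ((TR (d := d) hm τ0).tU U)) (1 / 2)
  have r5 := (TR (d := d) hm τ0).Ew_smul μ (L := L) (β := β) (w := w) (F := H3) (1 / 2)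
  have s1 := Ew_refl μ (L := L) (TR (d := d) hm τ0) (β := β) (w := w) (F := H2)
  have s2 := Ew_refl μ (L := L) (TR (d := d) hm τ0) (β := β) (w := w) (F := H3)
  rw [q1, q2, q3, q4, r1, r2, r3, r4, r5, s1, s2] at h2
  have h3 := mul_nonneg hc.le h2
  linarith

end torus

end

end Pool.Agent.N985
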