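import Mathlib
import Pool.Agent.N985.NI

/-!
# The noise inequality in the infinite volume
-/

open MeasureTheory Matrix Filter
open scoped Matrix.Norms.Frobenius ContDiff Topology
open Pool.Agent.H906R3.YM hiding Pl
open Pool.Agent.W793.YM Pool.Agent.TH618.YM Pool.Agent.Y14 Pool.Agent.R990

namespace Pool.Agent.N985

set_option linter.unusedSectionVars false
set_option linter.unusedVariables false

noncomputable section

namespace Fm

variable {V : Type*} [AddCommGroup V] [Module ℝ V] (F : Fm V) {T : V →ₗ[ℝ] V}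
  (hs : ∀ x y, F.f (T x) y = F.f x (T y)) (hp : ∀ x, 0 ≤ F.f x (T x))
include hs

lemma it_s (j : ℕ) (x y : V) : F.f ((T^[j]) x) y = F.f x ((T^[j]) y) := by
  induction j generalizing x y with
  | zero => rfl
  | succ j ih =>
    rw [Function.iterate_succ_apply', hs, ih, ← Function.iterate_succ_apply]

lemma it_add (i j : ℕ) (x y : V) : F.f ((T^[i]) x) ((T^[j]) y) = F.f x ((T^[i + j]) y) := by
  rw [F.it_s hs, ← Function.iterate_add_apply]

include hp in
lemma pw_nonneg (n : ℕ) (x : V) : 0 ≤ F.f x ((T^[n]) x) := by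
  rcases Nat.even_or_odd' n with ⟨j, h | h⟩
  · have h1 := F.nn ((T^[j]) x)
    rw [F.it_add hs] at h1
    rw [h, two_mul]
    exact h1
  · have h1 := hp ((T^[j]) x)
    rw [← Function.iterate_succ_apply' (⇑T), F.it_add hs] at h1
    have : n = j + (j + 1) := by omega
    rw [this]
    exact h1

include hp in
/-- the Cauchy-Schwarz inequality for the powers -/
lemma pw_cs (n : ℕ) (x y : V) :
    F.f x ((T^[n]) y) ^ 2 ≤ F.f x ((T^[n]) x) * F.f y ((T^[n]) y) := by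
  have e : ∀ x y, (F.f.compl₂ (T ^ n)) x y = F.f x ((T^[n]) y) := by
    intro x y
    rw [LinearMap.compl₂_apply, Module.End.pow_apply]
  obtain ⟨K, hK⟩ : ∃ K : Fm V, ∀ x y, K.f x y = F.f x ((T^[n]) y) :=
    ⟨⟨F.f.compl₂ (T ^ n), fun x y => by rw [e, e, ← F.it_s hs, F.symm],
      fun x => by rw [e]; exact F.pw_nonneg hs hp n x⟩, fun x y => e x y⟩
  rw [← hK, ← hK, ← hK, ← K.nr_sq, ← K.nr_sq, ← mul_pow]
  have h1 := K.cs x y
  rw [← sq_abs]
  exact pow_le_pow_left₀ (abs_nonneg _) h1 2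

include hp in
lemma pw_lc (x : V) (n : ℕ) : F.f x ((T^[n + 1]) x) ^ 2 ≤
    F.f x ((T^[n]) x) * F.f x ((T^[n + 2]) x) := by
  have h1 := F.pw_cs hs hp n x (T x)
  have e1 : (T^[n]) (T x) = (T^[n + 1]) x := (Function.iterate_succ_apply _ _ _).symm
  have e2 : F.f (T x) ((T^[n + 1]) x) = F.f x ((T^[n + 2]) x) := by
    rw [hs, ← Function.iterate_succ_apply' (⇑T)]
  rw [e1, e2] at h1
  exact h1

end Fm

/-- lower bounds for log-convex sequences -/
lemma lc_lower {c : ℕ → ℝ} (h0 : ∀ n, 0 ≤ c n) (hc : ∀ n, c (n + 1) ^ 2 ≤ c n * c (n + 2))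
    {r : ℝ} (hr : 0 ≤ r) (h1 : r * c 0 ≤ c 1) (n : ℕ) : r ^ n * c 0 ≤ c n := by
  have key : ∀ n, r * c n ≤ c (n + 1) := by
    intro n
    induction n with
    | zero => exact h1
    | succ n ih =>
      rcases (h0 (n + 1)).lt_or_eq with h | h
      · have h2 := hc n
        have h3 : 0 < c n := by
          rcases (h0 n).lt_or_eq with h4 | h4
          · exact h4
          · rw [← h4, zero_mul] at h2
            have : 0 < c (n + 1) ^ 2 := pow_pos h 2
            linarith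
        have h4 : c n * (r * c (n + 1)) ≤ c n * c (n + 2) := by nlinarith
        exact le_of_mul_le_mul_left h4 h3
      · rw [← h, mul_zero]
        exact h0 _
  induction n with
  | zero => simp
  | succ n ih =>
    rw [pow_succ]
    have := key n
    have h2 := mul_le_mul_of_nonneg_left ih hr
    linarith

variable {G : Type*} [Group G] [TopologicalSpace G] [IsTopologicalGroup G] [CompactSpace G]
  [SecondCountableTopology G] [MeasurableSpace G] [BorelSpace G] {μ : Measure G}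
  [IsProbabilityMeasure μ] [μ.IsMulLeftInvariant] [μ.IsMulRightInvariant] [μ.IsInvInvariant]
  {N n0 : ℕ} {L : LD G N n0} {d k : ℕ} {dr : Bool → Fin d} {τ τ0 : Fin d}
  {β : ℝ} {E : ((Ez d → G) → ℝ) → ℝ}

/-- the transfer operator in the direction of the separation -/
def T0 (h : Dirs dr τ τ0) (n : ℕ) :
    OB L τ0 (ps (k := k) dr) (psn dr τ n) →ₗ[ℝ] OB L τ0 (ps (k := k) dr) (psn dr τ n) :=
  TL (ps_ne h.t0) (psn_t0 h n)

variable (hE : IV μ L β E)

/-- two strings at distance `R` -/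
def bb (h : Dirs dr τ τ0) (q : ℝ) (n R : ℕ) : ℝ :=
  (FF hE τ0 (ps (k := k) dr) (psn dr τ n)).f (Po' (L := L) h q n)
    (((T0 h n)^[R]) (Po' (L := L) h q n))

lemma bb_nonneg (hβ : 0 ≤ β) (h : Dirs dr τ τ0) (q : ℝ) (n R : ℕ) :
    0 ≤ bb (k := k) hE h q n R :=
  Fm.pw_nonneg _ (fun x y => TL_s hE _ _ x y) (fun x => TL_p hE hβ _ _ x) R _

lemma bb_lc (hβ : 0 ≤ β) (h : Dirs dr τ τ0) (q : ℝ) (n R : ℕ) :
    bb (k := k) hE h q n (R + 1) ^ 2 ≤ bb (k := k) hE h q n R * bb (k := k) hE h q n (R + 2) :=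
  Fm.pw_lc _ (fun x y => TL_s hE _ _ x y) (fun x => TL_p hE hβ _ _ x) _ R

include hE in
lemma Po'_rf (h : Dirs dr τ τ0) (q : ℝ) (n : ℕ) (V : Ez d → G) :
    (Po' (L := L) (k := k) h q n).1 (rf τ0 V) = (Po' (L := L) (k := k) h q n).1 V :=
  rf_HP hE (Ps_dep (L := L) h q n) V

lemma mo_eq (h : Dirs dr τ τ0) (q : ℝ) (n : ℕ) : mo (k := k) h.t hE q n =
    E (fun V => ipb ((Po' (L := L) (k := k) h q n).1 V) ((Po' (L := L) (k := k) h q n).1 V)) := by
  show sf E τ (Ido : OK L k τ dr).1 (Zo (L := L) (k := k) h.t q n).1 = _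
  unfold sf
  refine congrArg E (funext fun V => ?_)
  rw [← rec_zero h q n V, Ido_apply, Po'_apply, ← ipb_mul_right, one_mul]

lemma bb_zero (h : Dirs dr τ τ0) (q : ℝ) (n : ℕ) :
    bb (k := k) hE h q n 0 = mo (k := k) h.t hE q n := by
  rw [mo_eq]
  show sf E τ0 (Po' (L := L) (k := k) h q n).1 (Po' (L := L) (k := k) h q n).1 = _
  unfold sf
  refine congrArg E (funext fun V => ?_)
  rw [Po'_rf hE]

lemma bb_one (h : Dirs dr τ τ0) (q : ℝ) (n : ℕ) : bb (k := k) hE h q n 1 =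
    E (fun V => ipb ((Po' (L := L) (k := k) h q n).1 V)
      (TT L τ0 (ps dr) (psn dr τ n) (Po' (L := L) (k := k) h q n).1 V)) := by
  show sf E τ0 (Po' (L := L) (k := k) h q n).1
    (TT L τ0 (ps dr) (psn dr τ n) (Po' (L := L) (k := k) h q n).1) = _
  unfold sf
  refine congrArg E (funext fun V => ?_)
  rw [Po'_rf hE]

/-- **the noise inequality** -/
theorem ni (hk : 0 < k) (h : Dirs dr τ τ0) (q : ℝ) {δ : ℝ} (hβ : 0 < β) (hδ : δ ^ 2 = 1 / β)
    (n : ℕ) : mo (k := k) h.t hE q n ^ 2 ≤ bb (k := k) hE h q n 1 * Mo (k := k) h.t hE q δ n := by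
  obtain ⟨s, hs, hl⟩ := hE.ev (k + n + 1)
  obtain ⟨ψ, hψ⟩ : ∃ ψ, ψ = Po' (L := L) (k := k) h q n := ⟨_, rfl⟩
  obtain ⟨F1, hF1⟩ : ∃ F1 : (Ez d → G) → ℝ, F1 = fun V => ipb (ψ.1 V)
    (TT L τ0 (ps dr) (psn dr τ n) ψ.1 V) := ⟨_, rfl⟩
  obtain ⟨F2, hF2⟩ : ∃ F2 : (Ez d → G) → ℝ, F2 = fun V => ipb (ψ.1 V) (ψ.1 V) := ⟨_, rfl⟩
  obtain ⟨F3, hF3⟩ : ∃ F3 : (Ez d → G) → ℝ, F3 = fun V => ipb 1
    ((Zd (L := L) (k := k) h.t q δ n).1 V) := ⟨_, rfl⟩
  have hTT := TT_cont (L := L) (τ := τ0) (a := ps dr) (b := psn dr τ n) ψ.2.cont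
  have c1 : Continuous F1 := by rw [hF1]; exact ipb_cont ψ.2.cont hTT
  have c2 : Continuous F2 := by rw [hF2]; exact ipb_cont ψ.2.cont ψ.2.cont
  have c3 : Continuous F3 := by
    rw [hF3]; exact ipb_cont continuous_const (Zd h.t q δ n).2.cont
  have e1 : bb (k := k) hE h q n 1 = E F1 := by rw [bb_one, hF1, hψ]
  have e2 : mo (k := k) h.t hE q n = E F2 := by rw [mo_eq, hF2, hψ]
  have e3 : Mo (k := k) h.t hE q δ n = E F3 := by
    rw [hF3]
    rfl
  rw [e1, e2, e3]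
  have key : ∀ t : ℝ, 0 ≤ E F3 + 2 * t * (-E F2) + t ^ 2 * E F1 := by
    intro t
    have h1 : ∀ j, 0 ≤ t ^ 2 * EX μ L β (fun U : Ed d (2 * (s j + 1)) → G => F1 (lf U)) -
        2 * t * EX μ L β (fun U : Ed d (2 * (s j + 1)) → G => F2 (lf U)) +
        EX μ L β (fun U : Ed d (2 * (s j + 1)) → G => F3 (lf U)) := by
      intro j
      have hj := hs j
      have h2 := ni_tor (μ := μ) (L := L) (m := s j + 1) (by omega) hk h q hβ hδ (n := n)
        (by omega) t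
      rw [hF1, hF2, hF3, hψ]
      exact h2
    have h2 := ((((hl F1 c1).const_mul (t ^ 2)).sub ((hl F2 c2).const_mul (2 * t))).add (hl F3 c3))
    have h3 := ge_of_tendsto' h2 h1
    linarith
  have h4 := Pool.Agent.H906R3.YM.sq_le_of_forall key
  rw [neg_sq] at h4
  linarith

/-- **lower bound for two strings at distance `R`** -/
theorem bb_lower (hk : 0 < k) (h : Dirs dr τ τ0) (q : ℝ) {δ : ℝ} (hβ : 0 < β)
    (hδ : δ ^ 2 = 1 / β) (n R : ℕ) {M' : ℝ} (hM : 0 < M') (hMM : Mo (k := k) h.t hE q δ n ≤ M') :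
    (mo (k := k) h.t hE q n / M') ^ R * mo (k := k) h.t hE q n ≤ bb (k := k) hE h q n R := by
  have h1 := ni hE hk h q hβ hδ n
  have h2 := bb_nonneg (k := k) hE hβ.le h q n 1
  have h0 := bb_nonneg (k := k) hE hβ.le h q n 0
  rw [bb_zero] at h0
  have h3 : mo (k := k) h.t hE q n ^ 2 ≤ bb (k := k) hE h q n 1 * M' :=
    h1.trans (mul_le_mul_of_nonneg_left hMM h2)
  have h4 := lc_lower (c := fun R => bb (k := k) hE h q n R)
    (fun R => bb_nonneg (k := k) hE hβ.le h q n R) (fun R => bb_lc (k := k) hE hβ.le h q n R)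
    (r := mo (k := k) h.t hE q n / M') (div_nonneg h0 hM.le) (by
      rw [bb_zero, div_mul_eq_mul_div, div_le_iff₀ hM, ← pow_two]
      exact h3) R
  rw [bb_zero] at h4
  exact h4

end

end Pool.Agent.N985
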