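import Mathlib
import Pool.Agent.N985.NI2
import Pool.Agent.R990.Lim2

/-!
# Lines and rectangles in the infinite volume
-/

open MeasureTheory Matrix Filter
open scoped Matrix.Norms.Frobenius ContDiff Topology
open Pool.Agent.H906R3.YM hiding Pl
open Pool.Agent.W793.YM Pool.Agent.TH618.YM Pool.Agent.Y14 Pool.Agent.R990

namespace Pool.Agent.N985

set_option linter.unusedSectionVars false
set_option linter.unusedVariables false

noncomputable section

section lines

variable {d : ℕ} {G : Type*} [Group G]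

/-- products along lines -/
def pz (V : Ez d → G) (i : Fin d) : ℕ → (Fin d → ℤ) → G
  | 0, _ => 1
  | k + 1, x => V (x, i) * pz V i k (x + ez i)

lemma pz_zero (V : Ez d → G) (i : Fin d) (x : Fin d → ℤ) : pz V i 0 x = 1 := rfl

lemma pz_succ (V : Ez d → G) (i : Fin d) (k : ℕ) (x : Fin d → ℤ) :
    pz V i (k + 1) x = V (x, i) * pz V i k (x + ez i) := rfl

lemma sg_succ (i : Fin d) (k : ℕ) :
    (Pi.single i ((k + 1 : ℕ) : ℤ) : Fin d → ℤ) = ez i + Pi.single i (k : ℤ) := by
  rw [← Pi.single_add]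
  congr 1
  push_cast
  ring

lemma sg_add (i : Fin d) (a b : ℕ) :
    (Pi.single i ((a + b : ℕ) : ℤ) : Fin d → ℤ) = Pi.single i (a : ℤ) + Pi.single i (b : ℤ) := by
  rw [← Pi.single_add]
  congr 1

lemma pz_add (V : Ez d → G) (i : Fin d) (a b : ℕ) (x : Fin d → ℤ) :
    pz V i (a + b) x = pz V i a x * pz V i b (x + Pi.single i (a : ℤ)) := by
  induction a generalizing x with
  | zero => simp [pz_zero]
  | succ a ih =>
    have h1 : a + 1 + b = (a + b) + 1 := by omega
    rw [h1, pz_succ, pz_succ, ih, mul_assoc, sg_succ, add_assoc]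

lemma pz_lf {l : ℕ} (U : Ed d l → G) (i : Fin d) (k : ℕ) (x : Fin d → ℤ) :
    pz (lf U) i k x = ln U i k (W793.YM.zt l x) := by
  induction k generalizing x with
  | zero => rfl
  | succ k ih =>
    rw [ln_succ, pz_succ, ih, W793.YM.zt_add]
    rfl

lemma pz_sh (z : Fin d → ℤ) (V : Ez d → G) (i : Fin d) (k : ℕ) (x : Fin d → ℤ) :
    pz (sh z V) i k x = pz V i k (x + z) := by
  induction k generalizing x with
  | zero => rfl
  | succ k ih =>
    rw [pz_succ, pz_succ, ih]
    unfold sh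
    simp only
    rw [add_right_comm]

lemma pz_gz (γ : (Fin d → ℤ) → G) (V : Ez d → G) (i : Fin d) (k : ℕ) (x : Fin d → ℤ) :
    pz (gz γ V) i k x = γ x * pz V i k x * (γ (x + Pi.single i (k : ℤ)))⁻¹ := by
  induction k generalizing x with
  | zero => simp [pz_zero]
  | succ k ih =>
    rw [pz_succ, pz_succ, ih]
    have e1 : gz γ V (x, i) = γ x * V (x, i) * (γ (x + ez i))⁻¹ := rfl
    rw [e1, sg_succ, ← add_assoc]
    group

lemma pz_dep {i τ : Fin d} (hi : i ≠ τ) (k : ℕ) {x : Fin d → ℤ} (hx : x τ = 0) :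
    Dep (HP τ) fun V : Ez d → G => pz V i k x := by
  intro V V' h
  show pz V i k x = pz V' i k x
  induction k generalizing x with
  | zero => rfl
  | succ k ih =>
    rw [pz_succ, pz_succ, h (x, i) ⟨hi, hx⟩, ih]
    rw [Pi.add_apply, ez_ne hi.symm, add_zero, hx]

lemma zt_sg {l : ℕ} (x : Fin d → ℤ) (i : Fin d) (k : ℕ) :
    W793.YM.zt l (x + Pi.single i (k : ℤ)) = W793.YM.zt l x + k • eT i := by
  funext j
  unfold W793.YM.zt eT
  by_cases h : j = i
  · subst h; simp
  · simp [h]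

end lines

variable {G : Type*} [Group G] [TopologicalSpace G] [IsTopologicalGroup G] [CompactSpace G]
  [SecondCountableTopology G] [MeasurableSpace G] [BorelSpace G] {μ : Measure G}
  [IsProbabilityMeasure μ] [μ.IsMulLeftInvariant] [μ.IsMulRightInvariant] [μ.IsInvInvariant]
  {N n : ℕ} {L : LD G N n} {d : ℕ} {β : ℝ} {E : ((Ez d → G) → ℝ) → ℝ}

lemma pz_cont (i : Fin d) (k : ℕ) (x : Fin d → ℤ) : Continuous fun V : Ez d → G => pz V i k x := by
  induction k generalizing x with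
  | zero => exact continuous_const
  | succ k ih => exact (continuous_apply _).mul (ih _)

variable (L) in
/-- the defect of a rectangle -/
def rz (x : Fin d → ℤ) (i j : Fin d) (a b : ℕ) (V : Ez d → G) : ℝ :=
  dd L (pz V i a x * pz V j b (x + Pi.single i (a : ℤ)))
    (pz V j b x * pz V i a (x + Pi.single j (b : ℤ)))

lemma rz_cont (x : Fin d → ℤ) (i j : Fin d) (a b : ℕ) : Continuous (rz L x i j a b) :=
  dd_cont ((pz_cont _ _ _).mul (pz_cont _ _ _)) ((pz_cont _ _ _).mul (pz_cont _ _ _))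

lemma rz_lf {l : ℕ} (x : Fin d → ℤ) (i j : Fin d) (a b : ℕ) (U : Ed d l → G) :
    rz L x i j a b (lf U) = dv L (rect U (W793.YM.zt l x) i j a b) := by
  unfold rz
  rw [dd_dv, pz_lf, pz_lf, pz_lf, pz_lf, zt_sg, zt_sg]
  congr 1
  unfold rect
  group

lemma rz_swap (x : Fin d → ℤ) (i j : Fin d) (a b : ℕ) (V : Ez d → G) :
    rz L x i j a b V = rz L x j i b a V := by
  unfold rz
  rw [dd_comm]

/-- **the mean square of the defects of the rectangles** -/
theorem rz_bound (hE : IV μ L β E) (hd : 4 ≤ d) (hN : 1 ≤ N) (hβ : 0 < β) {i j : Fin d}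
    (hij : i ≠ j) {a b M : ℕ} (ha : a ≤ M) (hb : b ≤ M) (x : Fin d → ℤ) :
    E (fun V => rz L x i j a b V ^ 2) ≤ 900000000 * N ^ 2 * M / β := by
  have key : ∀ (i j : Fin d), i ≠ j → ∀ a b : ℕ, b ≤ a → a ≤ M →
      E (fun V => rz L x i j a b V ^ 2) ≤ 900000000 * N ^ 2 * M / β := by
    intro i j hij a b hab haM
    obtain ⟨s, hs, hl⟩ := hE.ev (2 * a + 2)
    have hc : Continuous fun V => rz L x i j a b V ^ 2 := (rz_cont x i j a b).pow 2
    refine le_of_tendsto' (hl _ hc) fun m => ?_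
    have hm := hs m
    have h1 := RB2_all μ (L := L) (m := s m + 1) hd hN (by omega) hβ b i j hij a b
      (Nat.lt_two_pow_self).le hab (by omega)
    have h3 := pow_le_pow_left₀ (rc_nonneg μ (L := L) (l := 2 * (s m + 1)) β i j a b) h1 2
    have h4 : EX μ L β (fun U : Ed d (2 * (s m + 1)) → G => rz L x i j a b (lf U) ^ 2) =
        rc μ L (2 * (s m + 1)) β i j a b ^ 2 := by
      have h5 := en_rect μ (L := L) β i j a b (W793.YM.zt (2 * (s m + 1)) x)
      rw [← h5, en_sq]
      simp only [rz_lf]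
    rw [h4]
    refine h3.trans ?_
    rw [mul_pow, Real.sq_sqrt (div_nonneg (Nat.cast_nonneg a) hβ.le)]
    have h6 : (a : ℝ) ≤ M := by exact_mod_cast haM
    have h7 : (a : ℝ) / β ≤ M / β := div_le_div_of_nonneg_right h6 hβ.le
    have h8 := mul_le_mul_of_nonneg_left h7 (sq_nonneg (30000 * (N : ℝ)))
    refine h8.trans (le_of_eq ?_)
    ring
  rcases le_total b a with h | h
  · exact key i j hij a b h ha
  · simp only [rz_swap x i j a b]
    exact key j i hij.symm b a h hb

/-! ### the norm of `L²` -/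

section nE

variable {W : Type*} [NormedAddCommGroup W] [NormedSpace ℝ W]

/-- the norm of `L²` -/
def nE (E : ((Ez d → G) → ℝ) → ℝ) (F : (Ez d → G) → W) : ℝ := Real.sqrt (E fun V => ‖F V‖ ^ 2)

lemma nE_nonneg (F : (Ez d → G) → W) : 0 ≤ nE E F := Real.sqrt_nonneg _

lemma nE_sq (hE : IV μ L β E) {F : (Ez d → G) → W} (hF : Continuous F) :
    nE E F ^ 2 = E fun V => ‖F V‖ ^ 2 := by
  refine Real.sq_sqrt ?_
  have h1 := hE.mono (F := fun _ => (0 : ℝ)) (H := fun V => ‖F V‖ ^ 2) continuous_const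
    (hF.norm.pow 2) (fun V => sq_nonneg _)
  rwa [hE.const] at h1

lemma nE_congr {F : (Ez d → G) → W} {W' : Type*} [NormedAddCommGroup W'] {H : (Ez d → G) → W'}
    (h : ∀ V, ‖F V‖ = ‖H V‖) : nE E F = Real.sqrt (E fun V => ‖H V‖ ^ 2) := by
  unfold nE
  simp only [h]

lemma nE_mono (hE : IV μ L β E) {W' : Type*} [NormedAddCommGroup W'] [NormedSpace ℝ W']
    {F : (Ez d → G) → W} {H : (Ez d → G) → W'} (hF : Continuous F) (hH : Continuous H)
    (h : ∀ V, ‖F V‖ ≤ ‖H V‖) : nE E F ≤ nE E H := by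
  unfold nE
  exact Real.sqrt_le_sqrt (hE.mono (hF.norm.pow 2) (hH.norm.pow 2) fun V =>
    pow_le_pow_left₀ (norm_nonneg _) (h V) 2)

lemma nE_smul (hE : IV μ L β E) {c : ℝ} (hc : 0 ≤ c) {F : (Ez d → G) → W} (hF : Continuous F) :
    nE E (fun V => c • F V) = c * nE E F := by
  unfold nE
  have h : (fun V => ‖c • F V‖ ^ 2) = fun V => c ^ 2 * ‖F V‖ ^ 2 := by
    funext V
    rw [norm_smul, Real.norm_eq_abs, mul_pow, sq_abs]
  have c1 : Continuous fun V => ‖F V‖ ^ 2 := hF.norm.pow 2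
  rw [h, hE.smul _ c1, Real.sqrt_mul (sq_nonneg _), Real.sqrt_sq hc]

lemma nE_shift (hE : IV μ L β E) (z : Fin d → ℤ) {F : (Ez d → G) → W} (hF : Continuous F) :
    nE E (fun V => F (sh z V)) = nE E F := by
  unfold nE
  have c1 : Continuous fun V => ‖F V‖ ^ 2 := hF.norm.pow 2
  rw [← hE.shift z c1]

/-- Cauchy-Schwarz inequality -/
lemma E_cs (hE : IV μ L β E) {f g : (Ez d → G) → ℝ} (hf : Continuous f) (hg : Continuous g) :
    E (fun V => f V * g V) ≤ Real.sqrt (E fun V => f V ^ 2) * Real.sqrt (E fun V => g V ^ 2) := by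
  have cff : Continuous fun V => f V ^ 2 := hf.pow 2
  have cgg : Continuous fun V => g V ^ 2 := hg.pow 2
  have cfg : Continuous fun V => f V * g V := hf.mul hg
  have h0 : ∀ t : ℝ, 0 ≤ E (fun V => f V ^ 2) + 2 * t * E (fun V => f V * g V) +
      t ^ 2 * E (fun V => g V ^ 2) := by
    intro t
    have c1 : Continuous fun V => 2 * t * (f V * g V) := continuous_const.mul cfg
    have c2 : Continuous fun V => t ^ 2 * g V ^ 2 := continuous_const.mul cgg
    have c12 : Continuous fun V => f V ^ 2 + 2 * t * (f V * g V) := cff.add c1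
    have e1 : E (fun V => f V ^ 2) + 2 * t * E (fun V => f V * g V) +
        t ^ 2 * E (fun V => g V ^ 2) = E (fun V => (f V ^ 2 + 2 * t * (f V * g V)) +
          t ^ 2 * g V ^ 2) := by
      rw [hE.add c12 c2, hE.add cff c1, hE.smul _ cfg, hE.smul _ cgg]
    rw [e1]
    have h1 := hE.mono (F := fun _ => (0 : ℝ)) (H := fun V => (f V ^ 2 + 2 * t * (f V * g V)) +
          t ^ 2 * g V ^ 2) continuous_const (c12.add c2) (fun V => by
        have : (f V ^ 2 + 2 * t * (f V * g V)) + t ^ 2 * g V ^ 2 = (f V + t * g V) ^ 2 := by ring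
        rw [this]
        exact sq_nonneg _)
    rwa [hE.const] at h1
  have h1 := Pool.Agent.H906R3.YM.sq_le_of_forall h0
  have hf0 : 0 ≤ E (fun V => f V ^ 2) := by
    have := h0 0
    simpa using this
  have h2 : |E (fun V => f V * g V)| ≤ Real.sqrt (E (fun V => f V ^ 2) * E (fun V => g V ^ 2)) :=
    Real.abs_le_sqrt h1
  rw [Real.sqrt_mul hf0] at h2
  exact (le_abs_self _).trans h2

lemma nE_add (hE : IV μ L β E) {F H : (Ez d → G) → W} (hF : Continuous F) (hH : Continuous H) :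
    nE E (fun V => F V + H V) ≤ nE E F + nE E H := by
  have cF : Continuous fun V => ‖F V‖ ^ 2 := hF.norm.pow 2
  have cH : Continuous fun V => ‖H V‖ ^ 2 := hH.norm.pow 2
  have cFH : Continuous fun V => ‖F V‖ * ‖H V‖ := hF.norm.mul hH.norm
  have c2 : Continuous fun V => 2 * (‖F V‖ * ‖H V‖) := continuous_const.mul cFH
  have c12 : Continuous fun V => ‖F V‖ ^ 2 + 2 * (‖F V‖ * ‖H V‖) := cF.add c2
  have h1 : E (fun V => ‖F V + H V‖ ^ 2) ≤
      E (fun V => (‖F V‖ ^ 2 + 2 * (‖F V‖ * ‖H V‖)) + ‖H V‖ ^ 2) := by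
    refine hE.mono ((hF.add hH).norm.pow 2) (c12.add cH) fun V => ?_
    have h2 := norm_add_le (F V) (H V)
    have h3 := norm_nonneg (F V + H V)
    have h4 := pow_le_pow_left₀ h3 h2 2
    linarith
  rw [hE.add c12 cH, hE.add cF c2, hE.smul _ cFH] at h1
  have h3 := E_cs hE hF.norm hH.norm
  have h4 : nE E (fun V => F V + H V) ^ 2 ≤ (nE E F + nE E H) ^ 2 := by
    have c3 : Continuous fun V => F V + H V := hF.add hH
    rw [nE_sq hE c3]
    have e1 := nE_sq hE hF
    have e2 := nE_sq hE hH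
    have e3 : (nE E F + nE E H) ^ 2 = nE E F ^ 2 + 2 * (nE E F * nE E H) + nE E H ^ 2 := by ring
    rw [e3, e1, e2]
    have h5 : E (fun V => ‖F V‖ * ‖H V‖) ≤ nE E F * nE E H := h3
    linarith
  exact (pow_le_pow_iff_left₀ (nE_nonneg _) (add_nonneg (nE_nonneg _) (nE_nonneg _))
    two_ne_zero).1 h4

lemma nE_neg (F : (Ez d → G) → W) : nE E (fun V => -F V) = nE E F := by
  unfold nE
  simp only [norm_neg]

lemma nE_sub_comm (F H : (Ez d → G) → W) :
    nE E (fun V => F V - H V) = nE E (fun V => H V - F V) := by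
  unfold nE
  simp only [norm_sub_rev]

lemma nE_tri (hE : IV μ L β E) {F H K : (Ez d → G) → W} (hF : Continuous F) (hH : Continuous H)
    (hK : Continuous K) : nE E (fun V => F V - K V) ≤
      nE E (fun V => F V - H V) + nE E (fun V => H V - K V) := by
  have h1 := nE_add hE (hF.sub hH) (hH.sub hK)
  have e : (fun V => F V - H V + (H V - K V)) = fun V => F V - K V := by
    funext V; abel
  simp only [Pi.sub_apply] at h1
  rw [e] at h1
  exact h1

lemma nE_le_of_sq (hE : IV μ L β E) {F : (Ez d → G) → W} (hF : Continuous F) {r : ℝ}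
    (hr : 0 ≤ r) (h : E (fun V => ‖F V‖ ^ 2) ≤ r ^ 2) : nE E F ≤ r := by
  unfold nE
  exact Real.sqrt_le_iff.2 ⟨hr, h⟩

end nE

end

end Pool.Agent.N985
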