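import Mathlib
import Pool.Agent.N985.Coh1

/-!
# Coherent states
-/

open MeasureTheory Matrix Filter
open scoped Matrix.Norms.Frobenius ContDiff Topology
open Pool.Agent.H906R3.YM hiding Pl
open Pool.Agent.W793.YM Pool.Agent.TH618.YM Pool.Agent.Y14 Pool.Agent.R990

namespace Pool.Agent.N985

set_option linter.unusedSectionVars false
set_option linter.unusedVariables false

noncomputable section

variable {G : Type*} [Group G] [TopologicalSpace G] [IsTopologicalGroup G] [CompactSpace G]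
  [SecondCountableTopology G] [MeasurableSpace G] [BorelSpace G] {μ : Measure G}
  [IsProbabilityMeasure μ] [μ.IsMulLeftInvariant] [μ.IsMulRightInvariant] [μ.IsInvInvariant]
  {N n : ℕ} {L : LD G N n} {d : ℕ} {β : ℝ} {E : ((Ez d → G) → ℝ) → ℝ}
  {k : ℕ} {dr : Bool → Fin d} {τ : Fin d}

lemma one_norm_sq : ‖(1 : Mat N)‖ ^ 2 = N := by
  rw [norm_sq_ip, ip_apply, conjTranspose_one, one_mul, trace_one]
  simp

lemma rho_norm_sq (g : G) : ‖L.rho g‖ ^ 2 = N := by
  have h := norm_lmul (L := L) g 1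
  rw [mul_one] at h
  rw [h, one_norm_sq]

/-- the path from the origin to a point of the box -/
def fz (dr : Bool → Fin d) (V : Ez d → G) (u : Bx k) : G :=
  pz V (dr true) u.2 0 * pz V (dr false) u.1 (Pi.single (dr true) ((u.2 : ℕ) : ℤ))

/-- the other path from the origin to a point of the box -/
def fz' (dr : Bool → Fin d) (V : Ez d → G) (u : Bx k) : G :=
  pz V (dr false) u.1 0 * pz V (dr true) u.2 (Pi.single (dr false) ((u.1 : ℕ) : ℤ))

lemma fz_cont (u : Bx k) : Continuous fun V : Ez d → G => fz dr V u :=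
  (pz_cont _ _ _).mul (pz_cont _ _ _)

lemma fz_gz (γ : (Fin d → ℤ) → G) (V : Ez d → G) (u : Bx k) :
    fz dr (gz γ V) u = γ 0 * fz dr V u * (γ (ps dr u))⁻¹ := by
  unfold fz
  rw [pz_gz, pz_gz, zero_add]
  have e : (Pi.single (dr true) ((u.2 : ℕ) : ℤ) + Pi.single (dr false) ((u.1 : ℕ) : ℤ) :
      Fin d → ℤ) = ps dr u := add_comm _ _
  rw [e]
  group

lemma fz_dep (hτ : ∀ i, dr i ≠ τ) (u : Bx k) : Dep (HP τ) fun V : Ez d → G => fz dr V u := by
  intro V V' h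
  show fz dr V u = fz dr V' u
  unfold fz
  have h1 := pz_dep (hτ true) (u.2 : ℕ) (x := 0) rfl V V' h
  have h2 := pz_dep (hτ false) (u.1 : ℕ) (x := Pi.single (dr true) ((u.2 : ℕ) : ℤ))
    (Pi.single_eq_of_ne (hτ true).symm _) V V' h
  simp only at h1 h2
  rw [h1, h2]

variable (L) in
/-- the projection on the coherent states -/
def Ph (dr : Bool → Fin d) (V : Ez d → G) : Mb (Bx k) N :=
  Matrix.of fun u v => L.rho ((fz dr V u)⁻¹ * fz dr V v)

lemma Ph_apply (V : Ez d → G) (u v : Bx k) :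
    Ph L dr V u v = L.rho ((fz dr V u)⁻¹ * fz dr V v) := rfl

lemma Ph_ct (V : Ez d → G) : (Ph L dr V : Mb (Bx k) N)ᴴ = Ph L dr V := by
  ext1 u v
  rw [Matrix.conjTranspose_apply, Ph_apply, Ph_apply, star_eq_conjTranspose, ← L.rho_inv]
  congr 1
  group

lemma Ph_left (V : Ez d → G) {X : Mb (Bx k) N} {g : G} {h : Bx k → G}
    (hX : ∀ u v, X u v = L.rho ((fz dr V u)⁻¹ * g * h v)) :
    Ph L dr V * X = ((k : ℝ) ^ 2) • X := by
  ext1 u v
  rw [Matrix.mul_apply, Matrix.smul_apply, hX u v]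
  have h1 : ∀ w, Ph L dr V u w * X w v = L.rho ((fz dr V u)⁻¹ * g * h v) := by
    intro w
    rw [hX w v, Ph_apply, ← map_mul]
    congr 1
    group
  simp only [h1]
  rw [Finset.sum_const, Finset.card_univ, Fintype.card_prod, Fintype.card_fin,
    ← Nat.cast_smul_eq_nsmul ℝ]
  congr 1
  push_cast
  ring

lemma Ph_sq (V : Ez d → G) : (Ph L dr V : Mb (Bx k) N) * Ph L dr V = ((k : ℝ) ^ 2) • Ph L dr V :=
  Ph_left V (g := 1) (h := fun v => fz dr V v) fun u v => by rw [Ph_apply, mul_one]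

lemma Ph_norm (V : Ez d → G) (X : Mb (Bx k) N) : ‖Ph L dr V * X‖ ≤ (k : ℝ) ^ 2 * ‖X‖ := by
  have hk : (0 : ℝ) ≤ (k : ℝ) ^ 2 := sq_nonneg _
  have h1 : ‖Ph L dr V * X‖ ^ 2 ≤ (k : ℝ) ^ 2 * ‖X‖ * ‖Ph L dr V * X‖ := by
    rw [nb_eq, ipb_mul_left, Ph_ct, ← Matrix.mul_assoc, Ph_sq, smul_mul_assoc, ipb_smul_right,
      mul_assoc]
    exact mul_le_mul_of_nonneg_left (ipb_le _ _) hk
  by_contra hlt
  push Not at hlt
  have h2 : 0 ≤ (k : ℝ) ^ 2 * ‖X‖ := mul_nonneg hk (norm_nonneg _)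
  have h3 : 0 < ‖Ph L dr V * X‖ := lt_of_le_of_lt h2 hlt
  nlinarith

lemma Ph_norm' (V : Ez d → G) (X : Mb (Bx k) N) : ‖X * Ph L dr V‖ ≤ (k : ℝ) ^ 2 * ‖X‖ := by
  have e : X * Ph L dr V = (Ph L dr V * Xᴴ)ᴴ := by
    rw [Matrix.conjTranspose_mul, Matrix.conjTranspose_conjTranspose, Ph_ct]
  rw [e, norm_ctb, ← norm_ctb X]
  exact Ph_norm V _

lemma Ph_cont : Continuous fun V : Ez d → G => (Ph L dr V : Mb (Bx k) N) := by
  refine continuous_matrix fun u v => ?_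
  exact L.cont.comp ((fz_cont u).inv.mul (fz_cont v))

lemma unit_mb {X : Mb (Bx k) N} {g : Bx k → Bx k → G} (h : ∀ u v, X u v = L.rho (g u v)) :
    ‖X‖ ^ 2 = (k : ℝ) ^ 4 * N := by
  rw [nb_sum]
  simp only [h, rho_norm_sq]
  rw [Finset.sum_const, Finset.sum_const, Finset.card_univ, Fintype.card_prod, Fintype.card_fin,
    nsmul_eq_mul, nsmul_eq_mul]
  push_cast
  ring

lemma HP_HS' {α : Type*} {F : (Ez d → G) → α} (hF : Dep (HP τ) F) (h : ℕ) : Dep (HS τ h) F :=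
  fun V V' hV => hF _ _ fun e he => hV e ⟨he.2.ge, by rw [he.2]; positivity⟩

/-- the coherent states as observables -/
def Pho (hτ : ∀ i, dr i ≠ τ) : OK L k τ dr := ⟨fun V => Ph L dr V, Ph_cont, ⟨0, by
    refine HP_HS' (F := fun V => Ph L dr V) (fun V V' h => ?_) 0
    show Ph L dr V = Ph L dr V'
    ext1 u v
    rw [Ph_apply, Ph_apply]
    have h1 : fz dr V u = fz dr V' u := fz_dep hτ u V V' h
    have h2 : fz dr V v = fz dr V' v := fz_dep hτ v V V' h
    rw [h1, h2]⟩, fun γ V u v => by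
    show L.rho ((fz dr (gz γ V) u)⁻¹ * fz dr (gz γ V) v) =
      L.rho (γ (ps dr u)) * L.rho ((fz dr V u)⁻¹ * fz dr V v) * (L.rho (γ (ps dr v)))ᴴ
    rw [fz_gz, fz_gz, ← L.rho_inv, ← map_mul, ← map_mul]
    congr 1
    group⟩

lemma Pho_apply (hτ : ∀ i, dr i ≠ τ) (V : Ez d → G) :
    (Pho (L := L) (k := k) hτ).1 V = Ph L dr V := rfl

variable (L) in
/-- the transported coherent states -/
def Om (dr : Bool → Fin d) (τ : Fin d) (n : ℕ) (V : Ez d → G) : Mb (Bx k) N :=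
  Matrix.of fun u v => L.rho ((fz dr V u)⁻¹ * pz V τ n 0 * fz dr (sh (Pi.single τ (n : ℤ)) V) v)

lemma Om_apply (n : ℕ) (V : Ez d → G) (u v : Bx k) : Om L dr τ n V u v =
    L.rho ((fz dr V u)⁻¹ * pz V τ n 0 * fz dr (sh (Pi.single τ (n : ℤ)) V) v) := rfl

lemma Om_cont (n : ℕ) : Continuous fun V : Ez d → G => (Om L dr τ n V : Mb (Bx k) N) := by
  refine continuous_matrix fun u v => ?_
  exact L.cont.comp (((fz_cont u).inv.mul (pz_cont _ _ _)).mul ((fz_cont v).comp (sh_cont _)))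

lemma Ph_Om (n : ℕ) (V : Ez d → G) :
    Ph L dr V * (Om L dr τ n V : Mb (Bx k) N) = ((k : ℝ) ^ 2) • Om L dr τ n V :=
  Ph_left V fun u v => Om_apply n V u v

lemma Om_norm (n : ℕ) (V : Ez d → G) : ‖(Om L dr τ n V : Mb (Bx k) N)‖ ^ 2 = (k : ℝ) ^ 4 * N :=
  unit_mb fun u v => Om_apply n V u v

variable (L) in
/-- the straight transports -/
def Sg (dr : Bool → Fin d) (τ : Fin d) (n : ℕ) (V : Ez d → G) : Mb (Bx k) N :=
  Gd fun u => L.rho (pz V τ n (ps dr u))

variable (L) in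
/-- the transports of the coherent states -/
def Xs (dr : Bool → Fin d) (τ : Fin d) (n : ℕ) (V : Ez d → G) : Mb (Bx k) N :=
  Sg L dr τ n V * Ph L dr (sh (Pi.single τ (n : ℤ)) V)

lemma Xs_apply (n : ℕ) (V : Ez d → G) (u v : Bx k) : Xs L dr τ n V u v =
    L.rho (pz V τ n (ps dr u)) * L.rho ((fz dr (sh (Pi.single τ (n : ℤ)) V) u)⁻¹ *
      fz dr (sh (Pi.single τ (n : ℤ)) V) v) := by
  unfold Xs Sg
  rw [Gd_mul, Ph_apply]

lemma Gd_cont {X : Type*} [TopologicalSpace X] {g : X → Bx k → Mat N}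
    (hg : ∀ u, Continuous fun x => g x u) : Continuous fun x => Gd (g x) := by
  refine continuous_matrix fun u v => ?_
  unfold Gd
  simp only [Matrix.diagonal_apply]
  split_ifs
  · exact hg _
  · exact continuous_const

lemma Xs_cont (n : ℕ) : Continuous fun V : Ez d → G => (Xs L dr τ n V : Mb (Bx k) N) :=
  mb_mul_cont (Gd_cont fun u => L.cont.comp (pz_cont _ _ _)) (Ph_cont.comp (sh_cont _))

lemma Xs_Om (n : ℕ) (V : Ez d → G) (u v : Bx k) :
    ‖Xs L dr τ n V u v - Om L dr τ n V u v‖ ≤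
      rz L (Pi.single (dr true) ((u.2 : ℕ) : ℤ)) (dr false) τ u.1 n V +
        rz L 0 (dr true) τ u.2 n V := by
  obtain ⟨f', hf'⟩ : ∃ f' : Bx k → G, f' = fz dr (sh (Pi.single τ (n : ℤ)) V) := ⟨_, rfl⟩
  obtain ⟨f, hf⟩ : ∃ f : Bx k → G, f = fz dr V := ⟨_, rfl⟩
  have e1 : ‖Xs L dr τ n V u v - Om L dr τ n V u v‖ =
      dd L (f u * pz V τ n (ps dr u)) (pz V τ n 0 * f' u) := by
    rw [Xs_apply, Om_apply, ← hf', ← hf, ← map_mul]
    show dd L _ _ = _
    rw [← dd_lmul (f u), ← dd_rmul ((f' v)⁻¹ * f' u)]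
    congr 1
    · group
    · group
  have e2 : pz V τ n 0 * f' u = pz V τ n 0 *
      pz V (dr true) u.2 (0 + Pi.single τ (n : ℤ)) *
        pz V (dr false) u.1 (Pi.single (dr true) ((u.2 : ℕ) : ℤ) + Pi.single τ (n : ℤ)) := by
    rw [hf']
    unfold fz
    rw [pz_sh, pz_sh, mul_assoc]
  have e3 : f u * pz V τ n (ps dr u) = pz V (dr true) u.2 0 *
      (pz V (dr false) u.1 (Pi.single (dr true) ((u.2 : ℕ) : ℤ)) *
        pz V τ n (Pi.single (dr true) ((u.2 : ℕ) : ℤ) + Pi.single (dr false) ((u.1 : ℕ) : ℤ))) := by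
    rw [hf]
    unfold fz
    have e : (Pi.single (dr true) ((u.2 : ℕ) : ℤ) + Pi.single (dr false) ((u.1 : ℕ) : ℤ) :
      Fin d → ℤ) = ps dr u := add_comm _ _
    rw [e, mul_assoc]
  rw [e1, e2, e3]
  refine (dd_tri _ (pz V (dr true) u.2 0 *
      (pz V τ n (Pi.single (dr true) ((u.2 : ℕ) : ℤ)) *
        pz V (dr false) u.1 (Pi.single (dr true) ((u.2 : ℕ) : ℤ) + Pi.single τ (n : ℤ)))) _).trans
    (add_le_add (le_of_eq ?_) (le_of_eq ?_))
  · rw [dd_lmul]
    rfl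
  · rw [← mul_assoc, dd_rmul]
    unfold rz
    rw [zero_add, zero_add]

/-- the products along the lines of the box -/
lemma Wl_pz (V : Ez d → G) (i : Bool) (o : Fin k) (a n : ℕ) (h : a + n ≤ k) :
    Wl (zV L dr V) i o a n = L.rho (pz V (dr i) n
      (Pi.single (dr i) (a : ℤ) + Pi.single (dr !i) ((o : ℕ) : ℤ))) := by
  induction n generalizing a with
  | zero => rw [Wl_zero, pz_zero, map_one]
  | succ n ih =>
    have ha : a < k := by omega
    rw [Wl_succ, ih (a + 1) (by omega), pz_succ, map_mul]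
    congr 1
    · unfold zt zV
      rw [dif_pos ha, ps_eq]
    · rw [sg_succ, add_comm (ez (dr i)), add_right_comm]

lemma hol_pz (V : Ez d → G) (i : Bool) (o a b : Fin k) :
    hol (zV L dr V) i o a b = L.rho ((pz V (dr i) a (Pi.single (dr !i) ((o : ℕ) : ℤ)))⁻¹ *
      pz V (dr i) b (Pi.single (dr !i) ((o : ℕ) : ℤ))) := by
  rw [hol_pre (zV_unit V), Wl_pz V i o 0 a (by omega), Wl_pz V i o 0 b (by omega), ← L.rho_inv,
    ← map_mul]
  simp only [Nat.cast_zero, Pi.single_zero, zero_add]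

/-- the hops in the direction of the last part of the path are exact -/
lemma Pf_Om (n : ℕ) (V : Ez d → G) :
    Pm (zV L dr V) false * (Om L dr τ n V : Mb (Bx k) N) = Om L dr τ n V := by
  ext1 u v
  have hk : (k : ℝ) ≠ 0 := by
    have := u.1.pos
    exact_mod_cast this.ne'
  unfold Pm
  rw [lop_mul]
  have h1 : ∀ a : Fin k, hol (zV L dr V) false (oc false u) (ac false u)
      (ac false (mkp false a (oc false u))) * Om L dr τ n V (mkp false a (oc false u)) v =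
      Om L dr τ n V u v := by
    intro a
    rw [ac_mkp, hol_pz, Om_apply, Om_apply, ← map_mul]
    congr 1
    show (pz V (dr false) u.1 (Pi.single (dr true) ((u.2 : ℕ) : ℤ)))⁻¹ *
      pz V (dr false) a (Pi.single (dr true) ((u.2 : ℕ) : ℤ)) *
      ((pz V (dr true) u.2 0 * pz V (dr false) a (Pi.single (dr true) ((u.2 : ℕ) : ℤ)))⁻¹ *
        pz V τ n 0 * fz dr (sh (Pi.single τ (n : ℤ)) V) v) =
      (pz V (dr true) u.2 0 * pz V (dr false) u.1 (Pi.single (dr true) ((u.2 : ℕ) : ℤ)))⁻¹ *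
        pz V τ n 0 * fz dr (sh (Pi.single τ (n : ℤ)) V) v
    group
  simp only [h1]
  rw [Finset.sum_const, Finset.card_univ, Fintype.card_fin, ← Nat.cast_smul_eq_nsmul ℝ,
    smul_smul, inv_mul_cancel₀ hk, one_smul]

/-- the hops in the other direction -/
lemma Pt_Om (n : ℕ) (V : Ez d → G) (u v : Bx k) :
    (Pm (zV L dr V) true * Om L dr τ n V : Mb (Bx k) N) u v - Om L dr τ n V u v =
      (k : ℝ)⁻¹ • ∑ a : Fin k, (hol (zV L dr V) true u.1 u.2 a * Om L dr τ n V (u.1, a) v -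
        Om L dr τ n V u v) := by
  have hk : (k : ℝ) ≠ 0 := by
    have := u.1.pos
    exact_mod_cast this.ne'
  unfold Pm
  rw [lop_mul, Finset.sum_sub_distrib, smul_sub, Finset.sum_const, Finset.card_univ,
    Fintype.card_fin, ← Nat.cast_smul_eq_nsmul ℝ, smul_smul, inv_mul_cancel₀ hk, one_smul]
  rfl

lemma Pt_Om' (n : ℕ) (V : Ez d → G) (u v : Bx k) (a : Fin k) :
    ‖hol (zV L dr V) true u.1 u.2 a * (Om L dr τ n V : Mb (Bx k) N) (u.1, a) v -
        Om L dr τ n V u v‖ ≤ rz L 0 (dr true) (dr false) a u.1 V +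
      rz L 0 (dr true) (dr false) u.2 u.1 V := by
  have hr : ∀ w : Bx k, dd L (fz dr V w) (fz' dr V w) = rz L 0 (dr true) (dr false) w.2 w.1 V := by
    intro w
    unfold rz fz fz'
    rw [zero_add, zero_add]
  obtain ⟨w, hw⟩ : ∃ w : Bx k, w = (u.1, a) := ⟨_, rfl⟩
  have e1 : ‖hol (zV L dr V) true u.1 u.2 a * (Om L dr τ n V : Mb (Bx k) N) (u.1, a) v -
        Om L dr τ n V u v‖ = dd L (fz' dr V w * (fz dr V w)⁻¹) (fz' dr V u * (fz dr V u)⁻¹) := by
    rw [hol_pz, Om_apply, Om_apply, ← map_mul, ← hw]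
    show dd L _ _ = _
    rw [← dd_lmul (fz' dr V u),
      ← dd_rmul ((pz V τ n 0 * fz dr (sh (Pi.single τ (n : ℤ)) V) v)⁻¹)]
    congr 1
    · have e2 : fz' dr V w = pz V (dr false) u.1 0 * pz V (dr true) a
          (Pi.single (dr false) ((u.1 : ℕ) : ℤ)) := by rw [hw]; rfl
      have e3 : fz' dr V u = pz V (dr false) u.1 0 * pz V (dr true) u.2
          (Pi.single (dr false) ((u.1 : ℕ) : ℤ)) := rfl
      rw [e2, e3]
      show pz V (dr false) u.1 0 * pz V (dr true) u.2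
          (Pi.single (dr false) ((u.1 : ℕ) : ℤ)) * ((pz V (dr true) u.2
          (Pi.single (dr false) ((u.1 : ℕ) : ℤ)))⁻¹ * pz V (dr true) a
          (Pi.single (dr false) ((u.1 : ℕ) : ℤ)) * _) * _ = _
      group
    · group
  rw [e1]
  have h1 := dd_tri (L := L) (fz' dr V w * (fz dr V w)⁻¹) 1 (fz' dr V u * (fz dr V u)⁻¹)
  have h2 : ∀ w : Bx k, dd L (fz' dr V w * (fz dr V w)⁻¹) 1 =
      rz L 0 (dr true) (dr false) w.2 w.1 V := by
    intro w
    rw [← dd_rmul (fz dr V w), one_mul, ← hr, dd_comm]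
    congr 1
    group
  rw [dd_comm (L := L) 1, h2 u, h2 w, hw] at h1
  rw [hw]
  exact h1

end

end Pool.Agent.N985
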