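import Mathlib
import Pool.Agent.N985.Coh2

/-!
# Coherence of the strings
-/

open MeasureTheory Matrix Filter
open scoped Matrix.Norms.Frobenius ContDiff Topology
open Pool.Agent.H906R3.YM hiding Pl
open Pool.Agent.W793.YM Pool.Agent.TH618.YM Pool.Agent.Y14 Pool.Agent.R990

namespace Pool.Agent.N985

set_option linter.unusedSectionVars false
set_option linter.unusedVariables false

noncomputable section

variable {G : Type*} [Group G] [TopologicalSpace G] [IsTopologicalGroup G] [CompactSpace G]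
  [SecondCountableTopology G] [MeasurableSpace G] [BorelSpace G] {μ : Measure G}
  [IsProbabilityMeasure μ] [μ.IsMulLeftInvariant] [μ.IsMulRightInvariant] [μ.IsInvInvariant]
  {N n : ℕ} {L : LD G N n} {d : ℕ} {β : ℝ} {E : ((Ez d → G) → ℝ) → ℝ}
  {k : ℕ} {dr : Bool → Fin d} {τ : Fin d}

/-- the bound for the defects of the rectangles -/
def rM (N M : ℕ) (β : ℝ) : ℝ := Real.sqrt (900000000 * N ^ 2 * M / β)

lemma rM_nonneg (N M : ℕ) (β : ℝ) : 0 ≤ rM N M β := Real.sqrt_nonneg _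

section

variable (hE : IV μ L β E)
include hE

lemma rz_nE (hd : 4 ≤ d) (hN : 1 ≤ N) (hβ : 0 < β) {i j : Fin d}
    (hij : i ≠ j) {a b M : ℕ} (ha : a ≤ M) (hb : b ≤ M) (x : Fin d → ℤ) :
    nE E (rz L x i j a b) ≤ rM N M β := by
  unfold nE rM
  refine Real.sqrt_le_sqrt ?_
  simp only [Real.norm_eq_abs, sq_abs]
  exact rz_bound hE hd hN hβ hij ha hb x

lemma nE_sum {W : Type*} [NormedAddCommGroup W] [NormedSpace ℝ W] {ι : Type*} (S : Finset ι)
    {F : ι → (Ez d → G) → W} (hF : ∀ i, Continuous (F i)) :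
    nE E (fun V => ∑ i ∈ S, F i V) ≤ ∑ i ∈ S, nE E (F i) := by
  classical
  induction S using Finset.induction_on with
  | empty =>
    simp only [Finset.sum_empty]
    unfold nE
    simp only [norm_zero]
    have h := hE.const 0
    have e : (fun _ : Ez d → G => (0 : ℝ) ^ 2) = fun _ => 0 := by funext V; simp
    rw [e, h, Real.sqrt_zero]
  | insert a S ha ih =>
    simp only [Finset.sum_insert ha]
    refine (nE_add hE (hF a) (continuous_finsetSum _ fun i _ => hF i)).trans ?_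
    exact add_le_add le_rfl ih

lemma nE_mb {X : (Ez d → G) → Mb (Bx k) N} (hX : Continuous X) {r : ℝ} (hr : 0 ≤ r)
    (h : ∀ u v, nE E (fun V => X V u v) ≤ r) : nE E X ≤ (k : ℝ) ^ 2 * r := by
  have hc : ∀ u v, Continuous fun V => X V u v := fun u v =>
    (continuous_apply v).comp ((continuous_apply u).comp hX)
  have hc2 : ∀ u v, Continuous fun V => ‖X V u v‖ ^ 2 := fun u v => (hc u v).norm.pow 2
  refine nE_le_of_sq hE hX (mul_nonneg (sq_nonneg _) hr) ?_
  have e1 : (fun V => ‖X V‖ ^ 2) = fun V => ∑ u, (fun V => ∑ v, ‖X V u v‖ ^ 2) V := by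
    funext V
    rw [nb_sum]
  have hc3 : ∀ u, Continuous fun V => ∑ v, ‖X V u v‖ ^ 2 := fun u =>
    continuous_finsetSum _ fun v _ => hc2 u v
  rw [e1, hE.sum Finset.univ hc3]
  have e2 : ∀ u, E (fun V => ∑ v, ‖X V u v‖ ^ 2) = ∑ v, E (fun V => ‖X V u v‖ ^ 2) := fun u =>
    hE.sum Finset.univ (F := fun v V => ‖X V u v‖ ^ 2) (hc2 u)
  have e3 : ∀ u v, E (fun V => ‖X V u v‖ ^ 2) ≤ r ^ 2 := by
    intro u v
    have h1 : nE E (fun V => X V u v) ^ 2 = E (fun V => ‖X V u v‖ ^ 2) := nE_sq hE (hc u v)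
    rw [← h1]
    exact pow_le_pow_left₀ (nE_nonneg _) (h u v) 2
  have e4 : ∀ u : Bx k, E (fun V => ∑ v, ‖X V u v‖ ^ 2) ≤ (k : ℝ) ^ 2 * r ^ 2 := by
    intro u
    rw [e2]
    refine (Finset.sum_le_sum fun v _ => e3 u v).trans (le_of_eq ?_)
    rw [Finset.sum_const, Finset.card_univ, Fintype.card_prod, Fintype.card_fin, nsmul_eq_mul]
    push_cast
    ring
  refine (Finset.sum_le_sum fun u _ => e4 u).trans (le_of_eq ?_)
  rw [Finset.sum_const, Finset.card_univ, Fintype.card_prod, Fintype.card_fin, nsmul_eq_mul]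
  push_cast
  ring

lemma nE_two {W : Type*} [NormedAddCommGroup W] [NormedSpace ℝ W] {X : (Ez d → G) → W}
    (hX : Continuous X) {f g : (Ez d → G) → ℝ} (hf : Continuous f) (hg : Continuous g)
    (h : ∀ V, ‖X V‖ ≤ f V + g V) {r : ℝ} (hfr : nE E f ≤ r) (hgr : nE E g ≤ r) :
    nE E X ≤ 2 * r := by
  have c : Continuous fun V => f V + g V := hf.add hg
  refine (nE_mono hE hX c fun V => (h V).trans (le_abs_self _)).trans ?_
  refine (nE_add hE hf hg).trans ?_
  linarith

variable (hd : 4 ≤ d) (hN : 1 ≤ N) (hβ : 0 < β) (hne : dr false ≠ dr true) (hτ : ∀ i, dr i ≠ τ)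
  {M : ℕ} (hkM : k ≤ M)

include hd hN hβ hτ hkM in
lemma Xs_Om_nE {m : ℕ} (hm : m ≤ M) : nE E (fun V => (Xs L dr τ m V : Mb (Bx k) N) -
    Om L dr τ m V) ≤ (k : ℝ) ^ 2 * (2 * rM N M β) := by
  have c1 : Continuous fun V : Ez d → G => (Xs L dr τ m V : Mb (Bx k) N) - Om L dr τ m V :=
    (Xs_cont m).sub (Om_cont m)
  refine nE_mb hE c1 (mul_nonneg two_pos.le (rM_nonneg _ _ _)) fun u v => ?_
  have c2 : Continuous fun V : Ez d → G => (Xs L dr τ m V - Om L dr τ m V : Mb (Bx k) N) u v :=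
    (continuous_apply v).comp ((continuous_apply u).comp c1)
  refine nE_two hE c2 (rz_cont (L := L) (Pi.single (dr true) ((u.2 : ℕ) : ℤ)) (dr false) τ u.1 m)
    (rz_cont (L := L) 0 (dr true) τ u.2 m) (fun V => Xs_Om m V u v) ?_ ?_
  · exact rz_nE hE hd hN hβ (hτ false) (u.1.2.le.trans hkM) hm _
  · exact rz_nE hE hd hN hβ (hτ true) (u.2.2.le.trans hkM) hm _

include hd hN hβ hne hkM in
lemma Pt_Om_nE (m : ℕ) : nE E (fun V => Pm (zV L dr V) true * (Om L dr τ m V : Mb (Bx k) N) -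
    Om L dr τ m V) ≤ (k : ℝ) ^ 2 * (2 * rM N M β) := by
  have c0 : ∀ u v, Continuous fun V : Ez d → G => (Om L dr τ m V : Mb (Bx k) N) u v := fun u v =>
    (continuous_apply v).comp ((continuous_apply u).comp (Om_cont m))
  have c1 : Continuous fun V : Ez d → G => Pm (zV L dr V) true * (Om L dr τ m V : Mb (Bx k) N) -
    Om L dr τ m V := (mb_mul_cont (Pm_cont zV_cont true) (Om_cont m)).sub (Om_cont m)
  refine nE_mb hE c1 (mul_nonneg two_pos.le (rM_nonneg _ _ _)) fun u v => ?_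
  have hk : (0 : ℝ) < k := by exact_mod_cast u.1.pos
  have e1 : (fun V : Ez d → G => (Pm (zV L dr V) true * Om L dr τ m V -
      Om L dr τ m V : Mb (Bx k) N) u v) = fun V => (k : ℝ)⁻¹ • ∑ a : Fin k,
        (hol (zV L dr V) true u.1 u.2 a * Om L dr τ m V (u.1, a) v - Om L dr τ m V u v) := by
    funext V
    exact Pt_Om m V u v
  have ch : ∀ a : Fin k, Continuous fun V : Ez d → G => hol (zV L dr V) true u.1 u.2 a := by
    intro a
    simp only [hol_pz]
    exact L.cont.comp ((pz_cont _ _ _).inv.mul (pz_cont _ _ _))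
  have c2 : ∀ a : Fin k, Continuous fun V : Ez d → G =>
      hol (zV L dr V) true u.1 u.2 a * Om L dr τ m V (u.1, a) v - Om L dr τ m V u v := fun a =>
    ((ch a).mul (c0 _ _)).sub (c0 _ _)
  have c3 : Continuous fun V : Ez d → G => ∑ a : Fin k,
      (hol (zV L dr V) true u.1 u.2 a * Om L dr τ m V (u.1, a) v - Om L dr τ m V u v) :=
    continuous_finsetSum _ fun a _ => c2 a
  rw [e1, nE_smul hE (inv_nonneg.2 hk.le) c3]
  have h1 : ∀ a : Fin k, nE E (fun V : Ez d → G =>
      hol (zV L dr V) true u.1 u.2 a * Om L dr τ m V (u.1, a) v - Om L dr τ m V u v) ≤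
      2 * rM N M β := by
    intro a
    refine nE_two hE (c2 a) (rz_cont (L := L) 0 (dr true) (dr false) a u.1)
      (rz_cont (L := L) 0 (dr true) (dr false) u.2 u.1) (fun V => Pt_Om' m V u v a) ?_ ?_
    · exact rz_nE hE hd hN hβ hne.symm (a.2.le.trans hkM) (u.1.2.le.trans hkM) _
    · exact rz_nE hE hd hN hβ hne.symm (u.2.2.le.trans hkM) (u.1.2.le.trans hkM) _
  have h2 := (nE_sum hE Finset.univ (F := fun (a : Fin k) (V : Ez d → G) =>
      hol (zV L dr V) true u.1 u.2 a * Om L dr τ m V (u.1, a) v - Om L dr τ m V u v) c2).trans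
    (Finset.sum_le_sum fun a _ => h1 a)
  rw [Finset.sum_const, Finset.card_univ, Fintype.card_fin, nsmul_eq_mul] at h2
  have h3 := mul_le_mul_of_nonneg_left h2 (inv_nonneg.2 hk.le)
  rwa [← mul_assoc, inv_mul_cancel₀ hk.ne', one_mul] at h3

/-- the defects of the hops -/
lemma P_sub_nE (i : Bool) {X Y : (Ez d → G) → Mb (Bx k) N} (hX : Continuous X) (hY : Continuous Y)
    {r s : ℝ} (h1 : nE E (fun V => X V - Y V) ≤ r)
    (h2 : nE E (fun V => Pm (zV L dr V) i * Y V - Y V) ≤ s) :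
    nE E (fun V => Pm (zV L dr V) i * X V - X V) ≤ 2 * r + s := by
  have cP : Continuous fun V : Ez d → G => (Pm (zV (k := k) L dr V) i : Mb (Bx k) N) :=
    Pm_cont zV_cont i
  have cXY : Continuous fun V => X V - Y V := hX.sub hY
  have cPXY : Continuous fun V => Pm (zV L dr V) i * (X V - Y V) := mb_mul_cont cP cXY
  have c3 : Continuous fun V => Pm (zV L dr V) i * Y V - Y V := (mb_mul_cont cP hY).sub hY
  have c4 : Continuous fun V => Pm (zV L dr V) i * (X V - Y V) + (Pm (zV L dr V) i * Y V - Y V) :=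
    cPXY.add c3
  have c5 : Continuous fun V => -(X V - Y V) := cXY.neg
  have e : (fun V => Pm (zV L dr V) i * X V - X V) = fun V =>
      (Pm (zV L dr V) i * (X V - Y V) + (Pm (zV L dr V) i * Y V - Y V)) + -(X V - Y V) := by
    funext V
    rw [mul_sub]
    abel
  rw [e]
  have t1 := nE_add hE c4 c5
  have t2 := nE_add hE cPXY c3
  have t3 : nE E (fun V => Pm (zV L dr V) i * (X V - Y V)) ≤ nE E (fun V => X V - Y V) :=
    nE_mono hE cPXY cXY fun V => Pm_norm (zV_unit V) i _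
  rw [nE_neg] at t1
  linarith

include hd hN hβ hne hτ hkM in
/-- one hop of the transported coherent states -/
lemma S_sub_nE {q : ℝ} (hq : 0 ≤ q) {m : ℕ} (hm : m ≤ M) :
    nE E (fun V => Sc (zV L dr V) q * (Xs L dr τ m V : Mb (Bx k) N) - Xs L dr τ m V) ≤
      5 * q * ((k : ℝ) ^ 2 * rM N M β) := by
  obtain ⟨X, hX⟩ : ∃ X : (Ez d → G) → Mb (Bx k) N, X = Xs L dr τ m := ⟨_, rfl⟩
  obtain ⟨Y, hY⟩ : ∃ Y : (Ez d → G) → Mb (Bx k) N, Y = Om L dr τ m := ⟨_, rfl⟩
  have cX : Continuous X := by rw [hX]; exact Xs_cont m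
  have cY : Continuous Y := by rw [hY]; exact Om_cont m
  have h1 : nE E (fun V => X V - Y V) ≤ (k : ℝ) ^ 2 * (2 * rM N M β) := by
    rw [hX, hY]; exact Xs_Om_nE hE hd hN hβ hτ hkM hm
  have h2 : nE E (fun V => Pm (zV L dr V) true * Y V - Y V) ≤ (k : ℝ) ^ 2 * (2 * rM N M β) := by
    rw [hY]; exact Pt_Om_nE hE hd hN hβ hne hkM m
  have h3 : nE E (fun V => Pm (zV L dr V) false * Y V - Y V) ≤ 0 := by
    have e : (fun V => Pm (zV L dr V) false * Y V - Y V) = fun _ => (0 : Mb (Bx k) N) := by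
      funext V
      rw [hY, Pf_Om, sub_self]
    rw [e]
    have h := nE_sum hE (∅ : Finset (Fin 1)) (F := fun _ (_ : Ez d → G) => (0 : Mb (Bx k) N))
      (fun _ => continuous_const)
    simpa using h
  have g1 := P_sub_nE hE (dr := dr) false cX cY h1 h3
  have g2 := P_sub_nE hE (dr := dr) true cX cY h1 h2
  have cf : Continuous fun V => Pm (zV L dr V) false * X V - X V :=
    (mb_mul_cont (Pm_cont zV_cont false) cX).sub cX
  have ct : Continuous fun V => Pm (zV L dr V) true * X V - X V :=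
    (mb_mul_cont (Pm_cont zV_cont true) cX).sub cX
  have cft : Continuous fun V => (Pm (zV L dr V) false * X V - X V) +
    (Pm (zV L dr V) true * X V - X V) := cf.add ct
  have e : (fun V => Sc (zV L dr V) q * X V - X V) = fun V =>
      (q / 2) • ((Pm (zV L dr V) false * X V - X V) + (Pm (zV L dr V) true * X V - X V)) := by
    funext V
    unfold Sc
    rw [add_mul, smul_mul_assoc, smul_mul_assoc, one_mul, add_mul]
    obtain ⟨A, hA⟩ : ∃ A, A = Pm (zV L dr V) false * X V := ⟨_, rfl⟩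
    obtain ⟨C, hC⟩ : ∃ C, C = Pm (zV L dr V) true * X V := ⟨_, rfl⟩
    rw [← hA, ← hC]
    have e2 : A - X V + (C - X V) = (A + C) - (2 : ℝ) • X V := by rw [two_smul]; abel
    rw [e2, smul_sub, smul_smul, sub_smul, one_smul]
    have e3 : q / 2 * 2 = q := by ring
    rw [e3]
    abel
  rw [← hX, e, nE_smul hE (div_nonneg hq two_pos.le) cft]
  have g3 := nE_add hE cf ct
  have g4 : nE E (fun V => (Pm (zV L dr V) false * X V - X V) +
    (Pm (zV L dr V) true * X V - X V)) ≤ 10 * ((k : ℝ) ^ 2 * rM N M β) := by linarith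
  have g5 := mul_le_mul_of_nonneg_left g4 (div_nonneg hq two_pos.le)
  refine g5.trans (le_of_eq ?_)
  ring

end

end

end Pool.Agent.N985
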