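import Mathlib
import Pool.Agent.N985.Coh3

/-!
# Coherence of the strings: the moments
-/

open MeasureTheory Matrix Filter
open scoped Matrix.Norms.Frobenius ContDiff Topology
open Pool.Agent.H906R3.YM hiding Pl
open Pool.Agent.W793.YM Pool.Agent.TH618.YM Pool.Agent.Y14 Pool.Agent.R990

namespace Pool.Agent.N985

set_option linter.unusedSectionVars false
set_option linter.unusedVariables false

noncomputable section

variable {G : Type*} [Group G] [TopologicalSpace G] [IsTopologicalGroup G] [CompactSpace G]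
  [SecondCountableTopology G] [MeasurableSpace G] [BorelSpace G] {μ : Measure G}
  [IsProbabilityMeasure μ] [μ.IsMulLeftInvariant] [μ.IsMulRightInvariant] [μ.IsInvInvariant]
  {N n : ℕ} {L : LD G N n} {d : ℕ} {β : ℝ} {E : ((Ez d → G) → ℝ) → ℝ}
  {k : ℕ} {dr : Bool → Fin d} {τ τ0 : Fin d}

variable (L) in
/-- the string of a configuration -/
def Pz (dr : Bool → Fin d) (τ : Fin d) (q : ℝ) (m : ℕ) (V : Ez d → G) : Mb (Bx k) N :=
  Ps dr τ q m (yV L V)

variable (L) in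
/-- the links in the direction of the string -/
def Dz (dr : Bool → Fin d) (τ : Fin d) (V : Ez d → G) : Mb (Bx k) N :=
  Gd fun u => L.rho (V (ps dr u, τ))

lemma Pz_zero (q : ℝ) (V : Ez d → G) : (Pz L dr τ q 0 V : Mb (Bx k) N) = Dz L dr τ V := rfl

lemma Pz_succ (q : ℝ) (m : ℕ) (V : Ez d → G) : (Pz L dr τ q (m + 1) V : Mb (Bx k) N) =
    Dz L dr τ V * Sc (zV L dr (sh (ez τ) V)) q * Pz L dr τ q m (sh (ez τ) V) := rfl

lemma Dz_cont : Continuous fun V : Ez d → G => (Dz L dr τ V : Mb (Bx k) N) :=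
  Gd_cont fun u => L.cont.comp (continuous_apply _)

lemma Pz_cont (q : ℝ) (m : ℕ) : Continuous fun V : Ez d → G => (Pz L dr τ q m V : Mb (Bx k) N) := by
  induction m with
  | zero => exact Dz_cont
  | succ m ih =>
    simp only [Pz_succ]
    have c1 : Continuous fun V : Ez d → G => (Sc (zV L dr (sh (ez τ) V)) q : Mb (Bx k) N) :=
      (Sc_cont (z := fun V : Ez d → G => zV L dr V) zV_cont q).comp (sh_cont _)
    exact mb_mul_cont (mb_mul_cont Dz_cont c1) (ih.comp (sh_cont _))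

lemma Dz_norm (V : Ez d → G) (X : Mb (Bx k) N) : ‖Dz L dr τ V * X‖ = ‖X‖ := by
  have h : ‖Dz L dr τ V * X‖ ^ 2 = ‖X‖ ^ 2 := by
    rw [nb_sum, nb_sum]
    refine Finset.sum_congr rfl fun u _ => Finset.sum_congr rfl fun v _ => ?_
    unfold Dz
    rw [Gd_mul, norm_lmul]
  exact (pow_left_inj₀ (norm_nonneg _) (norm_nonneg _) two_ne_zero).1 h

lemma Pz_norm {q : ℝ} (q0 : 0 ≤ q) (q1 : q ≤ 1) (m : ℕ) (V : Ez d → G) (X : Mb (Bx k) N) :
    ‖Pz L dr τ q m V * X‖ ≤ ‖X‖ := by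
  induction m generalizing V with
  | zero => rw [Pz_zero, Dz_norm]
  | succ m ih =>
    rw [Pz_succ, Matrix.mul_assoc, Matrix.mul_assoc, Dz_norm]
    exact (Sc_norm (zV_unit _) q0 q1 _).trans (ih _)

variable (L) in
/-- the string acting on the coherent states -/
def Ys (dr : Bool → Fin d) (τ : Fin d) (q : ℝ) (m : ℕ) (V : Ez d → G) : Mb (Bx k) N :=
  Pz L dr τ q m V * Ph L dr (sh (Pi.single τ ((m + 1 : ℕ) : ℤ)) V)

lemma Ys_cont (q : ℝ) (m : ℕ) : Continuous fun V : Ez d → G => (Ys L dr τ q m V : Mb (Bx k) N) :=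
  mb_mul_cont (Pz_cont q m) (Ph_cont.comp (sh_cont _))

lemma sh_succ (m : ℕ) (V : Ez d → G) : sh (Pi.single τ ((m + 1 : ℕ) : ℤ)) V =
    sh (Pi.single τ (m : ℤ)) (sh (ez τ) V) := by
  rw [sh_sh, sg_succ, add_comm]

lemma Ys_zero (q : ℝ) (V : Ez d → G) : (Ys L dr τ q 0 V : Mb (Bx k) N) = Xs L dr τ 1 V := by
  unfold Ys Xs
  rw [Pz_zero]
  unfold Dz Sg
  simp only [pz_succ, pz_zero, mul_one, zero_add]

lemma Ys_succ (q : ℝ) (m : ℕ) (V : Ez d → G) : (Ys L dr τ q (m + 1) V : Mb (Bx k) N) =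
    Dz L dr τ V * (Sc (zV L dr (sh (ez τ) V)) q * Ys L dr τ q m (sh (ez τ) V)) := by
  unfold Ys
  rw [Pz_succ, sh_succ (m + 1)]
  simp only [Matrix.mul_assoc]

lemma Xs_succ (m : ℕ) (V : Ez d → G) : (Xs L dr τ (m + 1) V : Mb (Bx k) N) =
    Dz L dr τ V * Xs L dr τ m (sh (ez τ) V) := by
  unfold Xs
  rw [sh_succ m, ← Matrix.mul_assoc]
  congr 1
  ext1 u v
  unfold Dz Sg
  rw [Gd_mul]
  unfold Gd
  simp only [Matrix.diagonal_apply]
  split_ifs
  · rw [pz_succ, map_mul, pz_sh]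
  · rw [mul_zero]

section

variable (hE : IV μ L β E)
include hE

variable (hd : 4 ≤ d) (hN : 1 ≤ N) (hβ : 0 < β) (hne : dr false ≠ dr true) (hτ : ∀ i, dr i ≠ τ)
  {M : ℕ} (hkM : k ≤ M)
include hd hN hβ hne hτ hkM

/-- the hops of a string acting on the coherent states -/
theorem Ys_Xs {q : ℝ} (q0 : 0 ≤ q) (q1 : q ≤ 1) (m : ℕ) (hm : m + 1 ≤ M) :
    nE E (fun V => (Ys L dr τ q m V : Mb (Bx k) N) - Xs L dr τ (m + 1) V) ≤
      m * (5 * q * ((k : ℝ) ^ 2 * rM N M β)) := by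
  induction m with
  | zero =>
    have e : (fun V : Ez d → G => (Ys L dr τ q 0 V : Mb (Bx k) N) - Xs L dr τ (0 + 1) V) =
        fun _ => 0 := by
      funext V
      rw [Ys_zero, sub_self]
    rw [e]
    have h := nE_sum hE (∅ : Finset (Fin 1)) (F := fun _ (_ : Ez d → G) => (0 : Mb (Bx k) N))
      (fun _ => continuous_const)
    simpa using h
  | succ m ih =>
    have h1 := ih (by omega)
    obtain ⟨H, hH⟩ : ∃ H : (Ez d → G) → Mb (Bx k) N, H = fun V => Sc (zV L dr V) q *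
      Ys L dr τ q m V - Xs L dr τ (m + 1) V := ⟨_, rfl⟩
    have cS : Continuous fun V : Ez d → G => (Sc (zV L dr V) q : Mb (Bx k) N) :=
      Sc_cont zV_cont q
    have cY : Continuous fun V : Ez d → G => (Ys L dr τ q m V : Mb (Bx k) N) := Ys_cont q m
    have cX : Continuous fun V : Ez d → G => (Xs L dr τ (m + 1) V : Mb (Bx k) N) :=
      Xs_cont (m + 1)
    have cH : Continuous H := by
      rw [hH]; exact (mb_mul_cont cS cY).sub cX
    have e1 : ∀ V : Ez d → G, (Ys L dr τ q (m + 1) V : Mb (Bx k) N) - Xs L dr τ (m + 1 + 1) V =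
        Dz L dr τ V * H (sh (ez τ) V) := by
      intro V
      rw [Ys_succ, Xs_succ, hH, mul_sub]
    have cL : Continuous fun V : Ez d → G => (Ys L dr τ q (m + 1) V : Mb (Bx k) N) -
        Xs L dr τ (m + 1 + 1) V := (Ys_cont q (m + 1)).sub (Xs_cont (m + 1 + 1))
    have cHs : Continuous fun V : Ez d → G => H (sh (ez τ) V) := cH.comp (sh_cont _)
    have h2 : nE E (fun V => (Ys L dr τ q (m + 1) V : Mb (Bx k) N) - Xs L dr τ (m + 1 + 1) V) ≤
        nE E (fun V => H (sh (ez τ) V)) := nE_mono hE cL cHs fun V => by rw [e1, Dz_norm]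
    rw [nE_shift hE (ez τ) cH] at h2
    have c1 : Continuous fun V : Ez d → G => (Ys L dr τ q m V : Mb (Bx k) N) -
      Xs L dr τ (m + 1) V := cY.sub cX
    have c2 : Continuous fun V : Ez d → G => Sc (zV L dr V) q * ((Ys L dr τ q m V : Mb (Bx k) N) -
      Xs L dr τ (m + 1) V) := mb_mul_cont cS c1
    have c3 : Continuous fun V : Ez d → G => Sc (zV L dr V) q * (Xs L dr τ (m + 1) V :
      Mb (Bx k) N) - Xs L dr τ (m + 1) V := (mb_mul_cont cS cX).sub cX
    have e2 : H = fun V => Sc (zV L dr V) q * ((Ys L dr τ q m V : Mb (Bx k) N) -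
      Xs L dr τ (m + 1) V) + (Sc (zV L dr V) q * (Xs L dr τ (m + 1) V :
      Mb (Bx k) N) - Xs L dr τ (m + 1) V) := by
      rw [hH]
      funext V
      rw [mul_sub]
      abel
    have t1 := nE_add hE c2 c3
    rw [← e2] at t1
    have t2 : nE E (fun V => Sc (zV L dr V) q * ((Ys L dr τ q m V : Mb (Bx k) N) -
      Xs L dr τ (m + 1) V)) ≤ nE E (fun V => (Ys L dr τ q m V : Mb (Bx k) N) -
      Xs L dr τ (m + 1) V) := nE_mono hE c2 c1 fun V => Sc_norm (zV_unit V) q0 q1 _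
    have t3 := S_sub_nE hE hd hN hβ hne hτ hkM q0 (m := m + 1) (by omega)
    push_cast
    linarith

/-- **the coherence of the strings** -/
theorem coh {q : ℝ} (q0 : 0 ≤ q) (q1 : q ≤ 1) (m : ℕ) (hm : m + 1 ≤ M) :
    (k : ℝ) ^ 4 * (Real.sqrt N - rM N M β * (2 + 5 * q * m)) ≤
      nE E (fun V => Ph L dr V * (Ys L dr τ q m V : Mb (Bx k) N)) := by
  have cP : Continuous fun V : Ez d → G => (Ph L dr V : Mb (Bx k) N) := Ph_cont
  have cY : Continuous fun V : Ez d → G => (Ys L dr τ q m V : Mb (Bx k) N) := Ys_cont q m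
  have cX : Continuous fun V : Ez d → G => (Xs L dr τ (m + 1) V : Mb (Bx k) N) := Xs_cont (m + 1)
  have cO : Continuous fun V : Ez d → G => (Om L dr τ (m + 1) V : Mb (Bx k) N) := Om_cont (m + 1)
  have cPY : Continuous fun V : Ez d → G => Ph L dr V * (Ys L dr τ q m V : Mb (Bx k) N) :=
    mb_mul_cont cP cY
  have cOY : Continuous fun V : Ez d → G => (Om L dr τ (m + 1) V : Mb (Bx k) N) -
    Ys L dr τ q m V := cO.sub cY
  have cPOY : Continuous fun V : Ez d → G => Ph L dr V * ((Om L dr τ (m + 1) V : Mb (Bx k) N) -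
    Ys L dr τ q m V) := mb_mul_cont cP cOY
  have cPO : Continuous fun V : Ez d → G => Ph L dr V * (Om L dr τ (m + 1) V : Mb (Bx k) N) :=
    mb_mul_cont cP cO
  have hk0 : (0 : ℝ) ≤ (k : ℝ) ^ 2 := sq_nonneg _
  have h1 : nE E (fun V => Ph L dr V * (Om L dr τ (m + 1) V : Mb (Bx k) N)) =
      (k : ℝ) ^ 4 * Real.sqrt N := by
    unfold nE
    have e : (fun V : Ez d → G => ‖Ph L dr V * (Om L dr τ (m + 1) V : Mb (Bx k) N)‖ ^ 2) =
        fun _ => ((k : ℝ) ^ 4) ^ 2 * N := by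
      funext V
      rw [Ph_Om, norm_smul, mul_pow, Om_norm, Real.norm_eq_abs, sq_abs]
      ring
    rw [e, hE.const, Real.sqrt_mul (sq_nonneg _), Real.sqrt_sq (pow_nonneg (Nat.cast_nonneg k) 4)]
  have e2 : (fun V : Ez d → G => Ph L dr V * (Om L dr τ (m + 1) V : Mb (Bx k) N)) =
      fun V => Ph L dr V * ((Om L dr τ (m + 1) V : Mb (Bx k) N) - Ys L dr τ q m V) +
        Ph L dr V * (Ys L dr τ q m V : Mb (Bx k) N) := by
    funext V
    rw [mul_sub]
    abel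
  have t1 := nE_add hE cPOY cPY
  rw [← e2, h1] at t1
  have t2 : nE E (fun V => Ph L dr V * ((Om L dr τ (m + 1) V : Mb (Bx k) N) -
      Ys L dr τ q m V)) ≤ nE E (fun V => ((k : ℝ) ^ 2) • ((Om L dr τ (m + 1) V : Mb (Bx k) N) -
      Ys L dr τ q m V)) := by
    refine nE_mono hE cPOY (cOY.const_smul ((k : ℝ) ^ 2)) fun V => ?_
    rw [norm_smul, Real.norm_eq_abs, abs_of_nonneg hk0]
    exact Ph_norm V _
  rw [nE_smul hE hk0 cOY] at t2
  have t3 := nE_tri hE cO cX cY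
  have t4 := Xs_Om_nE hE hd hN hβ hτ hkM (k := k) hm
  rw [nE_sub_comm] at t4
  have t5 := Ys_Xs hE hd hN hβ hne hτ hkM q0 q1 m hm
  rw [nE_sub_comm] at t5
  have t6 : nE E (fun V => (Om L dr τ (m + 1) V : Mb (Bx k) N) - Ys L dr τ q m V) ≤
      (k : ℝ) ^ 2 * (rM N M β * (2 + 5 * q * m)) := by
    refine t3.trans ((add_le_add t4 t5).trans (le_of_eq ?_))
    ring
  have t7 := mul_le_mul_of_nonneg_left t6 hk0
  have e3 : (k : ℝ) ^ 4 * (Real.sqrt N - rM N M β * (2 + 5 * q * m)) = (k : ℝ) ^ 4 * Real.sqrt N -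
      (k : ℝ) ^ 2 * ((k : ℝ) ^ 2 * (rM N M β * (2 + 5 * q * m))) := by ring
  rw [e3]
  linarith

end

end

end Pool.Agent.N985
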