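import Mathlib
import Pool.Agent.N985.Coh4

/-!
# The moments of the strings
-/

open MeasureTheory Matrix Filter
open scoped Matrix.Norms.Frobenius ContDiff Topology
open Pool.Agent.H906R3.YM hiding Pl
open Pool.Agent.W793.YM Pool.Agent.TH618.YM Pool.Agent.Y14 Pool.Agent.R990

namespace Pool.Agent.N985

set_option linter.unusedSectionVars false
set_option linter.unusedVariables false

noncomputable section

variable {G : Type*} [Group G] [TopologicalSpace G] [IsTopologicalGroup G] [CompactSpace G]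
  [SecondCountableTopology G] [MeasurableSpace G] [BorelSpace G] {μ : Measure G}
  [IsProbabilityMeasure μ] [μ.IsMulLeftInvariant] [μ.IsMulRightInvariant] [μ.IsInvInvariant]
  {N n : ℕ} {L : LD G N n} {d : ℕ} {β : ℝ} {E : ((Ez d → G) → ℝ) → ℝ}
  {k : ℕ} {dr : Bool → Fin d} {τ τ0 : Fin d}

/-- conjugation by the strings -/
def Zx (hτ : ∀ i, dr i ≠ τ) (q : ℝ) (x : OK L k τ dr) : ℕ → OK L k τ dr
  | 0 => To hτ x
  | n + 1 => To hτ (So hτ q (Zx hτ q x n))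

lemma Zx_zero (hτ : ∀ i, dr i ≠ τ) (q : ℝ) (x : OK L k τ dr) : Zx hτ q x 0 = To hτ x := rfl

lemma Zx_succ (hτ : ∀ i, dr i ≠ τ) (q : ℝ) (x : OK L k τ dr) (m : ℕ) :
    Zx hτ q x (m + 1) = To hτ (So hτ q (Zx hτ q x m)) := rfl

lemma Zx_Ido (hτ : ∀ i, dr i ≠ τ) (q : ℝ) (m : ℕ) :
    Zx hτ q (Ido : OK L k τ dr) m = Zo hτ q m := by
  induction m with
  | zero => rfl
  | succ m ih => rw [Zx_succ, ih]; rfl

lemma Zx_eq (hτ : ∀ i, dr i ≠ τ) (q : ℝ) (x : OK L k τ dr) (m : ℕ) (V : Ez d → G) :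
    (Zx hτ q x m).1 V = Pz L dr τ q m V * x.1 (sh (Pi.single τ ((m + 1 : ℕ) : ℤ)) V) *
      (Pz L dr τ q m V)ᴴ := by
  induction m generalizing V with
  | zero =>
    rw [Zx_zero, K_T, Pz_zero]
    simp only [zero_add, Nat.cast_one]
    rfl
  | succ m ih =>
    rw [Zx_succ, K_T, So_apply, ih, Pz_succ, sh_succ (m + 1), Matrix.conjTranspose_mul,
      Matrix.conjTranspose_mul, Sc_ct]
    unfold Dz
    simp only [Matrix.mul_assoc]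

/-- one step -/
def K0o (hτ : ∀ i, dr i ≠ τ) (q : ℝ) : OK L k τ dr →ₗ[ℝ] OK L k τ dr :=
  (So hτ q).comp (To hτ)

lemma K0o_apply (hτ : ∀ i, dr i ≠ τ) (q : ℝ) (x : OK L k τ dr) :
    K0o hτ q x = So hτ q (To hτ x) := rfl

lemma T_K0o (hτ : ∀ i, dr i ≠ τ) (q : ℝ) (x : OK L k τ dr) (m : ℕ) :
    To hτ (((K0o hτ q)^[m]) x) = Zx hτ q x m := by
  induction m with
  | zero => rfl
  | succ m ih => rw [Function.iterate_succ_apply', K0o_apply, ih, Zx_succ]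

section

variable (hE : IV μ L β E)

/-- the form of the transfer operator -/
def D0o (hβ : 0 ≤ β) (hτ : ∀ i, dr i ≠ τ) : Fm (OK L k τ dr) where
  f := (FF hE τ (ps dr) (ps dr)).f.compl₂ (To hτ)
  symm x y := by
    show (FF hE τ (ps dr) (ps dr)).f x (To hτ y) = (FF hE τ (ps dr) (ps dr)).f y (To hτ x)
    have h1 : (FF hE τ (ps dr) (ps dr)).f (To hτ x) y = (FF hE τ (ps dr) (ps dr)).f x (To hτ y) :=
      TL_s hE _ _ x y
    rw [← h1, (FF hE τ (ps dr) (ps dr)).symm]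
  nn x := TL_p hE hβ _ _ x

/-- the moments -/
def mz (hτ : ∀ i, dr i ≠ τ) (q : ℝ) (x : OK L k τ dr) (m : ℕ) : ℝ :=
  (FF hE τ (ps dr) (ps dr)).f x (Zx hτ q x m)

lemma mz_Ido (hτ : ∀ i, dr i ≠ τ) (q : ℝ) (m : ℕ) :
    mz hE hτ q (Ido : OK L k τ dr) m = mo (k := k) hτ hE q m := by
  unfold mz mo
  rw [Zx_Ido]

lemma D0o_apply (hβ : 0 ≤ β) (hτ : ∀ i, dr i ≠ τ) (x y : OK L k τ dr) :
    (D0o hE hβ hτ).f x y = (FF hE τ (ps dr) (ps dr)).f x (To hτ y) := rfl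

lemma mz_D (hβ : 0 ≤ β) (hτ : ∀ i, dr i ≠ τ) (q : ℝ) (x : OK L k τ dr) (m : ℕ) :
    mz hE hτ q x m = (D0o hE hβ hτ).f x (((K0o hτ q)^[m]) x) := by
  rw [D0o_apply, T_K0o]
  rfl

lemma K0o_s (hβ : 0 ≤ β) (hτ : ∀ i, dr i ≠ τ) (q : ℝ) (x y : OK L k τ dr) :
    (D0o hE hβ hτ).f (K0o hτ q x) y = (D0o hE hβ hτ).f x (K0o hτ q y) := by
  rw [D0o_apply, D0o_apply, K0o_apply, K0o_apply]
  have h1 : (FF hE τ (ps dr) (ps dr)).f (To hτ x) (So hτ q (To hτ y)) =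
      (FF hE τ (ps dr) (ps dr)).f x (To hτ (So hτ q (To hτ y))) := TL_s hE _ _ _ _
  rw [So_s hE hτ q, h1]

/-- log-convexity of the moments -/
lemma mz_lc (hβ : 0 ≤ β) (hτ : ∀ i, dr i ≠ τ) (q : ℝ) (x : OK L k τ dr) (j n : ℕ) :
    mz hE hτ q x ((j + j) * (n + 1)) ^ 2 ≤
      mz hE hτ q x ((j + j) * n) * mz hE hτ q x ((j + j) * (n + 2)) := by
  obtain ⟨D, hD⟩ : ∃ D : Fm (OK L k τ dr), D = D0o hE hβ hτ := ⟨_, rfl⟩
  obtain ⟨K, hK⟩ : ∃ K : OK L k τ dr →ₗ[ℝ] OK L k τ dr, K = K0o hτ q := ⟨_, rfl⟩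
  have hs0 : ∀ x y, D.f (K x) y = D.f x (K y) := by
    rw [hD, hK]; exact K0o_s hE hβ hτ q
  have hit : ∀ x (m : ℕ), ((K ^ m : OK L k τ dr →ₗ[ℝ] OK L k τ dr)) x = (K^[m]) x := fun x m =>
    Module.End.pow_apply K m x
  have hs : ∀ x y, D.f ((K ^ (j + j) : OK L k τ dr →ₗ[ℝ] OK L k τ dr) x) y =
      D.f x ((K ^ (j + j) : OK L k τ dr →ₗ[ℝ] OK L k τ dr) y) := by
    intro x y
    rw [hit, hit, D.it_s hs0]
  have hp : ∀ x, 0 ≤ D.f x ((K ^ (j + j) : OK L k τ dr →ₗ[ℝ] OK L k τ dr) x) := by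
    intro x
    rw [hit, ← D.it_add hs0]
    exact D.nn _
  have h1 := D.pw_lc hs hp x n
  have e : ∀ m : ℕ, D.f x ((⇑(K ^ (j + j) : OK L k τ dr →ₗ[ℝ] OK L k τ dr))^[m] x) =
      mz hE hτ q x ((j + j) * m) := by
    intro m
    rw [mz_D hE hβ hτ, ← hD, ← hK, Function.iterate_mul]
    congr 2
    have : (⇑(K ^ (j + j) : OK L k τ dr →ₗ[ℝ] OK L k τ dr)) = K^[j + j] :=
      funext fun x => hit x (j + j)
    rw [this]
  rw [e, e, e] at h1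
  exact h1

lemma mz_nonneg (hβ : 0 ≤ β) (hτ : ∀ i, dr i ≠ τ) (q : ℝ) (x : OK L k τ dr) (j : ℕ) :
    0 ≤ mz hE hτ q x (j + j) := by
  rw [mz_D hE hβ hτ, ← Fm.it_add _ (K0o_s hE hβ hτ q)]
  exact Fm.nn _ _

/-- the moments of the coherent states -/
lemma mz_Ph (h : Dirs dr τ τ0) (q : ℝ) (m : ℕ) :
    (k : ℝ) ^ 4 * mz hE h.t q (Pho (L := L) (k := k) h.t) m =
      E (fun V => ‖Ph L dr V * (Ys L dr τ q m V : Mb (Bx k) N)‖ ^ 2) := by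
  have h1 : mz hE h.t q (Pho (L := L) (k := k) h.t) m =
      E (fun V => ipb (Ph L dr V : Mb (Bx k) N) (Pz L dr τ q m V *
        Ph L dr (sh (Pi.single τ ((m + 1 : ℕ) : ℤ)) V) * (Pz L dr τ q m V)ᴴ)) := by
    show sf E τ (Pho (L := L) (k := k) h.t).1 (Zx h.t q (Pho (L := L) (k := k) h.t) m).1 = _
    unfold sf
    refine congrArg E (funext fun V => ?_)
    rw [Zx_eq, Pho_apply, Pho_apply]
    have h2 : Ph L dr (rf τ V) = (Ph L dr V : Mb (Bx k) N) :=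
      rf_HP hE (F := fun V => (Ph L dr V : Mb (Bx k) N)) (fun V V' hV => by
        show (Ph L dr V : Mb (Bx k) N) = Ph L dr V'
        ext1 u v
        rw [Ph_apply, Ph_apply]
        have h1 : fz dr V u = fz dr V' u := fz_dep h.t u V V' hV
        have h2 : fz dr V v = fz dr V' v := fz_dep h.t v V V' hV
        rw [h1, h2]) V
    rw [h2]
  have c1 : Continuous fun V : Ez d → G => ipb (Ph L dr V) (Pz L dr τ q m V *
      Ph L dr (sh (Pi.single τ ((m + 1 : ℕ) : ℤ)) V) * (Pz L dr τ q m V : Mb (Bx k) N)ᴴ) :=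
    ipb_cont Ph_cont (mb_mul_cont (Ys_cont q m) (Pz_cont q m).matrix_conjTranspose)
  rw [h1, ← hE.smul _ c1]
  refine congrArg E (funext fun V => ?_)
  unfold Ys
  obtain ⟨Φ, hΦ⟩ : ∃ Φ : Mb (Bx k) N, Φ = Ph L dr V := ⟨_, rfl⟩
  obtain ⟨Φ', hΦ'⟩ : ∃ Φ' : Mb (Bx k) N, Φ' = Ph L dr (sh (Pi.single τ ((m + 1 : ℕ) : ℤ)) V) :=
    ⟨_, rfl⟩
  obtain ⟨P, hP⟩ : ∃ P : Mb (Bx k) N, P = Pz L dr τ q m V := ⟨_, rfl⟩
  have s1 : Φᴴ = Φ := by rw [hΦ, Ph_ct]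
  have s2 : Φ'ᴴ = Φ' := by rw [hΦ', Ph_ct]
  have s3 : Φ * Φ = ((k : ℝ) ^ 2) • Φ := by rw [hΦ, Ph_sq]
  have s4 : Φ' * Φ' = ((k : ℝ) ^ 2) • Φ' := by rw [hΦ', Ph_sq]
  rw [← hΦ, ← hΦ', ← hP]
  have e1 : ‖Φ * (P * Φ')‖ ^ 2 = (k : ℝ) ^ 4 * ipb P (Φ * (P * Φ')) := by
    rw [nb_eq, ipb_mul_left, s1, ← Matrix.mul_assoc, s3, smul_mul_assoc, ipb_smul_right,
      ipb_mul_right, s2, Matrix.mul_assoc, Matrix.mul_assoc, s4, mul_smul_comm, mul_smul_comm,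
      ipb_smul_right]
    ring
  have e2 : ipb Φ (P * Φ' * Pᴴ) = ipb P (Φ * (P * Φ')) := by
    rw [← ipb_mul_right, ipb_mul_left, s1]
  rw [e1, e2]

/-- the moments of the coherent states are bounded -/
lemma mz_Ph_le (h : Dirs dr τ τ0) {q : ℝ} (q0 : 0 ≤ q) (q1 : q ≤ 1) (hk : 0 < k) (m : ℕ) :
    mz hE h.t q (Pho (L := L) (k := k) h.t) m ≤ (k : ℝ) ^ 4 * N := by
  have hk0 : (0 : ℝ) < k := by exact_mod_cast hk
  have h1 := mz_Ph hE (k := k) h q m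
  have cPY : Continuous fun V : Ez d → G => ‖Ph L dr V * (Ys L dr τ q m V : Mb (Bx k) N)‖ ^ 2 :=
    (mb_mul_cont Ph_cont (Ys_cont q m)).norm.pow 2
  have h2 : E (fun V => ‖Ph L dr V * (Ys L dr τ q m V : Mb (Bx k) N)‖ ^ 2) ≤
      (k : ℝ) ^ 4 * ((k : ℝ) ^ 4 * N) := by
    rw [← hE.const ((k : ℝ) ^ 4 * ((k : ℝ) ^ 4 * N))]
    refine hE.mono cPY continuous_const fun V => ?_
    have h3 := Ph_norm (L := L) (dr := dr) V (Ys L dr τ q m V : Mb (Bx k) N)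
    have h4 : ‖(Ys L dr τ q m V : Mb (Bx k) N)‖ ≤ ‖(Ph L dr (sh (Pi.single τ ((m + 1 : ℕ) : ℤ)) V) :
      Mb (Bx k) N)‖ := Pz_norm q0 q1 m V _
    have h5 := pow_le_pow_left₀ (norm_nonneg _) (h3.trans (mul_le_mul_of_nonneg_left h4
      (sq_nonneg (k : ℝ)))) 2
    refine h5.trans (le_of_eq ?_)
    rw [mul_pow, unit_mb (fun u v => Ph_apply _ u v)]
    ring
  rw [← h1] at h2
  exact le_of_mul_le_mul_left h2 (pow_pos hk0 4)

lemma mz_Ph_mo (h : Dirs dr τ τ0) (q : ℝ) (hk : 0 < k) (m : ℕ) :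
    mz hE h.t q (Pho (L := L) (k := k) h.t) m ≤ (k : ℝ) ^ 4 * mo (k := k) h.t hE q m := by
  have hk0 : (0 : ℝ) < k := by exact_mod_cast hk
  have h1 := mz_Ph hE (k := k) h q m
  have cPY : Continuous fun V : Ez d → G => ‖Ph L dr V * (Ys L dr τ q m V : Mb (Bx k) N)‖ ^ 2 :=
    (mb_mul_cont Ph_cont (Ys_cont q m)).norm.pow 2
  have cP : Continuous fun V : Ez d → G => ipb (Pz L dr τ q m V : Mb (Bx k) N)
    (Pz L dr τ q m V) := ipb_cont (Pz_cont q m) (Pz_cont q m)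
  have c2 : Continuous fun V : Ez d → G => (k : ℝ) ^ 8 * ipb (Pz L dr τ q m V : Mb (Bx k) N)
    (Pz L dr τ q m V) := continuous_const.mul cP
  have h2 : E (fun V => ‖Ph L dr V * (Ys L dr τ q m V : Mb (Bx k) N)‖ ^ 2) ≤
      (k : ℝ) ^ 8 * mo (k := k) h.t hE q m := by
    have e : mo (k := k) h.t hE q m = E (fun V => ipb (Pz L dr τ q m V : Mb (Bx k) N)
        (Pz L dr τ q m V)) := by
      rw [mo_eq (L := L) hE h q m]
      refine congrArg E (funext fun V => ?_)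
      rw [Po'_apply]
      rfl
    rw [e, ← hE.smul _ cP]
    refine hE.mono cPY c2 fun V => ?_
    have h3 := Ph_norm (L := L) (dr := dr) V (Ys L dr τ q m V : Mb (Bx k) N)
    have h4 : ‖(Ys L dr τ q m V : Mb (Bx k) N)‖ ≤ (k : ℝ) ^ 2 * ‖(Pz L dr τ q m V :
      Mb (Bx k) N)‖ := Ph_norm' (L := L) _ _
    have h5 := pow_le_pow_left₀ (norm_nonneg _) (h3.trans (mul_le_mul_of_nonneg_left h4
      (sq_nonneg (k : ℝ)))) 2
    refine h5.trans (le_of_eq ?_)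
    rw [← nb_eq]
    ring
  rw [← h1] at h2
  have h3 : (k : ℝ) ^ 4 * mz hE h.t q (Pho (L := L) (k := k) h.t) m ≤
      (k : ℝ) ^ 4 * ((k : ℝ) ^ 4 * mo (k := k) h.t hE q m) := by
    refine h2.trans (le_of_eq ?_)
    ring
  exact le_of_mul_le_mul_left h3 (pow_pos hk0 4)

/-- **lower bound for the moments of the coherent states** -/
theorem mz_Ph_low (hd : 4 ≤ d) (hN : 1 ≤ N) (hβ : 0 < β) (h : Dirs dr τ τ0) {M : ℕ}
    (hkM : k ≤ M) {q : ℝ} (q0 : 0 ≤ q) (q1 : q ≤ 1) (hk : 0 < k) (m : ℕ) (hm : m + 1 ≤ M)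
    (hpos : rM N M β * (2 + 5 * q * m) ≤ Real.sqrt N) :
    (k : ℝ) ^ 4 * (Real.sqrt N - rM N M β * (2 + 5 * q * m)) ^ 2 ≤
      mz hE h.t q (Pho (L := L) (k := k) h.t) m := by
  have hk0 : (0 : ℝ) < k := by exact_mod_cast hk
  have h1 := mz_Ph hE (k := k) h q m
  have cPY : Continuous fun V : Ez d → G => Ph L dr V * (Ys L dr τ q m V : Mb (Bx k) N) :=
    mb_mul_cont Ph_cont (Ys_cont q m)
  have h2 := coh hE hd hN hβ h.ne h.t hkM q0 q1 m hm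
  have h3 := pow_le_pow_left₀ (mul_nonneg (pow_nonneg hk0.le 4) (sub_nonneg.2 hpos)) h2 2
  rw [nE_sq hE cPY, ← h1] at h3
  have h4 : (k : ℝ) ^ 4 * ((k : ℝ) ^ 4 * (Real.sqrt N - rM N M β * (2 + 5 * q * m)) ^ 2) ≤
      (k : ℝ) ^ 4 * mz hE h.t q (Pho (L := L) (k := k) h.t) m := by
    refine le_trans (le_of_eq ?_) h3
    ring
  exact le_of_mul_le_mul_left h4 (pow_pos hk0 4)

end

end

end Pool.Agent.N985
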