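import Mathlib
import Pool.Agent.N985.Fw2

/-!
# Growth rates of log-convex sequences
-/

open Filter Topology

namespace Pool.Agent.N985

noncomputable section

theorem growth {c : ℕ → ℝ} (h0 : ∀ n, 0 ≤ c n) (hc : ∀ n, c (n + 1) ^ 2 ≤ c n * c (n + 2))
    {C : ℝ} (hC : ∀ n, c n ≤ C) {j : ℕ} (hj : 0 < j) {A s : ℝ} (hA : 0 < A) (hs : 0 < s)
    (hlow : ∀ n, A * s ^ n ≤ c (j * n)) :
    ∃ κ : ℝ, 0 < κ ∧ κ ≤ 1 ∧ s ≤ κ ^ (2 * j) ∧ (∀ n, c n ≤ c 0 * κ ^ (2 * n)) ∧
      ∀ κ', 0 ≤ κ' → κ' < κ → ∃ A', 0 < A' ∧ ∀ n, A' * κ' ^ (2 * n) ≤ c n := by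
  have hpos : ∀ n, 0 < c n := by
    intro n
    rcases (h0 n).lt_or_eq with h | h
    · exact h
    · exfalso
      have h1 : ∀ m, c (n + m) = 0 := by
        intro m
        induction m with
        | zero => exact h.symm
        | succ m ih =>
          have h2 := hc (n + m)
          rw [ih, zero_mul] at h2
          exact pow_eq_zero_iff two_ne_zero |>.1 (le_antisymm h2 (sq_nonneg _))
      have h2 : n ≤ j * n := Nat.le_mul_of_pos_left n hj
      have h3 := hlow n
      have h4 := h1 (j * n - n)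
      rw [Nat.add_sub_cancel' h2] at h4
      rw [h4] at h3
      have : 0 < A * s ^ n := mul_pos hA (pow_pos hs n)
      linarith
  obtain ⟨r, hr⟩ : ∃ r : ℕ → ℝ, r = fun n => c (n + 1) / c n := ⟨_, rfl⟩
  have hr0 : ∀ n, 0 < r n := fun n => by rw [hr]; exact div_pos (hpos _) (hpos _)
  have hrc : ∀ n, c (n + 1) = r n * c n := fun n => by
    rw [hr]; exact (div_mul_cancel₀ _ (hpos n).ne').symm
  have hrm : ∀ n, r n ≤ r (n + 1) := by
    intro n
    rw [hr]
    simp only
    rw [div_le_div_iff₀ (hpos _) (hpos _)]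
    have := hc n
    nlinarith
  have hr1 : ∀ n, r n ≤ 1 := by
    intro n
    have h1 := logconv (c := fun m => c (n + m)) (fun m => h0 _) (fun m => hc (n + m))
      (C := C) (r := 1) zero_le_one (fun m => by rw [one_pow, mul_one]; exact hC _)
    simp only [one_mul, add_zero] at h1
    rw [hr]
    exact (div_le_one (hpos n)).2 h1
  have hmono : Monotone r := monotone_nat_of_le_succ hrm
  obtain ⟨κ2, hκ2⟩ : ∃ κ2, κ2 = ⨆ n, r n := ⟨_, rfl⟩
  have hbdd : BddAbove (Set.range r) := ⟨1, by rintro _ ⟨n, rfl⟩; exact hr1 n⟩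
  have hrκ : ∀ n, r n ≤ κ2 := fun n => by rw [hκ2]; exact le_ciSup hbdd n
  have hκ0 : 0 < κ2 := (hr0 0).trans_le (hrκ 0)
  have hκ1 : κ2 ≤ 1 := by rw [hκ2]; exact ciSup_le hr1
  have hup : ∀ n, c n ≤ c 0 * κ2 ^ n := by
    intro n
    induction n with
    | zero => simp
    | succ n ih =>
      rw [hrc, pow_succ]
      have h1 := mul_le_mul (hrκ n) ih (h0 n) hκ0.le
      refine h1.trans (le_of_eq ?_)
      ring
  have hsq : ∀ n, Real.sqrt κ2 ^ (2 * n) = κ2 ^ n := fun n => by
    rw [pow_mul, Real.sq_sqrt hκ0.le]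
  refine ⟨Real.sqrt κ2, Real.sqrt_pos.2 hκ0, Real.sqrt_le_one.2 hκ1, ?_, fun n => ?_,
    fun κ' h1 h2 => ?_⟩
  · rw [hsq]
    have h1 := logconv (c := fun n => A * s ^ n) (fun n => (mul_pos hA (pow_pos hs n)).le)
      (fun n => by
        refine le_of_eq ?_
        ring)
      (C := c 0) (r := κ2 ^ j) (pow_nonneg hκ0.le j) (fun n => by
        refine (hlow n).trans ((hup _).trans (le_of_eq ?_))
        rw [pow_mul])
    simp only [pow_one, pow_zero, mul_one] at h1
    rw [mul_comm] at h1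
    exact le_of_mul_le_mul_right h1 hA
  · rw [hsq]; exact hup n
  · have h3 : κ' ^ 2 < κ2 := by
      have := (Real.lt_sqrt h1).1 h2
      exact this
    rw [hκ2] at h3
    obtain ⟨m, hm⟩ := exists_lt_of_lt_ciSup h3
    have hκ'1 : κ' ≤ 1 := h2.le.trans (Real.sqrt_le_one.2 hκ1)
    refine ⟨c m, hpos m, fun n => ?_⟩
    have hanti : ∀ n i, c (n + i) ≤ c n := by
      intro n i
      induction i with
      | zero => exact le_rfl
      | succ i ih =>
        refine le_trans ?_ ih
        rw [← add_assoc, hrc]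
        exact mul_le_of_le_one_left (h0 _) (hr1 _)
    have hgr : ∀ i, c m * κ' ^ (2 * i) ≤ c (m + i) := by
      intro i
      induction i with
      | zero => simp
      | succ i ih =>
        rw [← add_assoc, hrc, Nat.mul_succ, pow_add]
        have h4 : κ' ^ 2 ≤ r (m + i) := hm.le.trans (hmono (Nat.le_add_right _ _))
        have h5 := mul_le_mul h4 ih (mul_nonneg (h0 m) (pow_nonneg h1 _)) (hr0 _).le
        refine le_trans (le_of_eq ?_) h5
        ring
    rcases le_total m n with h | h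
    · obtain ⟨i, rfl⟩ := Nat.exists_eq_add_of_le h
      refine le_trans ?_ (hgr i)
      refine mul_le_mul_of_nonneg_left ?_ (h0 m)
      exact pow_le_pow_of_le_one h1 hκ'1 (by omega)
    · obtain ⟨i, rfl⟩ := Nat.exists_eq_add_of_le h
      refine le_trans ?_ (hanti n i)
      exact mul_le_of_le_one_right (h0 _) (pow_le_one₀ h1 hκ'1)

end

end Pool.Agent.N985
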