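import Mathlib
import Pool.Agent.N985.Coh5
import Pool.Agent.N985.Grow

/-!
# Lower bounds for two strings
-/

open MeasureTheory Matrix Filter
open scoped Matrix.Norms.Frobenius ContDiff Topology
open Pool.Agent.H906R3.YM hiding Pl
open Pool.Agent.W793.YM Pool.Agent.TH618.YM Pool.Agent.Y14 Pool.Agent.R990

namespace Pool.Agent.N985

set_option linter.unusedSectionVars false
set_option linter.unusedVariables false

noncomputable section

variable {G : Type*} [Group G] [TopologicalSpace G] [IsTopologicalGroup G] [CompactSpace G]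
  [SecondCountableTopology G] [MeasurableSpace G] [BorelSpace G] {μ : Measure G}
  [IsProbabilityMeasure μ] [μ.IsMulLeftInvariant] [μ.IsMulRightInvariant] [μ.IsInvInvariant]
  {N n : ℕ} {L : LD G N n} {d : ℕ} {β : ℝ} {E : ((Ez d → G) → ℝ) → ℝ}
  {k : ℕ} {dr : Bool → Fin d} {τ τ0 : Fin d}

/-- the error -/
def er (N k : ℕ) (β : ℝ) : ℝ := 576 * (N / β) * ((k : ℝ)⁻¹) ^ 2 + 20 * ((k : ℝ)⁻¹) ^ 3

lemma er_nonneg (N k : ℕ) {β : ℝ} (hβ : 0 < β) : 0 ≤ er N k β := by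
  unfold er
  have h1 : 0 ≤ (N : ℝ) / β := div_nonneg (Nat.cast_nonneg N) hβ.le
  have h2 : 0 ≤ (k : ℝ)⁻¹ := inv_nonneg.2 (Nat.cast_nonneg k)
  exact add_nonneg (mul_nonneg (mul_nonneg (by norm_num) h1) (pow_nonneg h2 2))
    (mul_nonneg (by norm_num) (pow_nonneg h2 3))

/-- the growth of the squared norms of the strings -/
theorem mo_growth (hE : IV μ L β E) (hd : 4 ≤ d) (hN : 1 ≤ N) (hβ : 0 < β) (h : Dirs dr τ τ0)
    (hk : 10 ≤ k) (hkl : k * (N / β) ≤ (10 : ℝ)⁻¹ ^ 16) :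
    ∃ κ : ℝ, 0 < κ ∧ κ ≤ 1 ∧ 1 - (k : ℝ)⁻¹ / 10 ≤ κ ∧
      (∀ n, mo (k := k) h.t hE (k : ℝ)⁻¹ (2 * n) ≤ mo (k := k) h.t hE (k : ℝ)⁻¹ 0 * κ ^ (2 * n)) ∧
      ∀ κ', 0 ≤ κ' → κ' < κ → ∃ A', 0 < A' ∧ ∀ n, A' * κ' ^ (2 * n) ≤
        mo (k := k) h.t hE (k : ℝ)⁻¹ (2 * n) := by
  have hk0 : (0 : ℝ) < k := by exact_mod_cast (by omega : 0 < k)
  have hk10 : (10 : ℝ) ≤ k := by exact_mod_cast hk
  have hkn : 0 < k := by omega
  have hN0 : (0 : ℝ) < N := by exact_mod_cast hN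
  obtain ⟨q, hq⟩ : ∃ q : ℝ, q = (k : ℝ)⁻¹ := ⟨_, rfl⟩
  have q0 : 0 < q := by rw [hq]; exact inv_pos.2 hk0
  have hqk : q * k = 1 := by rw [hq]; exact inv_mul_cancel₀ hk0.ne'
  have q1 : q ≤ 1 / 10 := by
    rw [hq, inv_eq_one_div]
    exact one_div_le_one_div_of_le (by norm_num) hk10
  rw [← hq]
  have h1 : ∀ m, mz hE h.t q (Ido : OK L k τ dr) m = mo (k := k) h.t hE q m := mz_Ido hE h.t q
  -- the coherent states
  obtain ⟨g, hg⟩ : ∃ g : ℕ → ℝ, g = fun m => mz hE h.t q (Pho (L := L) (k := k) h.t) m := ⟨_, rfl⟩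
  obtain ⟨ρ, hρ⟩ : ∃ ρ, ρ = rM N (11 * k) β := ⟨_, rfl⟩
  have hρ0 : 0 ≤ ρ := by rw [hρ]; exact rM_nonneg _ _ _
  have hρN : ρ ≤ 1 / 1000 * Real.sqrt N := by
    have e : 1 / 1000 * Real.sqrt N = Real.sqrt ((1 / 1000) ^ 2 * N) := by
      rw [Real.sqrt_mul (sq_nonneg _), Real.sqrt_sq (by norm_num)]
    rw [hρ, e]
    unfold rM
    refine Real.sqrt_le_sqrt ?_
    have e2 : 900000000 * (N : ℝ) ^ 2 * ((11 * k : ℕ) : ℝ) / β =
        9900000000 * (k * (N / β)) * N := by push_cast; ring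
    rw [e2]
    refine mul_le_mul_of_nonneg_right ?_ hN0.le
    have h2 := mul_le_mul_of_nonneg_left hkl (show (0 : ℝ) ≤ 9900000000 by norm_num)
    refine h2.trans ?_
    norm_num
  have hsN : 0 < Real.sqrt N := Real.sqrt_pos.2 hN0
  have e52 : 2 + 5 * q * ((5 * k + 5 * k : ℕ) : ℝ) = 52 := by
    push_cast
    have : 5 * q * (5 * k + 5 * k) = 50 * (q * k) := by ring
    rw [this, hqk]
    norm_num
  have hlow0 := mz_Ph_low hE hd hN hβ h (M := 11 * k) (by omega : k ≤ 11 * k) q0.le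
    (by linarith : q ≤ 1) hkn (5 * k + 5 * k) (by omega) (by
      rw [e52, ← hρ]
      linarith)
  rw [e52, ← hρ] at hlow0
  have hg1 : 8 / 10 * ((k : ℝ) ^ 4 * N) ≤ g (5 * k + 5 * k) := by
    rw [hg]
    refine le_trans ?_ hlow0
    have h2 : 948 / 1000 * Real.sqrt N ≤ Real.sqrt N - ρ * 52 := by linarith
    have h3 := pow_le_pow_left₀ (by positivity) h2 2
    rw [mul_pow, Real.sq_sqrt hN0.le] at h3
    have h4 := mul_le_mul_of_nonneg_left h3 (pow_nonneg hk0.le 4)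
    refine le_trans ?_ h4
    have h5 : (0 : ℝ) ≤ (k : ℝ) ^ 4 * N := by positivity
    nlinarith
  have hg0 : g 0 ≤ (k : ℝ) ^ 4 * N := by
    rw [hg]; exact mz_Ph_le hE h q0.le (by linarith) hkn 0
  have hgn : ∀ n, 0 ≤ g ((5 * k + 5 * k) * n) := by
    intro n
    rw [hg]
    have e : (5 * k + 5 * k) * n = 5 * k * n + 5 * k * n := by ring
    rw [e]
    exact mz_nonneg hE hβ.le h.t q _ _
  have hglc : ∀ n, g ((5 * k + 5 * k) * (n + 1)) ^ 2 ≤
      g ((5 * k + 5 * k) * n) * g ((5 * k + 5 * k) * (n + 2)) := by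
    intro n
    rw [hg]
    exact mz_lc hE hβ.le h.t q _ (5 * k) n
  have hg0' := hgn 0
  rw [mul_zero] at hg0'
  have hkN : 0 < (k : ℝ) ^ 4 * N := by positivity
  have hglow : ∀ n, (8 / 10 : ℝ) ^ n * g 0 ≤ g ((5 * k + 5 * k) * n) := by
    intro n
    have h2 := lc_lower (c := fun n => g ((5 * k + 5 * k) * n)) hgn hglc
      (r := 8 / 10) (by norm_num) (by
        simp only [mul_zero, mul_one]
        linarith) n
    simp only [mul_zero] at h2
    exact h2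
  have hg00 : 0 < g 0 := by
    rcases hg0'.lt_or_eq with h2 | h2
    · exact h2
    · exfalso
      have h3 := hglc 0
      simp only [mul_zero, zero_add, mul_one] at h3
      rw [← h2, zero_mul] at h3
      have h4 : 0 < g (5 * k + 5 * k) := lt_of_lt_of_le (by positivity) hg1
      have := pow_pos h4 2
      linarith
  -- the strings
  have hc0 : ∀ n, 0 ≤ mo (k := k) h.t hE q (2 * n) := by
    intro n
    rw [← h1, two_mul]
    exact mz_nonneg hE hβ.le h.t q _ _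
  have hclc : ∀ n, mo (k := k) h.t hE q (2 * (n + 1)) ^ 2 ≤
      mo (k := k) h.t hE q (2 * n) * mo (k := k) h.t hE q (2 * (n + 2)) := by
    intro n
    rw [← h1, ← h1, ← h1]
    have := mz_lc hE hβ.le h.t q (Ido : OK L k τ dr) 1 n
    exact this
  have hCb : ∀ n, mo (k := k) h.t hE q (2 * n) ≤ (k : ℝ) ^ 2 * N := by
    intro n
    rw [mo_eq (L := L) hE h q, ← hE.const ((k : ℝ) ^ 2 * N)]
    have c1 : Continuous fun V : Ez d → G => ipb ((Po' (L := L) (k := k) h q (2 * n)).1 V)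
        ((Po' (L := L) (k := k) h q (2 * n)).1 V) :=
      ipb_cont (Po' (L := L) (k := k) h q (2 * n)).2.cont
        (Po' (L := L) (k := k) h q (2 * n)).2.cont
    refine hE.mono c1 continuous_const fun V => ?_
    rw [← nb_eq, Po'_apply]
    have h2 := Pz_norm (L := L) (dr := dr) (τ := τ) q0.le (by linarith : q ≤ 1) (2 * n) V
      (1 : Mb (Bx k) N)
    rw [mul_one] at h2
    have h3 := pow_le_pow_left₀ (norm_nonneg _) h2 2
    refine h3.trans (le_of_eq ?_)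
    rw [nb_sum]
    have h4 : ∀ u : Bx k, ∑ v, ‖(1 : Mb (Bx k) N) u v‖ ^ 2 = N := by
      intro u
      rw [Finset.sum_eq_single u]
      · rw [Matrix.one_apply_eq, one_norm_sq]
      · intro v _ hv
        rw [Matrix.one_apply_ne hv.symm]
        simp
      · simp
    simp only [h4]
    rw [Finset.sum_const, Finset.card_univ, Fintype.card_prod, Fintype.card_fin, nsmul_eq_mul]
    push_cast
    ring
  have hk4 : (0 : ℝ) < (k : ℝ) ^ 4 := pow_pos hk0 4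
  obtain ⟨κ, f1, f2, f3, f4, f5⟩ := growth (c := fun n => mo (k := k) h.t hE q (2 * n)) hc0 hclc
    hCb (j := 5 * k) (by omega) (A := g 0 / (k : ℝ) ^ 4) (s := 8 / 10) (div_pos hg00 hk4)
    (by norm_num) (fun n => by
      have h2 := mz_Ph_mo hE (k := k) h q hkn (2 * (5 * k * n))
      have h3 := hglow n
      rw [hg] at h3
      have e : (5 * k + 5 * k) * n = 2 * (5 * k * n) := by ring
      rw [e] at h3
      rw [div_mul_eq_mul_div, div_le_iff₀ hk4, hg]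
      have h4 := h3.trans h2
      refine le_trans (le_of_eq ?_) (h4.trans (le_of_eq ?_))
      · ring
      · ring)
  refine ⟨κ, f1, f2, ?_, ?_, f5⟩
  · by_contra hlt
    push Not at hlt
    have h2 := pow_lt_pow_left₀ hlt f1.le (n := 2 * (5 * k)) (by omega)
    have h3 : (1 - q / 10) ^ (2 * (5 * k)) ≤ Real.exp (-1) := by
      have h4 : 1 - q / 10 ≤ Real.exp (-(q / 10)) := by
        have := Real.add_one_le_exp (-(q / 10))
        linarith
      have h5 := pow_le_pow_left₀ (by linarith : 0 ≤ 1 - q / 10) h4 (2 * (5 * k))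
      refine h5.trans (le_of_eq ?_)
      rw [← Real.exp_nat_mul]
      congr 1
      push_cast
      have : 2 * (5 * (k : ℝ)) * -(q / 10) = -(q * k) := by ring
      rw [this, hqk]
    have h6 := Real.exp_neg_one_lt_d9
    linarith
  · intro n
    have := f4 n
    simpa using this

/-- **two strings at the distance `R`** -/
theorem bb_growth (hE : IV μ L β E) (hd : 4 ≤ d) (hN : 1 ≤ N) (hβ : 0 < β) (h : Dirs dr τ τ0)
    (hk : 10 ≤ k) (hkl : k * (N / β) ≤ (10 : ℝ)⁻¹ ^ 16) :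
    ∃ κ : ℝ, 1 - (k : ℝ)⁻¹ / 10 ≤ κ ∧ ∀ (R : ℕ) (t : ℝ), 0 < t →
      t < κ * (κ / (κ + er N k β)) ^ R →
      ∃ B, 0 < B ∧ ∀ n, B * t ^ (2 * n) ≤ bb (k := k) hE h (k : ℝ)⁻¹ (2 * n) R := by
  obtain ⟨κ, g1, g2, g3, g4, g5⟩ := mo_growth hE hd hN hβ h hk hkl
  refine ⟨κ, g3, fun R t ht htκ => ?_⟩
  have hk0 : (0 : ℝ) < k := by exact_mod_cast (by omega : 0 < k)
  have hk10 : (10 : ℝ) ≤ k := by exact_mod_cast hk
  have hkn : 0 < k := by omega
  have hN0 : (0 : ℝ) < N := by exact_mod_cast hN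
  obtain ⟨q, hq⟩ : ∃ q : ℝ, q = (k : ℝ)⁻¹ := ⟨_, rfl⟩
  have q0 : 0 < q := by rw [hq]; exact inv_pos.2 hk0
  have hqk : q * k = 1 := by rw [hq]; exact inv_mul_cancel₀ hk0.ne'
  have q1 : q ≤ 1 / 10 := by
    rw [hq, inv_eq_one_div]
    exact one_div_le_one_div_of_le (by norm_num) hk10
  rw [← hq] at g3 g4 g5 ⊢
  obtain ⟨δ, hδ⟩ : ∃ δ : ℝ, δ = Real.sqrt (1 / β) := ⟨_, rfl⟩
  have hδ2 : δ ^ 2 = 1 / β := by rw [hδ, Real.sq_sqrt (by positivity)]
  have hl0 : 0 ≤ (N : ℝ) / β := div_nonneg hN0.le hβ.le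
  have hlk : k * ((N : ℝ) / β) ≤ 1 / 20 := hkl.trans (by norm_num)
  have ha : N * (2 * δ ^ 2) ≤ q / 10 := by
    rw [hδ2]
    have h1 : (N : ℝ) * (2 * (1 / β)) = 2 * (k * (N / β)) * q := by
      calc (N : ℝ) * (2 * (1 / β)) = 2 * (N / β) * (q * k) := by rw [hqk]; ring
        _ = _ := by ring
    rw [h1]
    have h2 : 2 * (k * ((N : ℝ) / β)) ≤ 1 / 10 := by linarith
    have h3 := mul_le_mul_of_nonneg_right h2 q0.le
    linarith
  have hl2 : lk0 k ^ 2 = q := by rw [lk0_sq, hq]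
  have hl : lk0 k ≤ 1 := by
    have h1 : lk0 k ^ 2 ≤ 1 ^ 2 := by rw [hl2]; linarith
    exact (pow_le_pow_iff_left₀ (lk0_nonneg k) zero_le_one two_ne_zero).1 h1
  have hc : (1 + 1) * q ≤ lk0 k := by
    have h1 : ((1 + 1) * q) ^ 2 ≤ lk0 k ^ 2 := by
      rw [hl2]
      nlinarith
    exact (pow_le_pow_iff_left₀ (by positivity) (lk0_nonneg k) two_ne_zero).1 h1
  have het : et k N δ ≤ 2 := by
    unfold et
    rw [hδ2]
    have h1 : (1 + 2 * (N : ℝ) * (1 / β)) ^ k ≤ Real.exp 1 := by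
      have h2 : 1 + 2 * (N : ℝ) * (1 / β) ≤ Real.exp (2 * (N / β)) := by
        have := Real.add_one_le_exp (2 * ((N : ℝ) / β))
        have e : 2 * (N : ℝ) * (1 / β) = 2 * (N / β) := by ring
        rw [e]
        linarith
      have h3 := pow_le_pow_left₀ (by positivity) h2 k
      rw [← Real.exp_nat_mul] at h3
      refine h3.trans (Real.exp_le_exp.2 ?_)
      have e : (k : ℝ) * (2 * (N / β)) = 2 * (k * (N / β)) := by ring
      rw [e]
      linarith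
    have h4 := Real.exp_one_lt_d9
    linarith
  have hκ2 : κ ≤ 2 := by linarith
  have hpert := mo_pert h.t hE hβ.le (by omega : 0 < N) q0 q1 ha hl hc het g3 hκ2 g4
  obtain ⟨e0, he0⟩ : ∃ e0, e0 = er N k β := ⟨_, rfl⟩
  have e1 : 8 * (N * (2 * δ ^ 2)) * (4 * lk0 k ^ 2 + (1 + 1) * q) ^ 2 +
        20 * 1 * q ^ 2 * lk0 k ^ 2 = e0 := by
    rw [he0, hδ2, hl2]
    unfold er
    rw [← hq]
    ring
  rw [e1] at hpert
  rw [← he0] at htκ
  have he00 : 0 ≤ e0 := by rw [he0]; exact er_nonneg N k hβ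
  have hκe : 0 < κ + e0 := by linarith
  obtain ⟨M0, hM0⟩ : ∃ M0, M0 = |Mo (k := k) h.t hE q δ 0| + 1 := ⟨_, rfl⟩
  have hM00 : 0 < M0 := by rw [hM0]; positivity
  have hMn : ∀ n, Mo (k := k) h.t hE q δ (2 * n) ≤ M0 * (κ + e0) ^ (2 * n) := by
    intro n
    induction n with
    | zero =>
      simp only [mul_zero, pow_zero, mul_one]
      rw [hM0]
      linarith [le_abs_self (Mo (k := k) h.t hE q δ 0)]
    | succ n ih =>
      refine (hpert n).trans ?_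
      have h1 := mul_le_mul_of_nonneg_left ih (sq_nonneg (κ + e0))
      refine h1.trans (le_of_eq ?_)
      ring
  -- a smaller rate
  obtain ⟨κ', k1, k2, k3⟩ : ∃ κ', 0 < κ' ∧ κ' < κ ∧ t < κ' * (κ' / (κ + e0)) ^ R := by
    have hcont : Continuous fun x : ℝ => x * (x / (κ + e0)) ^ R :=
      continuous_id.mul ((continuous_id.div_const _).pow R)
    have h1 : Tendsto (fun x : ℝ => x * (x / (κ + e0)) ^ R) (𝓝[<] κ)
        (𝓝 (κ * (κ / (κ + e0)) ^ R)) := (hcont.tendsto κ).mono_left nhdsWithin_le_nhds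
    have h2 := (h1.eventually_const_lt htκ).and (Ioo_mem_nhdsLT g1)
    obtain ⟨x, hx1, hx2⟩ := h2.exists
    exact ⟨x, hx2.1, hx2.2, hx1⟩
  obtain ⟨A', a1, a2⟩ := g5 κ' k1.le k2
  refine ⟨(A' / M0) ^ R * A', mul_pos (pow_pos (div_pos a1 hM00) R) a1, fun n => ?_⟩
  have hM' : 0 < M0 * (κ + e0) ^ (2 * n) := mul_pos hM00 (pow_pos hκe _)
  have h1 := bb_lower (k := k) hE hkn h q hβ hδ2 (2 * n) R hM' (hMn n)
  refine le_trans ?_ h1
  have h2 := a2 n
  have h3 : 0 ≤ A' * κ' ^ (2 * n) := mul_nonneg a1.le (pow_nonneg k1.le _)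
  have h4 : A' * κ' ^ (2 * n) / (M0 * (κ + e0) ^ (2 * n)) ≤
      mo (k := k) h.t hE q (2 * n) / (M0 * (κ + e0) ^ (2 * n)) :=
    div_le_div_of_nonneg_right h2 hM'.le
  have h5 := mul_le_mul (pow_le_pow_left₀ (div_nonneg h3 hM'.le) h4 R) h2 h3
    (pow_nonneg ((div_nonneg h3 hM'.le).trans h4) R)
  refine le_trans ?_ h5
  have h6 : (A' * κ' ^ (2 * n) / (M0 * (κ + e0) ^ (2 * n))) ^ R * (A' * κ' ^ (2 * n)) =
      (A' / M0) ^ R * A' * (κ' * (κ' / (κ + e0)) ^ R) ^ (2 * n) := by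
    rw [mul_pow κ', ← pow_mul, mul_comm R, pow_mul (κ' / (κ + e0)), div_pow κ', mul_div_mul_comm,
      mul_pow]
    ring
  rw [h6]
  exact mul_le_mul_of_nonneg_left (pow_le_pow_left₀ ht.le k3.le _)
    (mul_pos (pow_pos (div_pos a1 hM00) R) a1).le

end

end Pool.Agent.N985
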