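import Mathlib
import Pool.Agent.N985.Coh2

/-!
# Words
-/

open MeasureTheory Matrix Filter
open scoped Matrix.Norms.Frobenius ContDiff Topology
open Pool.Agent.H906R3.YM hiding Pl
open Pool.Agent.W793.YM Pool.Agent.TH618.YM Pool.Agent.Y14 Pool.Agent.R990

namespace Pool.Agent.N985

set_option linter.unusedSectionVars false
set_option linter.unusedVariables false

noncomputable section

/-- steps -/
abbrev Stp (d : ℕ) := Fin d × Bool

section alg

variable {d : ℕ} {G : Type*} [Group G]

/-- the displacement of a step -/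
def dsz (s : Stp d) : Fin d → ℤ := if s.2 then ez s.1 else -ez s.1

/-- the transport of a step -/
def twl (V : Ez d → G) (x : Fin d → ℤ) (s : Stp d) : G :=
  if s.2 then V (x, s.1) else (V (x - ez s.1, s.1))⁻¹

/-- the displacement of a word -/
def dw : List (Stp d) → Fin d → ℤ
  | [] => 0
  | s :: w => dsz s + dw w

/-- the transport along a word -/
def tw (V : Ez d → G) : (Fin d → ℤ) → List (Stp d) → G
  | _, [] => 1
  | x, s :: w => twl V x s * tw V (x + dsz s) w

/-- the reversed step -/
def flp (s : Stp d) : Stp d := (s.1, !s.2)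

/-- the reversed word -/
def rvw (w : List (Stp d)) : List (Stp d) := (w.map flp).reverse

/-- the reflected step -/
def mir (τ : Fin d) (s : Stp d) : Stp d := if s.1 = τ then flp s else s

lemma dw_append (w w' : List (Stp d)) : dw (w ++ w') = dw w + dw w' := by
  induction w with
  | nil => simp [dw]
  | cons s w ih => rw [List.cons_append, dw, dw, ih, add_assoc]

lemma tw_append (V : Ez d → G) (x : Fin d → ℤ) (w w' : List (Stp d)) :
    tw V x (w ++ w') = tw V x w * tw V (x + dw w) w' := by
  induction w generalizing x with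
  | nil => simp [tw, dw]
  | cons s w ih => rw [List.cons_append, tw, tw, ih, dw, mul_assoc, add_assoc]

lemma dsz_flp (s : Stp d) : dsz (flp s) = -dsz s := by
  obtain ⟨i, b⟩ := s
  cases b <;> simp [dsz, flp]

lemma twl_flp (V : Ez d → G) (x : Fin d → ℤ) (s : Stp d) :
    twl V (x + dsz s) (flp s) = (twl V x s)⁻¹ := by
  obtain ⟨i, b⟩ := s
  cases b <;> simp [twl, dsz, flp, sub_eq_add_neg]

lemma rvw_cons (s : Stp d) (w : List (Stp d)) : rvw (s :: w) = rvw w ++ [flp s] := by
  unfold rvw
  rw [List.map_cons, List.reverse_cons]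

lemma dw_rvw (w : List (Stp d)) : dw (rvw w) = -dw w := by
  induction w with
  | nil => simp [rvw, dw]
  | cons s w ih =>
    rw [rvw_cons, dw_append, ih, dw, dw, dw, dsz_flp]
    abel

lemma tw_rvw (V : Ez d → G) (x : Fin d → ℤ) (w : List (Stp d)) :
    tw V (x + dw w) (rvw w) = (tw V x w)⁻¹ := by
  induction w generalizing x with
  | nil => simp [rvw, tw]
  | cons s w ih =>
    rw [rvw_cons, tw_append, dw, ← add_assoc, ih, dw_rvw, add_neg_cancel_right, tw, tw, tw,
      mul_one, twl_flp, _root_.mul_inv_rev]

lemma rvw_rvw (w : List (Stp d)) : rvw (rvw w) = w := by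
  unfold rvw
  rw [List.map_reverse, List.reverse_reverse, List.map_map]
  have : (flp ∘ flp : Stp d → Stp d) = id := by
    funext s
    obtain ⟨i, b⟩ := s
    cases b <;> rfl
  rw [this, List.map_id]

lemma rp_dsz (τ : Fin d) (x : Fin d → ℤ) (s : Stp d) :
    rp τ (x + dsz s) = rp τ x + dsz (mir τ s) := by
  obtain ⟨i, b⟩ := s
  unfold rp mir
  by_cases h : i = τ
  · subst h
    simp only [if_true]
    rw [dsz_flp]
    funext j
    by_cases hj : j = i
    · subst hj
      simp
      ring
    · have : dsz (i, b) j = 0 := by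
        unfold dsz
        split_ifs
        · exact ez_ne hj
        · show -(ez i j) = 0
          rw [ez_ne hj, neg_zero]
      simp [hj, this]
  · simp only [if_neg h]
    funext j
    by_cases hj : j = τ
    · subst hj
      have : dsz (i, b) j = 0 := by
        unfold dsz
        split_ifs
        · exact ez_ne (Ne.symm h)
        · show -(ez i j) = 0
          rw [ez_ne (Ne.symm h), neg_zero]
      simp [this]
    · simp [hj]

lemma twl_rf (τ : Fin d) (V : Ez d → G) (x : Fin d → ℤ) (s : Stp d) :
    twl (rf τ V) x s = twl V (rp τ x) (mir τ s) := by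
  obtain ⟨i, b⟩ := s
  by_cases h : i = τ
  · subst h
    have e : mir i ((i, b) : Stp d) = (i, !b) := by unfold mir flp; simp
    rw [e]
    cases b
    · show (rf i V (x - ez i, i))⁻¹ = V (rp i x, i)
      rw [rf_same, inv_inv]
      congr 2
      funext j
      unfold rp
      by_cases hj : j = i
      · subst hj; simp; ring
      · simp [hj]
    · show rf i V (x, i) = (V (rp i x - ez i, i))⁻¹
      rw [rf_same]
      congr 3
      funext j
      unfold rp
      by_cases hj : j = i
      · subst hj; simp; ring
      · simp [hj]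
  · have e : mir τ ((i, b) : Stp d) = (i, b) := by unfold mir; simp [h]
    rw [e]
    cases b
    · show (rf τ V (x - ez i, i))⁻¹ = (V (rp τ x - ez i, i))⁻¹
      rw [rf_ne h]
      congr 3
      funext j
      unfold rp
      by_cases hj : j = τ
      · subst hj; simp [Ne.symm h]
      · simp [hj]
    · show rf τ V (x, i) = V (rp τ x, i)
      rw [rf_ne h]

lemma tw_rf (τ : Fin d) (V : Ez d → G) (x : Fin d → ℤ) (w : List (Stp d)) :
    tw (rf τ V) x w = tw V (rp τ x) (w.map (mir τ)) := by
  induction w generalizing x with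
  | nil => rfl
  | cons s w ih => rw [List.map_cons, tw, tw, ih, rp_dsz, twl_rf]

lemma rp_dw (τ : Fin d) (x : Fin d → ℤ) (w : List (Stp d)) :
    rp τ (x + dw w) = rp τ x + dw (w.map (mir τ)) := by
  induction w generalizing x with
  | nil => simp [dw]
  | cons s w ih => rw [List.map_cons, dw, dw, ← add_assoc, ih, rp_dsz, add_assoc]

lemma tw_sh (z : Fin d → ℤ) (V : Ez d → G) (x : Fin d → ℤ) (w : List (Stp d)) :
    tw (sh z V) x w = tw V (x + z) w := by
  induction w generalizing x with
  | nil => rfl
  | cons s w ih =>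
    rw [tw, tw, ih, add_right_comm]
    congr 1
    unfold twl sh
    simp only
    split_ifs
    · rfl
    · rw [sub_add_eq_add_sub]

lemma tw_gz (γ : (Fin d → ℤ) → G) (V : Ez d → G) (x : Fin d → ℤ) (w : List (Stp d)) :
    tw (gz γ V) x w = γ x * tw V x w * (γ (x + dw w))⁻¹ := by
  induction w generalizing x with
  | nil => simp [tw, dw]
  | cons s w ih =>
    rw [tw, tw, ih, dw, ← add_assoc]
    have e : twl (gz γ V) x s = γ x * twl V x s * (γ (x + dsz s))⁻¹ := by
      obtain ⟨i, b⟩ := s
      cases b
      · show (γ (x - ez i) * V (x - ez i, i) * (γ (x - ez i + ez i))⁻¹)⁻¹ =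
          γ x * (V (x - ez i, i))⁻¹ * (γ (x + -ez i))⁻¹
        rw [sub_add_cancel, ← sub_eq_add_neg]
        group
      · rfl
    rw [e]
    group

lemma tw_rep (V : Ez d → G) (x : Fin d → ℤ) (i : Fin d) (m : ℕ) :
    tw V x (List.replicate m (i, true)) = pz V i m x := by
  induction m generalizing x with
  | zero => rfl
  | succ m ih => rw [List.replicate_succ, tw, ih, pz_succ]; rfl

lemma dw_rep (i : Fin d) (m : ℕ) :
    dw (List.replicate m ((i, true) : Stp d)) = Pi.single i (m : ℤ) := by
  induction m with
  | zero => simp [dw]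
  | succ m ih => rw [List.replicate_succ, dw, ih, sg_succ]; rfl

lemma rvw_rep (i : Fin d) (m : ℕ) :
    rvw (List.replicate m ((i, true) : Stp d)) = List.replicate m (i, false) := by
  unfold rvw
  rw [List.map_replicate, List.reverse_replicate]
  rfl

lemma tw_rep' (V : Ez d → G) (x : Fin d → ℤ) (i : Fin d) (m : ℕ) :
    tw V (x + Pi.single i (m : ℤ)) (List.replicate m (i, false)) = (pz V i m x)⁻¹ := by
  rw [← rvw_rep, ← dw_rep, tw_rvw, tw_rep]

lemma dw_rep' (i : Fin d) (m : ℕ) :
    dw (List.replicate m ((i, false) : Stp d)) = -Pi.single i (m : ℤ) := by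
  rw [← rvw_rep, dw_rvw, dw_rep]

/-- words without steps in the direction `i` -/
def Nos (i : Fin d) (w : List (Stp d)) : Prop := ∀ s ∈ w, s.1 ≠ i

/-- words without negative steps in the direction `i` -/
def Pst (i : Fin d) (w : List (Stp d)) : Prop := ∀ s ∈ w, s.1 = i → s.2 = true

lemma dsz_ne {i : Fin d} {s : Stp d} (h : s.1 ≠ i) : dsz s i = 0 := by
  unfold dsz
  split_ifs
  · exact ez_ne h.symm
  · show -(ez s.1 i) = 0
    rw [ez_ne h.symm, neg_zero]

lemma dw_nos {i : Fin d} {w : List (Stp d)} (h : Nos i w) : dw w i = 0 := by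
  induction w with
  | nil => rfl
  | cons s w ih =>
    rw [dw, Pi.add_apply, dsz_ne (h s List.mem_cons_self),
      ih fun s' hs' => h s' (List.mem_cons_of_mem _ hs'), add_zero]

lemma tw_nos {i : Fin d} {w : List (Stp d)} (h : Nos i w) {x : Fin d → ℤ} (hx : x i = 0) :
    Dep (HP i) fun V : Ez d → G => tw V x w := by
  intro V V' hV
  show tw V x w = tw V' x w
  induction w generalizing x with
  | nil => rfl
  | cons s w ih =>
    have hs := h s List.mem_cons_self
    rw [tw, tw, ih (fun s' hs' => h s' (List.mem_cons_of_mem _ hs')) (x := x + dsz s)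
      (by rw [Pi.add_apply, dsz_ne hs, hx, add_zero])]
    congr 1
    unfold twl
    split_ifs
    · exact hV _ ⟨hs, hx⟩
    · congr 1
      refine hV _ ⟨hs, ?_⟩
      show x i - ez s.1 i = 0
      rw [hx, ez_ne hs.symm, sub_zero]

lemma tw_pst {i : Fin d} {w : List (Stp d)} (h : Pst i w) {x : Fin d → ℤ} (hx : 0 ≤ x i)
    {m : ℕ} (hm : x i + w.length ≤ m) : Dep (HS i m) fun V : Ez d → G => tw V x w := by
  intro V V' hV
  show tw V x w = tw V' x w
  induction w generalizing x with
  | nil => rfl
  | cons s w ih =>
    have hs := h s List.mem_cons_self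
    rw [List.length_cons] at hm
    push_cast at hm
    by_cases hi : s.1 = i
    · have hs2 := hs hi
      have e1 : dsz s i = 1 := by
        unfold dsz
        rw [if_pos hs2, hi, ez_same]
      rw [tw, tw, ih (fun s' hs' => h s' (List.mem_cons_of_mem _ hs')) (x := x + dsz s)
        (by rw [Pi.add_apply, e1]; linarith) (by rw [Pi.add_apply, e1]; linarith)]
      congr 1
      unfold twl
      rw [if_pos hs2, if_pos hs2]
      refine hV _ ⟨hx, ?_⟩
      show x i ≤ m
      have : (0 : ℤ) ≤ w.length := Int.natCast_nonneg _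
      linarith
    · have e1 : dsz s i = 0 := dsz_ne hi
      have h0 : (0 : ℤ) ≤ w.length := Int.natCast_nonneg _
      rw [tw, tw, ih (fun s' hs' => h s' (List.mem_cons_of_mem _ hs')) (x := x + dsz s)
        (by rw [Pi.add_apply, e1]; linarith) (by rw [Pi.add_apply, e1]; linarith)]
      congr 1
      unfold twl
      split_ifs
      · refine hV _ ⟨hx, ?_⟩
        show x i ≤ m
        linarith
      · congr 1
        have e2 : (x - ez s.1) i = x i := by
          show x i - ez s.1 i = x i
          rw [ez_ne (Ne.symm hi), sub_zero]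
        refine hV _ ⟨?_, ?_⟩
        · show 0 ≤ (x - ez s.1) i
          rw [e2]; exact hx
        · show (x - ez s.1) i ≤ m
          rw [e2]; linarith

end alg

variable {G : Type*} [Group G] [TopologicalSpace G] [IsTopologicalGroup G] {d : ℕ}

lemma tw_cont (x : Fin d → ℤ) (w : List (Stp d)) : Continuous fun V : Ez d → G => tw V x w := by
  induction w generalizing x with
  | nil => exact continuous_const
  | cons s w ih =>
    refine Continuous.mul ?_ (ih _)
    unfold twl
    split_ifs
    · exact continuous_apply _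
    · exact (continuous_apply _).inv

end

end Pool.Agent.N985
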