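import Mathlib
import Pool.Agent.N985.Str
import Pool.Agent.N985.Wd

/-!
# Two strings and the static sources
-/

open MeasureTheory Matrix Filter
open scoped Matrix.Norms.Frobenius ContDiff Topology
open Pool.Agent.H906R3.YM hiding Pl
open Pool.Agent.W793.YM Pool.Agent.TH618.YM Pool.Agent.Y14 Pool.Agent.R990

namespace Pool.Agent.N985

set_option linter.unusedSectionVars false
set_option linter.unusedVariables false

noncomputable section

variable {G : Type*} [Group G] [TopologicalSpace G] [IsTopologicalGroup G] [CompactSpace G]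
  [SecondCountableTopology G] [MeasurableSpace G] [BorelSpace G] {μ : Measure G}
  [IsProbabilityMeasure μ] [μ.IsMulLeftInvariant] [μ.IsMulRightInvariant] [μ.IsInvInvariant]
  {N n : ℕ} {L : LD G N n} {d : ℕ} {β : ℝ} {E : ((Ez d → G) → ℝ) → ℝ}

section iter

variable {B : Type*} [Fintype B] [DecidableEq B] {τ : Fin d} {a b : B → Fin d → ℤ}

/-- the iterates of the transfer operator -/
lemma TL_iter (ha : ∀ u, a u τ = 0) (hb : ∀ u, b u τ = 0) (m : ℕ) (x : OB L τ a b)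
    (V : Ez d → G) (u v : B) : (((TL ha hb)^[m]) x).1 V u v =
      L.rho (pz V τ m (a u)) * x.1 (sh (Pi.single τ (m : ℤ)) V) u v *
        (L.rho (pz V τ m (b v)))ᴴ := by
  induction m generalizing V with
  | zero =>
    simp only [Function.iterate_zero, id_eq, Nat.cast_zero, Pi.single_zero, sh_zero, pz_zero,
      map_one, one_mul, conjTranspose_one, mul_one]
  | succ m ih =>
    rw [Function.iterate_succ_apply', TL_apply, TT_apply, ih, pz_succ, pz_succ, pz_sh, pz_sh,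
      sh_succ, map_mul, map_mul, conjTranspose_mul]
    simp only [Matrix.mul_assoc]

end iter

variable {k : ℕ} {dr : Bool → Fin d} {τ τ0 : Fin d}

/-- the translated box -/
def pR (dr : Bool → Fin d) (τ0 : Fin d) (R : ℕ) (u : Bx k) : Fin d → ℤ :=
  ps dr u + Pi.single τ0 (R : ℤ)

lemma pR_t (h : Dirs dr τ τ0) (R : ℕ) (u : Bx k) : pR dr τ0 R u τ = 0 := by
  unfold pR
  rw [Pi.add_apply, ps_ne h.t, Pi.single_eq_of_ne h.tt, add_zero]

variable (L) in
/-- the observables of the pairs of strings -/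
abbrev OR (k : ℕ) (τ τ0 : Fin d) (dr : Bool → Fin d) (R : ℕ) :
    Submodule ℝ ((Ez d → G) → Mb (Bx k) N) := OB L τ (ps dr) (pR dr τ0 R)

/-- right multiplication by the translated hopping operators -/
lemma HM_rR (h : Dirs dr τ τ0) (R : ℕ) (i : Bool) : HM L τ (ps (k := k) dr) (pR dr τ0 R)
    (fun V => LinearMap.mulRight ℝ (Pm (zV L dr (sh (Pi.single τ0 (R : ℤ)) V)) i)) := by
  refine ⟨fun A => mb_mul_cont continuous_const ((Pm_cont (z := fun V : Ez d → G => zV L dr V)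
    zV_cont i).comp (sh_cont _)), fun A V V' hV => ?_, fun γ V A => ?_⟩
  · show A * Pm (zV L dr (sh (Pi.single τ0 (R : ℤ)) V)) i =
      A * Pm (zV L dr (sh (Pi.single τ0 (R : ℤ)) V')) i
    rw [zV_dep h.t (sh (Pi.single τ0 (R : ℤ)) V) (sh (Pi.single τ0 (R : ℤ)) V') fun e he =>
      hV _ ⟨he.1, by
        show (e.1 + Pi.single τ0 (R : ℤ) : Fin d → ℤ) τ = 0
        rw [Pi.add_apply, Pi.single_eq_of_ne h.tt, add_zero]
        exact he.2⟩]
  · show gcj L (ps dr) (pR dr τ0 R) γ A * Pm (zV L dr (sh (Pi.single τ0 (R : ℤ)) (gz γ V))) i =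
      gcj L (ps dr) (pR dr τ0 R) γ (A * Pm (zV L dr (sh (Pi.single τ0 (R : ℤ)) V)) i)
    obtain ⟨γ', hγ'⟩ : ∃ γ' : (Fin d → ℤ) → G, γ' = fun x => γ (x + Pi.single τ0 (R : ℤ)) :=
      ⟨_, rfl⟩
    rw [sh_gz, ← hγ', zV_gz, Pm_cov (cmp_ps γ')]
    have e1 : ∀ C : Mb (Bx k) N, gcj L (ps dr) (pR dr τ0 R) γ C =
        Gd (fun u => L.rho (γ (ps dr u))) * C * (Gd (fun u => L.rho (γ' (ps dr u))))ᴴ := by
      intro C
      ext1 u v
      rw [mul_Gd, Gd_mul, hγ']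
      rfl
    rw [e1, e1]
    have f3 := Gd_unit (cmp_ps (L := L) (dr := dr) (k := k) γ').u
    obtain ⟨S, hS⟩ : ∃ S, S = Pm (zV L dr (sh (Pi.single τ0 (R : ℤ)) V)) i := ⟨_, rfl⟩
    rw [← hS]
    calc _ = Gd (fun u => L.rho (γ (ps dr u))) * A * ((Gd fun u => L.rho (γ' (ps dr u)))ᴴ *
          Gd fun u => L.rho (γ' (ps dr u))) * S * (Gd (fun u => L.rho (γ' (ps dr u))))ᴴ := by
          simp only [Matrix.mul_assoc]
      _ = _ := by
          rw [f3, mul_one]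
          simp only [Matrix.mul_assoc]

/-- left hops -/
def lR (h : Dirs dr τ τ0) (R : ℕ) (i : Bool) : OR L k τ τ0 dr R →ₗ[ℝ] OR L k τ τ0 dr R :=
  (HM_lP h.t i).lin

/-- right hops -/
def rR (h : Dirs dr τ τ0) (R : ℕ) (i : Bool) : OR L k τ τ0 dr R →ₗ[ℝ] OR L k τ τ0 dr R :=
  (HM_rR h R i).lin

/-- the transfer operator -/
def TR (h : Dirs dr τ τ0) (R : ℕ) : OR L k τ τ0 dr R →ₗ[ℝ] OR L k τ τ0 dr R :=
  TL (ps_ne h.t) (pR_t h R)

/-- one step on the left -/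
def lSR (h : Dirs dr τ τ0) (R : ℕ) (q : ℝ) : OR L k τ τ0 dr R →ₗ[ℝ] OR L k τ τ0 dr R :=
  (1 - q) • LinearMap.id + (q / 2) • (lR h R false + lR h R true)

/-- one step on the right -/
def rSR (h : Dirs dr τ τ0) (R : ℕ) (q : ℝ) : OR L k τ τ0 dr R →ₗ[ℝ] OR L k τ τ0 dr R :=
  (1 - q) • LinearMap.id + (q / 2) • (rR h R false + rR h R true)

lemma lSR_apply (h : Dirs dr τ τ0) (R : ℕ) (q : ℝ) (x : OR L k τ τ0 dr R) (V : Ez d → G) :
    (lSR h R q x).1 V = Sc (zV L dr V) q * x.1 V := by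
  have e : (lSR h R q x).1 V = (1 - q) • x.1 V + (q / 2) • (Pm (zV L dr V) false * x.1 V +
      Pm (zV L dr V) true * x.1 V) := rfl
  rw [e]
  unfold Sc
  rw [add_mul, smul_mul_assoc, smul_mul_assoc, one_mul, add_mul]

lemma rSR_apply (h : Dirs dr τ τ0) (R : ℕ) (q : ℝ) (x : OR L k τ τ0 dr R) (V : Ez d → G) :
    (rSR h R q x).1 V = x.1 V * Sc (zV L dr (sh (Pi.single τ0 (R : ℤ)) V)) q := by
  have e : (rSR h R q x).1 V = (1 - q) • x.1 V +
      (q / 2) • (x.1 V * Pm (zV L dr (sh (Pi.single τ0 (R : ℤ)) V)) false +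
      x.1 V * Pm (zV L dr (sh (Pi.single τ0 (R : ℤ)) V)) true) := rfl
  rw [e]
  unfold Sc
  rw [mul_add, mul_smul_comm, mul_smul_comm, mul_one, mul_add]

lemma TR_apply (h : Dirs dr τ τ0) (R : ℕ) (x : OR L k τ τ0 dr R) (V : Ez d → G) :
    (TR h R x).1 V = Dz L dr τ V * x.1 (sh (ez τ) V) *
      (Dz L dr τ (sh (Pi.single τ0 (R : ℤ)) V))ᴴ := by
  ext1 u v
  unfold Dz
  rw [mul_Gd, Gd_mul]
  rfl

variable (L) in
/-- the straight lines between the boxes -/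
def Hm (dr : Bool → Fin d) (τ0 : Fin d) (R : ℕ) (V : Ez d → G) : Mb (Bx k) N :=
  Gd fun u => L.rho (pz V τ0 R (ps dr u))

lemma Hm_cont (R : ℕ) : Continuous fun V : Ez d → G => (Hm L dr τ0 R V : Mb (Bx k) N) :=
  Gd_cont fun u => L.cont.comp (pz_cont _ _ _)

lemma Hm_dep (h : Dirs dr τ τ0) (R : ℕ) :
    Dep (HP τ) fun V : Ez d → G => (Hm L dr τ0 R V : Mb (Bx k) N) := by
  intro V V' hV
  show Hm L dr τ0 R V = Hm L dr τ0 R V'
  unfold Hm
  congr 1
  funext u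
  congr 1
  exact pz_dep h.tt.symm R (ps_ne h.t u) V V' hV

/-- the straight lines between the boxes as observables -/
def Ho (h : Dirs dr τ τ0) (R : ℕ) : OR L k τ τ0 dr R := ⟨fun V => Hm L dr τ0 R V, Hm_cont R,
  ⟨0, HP_HS' (Hm_dep h R) 0⟩, fun γ V u v => by
    unfold Hm Gd
    rw [Matrix.diagonal_apply, Matrix.diagonal_apply]
    split_ifs with huv
    · subst huv
      rw [pz_gz, map_mul, map_mul, L.rho_inv]
      rfl
    · rw [mul_zero, zero_mul]⟩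

lemma Ho_apply (h : Dirs dr τ τ0) (R : ℕ) (V : Ez d → G) :
    (Ho (L := L) (k := k) h R).1 V = Hm L dr τ0 R V := rfl

/-- the states of the pairs of strings -/
def wR (h : Dirs dr τ τ0) (R : ℕ) (q : ℝ) : ℕ → OR L k τ τ0 dr R
  | 0 => Ho h R
  | n + 1 => lSR h R q (rSR h R q (TR h R (wR h R q n)))

lemma TwR (h : Dirs dr τ τ0) (R : ℕ) (q : ℝ) (m : ℕ) (V : Ez d → G) :
    (TR h R (wR (L := L) (k := k) h R q m)).1 V = Pz L dr τ q m V *
      Hm L dr τ0 R (sh (Pi.single τ ((m + 1 : ℕ) : ℤ)) V) *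
      (Pz L dr τ q m (sh (Pi.single τ0 (R : ℤ)) V))ᴴ := by
  induction m generalizing V with
  | zero =>
    rw [TR_apply]
    show Dz L dr τ V * Hm L dr τ0 R (sh (ez τ) V) * _ = _
    rw [Pz_zero, Pz_zero]
    simp only [zero_add, Nat.cast_one]
  | succ m ih =>
    rw [TR_apply]
    show Dz L dr τ V * (lSR h R q (rSR h R q (TR h R (wR h R q m)))).1 (sh (ez τ) V) * _ = _
    rw [lSR_apply, rSR_apply, ih, Pz_succ, Pz_succ, sh_succ (m + 1)]
    have e : sh (Pi.single τ0 (R : ℤ)) (sh (ez τ) V) = sh (ez τ) (sh (Pi.single τ0 (R : ℤ)) V) := by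
      rw [sh_sh, sh_sh, add_comm]
    rw [e, Matrix.conjTranspose_mul, Matrix.conjTranspose_mul, Sc_ct]
    simp only [Matrix.mul_assoc]

section

variable (hE : IV μ L β E)
include hE

/-- **two strings as states of the static sources** -/
theorem bb_eq (h : Dirs dr τ τ0) (q : ℝ) (m R : ℕ) : bb (k := k) hE h q m R =
    (FF hE τ (ps dr) (pR dr τ0 R)).f (Ho (L := L) (k := k) h R)
      (TR h R (wR (L := L) (k := k) h R q m)) := by
  show sf E τ0 (Po' (L := L) (k := k) h q m).1 (((T0 h m)^[R]) (Po' (L := L) (k := k) h q m)).1 =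
    sf E τ (Ho (L := L) (k := k) h R).1 (TR h R (wR (L := L) (k := k) h R q m)).1
  unfold sf
  refine congrArg E (funext fun V => ?_)
  rw [Po'_rf hE, TwR, Ho_apply]
  have e1 : (Hm L dr τ0 R (rf τ V) : Mb (Bx k) N) = Hm L dr τ0 R V :=
    rf_HP hE (F := fun V : Ez d → G => (Hm L dr τ0 R V : Mb (Bx k) N)) (Hm_dep h R) V
  have e2 : (((T0 h m)^[R]) (Po' (L := L) (k := k) h q m)).1 V =
      Hm L dr τ0 R V * Pz L dr τ q m (sh (Pi.single τ0 (R : ℤ)) V) *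
        (Hm L dr τ0 R (sh (Pi.single τ ((m + 1 : ℕ) : ℤ)) V))ᴴ := by
    ext1 u v
    unfold T0
    rw [TL_iter]
    unfold Hm
    rw [mul_Gd, Gd_mul]
    have e3 : pz (sh (Pi.single τ ((m + 1 : ℕ) : ℤ)) V) τ0 R (ps dr v) =
        pz V τ0 R (psn dr τ m v) := by
      rw [pz_sh]
      unfold psn
      push_cast
      rfl
    rw [e3]
    rfl
  rw [e1, e2]
  have e4 : (Po' (L := L) (k := k) h q m).1 V = Pz L dr τ q m V := rfl
  rw [e4]
  obtain ⟨P, hP⟩ : ∃ P : Mb (Bx k) N, P = Pz L dr τ q m V := ⟨_, rfl⟩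
  obtain ⟨P', hP'⟩ : ∃ P' : Mb (Bx k) N, P' = Pz L dr τ q m (sh (Pi.single τ0 (R : ℤ)) V) :=
    ⟨_, rfl⟩
  obtain ⟨H, hH⟩ : ∃ H : Mb (Bx k) N, H = Hm L dr τ0 R V := ⟨_, rfl⟩
  obtain ⟨H', hH'⟩ : ∃ H' : Mb (Bx k) N, H' = Hm L dr τ0 R (sh (Pi.single τ ((m + 1 : ℕ) : ℤ)) V) :=
    ⟨_, rfl⟩
  rw [← hP, ← hP', ← hH, ← hH']
  rw [← ipb_mul_right, ipb_comm, ← ipb_mul_right]

end

end

end Pool.Agent.N985
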