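import Mathlib
import Pool.Agent.N985.Cap1

/-!
# Caps
-/

open MeasureTheory Matrix Filter
open scoped Matrix.Norms.Frobenius ContDiff Topology
open Pool.Agent.H906R3.YM hiding Pl
open Pool.Agent.W793.YM Pool.Agent.TH618.YM Pool.Agent.Y14 Pool.Agent.R990

namespace Pool.Agent.N985

set_option linter.unusedSectionVars false
set_option linter.unusedVariables false

noncomputable section

variable {G : Type*} [Group G] [TopologicalSpace G] [IsTopologicalGroup G] [CompactSpace G]
  [SecondCountableTopology G] [MeasurableSpace G] [BorelSpace G] {μ : Measure G}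
  [IsProbabilityMeasure μ] [μ.IsMulLeftInvariant] [μ.IsMulRightInvariant] [μ.IsInvInvariant]
  {N n : ℕ} {L : LD G N n} {d : ℕ} {β : ℝ} {E : ((Ez d → G) → ℝ) → ℝ}
  {k : ℕ} {dr : Bool → Fin d} {τ τ0 : Fin d}

lemma Pst.app {i : Fin d} {w w' : List (Stp d)} (h : Pst i w) (h' : Pst i w') :
    Pst i (w ++ w') := fun s hs => by
  rcases List.mem_append.1 hs with h1 | h1
  · exact h s h1
  · exact h' s h1

lemma Nos.app {i : Fin d} {w w' : List (Stp d)} (h : Nos i w) (h' : Nos i w') :
    Nos i (w ++ w') := fun s hs => by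
  rcases List.mem_append.1 hs with h1 | h1
  · exact h s h1
  · exact h' s h1

lemma Pst.rep {i j : Fin d} (m : ℕ) : Pst i (List.replicate m ((j, true) : Stp d)) :=
  fun s hs _ => by rw [List.eq_of_mem_replicate hs]

lemma Pst.rep' {i j : Fin d} (hij : j ≠ i) (m : ℕ) (b : Bool) :
    Pst i (List.replicate m ((j, b) : Stp d)) :=
  fun s hs h => by rw [List.eq_of_mem_replicate hs] at h; exact absurd h hij

lemma Nos.rep {i j : Fin d} (hij : j ≠ i) (m : ℕ) (b : Bool) :
    Nos i (List.replicate m ((j, b) : Stp d)) :=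
  fun s hs => by rw [List.eq_of_mem_replicate hs]; exact hij

lemma Pst.nil {i : Fin d} : Pst i [] := fun s hs => absurd hs List.not_mem_nil

lemma Nos.nil {i : Fin d} : Nos i [] := fun s hs => absurd hs List.not_mem_nil

variable (L) in
/-- the matrices of the caps -/
def cpm (dr : Bool → Fin d) (τ0 : Fin d) (R : ℕ) (u v : Bx k) (α α' : List (Stp d))
    (V : Ez d → G) : Mb (Bx k) N :=
  Matrix.single u v (L.rho (tw V (ps dr u) (α ++ List.replicate R (τ0, true)) *
    (tw V (pR dr τ0 R v) α')⁻¹))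

/-- the data of the caps -/
structure CP (dr : Bool → Fin d) (τ τ0 : Fin d) (u v : Bx k) (α α' : List (Stp d)) : Prop where
  n : Nos τ0 α
  n' : Nos τ0 α'
  p : Pst τ α
  p' : Pst τ α'
  e : ps dr u + dw α = ps dr v + dw α'

lemma Dep.mono' {A A' : Ez d → Prop} {α : Type*} {F : (Ez d → G) → α} (hF : Dep A F)
    (h : ∀ e, A e → A' e) : Dep A' F := fun V V' hV => hF V V' fun e he => hV e (h e he)

/-- the caps -/
def cpo (h : Dirs dr τ τ0) (R : ℕ) {u v : Bx k} {α α' : List (Stp d)}
    (c : CP dr τ τ0 u v α α') : OR L k τ τ0 dr R := ⟨cpm L dr τ0 R u v α α', by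
    refine continuous_matrix fun a b => ?_
    unfold cpm
    simp only [Matrix.single_apply]
    split_ifs
    · exact L.cont.comp ((tw_cont _ _).mul (tw_cont _ _).inv)
    · exact continuous_const,
    ⟨max (α ++ List.replicate R ((τ0, true) : Stp d)).length α'.length, fun V V' hV => by
      unfold cpm
      have h1 := tw_pst (c.p.app (Pst.rep' h.tt.symm R true)) (x := ps dr u) (ps_ne h.t u).ge
        (m := max (α ++ List.replicate R ((τ0, true) : Stp d)).length α'.length)
        (by rw [ps_ne h.t u, zero_add]; exact_mod_cast le_max_left _ _) V V' hV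
      have h2 := tw_pst c.p' (x := pR dr τ0 R v) (pR_t h R v).ge
        (m := max (α ++ List.replicate R ((τ0, true) : Stp d)).length α'.length)
        (by rw [pR_t h R v, zero_add]; exact_mod_cast le_max_right _ _) V V' hV
      simp only at h1 h2
      rw [h1, h2]⟩, fun γ V a b => by
    unfold cpm
    rw [Matrix.single_apply, Matrix.single_apply]
    split_ifs with hab
    · obtain ⟨rfl, rfl⟩ := hab
      rw [tw_gz, tw_gz, dw_append, dw_rep, ← add_assoc, c.e]
      have e1 : pR dr τ0 R v + dw α' = ps dr v + dw α' + Pi.single τ0 (R : ℤ) := by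
        unfold pR
        abel
      rw [e1, ← L.rho_inv, ← map_mul, ← map_mul]
      congr 1
      group
    · simp⟩

lemma cpo_apply (h : Dirs dr τ τ0) (R : ℕ) {u v : Bx k} {α α' : List (Stp d)}
    (c : CP dr τ τ0 u v α α') (V : Ez d → G) :
    (cpo (L := L) h R c).1 V = cpm L dr τ0 R u v α α' V := rfl

variable (L) in
/-- the caps -/
def isCap (h : Dirs dr τ τ0) (R : ℕ) (x : OR L k τ τ0 dr R) : Prop :=
  ∃ (u v : Bx k) (α α' : List (Stp d)) (c : CP dr τ τ0 u v α α'), x = cpo h R c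

variable (L) in
/-- the span of the caps -/
def SC (h : Dirs dr τ τ0) (R : ℕ) : Submodule ℝ (OR L k τ τ0 dr R) :=
  Submodule.span ℝ {x | isCap L h R x}

lemma SC_of (h : Dirs dr τ τ0) (R : ℕ) {u v : Bx k} {α α' : List (Stp d)}
    (c : CP dr τ τ0 u v α α') : cpo (L := L) h R c ∈ SC (L := L) (k := k) h R :=
  Submodule.subset_span ⟨u, v, α, α', c, rfl⟩

lemma SC_map (h : Dirs dr τ τ0) (R : ℕ) {F : OR L k τ τ0 dr R →ₗ[ℝ] OR L k τ τ0 dr R}
    (hF : ∀ {u v : Bx k} {α α' : List (Stp d)} (c : CP dr τ τ0 u v α α'),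
      F (cpo h R c) ∈ SC (L := L) (k := k) h R) {x : OR L k τ τ0 dr R}
    (hx : x ∈ SC (L := L) (k := k) h R) : F x ∈ SC (L := L) (k := k) h R := by
  have h1 : SC (L := L) (k := k) h R ≤ (SC (L := L) (k := k) h R).comap F := by
    unfold SC
    rw [Submodule.span_le]
    rintro y ⟨u, v, α, α', c, rfl⟩
    exact hF c
  exact h1 hx

lemma OR_ext {R : ℕ} {x y : OR L k τ τ0 dr R} (h : ∀ V, x.1 V = y.1 V) : x = y :=
  Subtype.ext (funext h)

lemma SC_T (h : Dirs dr τ τ0) (R : ℕ) {x : OR L k τ τ0 dr R} (hx : x ∈ SC (L := L) (k := k) h R) :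
    TR h R x ∈ SC (L := L) (k := k) h R := by
  refine SC_map h R (fun {u v α α'} c => ?_) hx
  have c' : CP dr τ τ0 u v ((τ, true) :: α) ((τ, true) :: α') := by
    refine ⟨fun s hs => ?_, fun s hs => ?_, fun s hs => ?_, fun s hs => ?_, ?_⟩
    · rcases List.mem_cons.1 hs with h1 | h1
      · rw [h1]; exact h.tt
      · exact c.n s h1
    · rcases List.mem_cons.1 hs with h1 | h1
      · rw [h1]; exact h.tt
      · exact c.n' s h1
    · rcases List.mem_cons.1 hs with h1 | h1
      · rw [h1]; exact fun _ => rfl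
      · exact c.p s h1
    · rcases List.mem_cons.1 hs with h1 | h1
      · rw [h1]; exact fun _ => rfl
      · exact c.p' s h1
    · rw [dw, dw, add_left_comm, c.e, add_left_comm]
  have e : TR h R (cpo (L := L) h R c) = cpo h R c' := by
    refine OR_ext fun V => ?_
    ext1 a b
    show L.rho (V (ps dr a, τ)) * cpm L dr τ0 R u v α α' (sh (ez τ) V) a b *
      (L.rho (V (pR dr τ0 R b, τ)))ᴴ = cpm L dr τ0 R u v ((τ, true) :: α) ((τ, true) :: α') V a b
    unfold cpm
    rw [Matrix.single_apply, Matrix.single_apply]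
    split_ifs with hab
    · obtain ⟨rfl, rfl⟩ := hab
      rw [← L.rho_inv, ← map_mul, ← map_mul, tw_sh, tw_sh, List.cons_append, tw, tw]
      congr 1
      show V (ps dr u, τ) * (tw V (ps dr u + ez τ) (α ++ List.replicate R (τ0, true)) *
        (tw V (pR dr τ0 R v + ez τ) α')⁻¹) * (V (pR dr τ0 R v, τ))⁻¹ =
        V (ps dr u, τ) * tw V (ps dr u + ez τ) (α ++ List.replicate R (τ0, true)) *
        (V (pR dr τ0 R v, τ) * tw V (pR dr τ0 R v + ez τ) α')⁻¹
      group
    · simp
  rw [e]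
  exact SC_of h R c'

/-! ### hops -/

/-- the words of the hops -/
def hw (dr : Bool → Fin d) (i : Bool) (a b : Fin k) : List (Stp d) :=
  if a ≤ b then List.replicate (b - a) (dr i, true) else List.replicate (a - b) (dr i, false)

lemma hw_n (h : Dirs dr τ τ0) (i : Bool) (a b : Fin k) : Nos τ0 (hw dr i a b) := by
  unfold hw
  split_ifs
  · exact Nos.rep (h.t0 i) _ _
  · exact Nos.rep (h.t0 i) _ _

lemma hw_p (h : Dirs dr τ τ0) (i : Bool) (a b : Fin k) : Pst τ (hw dr i a b) := by
  unfold hw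
  split_ifs
  · exact Pst.rep' (h.t i) _ _
  · exact Pst.rep' (h.t i) _ _

lemma hw_dw (i : Bool) (o a b : Fin k) :
    ps dr (mkp i a o) + dw (hw dr i a b) = ps dr (mkp i b o) := by
  rw [ps_eq, ps_eq]
  unfold hw
  split_ifs with hab
  · rw [dw_rep, add_right_comm, ← sg_add]
    congr 2
    have : (a : ℕ) ≤ b := hab
    congr 1
    omega
  · rw [dw_rep', add_right_comm]
    congr 1
    have h1 : (b : ℕ) ≤ a := (not_le.1 hab).le
    have h2 : ((a : ℕ) : ℤ) = (((b : ℕ) + (a - b : ℕ) : ℕ) : ℤ) := by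
      congr 1
      omega
    rw [h2, sg_add, add_neg_cancel_right]

lemma hol_tw (V : Ez d → G) (i : Bool) (o a b : Fin k) :
    hol (zV L dr V) i o a b = L.rho (tw V (ps dr (mkp i a o)) (hw dr i a b)) := by
  unfold hol hw
  split_ifs with hab
  · have h1 : (a : ℕ) ≤ b := hab
    rw [tw_rep, Wl_pz V i o a (b - a) (by omega), ps_eq]
  · have h1 : (b : ℕ) ≤ a := (not_le.1 hab).le
    rw [Wl_pz V i o b (a - b) (by omega), ← L.rho_inv, ← tw_rep', ps_eq, add_right_comm, ← sg_add]
    have h2 : (b : ℕ) + (a - b) = a := by omega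
    rw [h2]

lemma Pm_single (z : Lk k → Mat N) (i : Bool) (u v : Bx k) (X : Mat N) :
    Pm z i * Matrix.single u v X = ∑ a, (k : ℝ)⁻¹ • Matrix.single (mkp i a (oc i u)) v
      (hol z i (oc i u) a (ac i u) * X) := by
  ext1 a b
  rw [Matrix.sum_apply, Matrix.mul_apply, Finset.sum_eq_single u]
  · simp only [Matrix.smul_apply, Matrix.single_apply]
    by_cases hb : v = b
    · subst hb
      simp only [and_true, if_true]
      unfold Pm
      rw [lop_apply]
      by_cases ho : oc i a = oc i u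
      · rw [if_pos ho, Finset.sum_eq_single (ac i a)]
        · rw [← ho, mkp_eta, if_pos rfl, smul_mul_assoc]
        · intro c _ hc
          rw [if_neg, smul_zero]
          intro h
          apply hc
          rw [← h, ac_mkp]
        · simp
      · rw [if_neg ho, zero_mul, Finset.sum_eq_zero]
        intro c _
        rw [if_neg, smul_zero]
        intro h
        apply ho
        rw [← h, oc_mkp]
    · simp [hb]
  · intro c _ hc
    rw [Matrix.single_apply_of_row_ne hc.symm, mul_zero]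
  · simp

lemma single_ct (u v : Bx k) (X : Mat N) : (Matrix.single u v X)ᴴ = Matrix.single v u Xᴴ := by
  ext1 a b
  rw [Matrix.conjTranspose_apply, Matrix.single_apply, Matrix.single_apply]
  by_cases h : u = b ∧ v = a
  · rw [if_pos h, if_pos h.symm]
    rfl
  · rw [if_neg h, if_neg fun h' => h h'.symm, star_zero]

lemma single_Pm (z : Lk k → Mat N) (i : Bool) (u v : Bx k) (X : Mat N) :
    Matrix.single u v X * Pm z i = ∑ a, (k : ℝ)⁻¹ • Matrix.single u (mkp i a (oc i v))
      (X * (hol z i (oc i v) a (ac i v))ᴴ) := by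
  rw [mul_Pm, single_ct, Pm_single, Matrix.conjTranspose_sum]
  refine Finset.sum_congr rfl fun a _ => ?_
  rw [Matrix.conjTranspose_smul, single_ct, conjTranspose_mul, conjTranspose_conjTranspose,
    star_trivial]

lemma SC_l (h : Dirs dr τ τ0) (R : ℕ) (i : Bool) {x : OR L k τ τ0 dr R}
    (hx : x ∈ SC (L := L) (k := k) h R) : lR h R i x ∈ SC (L := L) (k := k) h R := by
  refine SC_map h R (fun {u v α α'} c => ?_) hx
  have c' : ∀ a : Fin k, CP dr τ τ0 (mkp i a (oc i u)) v (hw dr i a (ac i u) ++ α) α' := fun a =>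
    ⟨(hw_n h i _ _).app c.n, c.n', (hw_p h i _ _).app c.p, c.p', by
      rw [dw_append, ← add_assoc, hw_dw, mkp_eta, c.e]⟩
  have e : lR h R i (cpo (L := L) h R c) = ∑ a, (k : ℝ)⁻¹ • cpo h R (c' a) := by
    refine OR_ext fun V => ?_
    have e1 : (∑ a, (k : ℝ)⁻¹ • cpo (L := L) h R (c' a) : OR L k τ τ0 dr R).1 V =
        ∑ a, (k : ℝ)⁻¹ • cpm L dr τ0 R (mkp i a (oc i u)) v (hw dr i a (ac i u) ++ α) α' V := by
      rw [Submodule.coe_sum, Finset.sum_apply]
      rfl
    rw [e1]
    show Pm (zV L dr V) i * cpm L dr τ0 R u v α α' V = _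
    unfold cpm
    rw [Pm_single]
    refine Finset.sum_congr rfl fun a _ => ?_
    congr 2
    rw [hol_tw, ← map_mul, List.append_assoc, tw_append V _ (hw dr i a (ac i u)), hw_dw, mkp_eta,
      mul_assoc]
  rw [e]
  exact Submodule.sum_mem _ fun a _ => Submodule.smul_mem _ _ (SC_of h R (c' a))

lemma SC_r (h : Dirs dr τ τ0) (R : ℕ) (i : Bool) {x : OR L k τ τ0 dr R}
    (hx : x ∈ SC (L := L) (k := k) h R) : rR h R i x ∈ SC (L := L) (k := k) h R := by
  refine SC_map h R (fun {u v α α'} c => ?_) hx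
  have c' : ∀ a : Fin k, CP dr τ τ0 u (mkp i a (oc i v)) α (hw dr i a (ac i v) ++ α') := fun a =>
    ⟨c.n, (hw_n h i _ _).app c.n', c.p, (hw_p h i _ _).app c.p', by
      rw [dw_append, ← add_assoc, hw_dw, mkp_eta, c.e]⟩
  have e : rR h R i (cpo (L := L) h R c) = ∑ a, (k : ℝ)⁻¹ • cpo h R (c' a) := by
    refine OR_ext fun V => ?_
    have e1 : (∑ a, (k : ℝ)⁻¹ • cpo (L := L) h R (c' a) : OR L k τ τ0 dr R).1 V =
        ∑ a, (k : ℝ)⁻¹ • cpm L dr τ0 R u (mkp i a (oc i v)) α (hw dr i a (ac i v) ++ α') V := by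
      rw [Submodule.coe_sum, Finset.sum_apply]
      rfl
    rw [e1]
    show cpm L dr τ0 R u v α α' V * Pm (zV L dr (sh (Pi.single τ0 (R : ℤ)) V)) i = _
    unfold cpm
    rw [single_Pm]
    refine Finset.sum_congr rfl fun a _ => ?_
    congr 2
    rw [hol_tw, tw_sh, ← L.rho_inv, ← map_mul, tw_append V _ (hw dr i a (ac i v))]
    congr 1
    have e2 : pR dr τ0 R (mkp i a (oc i v)) = ps dr (mkp i a (oc i v)) + Pi.single τ0 (R : ℤ) := rfl
    have e3 : pR dr τ0 R (mkp i a (oc i v)) + dw (hw dr i a (ac i v)) = pR dr τ0 R v := by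
      rw [e2, add_right_comm, hw_dw, mkp_eta]
      rfl
    rw [e3, e2, _root_.mul_inv_rev, mul_assoc]
  rw [e]
  exact Submodule.sum_mem _ fun a _ => Submodule.smul_mem _ _ (SC_of h R (c' a))

lemma SC_H (h : Dirs dr τ τ0) (R : ℕ) : Ho (L := L) (k := k) h R ∈ SC (L := L) (k := k) h R := by
  have c : ∀ u : Bx k, CP dr τ τ0 u u [] [] := fun u =>
    ⟨Nos.nil, Nos.nil, Pst.nil, Pst.nil, rfl⟩
  have e : Ho (L := L) (k := k) h R = ∑ u, cpo h R (c u) := by
    refine OR_ext fun V => ?_
    have e1 : (∑ u, cpo (L := L) h R (c u) : OR L k τ τ0 dr R).1 V =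
        ∑ u, cpm L dr τ0 R u u [] [] V := by
      rw [Submodule.coe_sum, Finset.sum_apply]
      rfl
    rw [e1, Ho_apply]
    ext1 a b
    rw [Matrix.sum_apply]
    unfold Hm cpm Gd
    rw [Matrix.diagonal_apply]
    simp only [Matrix.single_apply, List.nil_append, tw_rep, tw, inv_one, mul_one]
    by_cases hab : a = b
    · subst hab
      rw [if_pos rfl, Finset.sum_eq_single a]
      · simp
      · intro c _ hc
        rw [if_neg fun h' => hc h'.1]
      · simp
    · rw [if_neg hab, Finset.sum_eq_zero]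
      intro c _
      rw [if_neg]
      rintro ⟨h1, h2⟩
      exact hab (h1.symm.trans h2)
  rw [e]
  exact Submodule.sum_mem _ fun u _ => SC_of h R (c u)

lemma SC_lS (h : Dirs dr τ τ0) (R : ℕ) (q : ℝ) {x : OR L k τ τ0 dr R}
    (hx : x ∈ SC (L := L) (k := k) h R) : lSR h R q x ∈ SC (L := L) (k := k) h R :=
  Submodule.add_mem _ (Submodule.smul_mem _ _ hx)
    (Submodule.smul_mem _ _ (Submodule.add_mem _ (SC_l h R false hx) (SC_l h R true hx)))

lemma SC_rS (h : Dirs dr τ τ0) (R : ℕ) (q : ℝ) {x : OR L k τ τ0 dr R}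
    (hx : x ∈ SC (L := L) (k := k) h R) : rSR h R q x ∈ SC (L := L) (k := k) h R :=
  Submodule.add_mem _ (Submodule.smul_mem _ _ hx)
    (Submodule.smul_mem _ _ (Submodule.add_mem _ (SC_r h R false hx) (SC_r h R true hx)))

lemma SC_w (h : Dirs dr τ τ0) (R : ℕ) (q : ℝ) (m : ℕ) :
    wR (L := L) (k := k) h R q m ∈ SC (L := L) (k := k) h R := by
  induction m with
  | zero => exact SC_H h R
  | succ m ih => exact SC_lS h R q (SC_rS h R q (SC_T h R ih))

end

end Pool.Agent.N985
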