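import Mathlib
import Pool.Agent.N985.Cap2

/-!
# The growth of the caps
-/

open MeasureTheory Matrix Filter
open scoped Matrix.Norms.Frobenius ContDiff Topology
open Pool.Agent.H906R3.YM hiding Pl
open Pool.Agent.W793.YM Pool.Agent.TH618.YM Pool.Agent.Y14 Pool.Agent.R990

namespace Pool.Agent.N985

set_option linter.unusedSectionVars false
set_option linter.unusedVariables false

noncomputable section

namespace Fm

variable {V : Type*} [AddCommGroup V] [Module ℝ V] (F : Fm V) {T : V →ₗ[ℝ] V}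
  (hs : ∀ x y, F.f (T x) y = F.f x (T y)) (hp : ∀ x, 0 ≤ F.f x (T x))

/-- exponential bounds for the powers -/
def Gr (T : V →ₗ[ℝ] V) (t : ℝ) (x : V) : Prop := ∃ C, ∀ n, F.f x ((T^[n]) x) ≤ C * t ^ n

include hs

include hp in
lemma Gr_add {t : ℝ} {x y : V} (hx : F.Gr T t x) (hy : F.Gr T t y) : F.Gr T t (x + y) := by
  obtain ⟨C, hC⟩ := hx
  obtain ⟨D, hD⟩ := hy
  refine ⟨2 * C + 2 * D, fun n => ?_⟩
  have h1 := F.pw_nonneg hs hp n (x - y)
  have e : ∀ x, (T^[n]) x = (T ^ n : V →ₗ[ℝ] V) x := fun x => (Module.End.pow_apply T n x).symm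
  have h2 := F.it_s hs n x y
  have h3 := hC n
  have h4 := hD n
  simp only [e, map_add, map_sub, LinearMap.add_apply, LinearMap.sub_apply] at h1 h2 h3 h4 ⊢
  rw [F.symm ((T ^ n : V →ₗ[ℝ] V) x) y] at h2
  have h5 : (2 * C + 2 * D) * t ^ n = 2 * (C * t ^ n) + 2 * (D * t ^ n) := by ring
  rw [h5]
  linarith

omit hs in
lemma Gr_smul {t : ℝ} {x : V} (c : ℝ) (hx : F.Gr T t x) : F.Gr T t (c • x) := by
  obtain ⟨C, hC⟩ := hx
  refine ⟨c ^ 2 * C, fun n => ?_⟩
  have e : ∀ x, (T^[n]) x = (T ^ n : V →ₗ[ℝ] V) x := fun x => (Module.End.pow_apply T n x).symm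
  have h3 := hC n
  simp only [e, map_smul, LinearMap.smul_apply, smul_eq_mul] at h3 ⊢
  have h4 := mul_le_mul_of_nonneg_left h3 (sq_nonneg c)
  linarith

omit hs in
lemma Gr_zero {t : ℝ} : F.Gr T t 0 := ⟨0, fun n => by simp⟩

include hp in
lemma Gr_span {t : ℝ} {S : Set V} (hS : ∀ x ∈ S, F.Gr T t x) {x : V}
    (hx : x ∈ Submodule.span ℝ S) : F.Gr T t x := by
  induction hx using Submodule.span_induction with
  | mem x hx => exact hS x hx
  | zero => exact F.Gr_zero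
  | add x y _ _ h1 h2 => exact F.Gr_add hs hp h1 h2
  | smul c x _ h1 => exact F.Gr_smul c h1

lemma Gr_nr {t : ℝ} (ht : 0 ≤ t) {x : V} (hx : F.Gr T t x) : F.nr (T x) ≤ t * F.nr x := by
  obtain ⟨C, hC⟩ := hx
  have hs2 : ∀ x y, F.f ((T.comp T) x) y = F.f x ((T.comp T) y) := fun x y => by
    rw [LinearMap.comp_apply, LinearMap.comp_apply, hs, hs]
  have hp2 : ∀ x, 0 ≤ F.f x ((T.comp T) x) := fun x => by
    rw [LinearMap.comp_apply, ← hs]
    exact F.nn _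
  have e : ∀ n, ((T.comp T : V →ₗ[ℝ] V)^[n]) x = (T^[2 * n]) x := by
    intro n
    rw [Function.iterate_mul]
    rfl
  have h1 := logconv (c := fun n => F.f x (((T.comp T : V →ₗ[ℝ] V)^[n]) x))
    (fun n => F.pw_nonneg hs2 hp2 n x) (fun n => F.pw_lc hs2 hp2 x n) (C := C) (r := t ^ 2)
    (sq_nonneg t) (fun n => by
      rw [e, ← pow_mul]
      exact hC _)
  have h2 : F.nr (T x) ^ 2 ≤ (t * F.nr x) ^ 2 := by
    rw [mul_pow, F.nr_sq, F.nr_sq, hs]
    exact h1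
  exact (pow_le_pow_iff_left₀ (F.nr_nonneg _) (mul_nonneg ht (F.nr_nonneg _)) two_ne_zero).1 h2

end Fm

variable {G : Type*} [Group G] [TopologicalSpace G] [IsTopologicalGroup G] [CompactSpace G]
  [SecondCountableTopology G] [MeasurableSpace G] [BorelSpace G] {μ : Measure G}
  [IsProbabilityMeasure μ] [μ.IsMulLeftInvariant] [μ.IsMulRightInvariant] [μ.IsInvInvariant]
  {N n : ℕ} {L : LD G N n} {d : ℕ} {β : ℝ} {E : ((Ez d → G) → ℝ) → ℝ}
  {k : ℕ} {dr : Bool → Fin d} {τ τ0 : Fin d}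

lemma ip_rho (g g' : G) : ip (L.rho g) (L.rho g') = rt L (g⁻¹ * g') := by
  unfold rt
  rw [ip_apply, map_mul, L.rho_inv]

lemma rt_comm (g g' : G) : rt L (g * g') = rt L (g' * g) := by
  have h := rt_conj (L := L) g' (g * g')
  rw [← h]
  congr 1
  group

/-! ### pairs of words -/

variable (L) in
/-- the trace of a closed path consisting of two words and two straight lines -/
def wl (τ0 : Fin d) (R : ℕ) (y : Fin d → ℤ) (w w' : List (Stp d)) (V : Ez d → G) : ℝ :=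
  rt L ((tw V y w)⁻¹ * pz V τ0 R y * tw V (y + Pi.single τ0 (R : ℤ)) w' *
    (pz V τ0 R (y + dw w))⁻¹)

lemma wl_cont (R : ℕ) (y : Fin d → ℤ) (w w' : List (Stp d)) :
    Continuous fun V : Ez d → G => wl L τ0 R y w w' V :=
  rt_cont.comp ((((tw_cont _ _).inv.mul (pz_cont _ _ _)).mul (tw_cont _ _)).mul
    (pz_cont _ _ _).inv)

lemma wl_sh (z : Fin d → ℤ) (R : ℕ) (y : Fin d → ℤ) (w w' : List (Stp d)) (V : Ez d → G) :
    wl L τ0 R y w w' (sh z V) = wl L τ0 R (y + z) w w' V := by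
  unfold wl
  rw [tw_sh, pz_sh, tw_sh, pz_sh]
  have e1 : y + Pi.single τ0 (R : ℤ) + z = y + z + Pi.single τ0 (R : ℤ) := by abel
  have e2 : y + dw w + z = y + z + dw w := by abel
  rw [e1, e2]

/-- a word as an observable -/
def qo (τ0 : Fin d) {y y' : Fin d → ℤ} {w : List (Stp d)} (hw : Nos τ0 w) (hy : y τ0 = 0)
    (he : y + dw w = y') : OB (B := Unit) L τ0 (fun _ => y) (fun _ => y') :=
  ⟨fun V => Matrix.of fun _ _ => L.rho (tw V y w),
    continuous_matrix fun _ _ => L.cont.comp (tw_cont _ _),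
    ⟨0, HP_HS' (F := fun V : Ez d → G => (Matrix.of fun _ _ => L.rho (tw V y w) : Mb Unit N))
      (fun V V' hV => by
        have h1 : tw V y w = tw V' y w := tw_nos hw hy V V' hV
        simp only [h1]) 0⟩,
    fun γ V u v => by
      show L.rho (tw (gz γ V) y w) = L.rho (γ y) * L.rho (tw V y w) * (L.rho (γ y'))ᴴ
      rw [tw_gz, he, ← L.rho_inv, ← map_mul, ← map_mul]⟩

lemma qo_apply {y y' : Fin d → ℤ} {w : List (Stp d)} (hw : Nos τ0 w) (hy : y τ0 = 0)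
    (he : y + dw w = y') (V : Ez d → G) (u v : Unit) :
    (qo (L := L) τ0 hw hy he).1 V u v = L.rho (tw V y w) := rfl

section

variable (hE : IV μ L β E)
include hE

/-- Cauchy-Schwarz inequality for the pairs of words -/
lemma wl_cs (hβ : 0 ≤ β) (R : ℕ) {y : Fin d → ℤ} {w w' : List (Stp d)} (hw : Nos τ0 w)
    (hw' : Nos τ0 w') (hy : y τ0 = 0) (he : dw w = dw w') :
    E (fun V => wl L τ0 R y w w' V) ^ 2 ≤
      E (fun V => wl L τ0 R y w w V) * E (fun V => wl L τ0 R y w' w' V) := by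
  have hy' : ∀ u : Unit, (fun _ : Unit => y + dw w) u τ0 = 0 := fun _ => by
    show (y + dw w) τ0 = 0
    rw [Pi.add_apply, hy, dw_nos hw, add_zero]
  have hy0 : ∀ u : Unit, (fun _ : Unit => y) u τ0 = 0 := fun _ => hy
  have key : ∀ {w1 w2 : List (Stp d)} (h1 : Nos τ0 w1) (h2 : Nos τ0 w2)
      (e1 : y + dw w1 = y + dw w) (e2 : y + dw w2 = y + dw w),
      (FF hE τ0 (fun _ : Unit => y) (fun _ => y + dw w)).f (qo (L := L) τ0 h1 hy e1)
        (((TL hy0 hy')^[R]) (qo (L := L) τ0 h2 hy e2)) = E (fun V => wl L τ0 R y w1 w2 V) := by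
    intro w1 w2 h1 h2 e1 e2
    rw [FF_apply]
    unfold sf
    refine congrArg E (funext fun V => ?_)
    unfold ipb
    rw [Fintype.sum_unique, Fintype.sum_unique, TL_iter]
    have e3 : (qo (L := L) τ0 h1 hy e1).1 (rf τ0 V) = (qo (L := L) τ0 h1 hy e1).1 V := by
      ext1 u v
      rw [qo_apply, qo_apply]
      congr 1
      exact rf_HP hE (tw_nos h1 hy) V
    rw [e3, qo_apply, qo_apply, ← L.rho_inv, ← map_mul, ← map_mul, ip_rho]
    unfold wl
    rw [tw_sh, e1]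
    congr 1
    group
  have h1 := (FF hE τ0 (fun _ : Unit => y) (fun _ => y + dw w)).pw_cs
    (T := TL (L := L) hy0 hy') (fun x x' => TL_s hE _ _ x x') (fun x => TL_p hE hβ _ _ x) R
    (qo (L := L) τ0 hw hy rfl) (qo (L := L) τ0 hw' hy (by rw [he]))
  rw [key, key, key] at h1
  exact h1

lemma wl_nonneg (hβ : 0 ≤ β) (R : ℕ) {y : Fin d → ℤ} {w : List (Stp d)} (hw : Nos τ0 w)
    (hy : y τ0 = 0) : 0 ≤ E (fun V => wl L τ0 R y w w V) := by
  have hy' : ∀ u : Unit, (fun _ : Unit => y + dw w) u τ0 = 0 := fun _ => by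
    show (y + dw w) τ0 = 0
    rw [Pi.add_apply, hy, dw_nos hw, add_zero]
  have hy0 : ∀ u : Unit, (fun _ : Unit => y) u τ0 = 0 := fun _ => hy
  have h1 := (FF hE τ0 (fun _ : Unit => y) (fun _ => y + dw w)).pw_nonneg
    (T := TL (L := L) hy0 hy') (fun x x' => TL_s hE _ _ x x') (fun x => TL_p hE hβ _ _ x) R
    (qo (L := L) τ0 hw hy rfl)
  refine h1.trans (le_of_eq ?_)
  rw [FF_apply]
  unfold sf
  refine congrArg E (funext fun V => ?_)
  unfold ipb
  rw [Fintype.sum_unique, Fintype.sum_unique, TL_iter]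
  have e3 : (qo (L := L) τ0 hw hy rfl).1 (rf τ0 V) = (qo (L := L) τ0 hw hy rfl).1 V := by
    ext1 u v
    rw [qo_apply, qo_apply]
    congr 1
    exact rf_HP hE (tw_nos hw hy) V
  rw [e3, qo_apply, qo_apply, ← L.rho_inv, ← map_mul, ← map_mul, ip_rho]
  unfold wl
  rw [tw_sh]
  congr 1
  group

end

/-! ### the words of the caps -/

/-- the mirror image of a word, backwards -/
def bk (τ : Fin d) (α : List (Stp d)) : List (Stp d) := rvw (α.map (mir τ))

/-- the word of a cap, the length `m` and the mirror image of the cap -/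
def qw (τ : Fin d) (α : List (Stp d)) (m : ℕ) : List (Stp d) :=
  bk τ α ++ (List.replicate m (τ, true) ++ α)

lemma mir_fst (τ : Fin d) (s : Stp d) : (mir τ s).1 = s.1 := by
  unfold mir flp
  split_ifs <;> rfl

lemma bk_n {τ τ0 : Fin d} {α : List (Stp d)} (h : Nos τ0 α) : Nos τ0 (bk τ α) := by
  intro s hs
  unfold bk rvw at hs
  rw [List.mem_reverse, List.mem_map] at hs
  obtain ⟨s1, h1, rfl⟩ := hs
  obtain ⟨s2, h2, rfl⟩ := List.mem_map.1 h1
  show (mir τ s2).1 ≠ τ0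
  rw [mir_fst]
  exact h s2 h2

lemma qw_n {τ τ0 : Fin d} (ht : τ ≠ τ0) {α : List (Stp d)} (h : Nos τ0 α) (m : ℕ) :
    Nos τ0 (qw τ α m) := (bk_n h).app ((Nos.rep ht m true).app h)

lemma dw_qw (τ : Fin d) (α : List (Stp d)) (m : ℕ) :
    dw (qw τ α m) = -dw (α.map (mir τ)) + Pi.single τ (m : ℤ) + dw α := by
  unfold qw bk
  rw [dw_append, dw_append, dw_rvw, dw_rep, add_assoc]

lemma rp_of {τ : Fin d} {x : Fin d → ℤ} (h : x τ = 0) : rp τ x = x := by
  unfold rp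
  rw [h, neg_zero, ← h, Function.update_eq_self]

lemma tw_qw (τ : Fin d) (α : List (Stp d)) (m : ℕ) {x z : Fin d → ℤ} (V : Ez d → G)
    (hz : z = x + dw (α.map (mir τ))) :
    tw V z (qw τ α m) = (tw V x (α.map (mir τ)))⁻¹ * pz V τ m x *
      tw V (x + Pi.single τ (m : ℤ)) α := by
  unfold qw bk
  rw [tw_append, hz, tw_rvw, dw_rvw, add_neg_cancel_right, tw_append, tw_rep, dw_rep, mul_assoc]

section

variable (hE : IV μ L β E)
include hE

/-- the matrix elements of the caps -/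
lemma cap_el (h : Dirs dr τ τ0) (R : ℕ) {u v : Bx k} {α α' : List (Stp d)}
    (c : CP dr τ τ0 u v α α') (m : ℕ) :
    (FF hE τ (ps dr) (pR dr τ0 R)).f (cpo (L := L) h R c) (((TR h R)^[m]) (cpo h R c)) =
      E (fun V => wl L τ0 R (rp τ (ps dr u + dw α)) (qw τ α m) (qw τ α' m) V) := by
  rw [FF_apply]
  unfold sf
  refine congrArg E (funext fun V => ?_)
  have e0 : ∀ Y : Mb (Bx k) N, ∀ X : Mat N, ipb (Matrix.single u v X) Y = ip X (Y u v) := by
    intro Y X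
    unfold ipb
    rw [Finset.sum_eq_single u, Finset.sum_eq_single v]
    · rw [Matrix.single_apply_same]
    · intro b _ hb
      have e : Matrix.single u v X u b = (0 : Mat N) := by
        rw [Matrix.single_apply, if_neg fun h' => hb h'.2.symm]
      rw [e, ip_comm]
      simp
    · simp
    · intro a _ ha
      refine Finset.sum_eq_zero fun b _ => ?_
      have e : Matrix.single u v X a b = (0 : Mat N) := by
        rw [Matrix.single_apply, if_neg fun h' => ha h'.1.symm]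
      rw [e, ip_comm]
      simp
    · simp
  have e1 : (cpo (L := L) h R c).1 (rf τ V) = Matrix.single u v
      (L.rho (tw (rf τ V) (ps dr u) (α ++ List.replicate R (τ0, true)) *
        (tw (rf τ V) (pR dr τ0 R v) α')⁻¹)) := rfl
  rw [e1, e0]
  unfold TR
  rw [TL_iter]
  have e2 : (cpo (L := L) h R c).1 (sh (Pi.single τ (m : ℤ)) V) u v =
      L.rho (tw (sh (Pi.single τ (m : ℤ)) V) (ps dr u) (α ++ List.replicate R (τ0, true)) *
        (tw (sh (Pi.single τ (m : ℤ)) V) (pR dr τ0 R v) α')⁻¹) := by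
    show cpm L dr τ0 R u v α α' (sh (Pi.single τ (m : ℤ)) V) u v = _
    unfold cpm
    rw [Matrix.single_apply_same]
  rw [e2, ← L.rho_inv, ← map_mul, ← map_mul, ip_rho]
  -- the points
  obtain ⟨a, ha⟩ : ∃ a, a = ps dr u := ⟨_, rfl⟩
  obtain ⟨b, hb⟩ : ∃ b, b = pR dr τ0 R v := ⟨_, rfl⟩
  have hat : a τ = 0 := by rw [ha]; exact ps_ne h.t u
  have hbt : b τ = 0 := by rw [hb]; exact pR_t h R v
  have hmr : ∀ w : List (Stp d), (w ++ List.replicate R (τ0, true)).map (mir τ) =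
      w.map (mir τ) ++ List.replicate R (τ0, true) := by
    intro w
    rw [List.map_append, List.map_replicate]
    congr 2
    unfold mir
    rw [if_neg h.tt.symm]
  have hx : rp τ (a + dw α) = a + dw (α.map (mir τ)) := by rw [rp_dw, rp_of hat]
  have hab : b + dw α' = a + dw α + Pi.single τ0 (R : ℤ) := by
    have h1 := c.e
    rw [ha, hb, h1]
    unfold pR
    abel
  have hsr : rp τ (Pi.single τ0 (R : ℤ)) = (Pi.single τ0 (R : ℤ) : Fin d → ℤ) :=
    rp_of (Pi.single_eq_of_ne h.tt _)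
  have hx' : rp τ (a + dw α) + Pi.single τ0 (R : ℤ) = b + dw (α'.map (mir τ)) := by
    have h1 : rp τ (b + dw α') = b + dw (α'.map (mir τ)) := by rw [rp_dw, rp_of hbt]
    rw [← h1, hab]
    funext i
    unfold rp
    by_cases hi : i = τ
    · subst hi
      simp [Pi.single_eq_of_ne h.tt]
    · simp [hi]
  rw [← ha, ← hb]
  unfold wl
  rw [tw_qw τ α m V hx, tw_qw τ α' m V hx']
  have hend : rp τ (a + dw α) + dw (qw τ α m) = a + Pi.single τ (m : ℤ) + dw α := by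
    rw [dw_qw, hx]
    abel
  rw [hend, tw_rf, tw_rf, rp_of hat, rp_of hbt, hmr, tw_append, tw_rep, ← hx, tw_sh, tw_append,
    tw_rep, tw_sh]
  obtain ⟨g1, hg1⟩ : ∃ g, g = tw V a (α.map (mir τ)) := ⟨_, rfl⟩
  obtain ⟨g2, hg2⟩ : ∃ g, g = pz V τ0 R (rp τ (a + dw α)) := ⟨_, rfl⟩
  obtain ⟨g3, hg3⟩ : ∃ g, g = tw V b (α'.map (mir τ)) := ⟨_, rfl⟩
  obtain ⟨g4, hg4⟩ : ∃ g, g = pz V τ m a := ⟨_, rfl⟩
  obtain ⟨g5, hg5⟩ : ∃ g, g = tw V (a + Pi.single τ (m : ℤ)) α := ⟨_, rfl⟩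
  obtain ⟨g6, hg6⟩ : ∃ g, g = pz V τ0 R (a + Pi.single τ (m : ℤ) + dw α) := ⟨_, rfl⟩
  obtain ⟨g7, hg7⟩ : ∃ g, g = tw V (b + Pi.single τ (m : ℤ)) α' := ⟨_, rfl⟩
  obtain ⟨g8, hg8⟩ : ∃ g, g = pz V τ m b := ⟨_, rfl⟩
  rw [← hg1, ← hg2, ← hg3, ← hg4, ← hg5, ← hg6, ← hg7, ← hg8]
  have f1 : (g1 * g2 * g3⁻¹)⁻¹ * (g4 * (g5 * g6 * g7⁻¹) * g8⁻¹) =
      (g3 * g2⁻¹ * g1⁻¹ * g4 * g5) * (g6 * g7⁻¹ * g8⁻¹) := by group
  have f2 : (g1⁻¹ * g4 * g5)⁻¹ * g2 * (g3⁻¹ * g8 * g7) * g6⁻¹ =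
      ((g6 * g7⁻¹ * g8⁻¹) * (g3 * g2⁻¹ * g1⁻¹ * g4 * g5))⁻¹ := by group
  rw [f1, f2, rt_inv, rt_comm]

end

end

end Pool.Agent.N985
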