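import Mathlib
import Pool.Agent.N985.Cap3

/-!
# Existence of good caps
-/

open MeasureTheory Matrix Filter
open scoped Matrix.Norms.Frobenius ContDiff Topology
open Pool.Agent.H906R3.YM hiding Pl
open Pool.Agent.W793.YM Pool.Agent.TH618.YM Pool.Agent.Y14 Pool.Agent.R990

namespace Pool.Agent.N985

set_option linter.unusedSectionVars false
set_option linter.unusedVariables false

noncomputable section

/-- log-convex sequences which are not exponentially bounded -/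
lemma lc_unb {c : ℕ → ℝ} (h0 : ∀ n, 0 ≤ c n) (hc : ∀ n, c (n + 1) ^ 2 ≤ c n * c (n + 2))
    {t : ℝ} (ht : 0 < t) (hub : ∀ C, ∃ m, C * t ^ m < c m) :
    ∃ K, 0 < K ∧ ∀ m, K * t ^ m ≤ c m := by
  obtain ⟨m, hm⟩ : ∃ m, t * c m < c (m + 1) := by
    by_contra hcon
    push Not at hcon
    obtain ⟨m, hm⟩ := hub (c 0)
    have h1 : ∀ m, c m ≤ c 0 * t ^ m := by
      intro m
      induction m with
      | zero => simp
      | succ m ih =>
        refine (hcon m).trans ?_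
        have h2 := mul_le_mul_of_nonneg_left ih ht.le
        refine h2.trans (le_of_eq ?_)
        ring
    exact absurd (h1 m) (not_le.2 hm)
  have hm1 : 0 < c (m + 1) := lt_of_le_of_lt (mul_nonneg ht.le (h0 m)) hm
  have hz : ∀ n, c n = 0 → ∀ i, c (n + i) = 0 := by
    intro n hn i
    induction i with
    | zero => exact hn
    | succ i ih =>
      have h2 := hc (n + i)
      rw [ih, zero_mul] at h2
      exact pow_eq_zero_iff two_ne_zero |>.1 (le_antisymm h2 (sq_nonneg _))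
  have hgr : ∀ i, t ^ i * c m ≤ c (m + i) := fun i =>
    lc_lower (c := fun i => c (m + i)) (fun i => h0 _) (fun i => hc (m + i)) ht.le hm.le i
  have hpos : ∀ n, n ≤ m → 0 < c n := by
    intro n hn
    rcases (h0 n).lt_or_eq with h | h
    · exact h
    · exfalso
      have := hz n h.symm (m + 1 - n)
      rw [Nat.add_sub_cancel' (by omega)] at this
      linarith
  obtain ⟨n0, hn0, hmin⟩ := Finset.exists_min_image (Finset.range (m + 1))
    (fun n => c n / t ^ n) ⟨0, Finset.mem_range.2 (Nat.succ_pos m)⟩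
  refine ⟨c n0 / t ^ n0, div_pos (hpos n0 (by have := Finset.mem_range.1 hn0; omega))
    (pow_pos ht _), fun n => ?_⟩
  rcases le_total n m with h | h
  · have h1 := hmin n (Finset.mem_range.2 (by omega))
    rwa [le_div_iff₀ (pow_pos ht n)] at h1
  · obtain ⟨i, rfl⟩ := Nat.exists_eq_add_of_le h
    have h1 := hmin m (Finset.mem_range.2 (by omega))
    rw [le_div_iff₀ (pow_pos ht m)] at h1
    have h2 := mul_le_mul_of_nonneg_left h1 (pow_nonneg ht.le i)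
    refine le_trans (le_of_eq ?_) (h2.trans (hgr i))
    rw [pow_add]
    ring

variable {G : Type*} [Group G] [TopologicalSpace G] [IsTopologicalGroup G] [CompactSpace G]
  [SecondCountableTopology G] [MeasurableSpace G] [BorelSpace G] {μ : Measure G}
  [IsProbabilityMeasure μ] [μ.IsMulLeftInvariant] [μ.IsMulRightInvariant] [μ.IsInvInvariant]
  {N n : ℕ} {L : LD G N n} {d : ℕ} {β : ℝ} {E : ((Ez d → G) → ℝ) → ℝ}
  {k : ℕ} {dr : Bool → Fin d} {τ τ0 : Fin d}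

section

variable (L E) in
/-- the Wilson loop of a cap -/
def WL (τ τ0 : Fin d) (α : List (Stp d)) (R m : ℕ) : ℝ :=
  E (fun V => wl L τ0 R 0 (qw τ α m) (qw τ α m) V)

variable (hE : IV μ L β E)
include hE

lemma WL_sh (α : List (Stp d)) (R m : ℕ) (y : Fin d → ℤ) :
    E (fun V => wl L τ0 R y (qw τ α m) (qw τ α m) V) = WL L E τ τ0 α R m := by
  unfold WL
  rw [← hE.shift y (wl_cont (L := L) (τ0 := τ0) R 0 (qw τ α m) (qw τ α m))]
  refine congrArg E (funext fun V => ?_)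
  rw [wl_sh, zero_add]

lemma CP_y (h : Dirs dr τ τ0) {u v : Bx k} {α α' : List (Stp d)} (c : CP dr τ τ0 u v α α') :
    rp τ (ps dr u + dw α) τ0 = 0 := by
  unfold rp
  rw [Function.update_of_ne h.tt.symm, Pi.add_apply, ps_ne h.t0, dw_nos c.n, add_zero]

omit hE in
lemma CP_dw (h : Dirs dr τ τ0) {u v : Bx k} {α α' : List (Stp d)} (c : CP dr τ τ0 u v α α')
    (m : ℕ) : dw (qw τ α m) = dw (qw τ α' m) := by
  have e1 : rp τ (ps dr u + dw α) = ps dr u + dw (α.map (mir τ)) := by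
    rw [rp_dw, rp_of (ps_ne h.t u)]
  have e2 : rp τ (ps dr v + dw α') = ps dr v + dw (α'.map (mir τ)) := by
    rw [rp_dw, rp_of (ps_ne h.t v)]
  rw [c.e, e2] at e1
  rw [dw_qw, dw_qw]
  have e3 := c.e
  have e4 : -dw (α.map (mir τ)) + dw α = -dw (α'.map (mir τ)) + dw α' := by
    have e5 : dw α = ps dr v + dw α' - ps dr u := by rw [← e3]; abel
    have e6 : dw (α.map (mir τ)) = ps dr v + dw (α'.map (mir τ)) - ps dr u := by rw [e1]; abel
    rw [e5, e6]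
    abel
  have e7 : ∀ a b c : Fin d → ℤ, -a + b + c = (-a + c) + b := fun a b c => by abel
  rw [e7, e7 (dw (α'.map (mir τ))), e4]

lemma TR_s (h : Dirs dr τ τ0) (R : ℕ) (x y : OR L k τ τ0 dr R) :
    (FF hE τ (ps dr) (pR dr τ0 R)).f (TR h R x) y =
      (FF hE τ (ps dr) (pR dr τ0 R)).f x (TR h R y) := TL_s hE _ _ x y

lemma TR_p (hβ : 0 ≤ β) (h : Dirs dr τ τ0) (R : ℕ) (x : OR L k τ τ0 dr R) :
    0 ≤ (FF hE τ (ps dr) (pR dr τ0 R)).f x (TR h R x) := TL_p hE hβ _ _ x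

/-- growth of the caps -/
lemma cap_Gr (hβ : 0 ≤ β) (h : Dirs dr τ τ0) (R : ℕ) {t : ℝ} (ht : 0 ≤ t)
    (hyp : ∀ α : List (Stp d), Nos τ0 α → Pst τ α → ∃ C, ∀ m, WL L E τ τ0 α R m ≤ C * t ^ m)
    {u v : Bx k} {α α' : List (Stp d)} (c : CP dr τ τ0 u v α α') :
    (FF hE τ (ps dr) (pR dr τ0 R)).Gr (TR h R) t (cpo (L := L) h R c) := by
  obtain ⟨C, hC⟩ := hyp α c.n c.p
  obtain ⟨C', hC'⟩ := hyp α' c.n' c.p'
  refine ⟨max C C', fun m => ?_⟩
  rw [cap_el]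
  obtain ⟨y, hy⟩ : ∃ y, y = rp τ (ps dr u + dw α) := ⟨_, rfl⟩
  have hy0 : y τ0 = 0 := by rw [hy]; exact CP_y hE h c
  rw [← hy]
  have h1 := wl_cs hE hβ R (qw_n h.tt c.n m) (qw_n h.tt c.n' m) hy0 (CP_dw h c m)
  rw [WL_sh hE, WL_sh hE] at h1
  have h2 := wl_nonneg hE hβ R (qw_n h.tt c.n m) hy0
  have h3 := wl_nonneg hE hβ R (qw_n h.tt c.n' m) hy0
  rw [WL_sh hE] at h2 h3
  have htm : 0 ≤ t ^ m := pow_nonneg ht m
  have h4 : WL L E τ τ0 α R m ≤ max C C' * t ^ m :=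
    (hC m).trans (mul_le_mul_of_nonneg_right (le_max_left _ _) htm)
  have h5 : WL L E τ τ0 α' R m ≤ max C C' * t ^ m :=
    (hC' m).trans (mul_le_mul_of_nonneg_right (le_max_right _ _) htm)
  have h6 : E (fun V => wl L τ0 R y (qw τ α m) (qw τ α' m) V) ^ 2 ≤ (max C C' * t ^ m) ^ 2 := by
    refine h1.trans ?_
    rw [pow_two (max C C' * t ^ m)]
    exact mul_le_mul h4 h5 h3 (h2.trans h4)
  exact (abs_le_of_sq_le_sq' h6 (h2.trans h4)).2

lemma lSR_nr (h : Dirs dr τ τ0) (R : ℕ) {q : ℝ} (q0 : 0 ≤ q) (q1 : q ≤ 1)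
    (x : OR L k τ τ0 dr R) :
    (FF hE τ (ps dr) (pR dr τ0 R)).nr (lSR h R q x) ≤ (FF hE τ (ps dr) (pR dr τ0 R)).nr x := by
  obtain ⟨F, hF⟩ : ∃ F : Fm (OR L k τ τ0 dr R), F = FF hE τ (ps dr) (pR dr τ0 R) := ⟨_, rfl⟩
  have h1 : ∀ i x, F.nr (lR h R i x) ≤ F.nr x := fun i x => by
    rw [hF]
    exact (HM_lP h.t i).nr_le' hE (fun V A => Pm_norm (zV_unit V) i A) x
  have e : lSR h R q x = (1 - q) • x + (q / 2) • (lR h R false x + lR h R true x) := rfl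
  rw [← hF, e]
  have t1 := F.tri ((1 - q) • x) ((q / 2) • (lR h R false x + lR h R true x))
  have t2 := F.tri (lR h R false x) (lR h R true x)
  rw [F.nr_smul, F.nr_smul, abs_of_nonneg (by linarith : (0 : ℝ) ≤ 1 - q),
    abs_of_nonneg (by linarith : (0 : ℝ) ≤ q / 2)] at t1
  have t3 : F.nr (lR h R false x + lR h R true x) ≤ 2 * F.nr x := by
    have := h1 false x
    have := h1 true x
    linarith
  have t4 := mul_le_mul_of_nonneg_left t3 (by linarith : (0 : ℝ) ≤ q / 2)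
  linarith

lemma rSR_nr (h : Dirs dr τ τ0) (R : ℕ) {q : ℝ} (q0 : 0 ≤ q) (q1 : q ≤ 1)
    (x : OR L k τ τ0 dr R) :
    (FF hE τ (ps dr) (pR dr τ0 R)).nr (rSR h R q x) ≤ (FF hE τ (ps dr) (pR dr τ0 R)).nr x := by
  obtain ⟨F, hF⟩ : ∃ F : Fm (OR L k τ τ0 dr R), F = FF hE τ (ps dr) (pR dr τ0 R) := ⟨_, rfl⟩
  have h1 : ∀ i x, F.nr (rR h R i x) ≤ F.nr x := fun i x => by
    rw [hF]
    exact (HM_rR h R i).nr_le' hE (fun V A => Pm_norm' (zV_unit _) i A) x
  have e : rSR h R q x = (1 - q) • x + (q / 2) • (rR h R false x + rR h R true x) := rfl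
  rw [← hF, e]
  have t1 := F.tri ((1 - q) • x) ((q / 2) • (rR h R false x + rR h R true x))
  have t2 := F.tri (rR h R false x) (rR h R true x)
  rw [F.nr_smul, F.nr_smul, abs_of_nonneg (by linarith : (0 : ℝ) ≤ 1 - q),
    abs_of_nonneg (by linarith : (0 : ℝ) ≤ q / 2)] at t1
  have t3 : F.nr (rR h R false x + rR h R true x) ≤ 2 * F.nr x := by
    have := h1 false x
    have := h1 true x
    linarith
  have t4 := mul_le_mul_of_nonneg_left t3 (by linarith : (0 : ℝ) ≤ q / 2)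
  linarith

/-- **upper bounds for two strings** -/
theorem bb_upper (hβ : 0 ≤ β) (h : Dirs dr τ τ0) (R : ℕ) {q : ℝ} (q0 : 0 ≤ q) (q1 : q ≤ 1)
    {t : ℝ} (ht : 0 ≤ t)
    (hyp : ∀ α : List (Stp d), Nos τ0 α → Pst τ α → ∃ C, ∀ m, WL L E τ τ0 α R m ≤ C * t ^ m) :
    ∃ C, ∀ m, bb (k := k) hE h q m R ≤ C * t ^ (m + 1) := by
  obtain ⟨F, hF⟩ : ∃ F : Fm (OR L k τ τ0 dr R), F = FF hE τ (ps dr) (pR dr τ0 R) := ⟨_, rfl⟩
  have hgr : ∀ x ∈ SC (L := L) (k := k) h R, F.nr (TR h R x) ≤ t * F.nr x := by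
    intro x hx
    have h1 : F.Gr (TR h R) t x := by
      rw [hF]
      refine Fm.Gr_span _ (fun x y => TR_s hE h R x y) (fun x => TR_p hE hβ h R x) ?_ hx
      rintro y ⟨u, v, α, α', c, rfl⟩
      exact cap_Gr hE hβ h R ht hyp c
    rw [hF] at h1 ⊢
    exact Fm.Gr_nr _ (fun x y => TR_s hE h R x y) ht h1
  have hw : ∀ m, F.nr (wR (L := L) (k := k) h R q m) ≤ t ^ m * F.nr (Ho (L := L) (k := k) h R) := by
    intro m
    induction m with
    | zero => rw [pow_zero, one_mul]; rfl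
    | succ m ih =>
      have h1 : F.nr (wR (L := L) (k := k) h R q (m + 1)) ≤
          F.nr (TR h R (wR (L := L) (k := k) h R q m)) := by
        rw [hF]
        exact (lSR_nr hE h R q0 q1 _).trans (rSR_nr hE h R q0 q1 _)
      have h2 := hgr _ (SC_w (L := L) (k := k) h R q m)
      have h3 := mul_le_mul_of_nonneg_left ih ht
      refine h1.trans (h2.trans (h3.trans (le_of_eq ?_)))
      ring
  refine ⟨F.nr (Ho (L := L) (k := k) h R) ^ 2, fun m => ?_⟩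
  rw [bb_eq, ← hF]
  have h1 := F.le (Ho (L := L) (k := k) h R) (TR h R (wR (L := L) (k := k) h R q m))
  have h2 := hgr _ (SC_w (L := L) (k := k) h R q m)
  have h3 := mul_le_mul_of_nonneg_left (hw m) ht
  have h4 := mul_le_mul_of_nonneg_left (h2.trans h3) (F.nr_nonneg (Ho (L := L) (k := k) h R))
  refine h1.trans (h4.trans (le_of_eq ?_))
  ring

/-- log-convexity of the Wilson loops of the caps in the length -/
lemma WL_lc (hβ : 0 ≤ β) (hk : 0 < k) (h : Dirs dr τ τ0) {α : List (Stp d)} (h1 : Nos τ0 α)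
    (h2 : Pst τ α) (R m : ℕ) : WL L E τ τ0 α R (m + 1) ^ 2 ≤
      WL L E τ τ0 α R m * WL L E τ τ0 α R (m + 2) := by
  have c : CP dr τ τ0 ((⟨0, hk⟩, ⟨0, hk⟩) : Bx k) (⟨0, hk⟩, ⟨0, hk⟩) α α := ⟨h1, h1, h2, h2, rfl⟩
  have h3 := (FF hE τ (ps dr) (pR dr τ0 R)).pw_lc (T := TR (L := L) (k := k) h R)
    (fun x y => TR_s hE h R x y) (fun x => TR_p hE hβ h R x) (cpo (L := L) h R c) m
  rw [cap_el, cap_el, cap_el, WL_sh hE, WL_sh hE, WL_sh hE] at h3
  exact h3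

lemma WL_nonneg (hβ : 0 ≤ β) (ht : τ ≠ τ0) {α : List (Stp d)} (h1 : Nos τ0 α) (R m : ℕ) :
    0 ≤ WL L E τ τ0 α R m := wl_nonneg hE hβ R (qw_n ht h1 m) rfl

/-- **existence of good caps** -/
theorem caps (hd : 4 ≤ d) (hN : 1 ≤ N) (hβ : 0 < β) (h : Dirs dr τ τ0)
    (hk : 10 ≤ k) (hkl : k * (N / β) ≤ (10 : ℝ)⁻¹ ^ 16) :
    ∃ κ : ℝ, 1 - (k : ℝ)⁻¹ / 10 ≤ κ ∧ ∀ (R : ℕ) (t : ℝ), 0 < t →
      t < κ * (κ / (κ + er N k β)) ^ R →
      ∃ α : List (Stp d), Nos τ0 α ∧ Pst τ α ∧ ∃ K, 0 < K ∧ ∀ m, K * t ^ m ≤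
        WL L E τ τ0 α R m := by
  obtain ⟨κ, hκ, hbb⟩ := bb_growth hE hd hN hβ h hk hkl
  refine ⟨κ, hκ, fun R t ht htκ => ?_⟩
  have hk0 : (0 : ℝ) < k := by exact_mod_cast (by omega : 0 < k)
  have hk10 : (10 : ℝ) ≤ k := by exact_mod_cast hk
  have q0 : 0 ≤ (k : ℝ)⁻¹ := inv_nonneg.2 hk0.le
  have q1 : (k : ℝ)⁻¹ ≤ 1 := inv_le_one_of_one_le₀ (by linarith)
  obtain ⟨t', ht1, ht2⟩ := exists_between htκ
  obtain ⟨B, hB, hlow⟩ := hbb R t' (ht.trans ht1) ht2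
  have hnot : ¬ ∀ α : List (Stp d), Nos τ0 α → Pst τ α →
      ∃ C, ∀ m, WL L E τ τ0 α R m ≤ C * t ^ m := by
    intro hyp
    obtain ⟨C, hC⟩ := bb_upper (k := k) hE hβ.le h R q0 q1 ht.le hyp
    have h1 : ∀ n, B * ((t' / t) ^ 2) ^ n ≤ C * t := by
      intro n
      have h2 := (hlow n).trans (hC (2 * n))
      have h3 : 0 < t ^ (2 * n) := pow_pos ht _
      have h4 : B * ((t' / t) ^ 2) ^ n = B * t' ^ (2 * n) / t ^ (2 * n) := by
        rw [← pow_mul, div_pow, mul_div_assoc]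
      rw [h4, div_le_iff₀ h3]
      refine h2.trans (le_of_eq ?_)
      rw [pow_succ]
      ring
    have h5 : 1 < (t' / t) ^ 2 := by
      have h6 : 1 < t' / t := (one_lt_div ht).2 ht1
      exact one_lt_pow₀ h6 two_ne_zero
    have h7 : Tendsto (fun n : ℕ => B * ((t' / t) ^ 2) ^ n) atTop atTop :=
      (tendsto_pow_atTop_atTop_of_one_lt h5).const_mul_atTop hB
    obtain ⟨n, hn⟩ := (h7.eventually_gt_atTop (C * t)).exists
    exact absurd (h1 n) (not_le.2 hn)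
  push Not at hnot
  obtain ⟨α, a1, a2, a3⟩ := hnot
  refine ⟨α, a1, a2, ?_⟩
  exact lc_unb (fun m => WL_nonneg hE hβ.le h.tt a1 R m)
    (fun m => WL_lc hE hβ.le (by omega : 0 < k) h a1 a2 R m) ht a3

end

end

end Pool.Agent.N985
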