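import Pool.Agent.N979.CP.Stm4
import Pool.Agent.N526.CP.CAPS

/-!
# Orientable fillings of the round sphere: numerics for `S^3` (PROJECT FB, LO3)
-/

set_option autoImplicit false

open MeasureTheory Metric Set Filter Topology

namespace Pool.Agent.N985.FBLO3

open Pool.Agent.H241R3.FV Pool.Agent.N526.CP Pool.Agent.N979.CP

/-! ### Integrals -/

theorem hasDerivAt_q {u : ℝ} (h : 0 < 1 - u ^ 2) :
    HasDerivAt (fun u : ℝ => √(1 - u ^ 2)) (-(u / √(1 - u ^ 2))) u := by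
  have h1 : HasDerivAt (fun u : ℝ => 1 - u ^ 2) (-(2 * u)) u := by
    have := (hasDerivAt_pow 2 u).const_sub 1
    simpa using this
  have h2 := h1.sqrt h.ne'
  convert h2 using 1
  ring

theorem hasDerivAt_as {u : ℝ} (h0 : 0 < u) (h1 : u < 1) :
    HasDerivAt Real.arcsin (1 / √(1 - u ^ 2)) u :=
  Real.hasDerivAt_arcsin (by linarith) (by linarith)

theorem pos_q {u : ℝ} (h0 : 0 < u) (h1 : u < 1) : 0 < 1 - u ^ 2 := by nlinarith

theorem mom0 : ∫ u in (0 : ℝ)..1, u ^ 2 * √(1 - u ^ 2) = Real.pi / 16 := by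
  have h := intervalIntegral.integral_eq_sub_of_hasDerivAt_of_le (a := 0) (b := 1)
    (f := fun u : ℝ => 1 / 8 * Real.arcsin u + √(1 - u ^ 2) * (-(1 / 8) * u + 1 / 4 * u ^ 3))
    (f' := fun u : ℝ => u ^ 2 * √(1 - u ^ 2)) zero_le_one ?_ ?_ ?_
  · rw [h]
    simp only [Real.arcsin_one, Real.arcsin_zero]
    norm_num
    ring
  · have : Continuous fun u : ℝ =>
        1 / 8 * Real.arcsin u + √(1 - u ^ 2) * (-(1 / 8) * u + 1 / 4 * u ^ 3) := by fun_prop
    exact this.continuousOn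
  · rintro u ⟨h0, h1⟩
    have hp := pos_q h0 h1
    have hq : √(1 - u ^ 2) ^ 2 = 1 - u ^ 2 := Real.sq_sqrt hp.le
    have hq0 : √(1 - u ^ 2) ≠ 0 := (Real.sqrt_pos.2 hp).ne'
    have hpoly : HasDerivAt (fun u : ℝ => -(1 / 8) * u + 1 / 4 * u ^ 3)
        (-(1 / 8) * 1 + 1 / 4 * (3 * u ^ 2)) u := by
      have a1 := (hasDerivAt_id' u).const_mul (-(1 / 8) : ℝ)
      have a2 := (hasDerivAt_pow 3 u).const_mul (1 / 4 : ℝ)
      refine (a1.add a2).congr_deriv ?_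
      norm_num
    have h2 := ((hasDerivAt_as h0 h1).const_mul (1 / 8 : ℝ)).add ((hasDerivAt_q hp).mul hpoly)
    refine h2.congr_deriv ?_
    field_simp
    rw [hq]
    ring
  · exact (by fun_prop : Continuous fun u : ℝ => u ^ 2 * √(1 - u ^ 2)).intervalIntegrable _ _

theorem mom1 : ∫ u in (0 : ℝ)..1, u ^ 4 * √(1 - u ^ 2) = Real.pi / 32 := by
  have h := intervalIntegral.integral_eq_sub_of_hasDerivAt_of_le (a := 0) (b := 1)
    (f := fun u : ℝ => 1 / 16 * Real.arcsin u +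
      √(1 - u ^ 2) * (-(1 / 16) * u + (-(1 / 24) * u ^ 3 + 1 / 6 * u ^ 5)))
    (f' := fun u : ℝ => u ^ 4 * √(1 - u ^ 2)) zero_le_one ?_ ?_ ?_
  · rw [h]
    simp only [Real.arcsin_one, Real.arcsin_zero]
    norm_num
    ring
  · have : Continuous fun u : ℝ => 1 / 16 * Real.arcsin u +
        √(1 - u ^ 2) * (-(1 / 16) * u + (-(1 / 24) * u ^ 3 + 1 / 6 * u ^ 5)) := by fun_prop
    exact this.continuousOn
  · rintro u ⟨h0, h1⟩
    have hp := pos_q h0 h1
    have hq : √(1 - u ^ 2) ^ 2 = 1 - u ^ 2 := Real.sq_sqrt hp.le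
    have hq0 : √(1 - u ^ 2) ≠ 0 := (Real.sqrt_pos.2 hp).ne'
    have hpoly : HasDerivAt (fun u : ℝ => -(1 / 16) * u + (-(1 / 24) * u ^ 3 + 1 / 6 * u ^ 5))
        (-(1 / 16) * 1 + (-(1 / 24) * (3 * u ^ 2) + 1 / 6 * (5 * u ^ 4))) u := by
      have a1 := (hasDerivAt_id' u).const_mul (-(1 / 16) : ℝ)
      have a2 := (hasDerivAt_pow 3 u).const_mul (-(1 / 24) : ℝ)
      have a3 := (hasDerivAt_pow 5 u).const_mul (1 / 6 : ℝ)
      refine (a1.add (a2.add a3)).congr_deriv ?_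
      norm_num
    have h2 := ((hasDerivAt_as h0 h1).const_mul (1 / 16 : ℝ)).add ((hasDerivAt_q hp).mul hpoly)
    refine h2.congr_deriv ?_
    field_simp
    rw [hq]
    ring
  · exact (by fun_prop : Continuous fun u : ℝ => u ^ 4 * √(1 - u ^ 2)).intervalIntegrable _ _

theorem mom2 : ∫ u in (0 : ℝ)..1, u ^ 6 * √(1 - u ^ 2) = 5 * Real.pi / 256 := by
  have h := intervalIntegral.integral_eq_sub_of_hasDerivAt_of_le (a := 0) (b := 1)
    (f := fun u : ℝ => 5 / 128 * Real.arcsin u +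
      √(1 - u ^ 2) * (-(5 / 128) * u + (-(5 / 192) * u ^ 3 + (-(1 / 48) * u ^ 5 + 1 / 8 * u ^ 7))))
    (f' := fun u : ℝ => u ^ 6 * √(1 - u ^ 2)) zero_le_one ?_ ?_ ?_
  · rw [h]
    simp only [Real.arcsin_one, Real.arcsin_zero]
    norm_num
    ring
  · have : Continuous fun u : ℝ => 5 / 128 * Real.arcsin u +
        √(1 - u ^ 2) * (-(5 / 128) * u +
          (-(5 / 192) * u ^ 3 + (-(1 / 48) * u ^ 5 + 1 / 8 * u ^ 7))) := by fun_prop
    exact this.continuousOn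
  · rintro u ⟨h0, h1⟩
    have hp := pos_q h0 h1
    have hq : √(1 - u ^ 2) ^ 2 = 1 - u ^ 2 := Real.sq_sqrt hp.le
    have hq0 : √(1 - u ^ 2) ≠ 0 := (Real.sqrt_pos.2 hp).ne'
    have hpoly : HasDerivAt (fun u : ℝ => -(5 / 128) * u +
          (-(5 / 192) * u ^ 3 + (-(1 / 48) * u ^ 5 + 1 / 8 * u ^ 7)))
        (-(5 / 128) * 1 + (-(5 / 192) * (3 * u ^ 2) +
          (-(1 / 48) * (5 * u ^ 4) + 1 / 8 * (7 * u ^ 6)))) u := by
      have a1 := (hasDerivAt_id' u).const_mul (-(5 / 128) : ℝ)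
      have a2 := (hasDerivAt_pow 3 u).const_mul (-(5 / 192) : ℝ)
      have a3 := (hasDerivAt_pow 5 u).const_mul (-(1 / 48) : ℝ)
      have a4 := (hasDerivAt_pow 7 u).const_mul (1 / 8 : ℝ)
      refine (a1.add (a2.add (a3.add a4))).congr_deriv ?_
      norm_num
    have h2 := ((hasDerivAt_as h0 h1).const_mul (5 / 128 : ℝ)).add ((hasDerivAt_q hp).mul hpoly)
    refine h2.congr_deriv ?_
    field_simp
    rw [hq]
    ring
  · exact (by fun_prop : Continuous fun u : ℝ => u ^ 6 * √(1 - u ^ 2)).intervalIntegrable _ _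

theorem zone : ∫ u in (0 : ℝ)..1, u * Real.arcsin u * √(1 - u ^ 2) = 2 / 9 := by
  have h := intervalIntegral.integral_eq_sub_of_hasDerivAt_of_le (a := 0) (b := 1)
    (f := fun u : ℝ => -(1 / 3) * (√(1 - u ^ 2) ^ 3 * Real.arcsin u) + (1 / 3 * u - 1 / 9 * u ^ 3))
    (f' := fun u : ℝ => u * Real.arcsin u * √(1 - u ^ 2)) zero_le_one ?_ ?_ ?_
  · rw [h]
    simp only [Real.arcsin_one, Real.arcsin_zero]
    norm_num
  · have : Continuous fun u : ℝ =>
        -(1 / 3) * (√(1 - u ^ 2) ^ 3 * Real.arcsin u) + (1 / 3 * u - 1 / 9 * u ^ 3) := by fun_prop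
    exact this.continuousOn
  · rintro u ⟨h0, h1⟩
    have hp := pos_q h0 h1
    have hq : √(1 - u ^ 2) ^ 2 = 1 - u ^ 2 := Real.sq_sqrt hp.le
    have hq0 : √(1 - u ^ 2) ≠ 0 := (Real.sqrt_pos.2 hp).ne'
    have hpoly : HasDerivAt (fun u : ℝ => 1 / 3 * u - 1 / 9 * u ^ 3)
        (1 / 3 * 1 - 1 / 9 * (3 * u ^ 2)) u := by
      have a1 := (hasDerivAt_id' u).const_mul (1 / 3 : ℝ)
      have a2 := (hasDerivAt_pow 3 u).const_mul (1 / 9 : ℝ)
      refine (a1.sub a2).congr_deriv ?_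
      norm_num
    have h2 := ((((hasDerivAt_q hp).pow 3).mul (hasDerivAt_as h0 h1)).const_mul
      (-(1 / 3) : ℝ)).add hpoly
    refine h2.congr_deriv ?_
    simp only [Pi.pow_apply]
    field_simp
    have h4 : √(1 - u ^ 2) ^ 3 = (1 - u ^ 2) * √(1 - u ^ 2) := by rw [pow_succ, hq]
    simp only [hq, h4]
    ring
  · exact (by fun_prop : Continuous fun u : ℝ =>
      u * Real.arcsin u * √(1 - u ^ 2)).intervalIntegrable _ _

/-! ### The integral `J` -/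

theorem pos_sw {s w : ℝ} (hs0 : 0 < s) (hs1 : s < 1) (h0 : 0 ≤ w) (h1 : w ≤ 1) :
    0 < 1 - (s * w) ^ 2 := by
  have h2 : 0 ≤ s * w := by positivity
  have h3 : s * w < 1 := by nlinarith
  nlinarith

theorem contOn_inv {s : ℝ} (hs0 : 0 < s) (hs1 : s < 1) :
    ContinuousOn (fun w : ℝ => (√(1 - (s * w) ^ 2))⁻¹) (Icc 0 1) := by
  refine ContinuousOn.inv₀ (by fun_prop) ?_
  rintro w ⟨h0, h1⟩
  exact (Real.sqrt_pos.2 (pos_sw hs0 hs1 h0 h1)).ne'

theorem ii_of {f : ℝ → ℝ} (hf : ContinuousOn f (Icc 0 1)) : IntervalIntegrable f volume 0 1 := by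
  refine ContinuousOn.intervalIntegrable ?_
  rwa [uIcc_of_le zero_le_one]

theorem J_eq {s : ℝ} (hs0 : 0 < s) (hs1 : s < 1) :
    ∫ w in (0 : ℝ)..1, (1 - w ^ 2) * ((√(1 - (s * w) ^ 2))⁻¹) ^ 3 =
      Real.arcsin s / s ^ 3 - √(1 - s ^ 2) / s ^ 2 := by
  have hs2 : 0 < 1 - s ^ 2 := by nlinarith
  have h := intervalIntegral.integral_eq_sub_of_hasDerivAt_of_le (a := 0) (b := 1)
    (f := fun w : ℝ => (1 - 1 / s ^ 2) * (w * (√(1 - (s * w) ^ 2))⁻¹) +
      1 / s ^ 3 * Real.arcsin (s * w))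
    (f' := fun w : ℝ => (1 - w ^ 2) * ((√(1 - (s * w) ^ 2))⁻¹) ^ 3) zero_le_one ?_ ?_ ?_
  · rw [h]
    have hq : √(1 - s ^ 2) ^ 2 = 1 - s ^ 2 := Real.sq_sqrt hs2.le
    have hq0 : √(1 - s ^ 2) ≠ 0 := (Real.sqrt_pos.2 hs2).ne'
    simp only [mul_one, mul_zero, zero_mul, Real.arcsin_zero, sub_zero, add_zero, one_mul]
    field_simp
    linear_combination s * hq
  · refine ContinuousOn.add (continuousOn_const.mul (continuousOn_id.mul (contOn_inv hs0 hs1))) ?_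
    exact (by fun_prop : Continuous fun w : ℝ => 1 / s ^ 3 * Real.arcsin (s * w)).continuousOn
  · rintro w ⟨h0, h1⟩
    have hp := pos_sw hs0 hs1 h0.le h1.le
    have hq : √(1 - (s * w) ^ 2) ^ 2 = 1 - (s * w) ^ 2 := Real.sq_sqrt hp.le
    have hq0 : √(1 - (s * w) ^ 2) ≠ 0 := (Real.sqrt_pos.2 hp).ne'
    have hsw0 : 0 < s * w := by positivity
    have hsw1 : s * w < 1 := by nlinarith
    have a1 : HasDerivAt (fun w : ℝ => s * w) (s * 1) w := (hasDerivAt_id' w).const_mul s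
    have a2 : HasDerivAt (fun w : ℝ => √(1 - (s * w) ^ 2))
        (-(s * w / √(1 - (s * w) ^ 2)) * (s * 1)) w :=
      HasDerivAt.comp w (h₂ := fun u : ℝ => √(1 - u ^ 2)) (hasDerivAt_q hp) a1
    have a3 : HasDerivAt (fun w : ℝ => Real.arcsin (s * w))
        (1 / √(1 - (s * w) ^ 2) * (s * 1)) w :=
      HasDerivAt.comp w (h₂ := Real.arcsin) (hasDerivAt_as hsw0 hsw1) a1
    have a4 : HasDerivAt (fun w : ℝ => (√(1 - (s * w) ^ 2))⁻¹)
        (-(-(s * w / √(1 - (s * w) ^ 2)) * (s * 1)) / √(1 - (s * w) ^ 2) ^ 2) w := a2.inv hq0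
    have h2 := (((hasDerivAt_id' w).mul a4).const_mul (1 - 1 / s ^ 2)).add
      (a3.const_mul (1 / s ^ 3))
    refine h2.congr_deriv ?_
    generalize √(1 - (s * w) ^ 2) = q at hq hq0
    field_simp
    linear_combination s ^ 2 * hq
  · refine ii_of (ContinuousOn.mul (by fun_prop) ((contOn_inv hs0 hs1).pow 3))

/-- the integral which is not needed explicitly -/
noncomputable def KK (s : ℝ) : ℝ := ∫ w in (0 : ℝ)..1, ((√(1 - (s * w) ^ 2))⁻¹) ^ 3

theorem JJ_ge (h2 : S_JJ3) {s t : ℝ} (hs0 : 0 < s) (hs1 : s < 1) (ht0 : 0 < t) (ht1 : t < 1) :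
    8 * Real.pi / 3 * (Real.arcsin s / s ^ 3 - √(1 - s ^ 2) / s ^ 2 - (1 - t ^ 2) * KK s) ≤
      JJ 3 s t := by
  rw [h2 s t hs0 hs1 ht0 ht1]
  refine mul_le_mul_of_nonneg_left ?_ (by positivity)
  rw [← J_eq hs0 hs1, KK, ← intervalIntegral.integral_const_mul,
    ← intervalIntegral.integral_sub]
  · refine intervalIntegral.integral_mono_on zero_le_one ?_ ?_ ?_
    · refine ii_of (ContinuousOn.sub (ContinuousOn.mul (by fun_prop) ((contOn_inv hs0 hs1).pow 3))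
        (continuousOn_const.mul ((contOn_inv hs0 hs1).pow 3)))
    · refine ii_of (ContinuousOn.mul (by fun_prop) ((contOn_inv ht0 ht1).mul
        ((contOn_inv hs0 hs1).pow 3)))
    · rintro w ⟨h0, h1⟩
      have hp := pos_sw hs0 hs1 h0 h1
      have hpt := pos_sw ht0 ht1 h0 h1
      have hw : 0 ≤ 1 - w ^ 2 := by nlinarith
      have hd : 0 ≤ ((√(1 - (s * w) ^ 2))⁻¹) ^ 3 := by positivity
      rw [← sub_mul, ← mul_assoc]
      refine mul_le_mul_of_nonneg_right ?_ hd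
      set a := √(1 - w ^ 2) with ha
      set b := √(1 - (t * w) ^ 2) with hb
      have ha2 : a ^ 2 = 1 - w ^ 2 := Real.sq_sqrt hw
      have hb2 : b ^ 2 = 1 - (t * w) ^ 2 := Real.sq_sqrt hpt.le
      have ha0 : 0 ≤ a := Real.sqrt_nonneg _
      have hb0 : 0 < b := Real.sqrt_pos.2 hpt
      have hab : a ≤ b := by
        refine Real.sqrt_le_sqrt ?_
        have : (t * w) ^ 2 ≤ w ^ 2 := by
          have : t * w ≤ w := by nlinarith
          have h3 : 0 ≤ t * w := by positivity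
          nlinarith
        linarith
      rw [← div_eq_mul_inv, le_div_iff₀ hb0, ← ha2]
      -- `(a² - (1-t²)) b ≤ a³`
      have h5 : (a ^ 2 - (1 - t ^ 2)) * b ^ 2 ≤ a ^ 4 := by
        have h6 : b ^ 2 - a ^ 2 = w ^ 2 * (1 - t ^ 2) := by rw [ha2, hb2]; ring
        have h7 : 0 ≤ (1 - t ^ 2) := by nlinarith
        have h8 : a ^ 2 ≤ b ^ 2 := by nlinarith
        have h9 : w ^ 2 ≤ 1 := by nlinarith
        have h10 : a ^ 2 * (b ^ 2 - a ^ 2) ≤ (1 - t ^ 2) * b ^ 2 := by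
          rw [h6]
          have : a ^ 2 * (w ^ 2 * (1 - t ^ 2)) = (a ^ 2 * w ^ 2) * (1 - t ^ 2) := by ring
          rw [this, mul_comm (1 - t ^ 2)]
          refine mul_le_mul_of_nonneg_right ?_ h7
          calc a ^ 2 * w ^ 2 ≤ a ^ 2 * 1 := mul_le_mul_of_nonneg_left h9 (by positivity)
            _ ≤ b ^ 2 := by linarith
        nlinarith
      by_contra hc
      push Not at hc
      have h11 : a ^ 3 * b < (a ^ 2 - (1 - t ^ 2)) * b * b := by
        exact mul_lt_mul_of_pos_right hc hb0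
      have h12 : a ^ 4 ≤ a ^ 3 * b := by
        have : a ^ 4 = a ^ 3 * a := by ring
        rw [this]
        exact mul_le_mul_of_nonneg_left hab (by positivity)
      nlinarith
  · exact ii_of (ContinuousOn.mul (by fun_prop) ((contOn_inv hs0 hs1).pow 3))
  · exact (ii_of ((contOn_inv hs0 hs1).pow 3)).const_mul _

/-! ### The volume of the cap -/

theorem sig4 : (sig 4).real univ = 2 * Real.pi ^ 2 := by
  have hg : Real.Gamma (4 / 2 + 1) = 2 := by
    have : (4 / 2 + 1 : ℝ) = (2 : ℕ) + 1 := by norm_num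
    rw [this, Real.Gamma_nat_eq_factorial]
    norm_num
  unfold sig
  rw [Measure.real, Measure.toSphere_apply_univ, EuclideanSpace.volume_ball]
  simp only [finrank_euclideanSpace, Fintype.card_fin, ENNReal.ofReal_one, one_pow, one_mul]
  have h4 : √Real.pi ^ 4 = Real.pi ^ 2 := by
    have : √Real.pi ^ 4 = (√Real.pi ^ 2) ^ 2 := by ring
    rw [this, Real.sq_sqrt Real.pi_pos.le]
  rw [h4]
  push_cast
  rw [hg, ENNReal.toReal_mul, ENNReal.toReal_ofReal (by positivity)]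
  norm_num
  ring

theorem capv3 {s : ℝ} (hs0 : 0 < s) (hs1 : s < 1) :
    capv 3 s = 2 * Real.pi ^ 2 * (2 / 3 - √(1 - s ^ 2) + √(1 - s ^ 2) ^ 3 / 3) := by
  have h1 := CAPS.t 3 (by norm_num) (Real.arcsin s) (Real.arcsin_pos.2 hs0)
    (Real.arcsin_lt_pi_div_two.2 hs1)
  rw [Real.sin_arcsin (by linarith) hs1.le] at h1
  rw [h1]
  have h2 : (sig (3 + 1)).real univ = 2 * Real.pi ^ 2 := sig4
  rw [h2, integral_sin_pow_three, Real.cos_arcsin, Real.cos_zero]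
  ring

/-! ### Bounds of the arcsine and the arctangent -/

theorem mono_aux {f f' : ℝ → ℝ} {b : ℝ} (hc : ContinuousOn f (Icc 0 b))
    (hd : ∀ x ∈ Ioo 0 b, HasDerivAt f (f' x) x) (hn : ∀ x ∈ Ioo 0 b, 0 ≤ f' x) {x : ℝ}
    (h0 : 0 ≤ x) (h1 : x ≤ b) : f 0 ≤ f x := by
  have hm : MonotoneOn f (Icc 0 b) := by
    refine monotoneOn_of_deriv_nonneg (convex_Icc 0 b) hc ?_ ?_
    · rw [interior_Icc]
      exact fun y hy => (hd y hy).differentiableAt.differentiableWithinAt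
    · rw [interior_Icc]
      intro y hy
      rw [(hd y hy).deriv]
      exact hn y hy
  exact hm ⟨le_rfl, h0.trans h1⟩ ⟨h0, h1⟩ h0

theorem arcsin_ge {x : ℝ} (h0 : 0 ≤ x) (h1 : x ≤ 1) : x + x ^ 3 / 6 ≤ Real.arcsin x := by
  have key := mono_aux (f := fun x : ℝ => Real.arcsin x - (x + 1 / 6 * x ^ 3))
    (f' := fun x : ℝ => 1 / √(1 - x ^ 2) - (1 + 1 / 6 * (3 * x ^ 2))) (b := 1) ?_ ?_ ?_ h0 h1
  · simp only [Real.arcsin_zero] at key
    norm_num at key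
    linarith
  · exact (by fun_prop : Continuous fun x : ℝ =>
      Real.arcsin x - (x + 1 / 6 * x ^ 3)).continuousOn
  · rintro y ⟨hy0, hy1⟩
    have a2 := (hasDerivAt_pow 3 y).const_mul (1 / 6 : ℝ)
    refine ((hasDerivAt_as hy0 hy1).sub ((hasDerivAt_id' y).add a2)).congr_deriv ?_
    norm_num
  · rintro y ⟨hy0, hy1⟩
    have hp := pos_q hy0 hy1
    have hq : √(1 - y ^ 2) ^ 2 = 1 - y ^ 2 := Real.sq_sqrt hp.le
    have hq0 : 0 < √(1 - y ^ 2) := Real.sqrt_pos.2 hp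
    rw [sub_nonneg, le_div_iff₀ hq0]
    have h5 : ((1 + 1 / 6 * (3 * y ^ 2)) * √(1 - y ^ 2)) ^ 2 ≤ 1 ^ 2 := by
      rw [mul_pow, hq]
      have : 0 ≤ y ^ 4 := by positivity
      have : 0 ≤ y ^ 6 := by positivity
      nlinarith
    exact (le_abs_self _).trans (abs_le_of_sq_le_sq h5 (by norm_num))

theorem arcsin_le {x : ℝ} (h0 : 0 ≤ x) (h1 : x ≤ 231 / 281) :
    Real.arcsin x ≤ x + x ^ 3 / 6 + 23 / 125 * x ^ 5 := by
  have key := mono_aux (f := fun x : ℝ => (x + (1 / 6 * x ^ 3 + 23 / 125 * x ^ 5)) -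
      Real.arcsin x)
    (f' := fun x : ℝ => (1 + (1 / 6 * (3 * x ^ 2) + 23 / 125 * (5 * x ^ 4))) - 1 / √(1 - x ^ 2))
    (b := 231 / 281) ?_ ?_ ?_ h0 h1
  · simp only [Real.arcsin_zero] at key
    norm_num at key
    linarith
  · exact (by fun_prop : Continuous fun x : ℝ =>
      (x + (1 / 6 * x ^ 3 + 23 / 125 * x ^ 5)) - Real.arcsin x).continuousOn
  · rintro y ⟨hy0, hy1⟩
    have a2 := (hasDerivAt_pow 3 y).const_mul (1 / 6 : ℝ)
    have a3 := (hasDerivAt_pow 5 y).const_mul (23 / 125 : ℝ)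
    refine (((hasDerivAt_id' y).add (a2.add a3)).sub
      (hasDerivAt_as hy0 (by linarith))).congr_deriv ?_
    norm_num
  · rintro y ⟨hy0, hy1⟩
    have hp := pos_q hy0 (by linarith : y < 1)
    have hq : √(1 - y ^ 2) ^ 2 = 1 - y ^ 2 := Real.sq_sqrt hp.le
    have hq0 : 0 < √(1 - y ^ 2) := Real.sqrt_pos.2 hp
    rw [sub_nonneg, div_le_iff₀ hq0]
    have h5 : 1 ^ 2 ≤ ((1 + (1 / 6 * (3 * y ^ 2) + 23 / 125 * (5 * y ^ 4))) *
        √(1 - y ^ 2)) ^ 2 := by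
      rw [mul_pow, hq]
      have hy2 : y ^ 2 ≤ (231 / 281) ^ 2 := pow_le_pow_left₀ hy0.le hy1.le 2
      have hz0 : 0 ≤ y ^ 2 := by positivity
      have e4 : y ^ 4 = (y ^ 2) ^ 2 := by ring
      rw [e4]
      generalize y ^ 2 = z at hy2 hz0
      have hz2 : z ^ 2 ≤ ((231 / 281 : ℝ) ^ 2) ^ 2 := pow_le_pow_left₀ hz0 hy2 2
      have hz3 : z ^ 3 ≤ ((231 / 281 : ℝ) ^ 2) ^ 3 := pow_le_pow_left₀ hz0 hy2 3
      have h6 : 0 ≤ z ^ 2 * ((109 / 100) - (117 / 100) * z - (46 / 625) * z ^ 2 -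
          (529 / 625) * z ^ 3) := by
        refine mul_nonneg (by positivity) ?_
        norm_num at hy2 hz2 hz3
        linarith
      nlinarith
    exact (le_abs_self _).trans (abs_le_of_sq_le_sq h5 (by positivity))

theorem arctan_ge {x : ℝ} (h0 : 0 ≤ x) :
    x - x ^ 3 / 3 + x ^ 5 / 5 - x ^ 7 / 7 + x ^ 9 / 9 - x ^ 11 / 11 ≤ Real.arctan x := by
  have key := mono_aux (f := fun x : ℝ => Real.arctan x - (x + (-(1 / 3) * x ^ 3 +
      (1 / 5 * x ^ 5 + (-(1 / 7) * x ^ 7 + (1 / 9 * x ^ 9 + -(1 / 11) * x ^ 11))))))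
    (f' := fun x : ℝ => 1 / (1 + x ^ 2) - (1 + (-(1 / 3) * (3 * x ^ 2) +
      (1 / 5 * (5 * x ^ 4) + (-(1 / 7) * (7 * x ^ 6) + (1 / 9 * (9 * x ^ 8) +
        -(1 / 11) * (11 * x ^ 10))))))) (b := x) ?_ ?_ ?_ h0 le_rfl
  · simp only [Real.arctan_zero] at key
    norm_num at key
    linarith
  · exact (by fun_prop : Continuous fun x : ℝ => Real.arctan x - (x + (-(1 / 3) * x ^ 3 +
      (1 / 5 * x ^ 5 + (-(1 / 7) * x ^ 7 + (1 / 9 * x ^ 9 + -(1 / 11) * x ^ 11)))))).continuousOn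
  · rintro y ⟨hy0, hy1⟩
    have a3 := (hasDerivAt_pow 3 y).const_mul (-(1 / 3) : ℝ)
    have a5 := (hasDerivAt_pow 5 y).const_mul (1 / 5 : ℝ)
    have a7 := (hasDerivAt_pow 7 y).const_mul (-(1 / 7) : ℝ)
    have a9 := (hasDerivAt_pow 9 y).const_mul (1 / 9 : ℝ)
    have a11 := (hasDerivAt_pow 11 y).const_mul (-(1 / 11) : ℝ)
    refine ((Real.hasDerivAt_arctan y).sub ((hasDerivAt_id' y).add
      (a3.add (a5.add (a7.add (a9.add a11)))))).congr_deriv ?_
    norm_num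
  · rintro y ⟨hy0, hy1⟩
    have hp : 0 < 1 + y ^ 2 := by positivity
    rw [sub_nonneg, le_div_iff₀ hp]
    have : 0 ≤ y ^ 12 := by positivity
    nlinarith

theorem arcsin_s : 9649 / 10000 ≤ Real.arcsin (231 / 281) := by
  have h1 : Real.arctan (11 / 21) < Real.pi / 4 := by
    rw [← Real.arctan_one]
    exact Real.arctan_strictMono (by norm_num)
  have h2 : 0 < Real.arctan (11 / 21) := Real.arctan_pos.2 (by norm_num)
  have h3 : Real.sin (2 * Real.arctan (11 / 21)) = 231 / 281 := by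
    rw [Real.sin_two_mul, Real.sin_arctan, Real.cos_arctan]
    have h4 : √(1 + (11 / 21 : ℝ) ^ 2) ^ 2 = 1 + (11 / 21) ^ 2 := Real.sq_sqrt (by positivity)
    have h5 : √(1 + (11 / 21 : ℝ) ^ 2) ≠ 0 := (Real.sqrt_pos.2 (by positivity)).ne'
    have h6 : 2 * (11 / 21 / √(1 + (11 / 21 : ℝ) ^ 2)) * (1 / √(1 + (11 / 21 : ℝ) ^ 2)) =
        22 / 21 / √(1 + (11 / 21 : ℝ) ^ 2) ^ 2 := by
      field_simp
      norm_num
    rw [h6, h4]
    norm_num
  rw [← h3, Real.arcsin_sin (by linarith) (by linarith)]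
  have h4 := arctan_ge (x := 11 / 21) (by norm_num)
  norm_num at h4 ⊢
  linarith

/-! ### Bounds of `Z` -/

/-- the function of `S_ZF3` -/
noncomputable def Z (t : ℝ) : ℝ :=
  4 / Real.pi * ∫ u in (0 : ℝ)..1, u * Real.arcsin (t * u) * √(1 - u ^ 2)

theorem Z_cont : Continuous Z := by
  unfold Z
  refine continuous_const.mul ?_
  exact intervalIntegral.continuous_parametric_intervalIntegral_of_continuous'
    (f := fun t u : ℝ => u * Real.arcsin (t * u) * √(1 - u ^ 2)) (by fun_prop) 0 1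

theorem Z_one : Z 1 = 8 / (9 * Real.pi) := by
  unfold Z
  simp only [one_mul]
  rw [zone]
  field_simp
  norm_num

theorem Z_le : Z (231 / 281) ≤ 22249 / 100000 := by
  have hpi := Real.pi_pos
  have h1 : ∫ u in (0 : ℝ)..1, u * Real.arcsin (231 / 281 * u) * √(1 - u ^ 2) ≤
      ∫ u in (0 : ℝ)..1, ((231 / 281) * (u ^ 2 * √(1 - u ^ 2)) +
        ((231 / 281) ^ 3 / 6 * (u ^ 4 * √(1 - u ^ 2)) +
          23 / 125 * (231 / 281) ^ 5 * (u ^ 6 * √(1 - u ^ 2)))) := by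
    refine intervalIntegral.integral_mono_on zero_le_one ?_ ?_ ?_
    · exact (by fun_prop : Continuous fun u : ℝ =>
        u * Real.arcsin (231 / 281 * u) * √(1 - u ^ 2)).intervalIntegrable _ _
    · exact (by fun_prop : Continuous fun u : ℝ => ((231 / 281) * (u ^ 2 * √(1 - u ^ 2)) +
        ((231 / 281) ^ 3 / 6 * (u ^ 4 * √(1 - u ^ 2)) +
          23 / 125 * (231 / 281) ^ 5 * (u ^ 6 * √(1 - u ^ 2))))).intervalIntegrable _ _
    · rintro u ⟨h0, h1⟩
      have h2 := arcsin_le (x := 231 / 281 * u) (by positivity) (by linarith)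
      have h3 : 0 ≤ √(1 - u ^ 2) := Real.sqrt_nonneg _
      calc u * Real.arcsin (231 / 281 * u) * √(1 - u ^ 2)
          ≤ u * (231 / 281 * u + (231 / 281 * u) ^ 3 / 6 + 23 / 125 * (231 / 281 * u) ^ 5) *
            √(1 - u ^ 2) :=
            mul_le_mul_of_nonneg_right (mul_le_mul_of_nonneg_left h2 h0) h3
        _ = _ := by ring
  rw [intervalIntegral.integral_add, intervalIntegral.integral_add,
    intervalIntegral.integral_const_mul, intervalIntegral.integral_const_mul,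
    intervalIntegral.integral_const_mul, mom0, mom1, mom2] at h1
  · unfold Z
    calc 4 / Real.pi * ∫ u in (0 : ℝ)..1, u * Real.arcsin (231 / 281 * u) * √(1 - u ^ 2)
        ≤ 4 / Real.pi * (231 / 281 * (Real.pi / 16) + ((231 / 281) ^ 3 / 6 * (Real.pi / 32) +
          23 / 125 * (231 / 281) ^ 5 * (5 * Real.pi / 256))) :=
          mul_le_mul_of_nonneg_left h1 (by positivity)
      _ = 4 * (231 / 281 * (1 / 16) + ((231 / 281) ^ 3 / 6 * (1 / 32) +
          23 / 125 * (231 / 281) ^ 5 * (5 / 256))) := by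
          field_simp
      _ ≤ 22249 / 100000 := by norm_num
  · exact (by fun_prop : Continuous fun u : ℝ =>
      (231 / 281) ^ 3 / 6 * (u ^ 4 * √(1 - u ^ 2))).intervalIntegrable _ _
  · exact (by fun_prop : Continuous fun u : ℝ =>
      23 / 125 * (231 / 281) ^ 5 * (u ^ 6 * √(1 - u ^ 2))).intervalIntegrable _ _
  · exact (by fun_prop : Continuous fun u : ℝ =>
      (231 / 281) * (u ^ 2 * √(1 - u ^ 2))).intervalIntegrable _ _
  · exact (by fun_prop : Continuous fun u : ℝ =>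
      ((231 / 281) ^ 3 / 6 * (u ^ 4 * √(1 - u ^ 2)) +
          23 / 125 * (231 / 281) ^ 5 * (u ^ 6 * √(1 - u ^ 2)))).intervalIntegrable _ _

theorem Z_ge : 21708 / 100000 ≤ Z (231 / 281) := by
  have hpi := Real.pi_pos
  have h1 : ∫ u in (0 : ℝ)..1, ((231 / 281) * (u ^ 2 * √(1 - u ^ 2)) +
        (231 / 281) ^ 3 / 6 * (u ^ 4 * √(1 - u ^ 2))) ≤
      ∫ u in (0 : ℝ)..1, u * Real.arcsin (231 / 281 * u) * √(1 - u ^ 2) := by
    refine intervalIntegral.integral_mono_on zero_le_one ?_ ?_ ?_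
    · exact (by fun_prop : Continuous fun u : ℝ => ((231 / 281) * (u ^ 2 * √(1 - u ^ 2)) +
        (231 / 281) ^ 3 / 6 * (u ^ 4 * √(1 - u ^ 2)))).intervalIntegrable _ _
    · exact (by fun_prop : Continuous fun u : ℝ =>
        u * Real.arcsin (231 / 281 * u) * √(1 - u ^ 2)).intervalIntegrable _ _
    · rintro u ⟨h0, h1⟩
      have h2 := arcsin_ge (x := 231 / 281 * u) (by positivity) (by linarith)
      have h3 : 0 ≤ √(1 - u ^ 2) := Real.sqrt_nonneg _
      calc _ = u * (231 / 281 * u + (231 / 281 * u) ^ 3 / 6) * √(1 - u ^ 2) := by ring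
        _ ≤ u * Real.arcsin (231 / 281 * u) * √(1 - u ^ 2) :=
            mul_le_mul_of_nonneg_right (mul_le_mul_of_nonneg_left h2 h0) h3
  rw [intervalIntegral.integral_add,
    intervalIntegral.integral_const_mul, intervalIntegral.integral_const_mul,
    mom0, mom1] at h1
  · unfold Z
    calc (21708 / 100000 : ℝ) ≤ 4 * (231 / 281 * (1 / 16) + (231 / 281) ^ 3 / 6 * (1 / 32)) := by
          norm_num
      _ = 4 / Real.pi * (231 / 281 * (Real.pi / 16) + (231 / 281) ^ 3 / 6 * (Real.pi / 32)) := by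
          field_simp
      _ ≤ _ := mul_le_mul_of_nonneg_left h1 (by positivity)
  · exact (by fun_prop : Continuous fun u : ℝ =>
      (231 / 281) * (u ^ 2 * √(1 - u ^ 2))).intervalIntegrable _ _
  · exact (by fun_prop : Continuous fun u : ℝ =>
      ((231 / 281) ^ 3 / 6 * (u ^ 4 * √(1 - u ^ 2)))).intervalIntegrable _ _

/-! ### The final estimate -/

theorem sqrt_c : √(1 - (231 / 281 : ℝ) ^ 2) = 160 / 281 := by
  rw [show (1 - (231 / 281 : ℝ) ^ 2) = (160 / 281) ^ 2 by norm_num]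
  exact Real.sqrt_sq (by norm_num)

/-- the polynomial in `q = 8 / (9 z)` -/
theorem poly_ge {q : ℝ} (h0 : 399 / 100 ≤ q) (h1 : q ≤ 41 / 10) :
    95 ≤ 32 / 3 * (9649 / 10000 - 160 / 281 * (231 / 281)) * q ^ 3 -
      2 * (2 - 3 * (160 / 281) + (160 / 281) ^ 3) * q ^ 4 := by
  have e : 32 / 3 * (9649 / 10000 - 160 / 281 * (231 / 281)) * q ^ 3 -
      2 * (2 - 3 * (160 / 281) + (160 / 281) ^ 3) * q ^ 4 - 95 =
      (32 / 3 * (9649 / 10000 - 160 / 281 * (231 / 281)) * (399 / 100 : ℝ) ^ 3 -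
      2 * (2 - 3 * (160 / 281) + (160 / 281) ^ 3) * (399 / 100 : ℝ) ^ 4 - 95) +
      (q - 399 / 100) * (32 / 3 * (9649 / 10000 - 160 / 281 * (231 / 281)) *
        (q ^ 2 + q * (399 / 100) + (399 / 100) ^ 2) -
        2 * (2 - 3 * (160 / 281) + (160 / 281) ^ 3) * (q + 399 / 100) *
          (q ^ 2 + (399 / 100) ^ 2)) := by ring
  have h2 : 0 ≤ (32 / 3 * (9649 / 10000 - 160 / 281 * (231 / 281)) * (399 / 100 : ℝ) ^ 3 -
      2 * (2 - 3 * (160 / 281) + (160 / 281) ^ 3) * (399 / 100 : ℝ) ^ 4 - 95) := by norm_num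
  have h3 : 0 ≤ 32 / 3 * (9649 / 10000 - 160 / 281 * (231 / 281)) *
        (q ^ 2 + q * (399 / 100) + (399 / 100) ^ 2) -
        2 * (2 - 3 * (160 / 281) + (160 / 281) ^ 3) * (q + 399 / 100) *
          (q ^ 2 + (399 / 100) ^ 2) := by
    have h4 : (q + 399 / 100) * (q ^ 2 + (399 / 100) ^ 2) ≤
        (809 / 100) * (q ^ 2 + (399 / 100) ^ 2) :=
      mul_le_mul_of_nonneg_right (by linarith) (by positivity)
    have h5 : 0 ≤ (q - 399 / 100) * (41 / 10 - q) :=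
      mul_nonneg (by linarith) (by linarith)
    norm_num at h4 h5 ⊢
    nlinarith
  have h4 : 0 ≤ (q - 399 / 100) * (32 / 3 * (9649 / 10000 - 160 / 281 * (231 / 281)) *
        (q ^ 2 + q * (399 / 100) + (399 / 100) ^ 2) -
        2 * (2 - 3 * (160 / 281) + (160 / 281) ^ 3) * (q + 399 / 100) *
          (q ^ 2 + (399 / 100) ^ 2)) := mul_nonneg (by linarith) h3
  linarith

theorem pi4 : 73 / 75 * Real.pi ^ 4 < 95 := by
  have h1 : Real.pi < 3.1416 := Real.pi_lt_d4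
  have h2 : Real.pi ^ 4 < 3.1416 ^ 4 := pow_lt_pow_left₀ h1 Real.pi_pos.le (by norm_num)
  norm_num at h2 ⊢
  linarith

/-- the lower bound of `low` -/
noncomputable def Gt (t : ℝ) : ℝ :=
  4 * (231 / 281) ^ 3 * t * (8 * Real.pi / 3 *
    (Real.arcsin (231 / 281) / (231 / 281) ^ 3 - √(1 - (231 / 281) ^ 2) / (231 / 281) ^ 2 -
      (1 - t ^ 2) * KK (231 / 281))) * (Z t / Z (231 / 281)) ^ 3 -
    3 * (Z t / Z (231 / 281)) ^ 4 * capv 3 (231 / 281)

theorem Gt_cont : Continuous Gt := by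
  have h := Z_cont
  unfold Gt
  fun_prop

theorem Gt_one : 73 / 100 * (4 * Real.pi ^ 2 / 3) < Gt 1 := by
  have hpi := Real.pi_pos
  have hz0 := Z_ge
  have hz1 := Z_le
  have hr := arcsin_s
  unfold Gt
  rw [Z_one, capv3 (by norm_num) (by norm_num), sqrt_c]
  generalize Z (231 / 281) = z at hz0 hz1
  have hzp : 0 < z := by linarith
  generalize Real.arcsin (231 / 281) = r at hr
  set q : ℝ := 8 / (9 * z) with hq
  have hq0 : 399 / 100 ≤ q := by
    rw [hq, le_div_iff₀ (by positivity)]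
    linarith
  have hq1 : q ≤ 41 / 10 := by
    rw [hq, div_le_iff₀ (by positivity)]
    linarith
  have hR : 8 / (9 * Real.pi) / z = q / Real.pi := by
    rw [hq]
    field_simp
  rw [hR]
  have h1 := poly_ge hq0 hq1
  have h2 := pi4
  have hq3 : 0 < q ^ 3 := by positivity
  have h3 : 32 / 3 * (9649 / 10000 - 160 / 281 * (231 / 281)) * q ^ 3 ≤
      32 / 3 * (r - 160 / 281 * (231 / 281)) * q ^ 3 :=
    mul_le_mul_of_nonneg_right (by linarith) hq3.le
  have h4 : 73 / 75 * Real.pi ^ 4 < 32 / 3 * (r - 160 / 281 * (231 / 281)) * q ^ 3 -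
      2 * (2 - 3 * (160 / 281) + (160 / 281) ^ 3) * q ^ 4 := by linarith
  have e1 : 4 * (231 / 281) ^ 3 * 1 * (8 * Real.pi / 3 *
    (r / (231 / 281) ^ 3 - 160 / 281 / (231 / 281) ^ 2 -
      (1 - 1 ^ 2) * KK (231 / 281))) * (q / Real.pi) ^ 3 -
    3 * (q / Real.pi) ^ 4 * (2 * Real.pi ^ 2 * (2 / 3 - 160 / 281 + (160 / 281) ^ 3 / 3)) =
      (32 / 3 * (r - 160 / 281 * (231 / 281)) * q ^ 3 -
      2 * (2 - 3 * (160 / 281) + (160 / 281) ^ 3) * q ^ 4) / Real.pi ^ 2 := by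
    field_simp
    ring
  rw [e1, lt_div_iff₀ (by positivity)]
  have e2 : 73 / 100 * (4 * Real.pi ^ 2 / 3) * Real.pi ^ 2 = 73 / 75 * Real.pi ^ 4 := by ring
  rw [e2]
  exact h4

/-- LO3 -/
theorem main (h1 : S_ZF3) (h2 : S_JJ3) : S_LO3 := by
  have hzf : ∀ t, 0 < t → t ≤ 1 → zf 3 t = Z t := fun t a b => h1 t a b
  have hs0 : (0 : ℝ) < 231 / 281 := by norm_num
  have hs1 : (231 / 281 : ℝ) < 1 := by norm_num
  have ev1 : ∀ᶠ t in 𝓝[<] (1 : ℝ), 73 / 100 * (4 * Real.pi ^ 2 / 3) < Gt t :=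
    (Gt_cont.tendsto 1).mono_left nhdsWithin_le_nhds (lt_mem_nhds Gt_one)
  have hZ1 : 0 < Z 1 := by
    rw [Z_one]
    have := Real.pi_pos
    positivity
  have ev2 : ∀ᶠ t in 𝓝[<] (1 : ℝ), 0 < Z t :=
    (Z_cont.tendsto 1).mono_left nhdsWithin_le_nhds (lt_mem_nhds hZ1)
  have ev3 : ∀ᶠ t in 𝓝[<] (1 : ℝ), t ∈ Ioo 0 (1 : ℝ) := Ioo_mem_nhdsLT (by norm_num)
  obtain ⟨t, hG, hZt, ht0, ht1⟩ := (ev1.and (ev2.and ev3)).exists
  have hZs : 0 < Z (231 / 281) := by linarith [Z_ge]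
  have hR0 : 0 < Z t / Z (231 / 281) := div_pos hZt hZs
  refine ⟨231 / 281, t, Z t / Z (231 / 281), by norm_num, ⟨hs0, hs1, ht0, ht1, hR0, ?_⟩, ?_⟩
  · rw [hzf t ht0 ht1.le, hzf _ hs0 hs1.le]
    field_simp
  · refine hG.le.trans ?_
    have hJ := JJ_ge h2 hs0 hs1 ht0 ht1
    unfold Gt low
    generalize Z t / Z (231 / 281) = R at hR0
    have e : R ^ (3 + 1) * ((((3 : ℕ) : ℝ) + 1) * (231 / 281) ^ 3 * (t / R) * JJ 3 (231 / 281) t -
        ((3 : ℕ) : ℝ) * capv 3 (231 / 281)) =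
        4 * (231 / 281) ^ 3 * t * JJ 3 (231 / 281) t * R ^ 3 -
          3 * R ^ 4 * capv 3 (231 / 281) := by
      push_cast
      field_simp
      ring
    rw [e]
    have h5 : 4 * (231 / 281) ^ 3 * t * (8 * Real.pi / 3 *
        (Real.arcsin (231 / 281) / (231 / 281) ^ 3 - √(1 - (231 / 281) ^ 2) / (231 / 281) ^ 2 -
        (1 - t ^ 2) * KK (231 / 281))) * R ^ 3 ≤
        4 * (231 / 281) ^ 3 * t * JJ 3 (231 / 281) t * R ^ 3 :=
      mul_le_mul_of_nonneg_right (mul_le_mul_of_nonneg_left hJ (by positivity)) (by positivity)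
    linarith

end Pool.Agent.N985.FBLO3
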