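import Mathlib
import Pool.Agent.N985.Cap4

/-!
# The static potential
-/

open MeasureTheory Matrix Filter
open scoped Matrix.Norms.Frobenius ContDiff Topology
open Pool.Agent.H906R3.YM hiding Pl
open Pool.Agent.W793.YM Pool.Agent.TH618.YM Pool.Agent.Y14 Pool.Agent.R990

namespace Pool.Agent.N985

set_option linter.unusedSectionVars false
set_option linter.unusedVariables false

noncomputable section

/-- nonnegative concave sequences -/
lemma conc_lim {P : ℕ → ℝ} (h0 : ∀ R, 0 ≤ P R) (hc : ∀ R, P R + P (R + 2) ≤ 2 * P (R + 1)) :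
    Monotone P ∧ ∃ σ, 0 ≤ σ ∧ Tendsto (fun R : ℕ => P R / R) atTop (𝓝 σ) := by
  obtain ⟨D, hD⟩ : ∃ D : ℕ → ℝ, D = fun R => P (R + 1) - P R := ⟨_, rfl⟩
  have hanti : Antitone D := antitone_nat_of_succ_le fun n => by
    rw [hD]
    have := hc n
    simp only
    have e : n + 1 + 1 = n + 2 := rfl
    rw [e]
    linarith
  have hD0 : ∀ m, 0 ≤ D m := by
    intro m
    by_contra hlt
    push Not at hlt
    have h1 : ∀ i : ℕ, P (m + i) ≤ P m + i * D m := by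
      intro i
      induction i with
      | zero => simp
      | succ i ih =>
        have h2 : P (m + i + 1) = P (m + i) + D (m + i) := by rw [hD]; ring
        have h3 := hanti (Nat.le_add_right m i)
        rw [← add_assoc, h2]
        push_cast
        linarith
    obtain ⟨i, hi⟩ := exists_nat_gt (P m / -D m)
    have h2 := h1 i
    have h3 := h0 (m + i)
    rw [div_lt_iff₀ (by linarith)] at hi
    linarith
  refine ⟨monotone_nat_of_le_succ fun n => ?_, ⨅ n, D n, le_ciInf hD0, ?_⟩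
  · have := hD0 n
    rw [hD] at this
    simp only at this
    linarith
  have h1 : Tendsto D atTop (𝓝 (⨅ n, D n)) :=
    tendsto_atTop_ciInf hanti ⟨0, by rintro _ ⟨n, rfl⟩; exact hD0 n⟩
  have h2 := h1.cesaro
  have h3 : ∀ n : ℕ, ∑ i ∈ Finset.range n, D i = P n - P 0 := by
    intro n
    rw [hD]
    exact Finset.sum_range_sub P n
  have h4 : Tendsto (fun n : ℕ => P 0 * (n : ℝ)⁻¹ + (n : ℝ)⁻¹ * ∑ i ∈ Finset.range n, D i)
      atTop (𝓝 (P 0 * 0 + ⨅ n, D n)) :=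
    ((tendsto_inv_atTop_nhds_zero_nat (𝕜 := ℝ)).const_mul _).add h2
  rw [mul_zero, zero_add] at h4
  refine h4.congr fun n => ?_
  rw [h3]
  ring

variable {G : Type*} [Group G] [TopologicalSpace G] [IsTopologicalGroup G] [CompactSpace G]
  [SecondCountableTopology G] [MeasurableSpace G] [BorelSpace G] {μ : Measure G}
  [IsProbabilityMeasure μ] [μ.IsMulLeftInvariant] [μ.IsMulRightInvariant] [μ.IsInvInvariant]
  {N n : ℕ} {L : LD G N n} {d : ℕ} {β : ℝ} {E : ((Ez d → G) → ℝ) → ℝ}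
  {k : ℕ} {dr : Bool → Fin d} {τ τ0 : Fin d}

variable (L E) in
/-- the energies of the static sources -/
def En (τ τ0 : Fin d) (R : ℕ) : Set ℝ := {e | ∃ α : List (Stp d), Nos τ0 α ∧ Pst τ α ∧
  ∃ K, 0 < K ∧ ∀ m : ℕ, K * Real.exp (-(e * m)) ≤ WL L E τ τ0 α R m}

section

variable (hE : IV μ L β E)
include hE

/-- log-convexity in the distance -/
lemma WL_lcR (hβ : 0 ≤ β) (ht : τ ≠ τ0) {α : List (Stp d)} (h1 : Nos τ0 α) (R m : ℕ) :
    WL L E τ τ0 α (R + 1) m ^ 2 ≤ WL L E τ τ0 α R m * WL L E τ τ0 α (R + 2) m := by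
  obtain ⟨w, hwd⟩ : ∃ w, w = qw τ α m := ⟨_, rfl⟩
  have hw : Nos τ0 w := by rw [hwd]; exact qw_n ht h1 m
  have hy' : ∀ u : Unit, (fun _ : Unit => (0 : Fin d → ℤ) + dw w) u τ0 = 0 := fun _ => by
    show ((0 : Fin d → ℤ) + dw w) τ0 = 0
    rw [Pi.add_apply, dw_nos hw]
    rfl
  have hy0 : ∀ u : Unit, (fun _ : Unit => (0 : Fin d → ℤ)) u τ0 = 0 := fun _ => rfl
  have key : ∀ R : ℕ, (FF hE τ0 (fun _ : Unit => (0 : Fin d → ℤ)) (fun _ => 0 + dw w)).f
      (qo (L := L) τ0 hw rfl rfl) (((TL hy0 hy')^[R]) (qo (L := L) τ0 hw rfl rfl)) =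
      WL L E τ τ0 α R m := by
    intro R
    unfold WL
    rw [FF_apply]
    unfold sf
    refine congrArg E (funext fun V => ?_)
    unfold ipb
    rw [Fintype.sum_unique, Fintype.sum_unique, TL_iter]
    have e3 : (qo (L := L) τ0 hw (y := 0) rfl rfl).1 (rf τ0 V) =
        (qo (L := L) τ0 hw (y := 0) rfl rfl).1 V := by
      ext1 u v
      rw [qo_apply, qo_apply]
      congr 1
      exact rf_HP hE (tw_nos hw rfl) V
    rw [e3, qo_apply, qo_apply, ← L.rho_inv, ← map_mul, ← map_mul, ip_rho, ← hwd]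
    unfold wl
    rw [tw_sh]
    congr 1
    group
  have h2 := (FF hE τ0 (fun _ : Unit => (0 : Fin d → ℤ)) (fun _ => 0 + dw w)).pw_lc
    (T := TL (L := L) hy0 hy') (fun x x' => TL_s hE _ _ x x') (fun x => TL_p hE hβ _ _ x)
    (qo (L := L) τ0 hw rfl rfl) R
  rw [key, key, key] at h2
  exact h2

lemma WL_le (α : List (Stp d)) (R m : ℕ) : WL L E τ τ0 α R m ≤ N := by
  unfold WL
  rw [← hE.const (N : ℝ)]
  exact hE.mono (wl_cont _ _ _ _) continuous_const fun V => rt_le _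

lemma En_nonneg (R : ℕ) {e : ℝ} (he : e ∈ En L E τ τ0 R) : 0 ≤ e := by
  obtain ⟨α, _, _, K, hK, h⟩ := he
  by_contra hlt
  push Not at hlt
  have h1 : ∀ m : ℕ, K * Real.exp (-(e * m)) ≤ N := fun m => (h m).trans (WL_le hE α R m)
  have h2 : Tendsto (fun m : ℕ => K * Real.exp (-e) ^ m) atTop atTop :=
    (tendsto_pow_atTop_atTop_of_one_lt (Real.one_lt_exp_iff.2 (by linarith))).const_mul_atTop hK
  obtain ⟨m, hm⟩ := (h2.eventually_gt_atTop (N : ℝ)).exists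
  have h3 := h1 m
  have e1 : Real.exp (-(e * m)) = Real.exp (-e) ^ m := by
    rw [← Real.exp_nat_mul]
    congr 1
    ring
  rw [e1] at h3
  linarith

/-- either a lower bound or an upper bound -/
lemma En_or (hβ : 0 ≤ β) (hk : 0 < k) (h : Dirs dr τ τ0) {α : List (Stp d)} (h1 : Nos τ0 α)
    (h2 : Pst τ α) (R : ℕ) {e : ℝ} (he : e ∉ En L E τ τ0 R) :
    ∃ C, ∀ m : ℕ, WL L E τ τ0 α R m ≤ C * Real.exp (-(e * m)) := by
  by_contra hcon
  push Not at hcon
  have e1 : ∀ m : ℕ, Real.exp (-(e * m)) = Real.exp (-e) ^ m := fun m => by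
    rw [← Real.exp_nat_mul]
    congr 1
    ring
  have h3 := lc_unb (fun m => WL_nonneg hE hβ h.tt h1 R m)
    (fun m => WL_lc hE hβ hk h h1 h2 R m) (Real.exp_pos (-e)) (fun C => by
      obtain ⟨m, hm⟩ := hcon C
      exact ⟨m, by rw [← e1]; exact hm⟩)
  obtain ⟨K, hK, h4⟩ := h3
  exact he ⟨α, h1, h2, K, hK, fun m => by rw [e1]; exact h4 m⟩

/-- concavity of the static potential -/
lemma En_conc (hβ : 0 ≤ β) (hk : 0 < k) (h : Dirs dr τ τ0)
    (hne : ∀ R, (En L E τ τ0 R).Nonempty) (R : ℕ) :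
    sInf (En L E τ τ0 R) + sInf (En L E τ τ0 (R + 2)) ≤ 2 * sInf (En L E τ τ0 (R + 1)) := by
  have hb : ∀ R, BddBelow (En L E τ τ0 R) := fun R => ⟨0, fun e he => En_nonneg hE R he⟩
  have key : ∀ e ∈ En L E τ τ0 (R + 1),
      sInf (En L E τ τ0 R) + sInf (En L E τ τ0 (R + 2)) ≤ 2 * e := by
    rintro e ⟨α, a1, a2, K, hK, hlow⟩
    by_contra hlt
    push Not at hlt
    obtain ⟨s, hs⟩ : ∃ s, s = (sInf (En L E τ τ0 R) + sInf (En L E τ τ0 (R + 2)) - 2 * e) / 4 :=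
      ⟨_, rfl⟩
    have hs0 : 0 < s := by rw [hs]; linarith
    have n1 : sInf (En L E τ τ0 R) - s ∉ En L E τ τ0 R := fun hm => by
      have := csInf_le (hb R) hm
      linarith
    have n2 : sInf (En L E τ τ0 (R + 2)) - s ∉ En L E τ τ0 (R + 2) := fun hm => by
      have := csInf_le (hb (R + 2)) hm
      linarith
    obtain ⟨C1, hC1⟩ := En_or hE hβ hk h a1 a2 R n1
    obtain ⟨C2, hC2⟩ := En_or hE hβ hk h a1 a2 (R + 2) n2
    have h1 : ∀ m : ℕ, K ^ 2 * Real.exp (2 * s) ^ m ≤ C1 * C2 := by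
      intro m
      have b1 := hlow m
      have b2 := WL_lcR hE hβ h.tt a1 R m
      have b3 := hC1 m
      have b4 := hC2 m
      have b5 := WL_nonneg hE hβ h.tt a1 R m
      have b6 := WL_nonneg hE hβ h.tt a1 (R + 2) m
      have b7 := pow_le_pow_left₀ (mul_pos hK (Real.exp_pos _)).le b1 2
      have b8 := mul_le_mul b3 b4 b6 (b5.trans b3)
      have b9 := b7.trans (b2.trans b8)
      have e1 : (K * Real.exp (-(e * m))) ^ 2 = K ^ 2 * Real.exp (-(2 * e * m)) := by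
        rw [mul_pow, pow_two (Real.exp _), ← Real.exp_add]
        congr 2
        ring
      have e2 : C1 * Real.exp (-((sInf (En L E τ τ0 R) - s) * m)) *
          (C2 * Real.exp (-((sInf (En L E τ τ0 (R + 2)) - s) * m))) =
          C1 * C2 * Real.exp (-((2 * e + 2 * s) * m)) := by
        have e3 : Real.exp (-((2 * e + 2 * s) * m)) =
            Real.exp (-((sInf (En L E τ τ0 R) - s) * m)) *
              Real.exp (-((sInf (En L E τ τ0 (R + 2)) - s) * m)) := by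
          rw [← Real.exp_add]
          congr 1
          have : 2 * e + 2 * s = sInf (En L E τ τ0 R) + sInf (En L E τ τ0 (R + 2)) - 2 * s := by
            rw [hs]; ring
          rw [this]
          ring
        rw [e3]
        ring
      rw [e1, e2] at b9
      have b10 := mul_le_mul_of_nonneg_right b9 (Real.exp_pos ((2 * e + 2 * s) * m)).le
      rw [mul_assoc, mul_assoc (C1 * C2), ← Real.exp_add, ← Real.exp_add] at b10
      have e4 : -(2 * e * m) + (2 * e + 2 * s) * m = m * (2 * s) := by ring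
      rw [e4, neg_add_cancel, Real.exp_zero, mul_one, Real.exp_nat_mul] at b10
      exact b10
    have h2 : Tendsto (fun m : ℕ => K ^ 2 * Real.exp (2 * s) ^ m) atTop atTop :=
      (tendsto_pow_atTop_atTop_of_one_lt (Real.one_lt_exp_iff.2 (by linarith))).const_mul_atTop
        (pow_pos hK 2)
    obtain ⟨m, hm⟩ := (h2.eventually_gt_atTop (C1 * C2)).exists
    exact absurd (h1 m) (not_le.2 hm)
  have h1 : (sInf (En L E τ τ0 R) + sInf (En L E τ τ0 (R + 2))) / 2 ≤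
      sInf (En L E τ τ0 (R + 1)) :=
    le_csInf (hne (R + 1)) fun e he => by
      have := key e he
      linarith
  linarith

end

/-- the estimate of the rates -/
lemma rate {k : ℕ} {l κ e0 : ℝ} (hl : 0 < l) (hk : 10 ≤ k)
    (hkl : (k : ℝ)⁻¹ ≤ 2 * 10 ^ 16 * l) (hκ : 1 - (k : ℝ)⁻¹ / 10 ≤ κ)
    (he : e0 = 576 * l * ((k : ℝ)⁻¹) ^ 2 + 20 * ((k : ℝ)⁻¹) ^ 3) (R : ℕ) {e : ℝ}
    (hlt : 10 ^ 51 * l + 10 ^ 51 * l ^ 3 * R < e) :
    Real.exp (-e) < κ * (κ / (κ + e0)) ^ R := by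
  have hk0 : (0 : ℝ) < k := by exact_mod_cast (by omega : 0 < k)
  have hk10 : (10 : ℝ) ≤ k := by exact_mod_cast hk
  obtain ⟨q, hq⟩ : ∃ q : ℝ, q = (k : ℝ)⁻¹ := ⟨_, rfl⟩
  rw [← hq] at hkl hκ he
  have q0 : 0 < q := by rw [hq]; exact inv_pos.2 hk0
  have q1 : q ≤ 1 / 10 := by
    rw [hq, inv_eq_one_div]
    exact one_div_le_one_div_of_le (by norm_num) hk10
  have hκ0 : 99 / 100 ≤ κ := by linarith
  have hκp : 0 < κ := by linarith
  have he0 : 0 ≤ e0 := by rw [he]; positivity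
  have he1 : e0 ≤ 2 * 10 ^ 50 * l ^ 3 := by
    have h1 : q ^ 2 ≤ (2 * 10 ^ 16 * l) ^ 2 := pow_le_pow_left₀ q0.le hkl 2
    have h2 : q ^ 3 ≤ (2 * 10 ^ 16 * l) ^ 3 := pow_le_pow_left₀ q0.le hkl 3
    have h3 := mul_le_mul_of_nonneg_left h1 (mul_nonneg (by norm_num : (0 : ℝ) ≤ 576) hl.le)
    have h4 := mul_le_mul_of_nonneg_left h2 (by norm_num : (0 : ℝ) ≤ 20)
    rw [he]
    refine (add_le_add h3 h4).trans ?_
    have h5 : 0 < l ^ 3 := pow_pos hl 3
    have e1 : 576 * l * (2 * 10 ^ 16 * l) ^ 2 + 20 * (2 * 10 ^ 16 * l) ^ 3 =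
        (576 * (2 * 10 ^ 16) ^ 2 + 20 * (2 * 10 ^ 16) ^ 3) * l ^ 3 := by ring
    rw [e1]
    refine mul_le_mul_of_nonneg_right ?_ h5.le
    norm_num
  have hx : 0 < κ / (κ + e0) := div_pos hκp (by linarith)
  have hpos : 0 < κ * (κ / (κ + e0)) ^ R := mul_pos hκp (pow_pos hx R)
  rw [← Real.lt_log_iff_exp_lt hpos, Real.log_mul hκp.ne' (pow_pos hx R).ne', Real.log_pow]
  have h1 := Real.one_sub_inv_le_log_of_pos hκp
  have h2 := Real.one_sub_inv_le_log_of_pos hx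
  have h3 : κ⁻¹ ≤ 1 + q := by
    rw [inv_le_comm₀ hκp (by linarith), inv_eq_one_div, div_le_iff₀ (by linarith)]
    have h4 : (1 - q / 10) * (1 + q) ≤ κ * (1 + q) :=
      mul_le_mul_of_nonneg_right hκ (by linarith)
    refine le_trans ?_ h4
    nlinarith
  have h4 : (κ / (κ + e0))⁻¹ ≤ 1 + 2 * e0 := by
    rw [inv_div, div_le_iff₀ hκp]
    nlinarith
  have h5 : (R : ℝ) * (1 - (κ / (κ + e0))⁻¹) ≤ R * Real.log (κ / (κ + e0)) :=
    mul_le_mul_of_nonneg_left h2 (Nat.cast_nonneg R)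
  have h6 : -(R * (2 * e0)) ≤ (R : ℝ) * (1 - (κ / (κ + e0))⁻¹) := by
    have h7 : -(2 * e0) ≤ 1 - (κ / (κ + e0))⁻¹ := by linarith
    have h8 := mul_le_mul_of_nonneg_left h7 (Nat.cast_nonneg (α := ℝ) R)
    linarith
  have h9 : (R : ℝ) * (2 * e0) ≤ 10 ^ 51 * l ^ 3 * R := by
    have h10 : 2 * e0 ≤ 10 ^ 51 * l ^ 3 := by
      have : 0 < l ^ 3 := pow_pos hl 3
      linarith
    have h11 := mul_le_mul_of_nonneg_left h10 (Nat.cast_nonneg (α := ℝ) R)
    linarith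
  have h12 : q ≤ 10 ^ 51 * l := by
    refine hkl.trans ?_
    refine mul_le_mul_of_nonneg_right ?_ hl.le
    norm_num
  linarith

variable {μ : Measure G}
  [IsProbabilityMeasure μ] [μ.IsMulLeftInvariant] [μ.IsMulRightInvariant] [μ.IsInvInvariant]

/-- the directions -/
lemma exists_dirs (hd : 4 ≤ d) {τ τ0 : Fin d} (h : τ ≠ τ0) : ∃ dr : Bool → Fin d,
    Dirs dr τ τ0 := by
  obtain ⟨a, ha⟩ : ∃ a : Fin d, a ∉ ({τ, τ0} : Finset (Fin d)) := by
    by_contra hcon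
    push Not at hcon
    have h1 : (Finset.univ : Finset (Fin d)) ⊆ {τ, τ0} := fun x _ => hcon x
    have h2 := Finset.card_le_card h1
    rw [Finset.card_univ, Fintype.card_fin] at h2
    have h3 := Finset.card_le_two (a := τ) (b := τ0)
    omega
  obtain ⟨b, hb⟩ : ∃ b : Fin d, b ∉ ({a, τ, τ0} : Finset (Fin d)) := by
    by_contra hcon
    push Not at hcon
    have h1 : (Finset.univ : Finset (Fin d)) ⊆ {a, τ, τ0} := fun x _ => hcon x
    have h2 := Finset.card_le_card h1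
    rw [Finset.card_univ, Fintype.card_fin] at h2
    have h3 := Finset.card_le_three (a := a) (b := τ) (c := τ0)
    omega
  simp only [Finset.mem_insert, Finset.mem_singleton, not_or] at ha hb
  refine ⟨fun i => if i then b else a, ⟨fun h' => hb.1 h'.symm, fun i => ?_, fun i => ?_, h⟩⟩
  · cases i
    · exact ha.1
    · exact hb.2.1
  · cases i
    · exact ha.2
    · exact hb.2.2

/-- **the static potential at weak coupling** -/
theorem pot (hE : IV μ L β E) (hd : 4 ≤ d) (hN : 1 ≤ N) (hβ : 0 < β)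
    (hl : N / β ≤ (10 : ℝ)⁻¹ ^ 17) (ht : τ ≠ τ0) :
    (∀ (R : ℕ) (e : ℝ), 10 ^ 51 * (N / β) + 10 ^ 51 * (N / β) ^ 3 * R < e →
      e ∈ En L E τ τ0 R) ∧
    ∀ R, sInf (En L E τ τ0 R) + sInf (En L E τ τ0 (R + 2)) ≤ 2 * sInf (En L E τ τ0 (R + 1)) := by
  obtain ⟨dr, h⟩ := exists_dirs hd ht
  have hN0 : (0 : ℝ) < N := by exact_mod_cast hN
  obtain ⟨l, hld⟩ : ∃ l : ℝ, l = N / β := ⟨_, rfl⟩
  have hl0 : 0 < l := by rw [hld]; exact div_pos hN0 hβ
  rw [← hld] at hl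
  obtain ⟨x, hx⟩ : ∃ x : ℝ, x = (10 : ℝ)⁻¹ ^ 16 / l := ⟨_, rfl⟩
  have hx10 : 10 ≤ x := by
    rw [hx, le_div_iff₀ hl0]
    refine (mul_le_mul_of_nonneg_left hl (by norm_num)).trans ?_
    norm_num
  obtain ⟨k, hkd⟩ : ∃ k, k = ⌊x⌋₊ := ⟨_, rfl⟩
  have hkx : (k : ℝ) ≤ x := by rw [hkd]; exact Nat.floor_le (by linarith)
  have hxk : x < k + 1 := by rw [hkd]; exact Nat.lt_floor_add_one _
  have hk10 : 10 ≤ k := by
    rw [hkd]
    exact Nat.le_floor (by exact_mod_cast hx10)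
  have hk0 : (0 : ℝ) < k := by exact_mod_cast (by omega : 0 < k)
  have hk10' : (10 : ℝ) ≤ k := by exact_mod_cast hk10
  have hkl : k * (N / β) ≤ (10 : ℝ)⁻¹ ^ 16 := by
    rw [← hld]
    rw [hx, le_div_iff₀ hl0] at hkx
    exact hkx
  have hkinv : (k : ℝ)⁻¹ ≤ 2 * 10 ^ 16 * l := by
    rw [inv_le_iff_one_le_mul₀ hk0]
    have h1 : x ≤ 2 * k := by linarith
    rw [hx, div_le_iff₀ hl0] at h1
    have h2 := mul_le_mul_of_nonneg_left h1 (show (0 : ℝ) ≤ 10 ^ 16 by norm_num)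
    have e1 : (10 : ℝ) ^ 16 * (10 : ℝ)⁻¹ ^ 16 = 1 := by norm_num
    rw [e1] at h2
    refine h2.trans (le_of_eq ?_)
    ring
  obtain ⟨κ, hκ, hcaps⟩ := caps (k := k) hE hd hN hβ h hk10 hkl
  have hmem : ∀ (R : ℕ) (e : ℝ), 10 ^ 51 * (N / β) + 10 ^ 51 * (N / β) ^ 3 * R < e →
      e ∈ En L E τ τ0 R := by
    intro R e he
    rw [← hld] at he
    have h1 := rate hl0 hk10 hkinv hκ (e0 := er N k β) (by unfold er; rw [hld]) R he
    obtain ⟨α, a1, a2, K, hK, h2⟩ := hcaps R (Real.exp (-e)) (Real.exp_pos _) h1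
    refine ⟨α, a1, a2, K, hK, fun m => ?_⟩
    have e1 : Real.exp (-(e * m)) = Real.exp (-e) ^ m := by
      rw [← Real.exp_nat_mul]
      congr 1
      ring
    rw [e1]
    exact h2 m
  refine ⟨hmem, fun R => ?_⟩
  exact En_conc hE hβ.le (by omega : 0 < k) h (fun R => ⟨_, hmem R _ (lt_add_one _)⟩) R

end

end Pool.Agent.N985
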